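import Pool.Agent.RZ.RCG.CuA
import Pool.Agent.RZ.RCN.Ident

/-! The exact identity for the pair probabilities, version with an integrable bound of the costs
(MP_73ccd0_lc, route M). -/

namespace Pool.Agent.RZ.RCN

open Set Finset MeasureTheory Pool.Agent.RZ.RCRSHalf Pool.Agent.RZ.RCG

set_option linter.unusedSectionVars false

variable {V : Type*} [Fintype V] [DecidableEq V]
variable {h : ℝ → V → V → ℝ} {H : V → V → ℝ → ℝ}

/-- the cost of the pair `a`, `b` -/
noncomputable def cst (h : ℝ → V → V → ℝ) (a b : V) (s : ℝ) : ℝ :=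
  ∑ c ∈ ({a, b} : Finset V)ᶜ,
    (dE h a c s * (rho h a b c s - 1) + dE h b c s * (rho h b a c s - 1))

/-- the exact derivative -/
theorem pair_deriv (hh : Haz h H) {a b : V} (hab : a ≠ b) {r : ℝ} (hr1 : r ∈ Icc (0 : ℝ) 1)
    (hp : 0 < pp h a b r) (hpos' : ∀ c, h r a c ≠ 0 → 0 < pp h a c r)
    (hpos'' : ∀ c, h r b c ≠ 0 → 0 < pp h b c r)
    {E E' : ℝ → ℝ} (hE : HasDerivAt E (dE h a b r) r) (hE' : HasDerivAt E' (dE h b a r) r) :
    HasDerivAt (fun s => (Real.log (bb h ∅ a s) + Real.log (bb h ∅ b s) + (E s + E' s))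
      - (H a b s + Real.log (pp h a b s))) (cst h a b r) r := by
  have d1 := (hh.Hd a b r).add ((pp_deriv hh hab hr1).log hp.ne')
  have d2 := (bb_deriv hh a hr1).log (bb_pos hh (Finset.notMem_empty a) hr1).ne'
  have d3 := (bb_deriv hh b hr1).log (bb_pos hh (Finset.notMem_empty b) hr1).ne'
  refine (((d2.add d3).add (hE.add hE')).sub d1).congr_deriv ?_
  have ha := bb_pos hh (Finset.notMem_empty a) hr1
  have hb := bb_pos hh (Finset.notMem_empty b) hr1
  have hsplit : ∀ {u v : V}, u ≠ v → (-∑ c, h r u c * pp h u c r) / bb h ∅ u r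
      = -(dE h u v r + ∑ c ∈ ({u, v} : Finset V)ᶜ, dE h u c r) := by
    intro u v huv
    have := Cu.sum_split' huv (fun c => h r u c * pp h u c r) (by
      show h r u u * _ = 0
      rw [hh.diag, zero_mul])
    rw [this, neg_div, add_div, Finset.sum_div]
    rfl
  have e2 : cst h a b r
      = (∑ c ∈ ({a, b} : Finset V)ᶜ, (h r a c + h r b c) * ppp h a b c r) / pp h a b r
        - ∑ c ∈ ({a, b} : Finset V)ᶜ, dE h a c r - ∑ c ∈ ({a, b} : Finset V)ᶜ, dE h b c r := by
    unfold cst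
    rw [Finset.sum_div, ← Finset.sum_sub_distrib, ← Finset.sum_sub_distrib]
    refine Finset.sum_congr rfl fun c _ => ?_
    have h1 := dE_rho hh (b := b) hr1 hp (hpos' c)
    have hpba : pp h b a r = pp h a b r := by unfold pp; rw [Finset.pair_comm]
    have h2 := dE_rho hh (a := b) (b := a) (c := c) hr1 (by rw [hpba]; exact hp)
      (hpos'' c)
    have h3 : ppp h b a c r = ppp h a b c r := by
      unfold ppp; rw [Finset.insert_comm]
    rw [h3, hpba] at h2
    have e3 : (h r a c + h r b c) * ppp h a b c r / pp h a b r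
        = h r a c * ppp h a b c r / pp h a b r + h r b c * ppp h a b c r / pp h a b r := by
      ring
    rw [e3, ← h1, ← h2]
    ring
  have hset : ({b, a} : Finset V)ᶜ = ({a, b} : Finset V)ᶜ := by rw [Finset.pair_comm]
  have s1 := hsplit hab
  have s2 := hsplit hab.symm
  rw [hset] at s2
  rw [s1, s2, e2]
  have e4 : (-(h r a b * pp h a b r
    + ∑ c ∈ ({a, b} : Finset V)ᶜ, (h r a c + h r b c) * ppp h a b c r)) / pp h a b r
    = -h r a b - (∑ c ∈ ({a, b} : Finset V)ᶜ, (h r a c + h r b c) * ppp h a b c r)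
      / pp h a b r := by
    rw [neg_div, add_div, mul_div_assoc, div_self hp.ne']
    ring
  rw [e4]
  linarith

/-- Integrated form of the identity; the bound of the costs is the sum of a derivative and of an
integrable function. -/
theorem pair_low' (hh : Haz h H) {t : ℝ} (ht : t ∈ Icc (0 : ℝ) 1) {a b : V} (hab : a ≠ b)
    (hpos : ∀ s ∈ Icc 0 t, 0 < pp h a b s)
    (hpos' : ∀ s ∈ Icc 0 t, ∀ c, h s a c ≠ 0 → 0 < pp h a c s)
    (hpos'' : ∀ s ∈ Icc 0 t, ∀ c, h s b c ≠ 0 → 0 < pp h b c s)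
    {E E' : ℝ → ℝ} (hE0 : E 0 = 0) (hE : ∀ s ∈ Icc 0 t, HasDerivAt E (dE h a b s) s)
    (hE0' : E' 0 = 0) (hE' : ∀ s ∈ Icc 0 t, HasDerivAt E' (dE h b a s) s)
    {C C' w : ℝ → ℝ} (hC0 : 0 ≤ C 0) (hC : ∀ s ∈ Icc 0 t, HasDerivAt C (C' s) s)
    (hw : IntegrableOn w (Icc 0 t))
    (hcost : ∀ s ∈ Icc 0 t, cst h a b s ≤ C' s + w s) :
    Real.log (bb h ∅ a t) + Real.log (bb h ∅ b t) + (E t + E' t)
      - (C t + ∫ s in (0 : ℝ)..t, w s) ≤ H a b t + Real.log (pp h a b t) := by
  have hd : ∀ s ∈ Icc 0 t, HasDerivAt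
      (fun s => ((Real.log (bb h ∅ a s) + Real.log (bb h ∅ b s) + (E s + E' s))
        - (H a b s + Real.log (pp h a b s))) - C s) (cst h a b s - C' s) s := fun s hs =>
    (pair_deriv hh hab ⟨hs.1, hs.2.trans ht.2⟩ (hpos s hs) (hpos' s hs) (hpos'' s hs) (hE s hs)
      (hE' s hs)).sub (hC s hs)
  have key := intervalIntegral.sub_le_integral_of_hasDeriv_right_of_le ht.1
    (fun s hs => (hd s hs).continuousAt.continuousWithinAt)
    (fun s hs => (hd s ⟨hs.1.le, hs.2.le⟩).hasDerivWithinAt) hw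
    (fun s hs => by
      have := hcost s ⟨hs.1.le, hs.2.le⟩
      linarith)
  have h0 : (0 : ℝ) ∈ Icc (0 : ℝ) 1 := ⟨le_rfl, zero_le_one⟩
  have e : pp h a b 0 = 1 := by
    unfold pp
    rw [(hh.lw ∅).pr_start, if_pos]
    rw [Finset.compl_empty]; exact Finset.subset_univ _
  simp only [hh.H0, e, bb_start hh (Finset.notMem_empty a),
    bb_start hh (Finset.notMem_empty b), Real.log_one, hE0, hE0'] at key
  linarith

end Pool.Agent.RZ.RCN
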