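import Pool.Agent.RZ.RCN.Glue
import Pool.Agent.RZ.RCN.Sig

/-! Explicit majorants of the hazards in the certified process with slack
(MP_73ccd0_lc, route M). -/

namespace Pool.Agent.RZ.RCN.K

open Set Finset MeasureTheory Pool.Agent.RZ.RCRSHalf Pool.Agent.RZ.RCG Pool.Agent.RZ.RCG.Ct

set_option linter.unusedSectionVars false

/-- `E` is a majorant of `e^{-sl}` and `S` its primitive -/
structure Hzd where
  E : ℝ → ℝ → ℝ
  S : ℝ → ℝ → ℝ
  /-- a lower bound of the hazards of the real pairs, divided by the weights -/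
  hl : ℝ → ℝ → ℝ := fun _ _ => 0
  /-- the region where `E` comes from inclusion and exclusion -/
  B : ℝ → ℝ → Prop := fun _ _ => False

structure Hzd.Ok (Z : Hzd) (sl : ℝ → ℝ → ℝ) : Prop where
  lo : ∀ x ∈ Icc (0 : ℝ) 1, ∀ t ∈ Icc (0 : ℝ) 1, Real.exp (-sl x t) ≤ Z.E x t ∨
    (Z.B x t ∧ 0 < Z.E x t)
  d : ∀ x ∈ Icc (0 : ℝ) 1, ∀ t ∈ Icc (0 : ℝ) 1, HasDerivAt (Z.S x) (Z.E x t) t
  z : ∀ x ∈ Icc (0 : ℝ) 1, Z.S x 0 = 0
  c : ∀ x ∈ Icc (0 : ℝ) 1, ContinuousOn (Z.E x) (Icc 0 1)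
  den : ∀ x ∈ Icc (0 : ℝ) 1, ∀ t ∈ Icc (0 : ℝ) 1, 0 < 1 - x * Z.S x t

/-- the rate of a real pair of weight `x` -/
noncomputable def Hzd.rr (Z : Hzd) (x t : ℝ) : ℝ := Z.E x t / (1 - x * Z.S x t)

variable {V : Type*} [Fintype V] [DecidableEq V]

/-- the majorant of the hazards -/
noncomputable def Hzd.hh (Z : Hzd) (x : V → V → ℝ) (P : V → Prop) [DecidablePred P]
    (r : ℝ) (u v : V) : ℝ :=
  if P u ∧ P v then x u v * Z.rr (x u v) r else x u v * (1 + r)⁻¹

/-- the integral of the majorant from `r` to `t` -/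
noncomputable def Hzd.Hh (Z : Hzd) (x : V → V → ℝ) (P : V → Prop) [DecidablePred P]
    (t : ℝ) (u v : V) (r : ℝ) : ℝ :=
  if P u ∧ P v then Real.log (1 - x u v * Z.S (x u v) r) - Real.log (1 - x u v * Z.S (x u v) t)
  else x u v * (Real.log (1 + t) - Real.log (1 + r))

variable {Z : Hzd} {sl : ℝ → ℝ → ℝ}
variable {x : V → V → ℝ} {P : V → Prop} [DecidablePred P]
variable {h : ℝ → V → V → ℝ} {H : V → V → ℝ → ℝ} {φ : V → V → ℝ → ℝ} {ab : ℝ → ℝ → ℝ} {t : ℝ}

theorem Hzd.Ok.E_pos (hZ : Z.Ok sl) {y : ℝ} (hy : y ∈ Icc (0 : ℝ) 1) {s : ℝ}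
    (hs : s ∈ Icc (0 : ℝ) 1) : 0 < Z.E y s := by
  rcases hZ.lo y hy s hs with h1 | h1
  · exact lt_of_lt_of_le (Real.exp_pos _) h1
  · exact h1.2

theorem Hzd.Ok.rr_pos (hZ : Z.Ok sl) {y : ℝ} (hy : y ∈ Icc (0 : ℝ) 1) {s : ℝ}
    (hs : s ∈ Icc (0 : ℝ) 1) : 0 < Z.rr y s := div_pos (hZ.E_pos hy hs) (hZ.den y hy s hs)

theorem Hzd.Ok.S_mono (hZ : Z.Ok sl) {y : ℝ} (hy : y ∈ Icc (0 : ℝ) 1) {r s : ℝ} (hr : 0 ≤ r)
    (hrs : r ≤ s) (hs : s ≤ 1) : Z.S y r ≤ Z.S y s := by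
  have key := nonneg_of_forward (a := r) (s := s)
    (U := fun z => Z.S y z - Z.S y r) (U' := fun z => Z.E y z - 0)
    (fun z hz => (hZ.d y hy z ⟨hr.trans hz.1, hz.2.trans hs⟩).sub (hasDerivAt_const _ _))
    (by simp)
    (fun z hz _ => by
      have := hZ.E_pos hy (s := z) ⟨hr.trans hz.1, hz.2.trans hs⟩
      linarith)
    s ⟨hrs, le_rfl⟩
  linarith

theorem xw_mem (hx : Wt x P 1) (u v : V) : x u v ∈ Icc (0 : ℝ) 1 :=
  ⟨hx.nonneg u v, (Finset.single_le_sum (f := fun w => x u w) (fun w _ => hx.nonneg u w)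
    (Finset.mem_univ v)).trans (hx.row u)⟩

theorem Hzd.Ok.hh_nonneg (hZ : Z.Ok sl) (hx : Wt x P 1) {r : ℝ} (hr : r ∈ Icc (0 : ℝ) 1)
    (u v : V) : 0 ≤ Z.hh x P r u v := by
  unfold Hzd.hh
  have h1 := hx.nonneg u v
  split_ifs
  · exact mul_nonneg h1 (hZ.rr_pos (xw_mem hx u v) hr).le
  · exact mul_nonneg h1 (inv_nonneg.2 (by linarith [hr.1]))

theorem Hzd.hh_symm (hx : Wt x P 1) (r : ℝ) (u v : V) : Z.hh x P r u v = Z.hh x P r v u := by
  unfold Hzd.hh
  rw [hx.symm u v]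
  by_cases hP : P u ∧ P v
  · rw [if_pos hP, if_pos hP.symm]
  · rw [if_neg hP, if_neg fun h' => hP h'.symm]

theorem Hzd.hh_zero {u v : V} (h0 : x u v = 0) (r : ℝ) : Z.hh x P r u v = 0 := by
  unfold Hzd.hh
  rw [h0]
  split_ifs <;> simp

theorem Hzd.Ok.hh_cont (hZ : Z.Ok sl) (hx : Wt x P 1) (u v : V) :
    ContinuousOn (fun r => Z.hh x P r u v) (Icc 0 1) := by
  unfold Hzd.hh
  have hm := xw_mem hx u v
  split_ifs
  · refine continuousOn_const.mul ((hZ.c _ hm).div ?_ fun s hs => (hZ.den _ hm s hs).ne')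
    exact continuousOn_const.sub (continuousOn_const.mul fun s hs =>
      (hZ.d _ hm s hs).continuousAt.continuousWithinAt)
  · refine continuousOn_const.mul (ContinuousOn.inv₀ (by fun_prop) fun s hs => ?_)
    linarith [hs.1]

theorem Hzd.Ok.Hh_deriv (hZ : Z.Ok sl) (hx : Wt x P 1) (u v : V) {r : ℝ}
    (hr : r ∈ Icc (0 : ℝ) 1) : HasDerivAt (Z.Hh x P t u v) (-Z.hh x P r u v) r := by
  have hm := xw_mem hx u v
  unfold Hzd.Hh Hzd.hh
  by_cases hP : P u ∧ P v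
  · simp only [if_pos hP]
    have h1 := (((hZ.d _ hm r hr).const_mul (x u v)).const_sub 1).log (hZ.den _ hm r hr).ne'
    refine (h1.sub_const _).congr_deriv ?_
    unfold Hzd.rr
    ring
  · simp only [if_neg hP]
    have h0 : (1 + r) ≠ 0 := by linarith [hr.1]
    have h1 := ((((hasDerivAt_id r).const_add 1).log h0).const_sub (Real.log (1 + t))).const_mul
      (x u v)
    refine h1.congr_deriv ?_
    simp only [id]
    rw [one_div]
    ring

theorem Hzd.Hh_self (u v : V) : Z.Hh x P t u v t = 0 := by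
  unfold Hzd.Hh
  split_ifs <;> simp

/-- what inclusion and exclusion gives for the real pairs -/
def Hzd.IE (Z : Hzd) (x : V → V → ℝ) (P : V → Prop) (φ : V → V → ℝ → ℝ)
    (h : ℝ → V → V → ℝ) (t : ℝ) : Prop :=
  ∀ s ∈ Icc 0 t, ∀ u v, P u → P v → x u v ≠ 0 → Z.B (x u v) s →
    φ u v s * (1 - x u v * Z.S (x u v) s) ≤ Z.E (x u v) s * pp h u v s

/-- the rate in the region of inclusion and exclusion -/
theorem Hzd.IE.le {ψ' : V → V → ℝ → ℝ} (hK : Kn x P (dn x P ψ') ab h H t)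
    (hx : Wt x P 1) (hI : Z.IE x P (dn x P ψ') h t) {s : ℝ}
    (hs : s ∈ Icc 0 t) {u v : V} (hu : P u) (hv : P v) (h0 : x u v ≠ 0)
    (hB : Z.B (x u v) s) :
    h s u v * (1 - x u v * Z.S (x u v) s) ≤ x u v * Z.E (x u v) s := by
  have k1 := hI s hs u v hu hv h0 hB
  have k3 := hK.fl s hs u v
  have k2 := mul_le_mul_of_nonneg_left k1 (hx.nonneg u v)
  refine le_of_mul_le_mul_right ?_ (hK.pos s hs u v h0)
  calc h s u v * (1 - x u v * Z.S (x u v) s) * pp h u v s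
      = h s u v * pp h u v s * (1 - x u v * Z.S (x u v) s) := by ring
    _ = x u v * (dn x P ψ' u v s * (1 - x u v * Z.S (x u v) s)) := by rw [k3]; ring
    _ ≤ x u v * (Z.E (x u v) s * pp h u v s) := k2
    _ = x u v * Z.E (x u v) s * pp h u v s := by ring

/-- the hazard under the majorant of the integrated hazard -/
theorem Hzd.Ok.haz_step (hZ : Z.Ok sl) {ψ' : V → V → ℝ → ℝ} (hK : Kn x P (dn x P ψ') ab h H t)
    (hx : Wt x P 1) (hS : Sg x P (dn x P ψ') sl h H t) (hI : Z.IE x P (dn x P ψ') h t) {s : ℝ}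
    (hs : s ∈ Icc 0 t) {u v : V} (hu : P u) (hv : P v) (h0 : x u v ≠ 0)
    (hH : 1 - x u v * Z.S (x u v) s ≤ Real.exp (-H u v s)) :
    h s u v * (1 - x u v * Z.S (x u v) s) ≤ x u v * Z.E (x u v) s := by
  have hs1 : s ∈ Icc (0 : ℝ) 1 := ⟨hs.1, hs.2.trans hK.ht.2⟩
  have hm := xw_mem hx u v
  have hh0 := hK.hh.nonneg s u v
  rcases hZ.lo _ hm s hs1 with h1 | ⟨h1, _⟩
  · have k1 := haz_sl hK hx hS hu hv h0 hs
    have k2 := mul_le_mul_of_nonneg_left hH hh0
    have k3 := mul_le_mul_of_nonneg_right k1 (Real.exp_pos (-H u v s)).le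
    have k4 : x u v * (Real.exp (H u v s) * Real.exp (-sl (x u v) s)) * Real.exp (-H u v s)
        = x u v * Real.exp (-sl (x u v) s) := by
      have : Real.exp (H u v s) * Real.exp (-H u v s) = 1 := by
        rw [← Real.exp_add, add_neg_cancel, Real.exp_zero]
      calc _ = x u v * (Real.exp (-sl (x u v) s)
            * (Real.exp (H u v s) * Real.exp (-H u v s))) := by ring
        _ = _ := by rw [this, mul_one]
    rw [k4] at k3
    have k5 := mul_le_mul_of_nonneg_left h1 hm.1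
    linarith
  · exact Hzd.IE.le hK hx hI hs hu hv h0 h1

/-- the majorant of the integrated hazard of a real pair -/
theorem Hzd.Ok.expH_le (hZ : Z.Ok sl) {ψ' : V → V → ℝ → ℝ} (hK : Kn x P (dn x P ψ') ab h H t)
    (hx : Wt x P 1) (hS : Sg x P (dn x P ψ') sl h H t) (hI : Z.IE x P (dn x P ψ') h t) {s : ℝ}
    (hs : s ∈ Icc 0 t) {u v : V} (hu : P u) (hv : P v) (h0 : x u v ≠ 0) :
    1 - x u v * Z.S (x u v) s ≤ Real.exp (-H u v s) := by
  have hm := xw_mem hx u v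
  have key := nonneg_of_forward (a := 0) (s := t)
    (U := fun s => Real.exp (-H u v s) - (1 - x u v * Z.S (x u v) s))
    (U' := fun s => Real.exp (-H u v s) * (-h s u v) - (0 - x u v * Z.E (x u v) s))
    (fun r hr => by
      have hr1 : r ∈ Icc (0 : ℝ) 1 := ⟨hr.1, hr.2.trans hK.ht.2⟩
      have d1 : HasDerivAt (fun s => Real.exp (-H u v s))
          (Real.exp (-H u v r) * (-h r u v)) r := ((hK.hh.Hd u v r).neg).exp
      have d2 := ((hZ.d _ hm r hr1).const_mul (x u v)).const_sub 1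
      refine (d1.sub d2).congr_deriv ?_
      ring)
    (by
      have := hZ.z _ hm
      simp only [hK.hh.H0, neg_zero, Real.exp_zero, this]
      linarith)
    (fun r hr hlt => by
      have hr1 : r ∈ Icc (0 : ℝ) 1 := ⟨hr.1, hr.2.trans hK.ht.2⟩
      have hh0 := hK.hh.nonneg r u v
      have hd := hZ.den _ hm r hr1
      have goal : h r u v * Real.exp (-H u v r) ≤ x u v * Z.E (x u v) r := by
        rcases hZ.lo _ hm r hr1 with h1 | ⟨h1, _⟩
        · have k1 := haz_sl hK hx hS hu hv h0 hr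
          have k3 := mul_le_mul_of_nonneg_right k1 (Real.exp_pos (-H u v r)).le
          have k4 : x u v * (Real.exp (H u v r) * Real.exp (-sl (x u v) r))
              * Real.exp (-H u v r) = x u v * Real.exp (-sl (x u v) r) := by
            have : Real.exp (H u v r) * Real.exp (-H u v r) = 1 := by
              rw [← Real.exp_add, add_neg_cancel, Real.exp_zero]
            calc _ = x u v * (Real.exp (-sl (x u v) r)
                  * (Real.exp (H u v r) * Real.exp (-H u v r))) := by ring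
              _ = _ := by rw [this, mul_one]
          rw [k4] at k3
          have k5 := mul_le_mul_of_nonneg_left h1 hm.1
          linarith
        · have k8 : Real.exp (-H u v r) ≤ 1 - x u v * Z.S (x u v) r := by linarith
          exact (mul_le_mul_of_nonneg_left k8 hh0).trans (Hzd.IE.le hK hx hI hr hu hv h0 h1)
      linarith)
    s hs
  linarith

/-- **the majorant of the hazards** -/
theorem Hzd.Ok.haz_le (hZ : Z.Ok sl) {ψ' : V → V → ℝ → ℝ} (hK : Kn x P (dn x P ψ') ab h H t)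
    (hx : Wt x P 1) (hS : Sg x P (dn x P ψ') sl h H t) (hI : Z.IE x P (dn x P ψ') h t) {s : ℝ}
    (hs : s ∈ Icc 0 t) (u v : V) :
    h s u v ≤ Z.hh x P s u v := by
  have hs1 : s ∈ Icc (0 : ℝ) 1 := ⟨hs.1, hs.2.trans hK.ht.2⟩
  have hT : 0 < 1 + s := by linarith [hs.1]
  by_cases h0 : x u v = 0
  · rw [hK.hz s hs1 u v h0, Hzd.hh_zero h0]
  have hm := xw_mem hx u v
  by_cases hP : P u ∧ P v
  · unfold Hzd.hh Hzd.rr
    rw [if_pos hP, ← mul_div_assoc, le_div_iff₀ (hZ.den _ hm s hs1)]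
    exact hZ.haz_step hK hx hS hI hs hP.1 hP.2 h0 (hZ.expH_le hK hx hS hI hs hP.1 hP.2 h0)
  · -- a pendant pair
    have pend : ∀ {a d : V}, ¬P d → x a d ≠ 0 → h s a d ≤ x a d * (1 + s)⁻¹ := by
      intro a d hd had
      have hne : a ≠ d := fun e => had (by rw [e]; exact hx.diag d)
      have hz := hK.pend_haz hx hd had
      have e2 : pp h a d s = bb h ∅ a s := by
        unfold pp bb
        rw [Finset.pair_comm]
        exact pr_pend hK.hh hne hz (by simp) hs1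
      have h1 := hK.fl s hs a d
      rw [e2, dn_pend (fun hh => hd hh.2)] at h1
      have h2 := hK.lo s hs a
      have h3 : h s a d * (1 + s)⁻¹ ≤ h s a d * bb h ∅ a s :=
        mul_le_mul_of_nonneg_left h2 (hK.hh.nonneg s a d)
      rw [h1] at h3
      have h4 : x a d * ((1 + s) ^ 2)⁻¹ = x a d * (1 + s)⁻¹ * (1 + s)⁻¹ := by
        rw [pow_two, mul_inv]; ring
      rw [h4] at h3
      exact le_of_mul_le_mul_right h3 (inv_pos.2 hT)
    unfold Hzd.hh
    rw [if_neg hP]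
    by_cases hv : P v
    · have hu : ¬P u := fun hu => hP ⟨hu, hv⟩
      rw [hx.symm u v, hK.hh.symm s u v]
      exact pend hu (by rw [hx.symm]; exact h0)
    · exact pend hv h0

/-- the integrated hazards -/
theorem Hzd.Ok.H_le (hZ : Z.Ok sl) {ψ' : V → V → ℝ → ℝ} (hK : Kn x P (dn x P ψ') ab h H t)
    (hx : Wt x P 1) (hS : Sg x P (dn x P ψ') sl h H t) (hI : Z.IE x P (dn x P ψ') h t)
    {r s : ℝ} (hr : 0 ≤ r) (hrs : r ≤ s)
    (hs : s ≤ t) (u v : V) : H u v s - H u v r ≤ Z.Hh x P s u v r := by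
  have key := nonneg_of_forward (a := r) (s := s)
    (U := fun z => (Z.Hh x P s u v r - Z.Hh x P s u v z) - (H u v z - H u v r))
    (U' := fun z => (0 - -Z.hh x P z u v) - (h z u v - 0))
    (fun z hz => ((hasDerivAt_const _ _).sub (hZ.Hh_deriv hx u v
      ⟨hr.trans hz.1, (hz.2.trans hs).trans hK.ht.2⟩)).sub
      ((hK.hh.Hd u v z).sub (hasDerivAt_const _ _)))
    (by simp)
    (fun z hz _ => by
      have := hZ.haz_le hK hx hS hI (s := z) ⟨hr.trans hz.1, hz.2.trans hs⟩ u v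
      linarith)
    s ⟨hrs, le_rfl⟩
  rw [Hzd.Hh_self] at key
  linarith

/-- a bound of the integral of the rate -/
theorem Hzd.Ok.log_le (hZ : Z.Ok sl) {R U : ℝ → ℝ → ℝ}
    (hR : ∀ y ∈ Icc (0 : ℝ) 1, ∀ s ∈ Icc (0 : ℝ) 1, Z.E y s ≤ R y s * (1 - y * Z.S y s))
    (hU : ∀ y ∈ Icc (0 : ℝ) 1, ∀ s ∈ Icc (0 : ℝ) 1, HasDerivAt (U y) (R y s) s)
    {y : ℝ} (hy : y ∈ Icc (0 : ℝ) 1) {r s : ℝ} (hr : 0 ≤ r) (hrs : r ≤ s) (hs : s ≤ 1) :
    Real.log (1 - y * Z.S y r) - Real.log (1 - y * Z.S y s) ≤ y * (U y s - U y r) := by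
  have key := nonneg_of_forward (a := r) (s := s)
    (U := fun z => y * (U y z - U y r)
      - (Real.log (1 - y * Z.S y r) - Real.log (1 - y * Z.S y z)))
    (U' := fun z => y * (R y z - 0) - (0 - (0 - y * Z.E y z) / (1 - y * Z.S y z)))
    (fun z hz => by
      have hz1 : z ∈ Icc (0 : ℝ) 1 := ⟨hr.trans hz.1, hz.2.trans hs⟩
      exact (((hU y hy z hz1).sub (hasDerivAt_const _ _)).const_mul y).sub
        ((hasDerivAt_const _ _).sub (((hasDerivAt_const _ _).sub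
          ((hZ.d y hy z hz1).const_mul y)).log (hZ.den y hy z hz1).ne')))
    (by simp)
    (fun z hz _ => by
      have hz1 : z ∈ Icc (0 : ℝ) 1 := ⟨hr.trans hz.1, hz.2.trans hs⟩
      have h1 := hR y hy z hz1
      have h2 := hZ.den y hy z hz1
      have h3 : Z.E y z / (1 - y * Z.S y z) ≤ R y z := by
        rw [div_le_iff₀ h2]; exact h1
      have h4 := mul_le_mul_of_nonneg_left h3 hy.1
      have e : (0 - y * Z.E y z) / (1 - y * Z.S y z)
          = -(y * (Z.E y z / (1 - y * Z.S y z))) := by ring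
      rw [e]
      linarith)
    s ⟨hrs, le_rfl⟩
  linarith

/-- the clock rate -/
theorem Hzd.hh_le (hx : Wt x P 1) {mb : ℝ → ℝ}
    (hmb : ∀ y ∈ Icc (0 : ℝ) 1, ∀ s ∈ Icc (0 : ℝ) 1, Z.rr y s ≤ mb s)
    (hm1 : ∀ s ∈ Icc (0 : ℝ) 1, 1 ≤ mb s) {s : ℝ} (hs : s ∈ Icc (0 : ℝ) 1) (u v : V) :
    Z.hh x P s u v ≤ x u v * mb s := by
  have hm := xw_mem hx u v
  unfold Hzd.hh
  split_ifs
  · exact mul_le_mul_of_nonneg_left (hmb _ hm s hs) hm.1
  · refine mul_le_mul_of_nonneg_left (le_trans ?_ (hm1 s hs)) hm.1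
    exact inv_le_one_of_one_le₀ (by linarith [hs.1])

end Pool.Agent.RZ.RCN.K
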