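import Pool.Agent.RZ.RCN.Inst
import Pool.Agent.RZ.RCN.LamB

/-! The main factor of the density bound for the symbolic certificate (MP_73ccd0_lc, route M). -/

namespace Pool.Agent.RZ.RCN.K

open Set Finset MeasureTheory Pool.Agent.RZ.RCRSHalf Pool.Agent.RZ.RCG Pool.Agent.RZ.RCG.Ct
open Pool.Agent.RZ.RCN.Ker Pool.Agent.RZ.RCE

set_option linter.unusedSectionVars false

namespace Lm

/-- lower bound of `t / (1 + t)²` -/
noncomputable def clp (t : ℝ) : ℝ :=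
  724 / 729 * t - 464 / 243 * t ^ 2 + 1808 / 729 * t ^ 3 - 1664 / 729 * t ^ 4
    + 320 / 243 * t ^ 5 - 256 / 729 * t ^ 6

noncomputable def cl (t : ℝ) : ℝ :=
  362 / 729 * t ^ 2 - 464 / 729 * t ^ 3 + 452 / 729 * t ^ 4 - 1664 / 3645 * t ^ 5
    + 160 / 729 * t ^ 6 - 256 / 5103 * t ^ 7

/-- upper bound of `1 / (1 + t)` -/
noncomputable def lup (t : ℝ) : ℝ :=
  1 - 161 / 162 * t + 76 / 81 * t ^ 2 - 20 / 27 * t ^ 3 + 32 / 81 * t ^ 4 - 8 / 81 * t ^ 5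

noncomputable def lu (t : ℝ) : ℝ :=
  t - 161 / 324 * t ^ 2 + 76 / 243 * t ^ 3 - 5 / 27 * t ^ 4 + 32 / 405 * t ^ 5 - 4 / 243 * t ^ 6

theorem dcl (t : ℝ) : HasDerivAt cl (clp t) t := by
  have h : HasDerivAt (fun t : ℝ => 362 / 729 * t ^ 2 - 464 / 729 * t ^ 3 + 452 / 729 * t ^ 4
      - 1664 / 3645 * t ^ 5 + 160 / 729 * t ^ 6 - 256 / 5103 * t ^ 7)
      (362 / 729 * ((2 : ℕ) * t ^ (2 - 1)) - 464 / 729 * ((3 : ℕ) * t ^ (3 - 1))
      + 452 / 729 * ((4 : ℕ) * t ^ (4 - 1)) - 1664 / 3645 * ((5 : ℕ) * t ^ (5 - 1))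
      + 160 / 729 * ((6 : ℕ) * t ^ (6 - 1)) - 256 / 5103 * ((7 : ℕ) * t ^ (7 - 1))) t :=
    ((((((hasDerivAt_pow 2 t).const_mul _).sub ((hasDerivAt_pow 3 t).const_mul _)).add
      ((hasDerivAt_pow 4 t).const_mul _)).sub ((hasDerivAt_pow 5 t).const_mul _)).add
      ((hasDerivAt_pow 6 t).const_mul _)).sub ((hasDerivAt_pow 7 t).const_mul _)
  refine h.congr_deriv ?_
  unfold clp
  norm_num
  ring

theorem dlu (t : ℝ) : HasDerivAt lu (lup t) t := by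
  have h : HasDerivAt (fun t : ℝ => t - 161 / 324 * t ^ 2 + 76 / 243 * t ^ 3 - 5 / 27 * t ^ 4
      + 32 / 405 * t ^ 5 - 4 / 243 * t ^ 6)
      (1 - 161 / 324 * ((2 : ℕ) * t ^ (2 - 1)) + 76 / 243 * ((3 : ℕ) * t ^ (3 - 1))
      - 5 / 27 * ((4 : ℕ) * t ^ (4 - 1)) + 32 / 405 * ((5 : ℕ) * t ^ (5 - 1))
      - 4 / 243 * ((6 : ℕ) * t ^ (6 - 1))) t :=
    (((((hasDerivAt_id t).sub ((hasDerivAt_pow 2 t).const_mul _)).add
      ((hasDerivAt_pow 3 t).const_mul _)).sub ((hasDerivAt_pow 4 t).const_mul _)).add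
      ((hasDerivAt_pow 5 t).const_mul _)).sub ((hasDerivAt_pow 6 t).const_mul _)
  refine h.congr_deriv ?_
  unfold lup
  norm_num
  ring

theorem cli {t : ℝ} (ht : t ∈ Icc (0 : ℝ) 1) : clp t * (1 + t) ^ 2 ≤ t := by
  have e : t - clp t * (1 + t) ^ 2 = t * (((2 * t - 1) / 3) ^ 6 * (7 + 6 * ((2 * t - 1) / 3))) := by
    unfold clp; ring
  have h1 : 0 ≤ ((2 * t - 1) / 3) ^ 6 := by positivity
  have h2 : 0 ≤ 7 + 6 * ((2 * t - 1) / 3) := by linarith [ht.1]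
  have h3 : 0 ≤ t * (((2 * t - 1) / 3) ^ 6 * (7 + 6 * ((2 * t - 1) / 3))) :=
    mul_nonneg ht.1 (mul_nonneg h1 h2)
  linarith

theorem lui {t : ℝ} (ht : t ∈ Icc (0 : ℝ) 1) : 1 ≤ lup t * (1 + t) := by
  have e : lup t * (1 + t) - 1
      = ((2 * t - 1) / 3) ^ 4 / 8 * (4 * (t * (1 - t))) := by
    unfold lup; ring
  have h2 : 0 ≤ t * (1 - t) := mul_nonneg ht.1 (by linarith [ht.2])
  have h3 : 0 ≤ ((2 * t - 1) / 3) ^ 4 / 8 * (4 * (t * (1 - t))) := by positivity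
  linarith

/-- the number of cherries over an edge -/
theorem yz_sum {V : Type*} [Fintype V] [DecidableEq V] {x : V → V → ℝ} {P : V → Prop}
    [DecidablePred P] (hx : Wt x P 1) {u v : V} (huv : u ≠ v) :
    ∑ d ∈ ({u, v} : Finset V)ᶜ, xr x P u d * xr x P v d ≤ (1 - xr x P u v) / 2 := by
  have h1 : ∑ d ∈ ({u, v} : Finset V)ᶜ, xr x P u d * xr x P v d
      ≤ ∑ d ∈ ({u, v} : Finset V)ᶜ, (xr x P u d + xr x P v d) / 4 := by
    refine Finset.sum_le_sum fun d hd => ?_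
    have h3 := yz_le hx huv hd
    have h4 := xmem1 (P := P) hx u d
    have h5 := xmem1 (P := P) hx v d
    nlinarith [sq_nonneg (xr x P u d - xr x P v d), h4.1, h5.1, h3.2.2,
      mul_nonneg (add_nonneg h4.1 h5.1) (sub_nonneg.2 h3.2.2)]
  rw [← Finset.sum_div, Finset.sum_add_distrib] at h1
  have h2 := sum_compl (P := P) hx huv
  have h3 := sum_compl' (P := P) hx huv
  linarith

/-- a bound of the sum over the cherries of an edge -/
theorem ch_le {V : Type*} [Fintype V] [DecidableEq V] {x : V → V → ℝ} {P : V → Prop}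
    [DecidablePred P] (hx : Wt x P 1) {u v : V} (huv : u ≠ v) {f f3 f2 : ℝ} (hf : 0 ≤ f)
    (hf3 : 0 ≤ f3) (hf2 : 0 ≤ f2) :
    ∑ d, xr x P u d * xr x P v d * (f + (xr x P u d + xr x P v d) * f3
        + 4 * (xr x P u d * xr x P v d) * f2)
      ≤ (1 - xr x P u v) / 2 * (f + f3 + f2) := by
  rw [← Finset.sum_add_sum_compl ({u, v} : Finset V), Finset.sum_pair huv, xr_diag hx u,
    xr_diag hx v]
  simp only [zero_mul, mul_zero, zero_add]
  have e1 : ∑ d ∈ ({u, v} : Finset V)ᶜ, xr x P u d * xr x P v d *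
      (f + (xr x P u d + xr x P v d) * f3 + 4 * (xr x P u d * xr x P v d) * f2)
      ≤ ∑ d ∈ ({u, v} : Finset V)ᶜ, xr x P u d * xr x P v d * (f + f3 + f2) := by
    refine Finset.sum_le_sum fun d hd => ?_
    have h3 := yz_le hx huv hd
    have h4 := xmem1 (P := P) hx u d
    have h5 := xmem1 (P := P) hx v d
    have p0 : 0 ≤ xr x P u d * xr x P v d := mul_nonneg h4.1 h5.1
    refine mul_le_mul_of_nonneg_left ?_ p0
    have p1 : 4 * (xr x P u d * xr x P v d) ≤ 1 := by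
      nlinarith [sq_nonneg (xr x P u d - xr x P v d), h4.1, h5.1, h3.2.2]
    have p2 := mul_le_mul_of_nonneg_right p1 hf2
    have p3 := mul_le_mul_of_nonneg_right h3.2.2 hf3
    linarith
  refine e1.trans ?_
  rw [← Finset.sum_mul]
  exact mul_le_mul_of_nonneg_right (yz_sum hx huv) (by linarith)

end Lm

/-- the early bound of the corrections -/
noncomputable def Dt.p0 (T : Dt) (t : ℝ) : ℝ :=
  (T.F t + T.F3 t + T.F2 t) / 2 + T.SP * T.Gp t

/-- the scalar data of the main factor -/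
noncomputable def Dt.ld (T : Dt) (IZ NI Bp : ℝ → ℝ) (dl : ℝ) : LD where
  Z := T.Z
  Z' := T.Z'
  IZ := IZ
  p0 := T.p0
  n t := T.SP * T.np t
  NI := NI
  cl := Lm.cl
  cl' := Lm.clp
  lu := Lm.lu
  lu' := Lm.lup
  D := T.D
  Bp := Bp
  Bp' t := T.D t * (t * Lm.lup t + T.p0 t)
  th := T.th
  dl := dl

variable {T : Dt}

theorem Dt.p0_nonneg (h : T.Ok) {t : ℝ} (ht : t ∈ Icc (0 : ℝ) 1) : 0 ≤ T.p0 t := by
  have h1 := h.hF t ht
  have h2 := h.hF2 t ht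
  have h4 := h.hF3 t ht
  have h3 := mul_nonneg h.SPn (h.hGp t ht)
  unfold Dt.p0
  linarith

theorem Dt.D_nonneg (h : T.Ok) {t : ℝ} (ht : t ∈ Icc (0 : ℝ) 1) : 0 ≤ T.D t := by
  have h1 := h.Di t ht
  have h2 := h.abd t ht
  have h3 := mul_nonneg (mul_nonneg (show 0 ≤ T.th by linarith [h.th0]) (h.hZ t ht))
    (show 0 ≤ 1 + t by linarith [ht.1])
  have h4 : 0 < (1 + T.th * T.Z t * (1 + t)) ^ 2 := by positivity
  by_contra hc
  push Not at hc
  have := mul_neg_of_neg_of_pos hc h4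
  linarith

/-- **the scalar inequalities of the main factor** -/
theorem Dt.ld_ok (h : T.Ok) {IZ NI Bp : ℝ → ℝ} {dl : ℝ} (hdl : 0 ≤ dl)
    (dIZ : ∀ t ∈ Icc (0 : ℝ) 1, HasDerivAt IZ (T.Z t) t) (IZ0 : IZ 0 = 0)
    (dNI : ∀ t ∈ Icc (0 : ℝ) 1, HasDerivAt NI (T.SP * T.np t) t)
    (NI0 : NI 0 = 0)
    (dBp : ∀ t ∈ Icc (0 : ℝ) 1, HasDerivAt Bp (T.D t * (t * Lm.lup t + T.p0 t)) t)
    (Bp0 : Bp 0 = 0)
    (i1 : ∀ w ∈ Icc (0 : ℝ) (3 / 5), ∀ t ∈ Icc (0 : ℝ) 1,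
      0 ≤ w * (1 - w) * Lm.cl t + (dl * t - dl ^ 2 * t ^ 2 / 2)
        + 7 / 16 * w ^ 2 * ((1 + t) * T.Z t - IZ t) + (w ^ 2 / 2 - w) * ((1 + t) * T.p0 t)
        - w * NI t)
    (i2 : ∀ w ∈ Icc (0 : ℝ) (3 / 5), ∀ t ∈ Icc (0 : ℝ) 1,
      0 ≤ w * (1 - w) * Lm.cl t + (dl * t - dl ^ 2 * t ^ 2 / 2)
        + w ^ 2 * ((1 + t) * T.Z t - IZ t) + (w ^ 2 / 2 - w) * ((1 + t) * T.p0 t)
        - w * NI t)
    (i3 : ∀ w ∈ Icc (3 / 5 : ℝ) 1, ∀ t ∈ Icc (0 : ℝ) 1,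
      0 ≤ (1 + T.th * T.Z t * (1 + t)) * (w * (1 - w) * Lm.cl t
          + (dl * t - dl ^ 2 * t ^ 2 / 2) - (1 - w) * (Lm.lu t + Bp t))
        + (1 - w) * t + (1 + t) * (7 / 16 * w ^ 2 * T.Z t - (w - w ^ 2 / 2) * T.p0 t)) :
    (T.ld IZ NI Bp dl).Ok where
  dZ := h.dZ
  dIZ := dIZ
  dNI := dNI
  dcl t _ := Lm.dcl t
  dlu t _ := Lm.dlu t
  dBp := dBp
  IZ0 := IZ0
  NI0 := NI0
  cl0 := by show Lm.cl 0 = 0; simp [Lm.cl]
  lu0 := by show Lm.lu 0 = 0; simp [Lm.lu]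
  Bp0 := Bp0
  hZ := h.hZ
  hp0 t ht := T.p0_nonneg h ht
  hth := by show 0 ≤ T.th; linarith [h.th0]
  hdl := hdl
  cli t ht := Lm.cli ht
  lui t ht := Lm.lui ht
  abd := h.abd
  Di := h.Di
  Bpi t ht := by
    show T.D t * (t + (1 + t) * T.p0 t) ≤ T.D t * (t * Lm.lup t + T.p0 t) * (1 + t)
    rw [mul_assoc]
    refine mul_le_mul_of_nonneg_left ?_ (T.D_nonneg h ht)
    have := mul_le_mul_of_nonneg_left (Lm.lui ht) ht.1
    linarith
  i1 := i1
  i2 := i2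
  i3 := i3

variable {V : Type*} [Fintype V] [DecidableEq V] {x : V → V → ℝ} {P : V → Prop}
  [DecidablePred P] {w : V → V → ℝ → ℝ}

/-- the corrections satisfy the bounds which the main factor needs -/
theorem Dt.psB (h : T.Ok) (hx : Wt x P 1) (hw : Wr T.ek.kd x P w) (IZ NI Bp : ℝ → ℝ) (dl : ℝ) :
    PsB (T.ld IZ NI Bp dl) x P (psi T.cf x P (pfOf T.ek.kd x P w)) := by
  have hD := T.kd_ok h
  have hE := T.ek_ok h
  have key : ∀ a b, P a → P b → a ≠ b → ∀ s ∈ Icc (0 : ℝ) 1,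
      (0 ≤ ∑ d, T.cf.mu (xr x P a b) (xr x P a d) (xr x P b d) s ∧
        ∑ d, T.cf.mu (xr x P a b) (xr x P a d) (xr x P b d) s
          ≤ (1 - xr x P a b) / 2 * (T.F s + T.F3 s + T.F2 s)) := by
    intro a b ha hb hab s hs
    have f1 := h.hF s hs
    have f2 := h.hF2 s hs
    have f3 := h.hF3 s hs
    refine ⟨Finset.sum_nonneg fun d _ => ?_, Lm.ch_le hx hab f1 f3 f2⟩
    show 0 ≤ xr x P a d * xr x P b d * (T.F s + (xr x P a d + xr x P b d) * T.F3 s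
      + 4 * (xr x P a d * xr x P b d) * T.F2 s)
    have h1 := xr_nonneg hx (P := P) a d
    have h2 := xr_nonneg hx (P := P) b d
    positivity
  refine ⟨fun a b ha hb hab s hs => ?_, fun a b ha hb hab s hs => ?_⟩
  · have hxe : xr x P a b = x a b := by unfold xr; rw [if_pos ⟨ha, hb⟩]
    have hy := xmem1 (P := P) hx a b
    obtain ⟨k1, k2⟩ := key a b ha hb hab s hs
    have k3 := Om_P hD hx hw ha hb hab hs
    have k4 := Sab_le hD hx hab (P := P)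
    have e1 : T.ek.kd.cS (xr x P a b) = T.SP := rfl
    have e2 : T.ek.kd.GP s = T.Gp s := rfl
    rw [e1] at k4
    rw [e2] at k3
    have k5 := mul_le_mul_of_nonneg_left k4 (h.hGp s hs)
    show min (x a b) (1 / 2) * T.Z s - (1 - x a b) * T.p0 s
      ≤ eta (xr x P a b) * T.Z s - ∑ d, T.cf.mu (xr x P a b) (xr x P a d) (xr x P b d) s
        - Om T.ek.kd.M' (w a b) s
    unfold eta Dt.p0
    rw [← hxe]
    have e3 : (1 - xr x P a b) * ((T.F s + T.F3 s + T.F2 s) / 2 + T.SP * T.Gp s)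
        = (1 - xr x P a b) / 2 * (T.F s + T.F3 s + T.F2 s)
          + T.Gp s * ((1 - xr x P a b) * T.SP) := by ring
    rw [e3]
    linarith
  · have hxe : xr x P a b = x a b := by unfold xr; rw [if_pos ⟨ha, hb⟩]
    have hy := xmem1 (P := P) hx a b
    obtain ⟨k1, k2⟩ := key a b ha hb hab s hs
    show eta (xr x P a b) * T.Z s - ∑ d, T.cf.mu (xr x P a b) (xr x P a d) (xr x P b d) s
        - Om T.ek.kd.M' (w a b) s
      ≤ min (x a b) (1 / 2) * T.Z s + T.SP * T.np s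
    unfold eta
    rw [← hxe]
    have k3 : -Om T.ek.kd.M' (w a b) s ≤ T.SP * T.np s := by
      rcases le_or_gt T.t1 s with h1 | h1
      · have h2 := Om_nonneg hD.hM (hw.i a b) (hw.n a b) hs h1
        have h3 := mul_nonneg h.SPn (h.hnp s hs)
        linarith
      · have h2 := Om_lower hD.hM (hw.i a b) (hw.n a b) hs
        have h3 := A_w_le hD hw ha hb hab (t := s) hs.1
        have e1 : A qq T.ek.kd.kP s = T.Jp s := T.ek.A_kp hE hs
        rw [e1] at h3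
        have k4 := Sab_le hD hx hab (P := P)
        have e2 : T.ek.kd.cS (xr x P a b) = T.SP := rfl
        rw [e2] at k4
        have J0 : 0 ≤ T.Jp s := T.ek.Jp_nonneg hE hs
        have k5 := mul_le_mul_of_nonneg_right k4 J0
        have k7 := mul_le_mul_of_nonneg_left (h.np1 s hs h1) h.SPn
        have k8 : (1 - xr x P a b) * T.SP * T.Jp s ≤ T.SP * T.Jp s := by
          have := mul_nonneg hy.1 (mul_nonneg h.SPn J0)
          nlinarith
        linarith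
    linarith

end Pool.Agent.RZ.RCN.K
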