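import Pool.Agent.RZ.RCN.InstB
import Pool.Agent.RZ.RCN.Sig

/-! The slack of the certificate, and the final abstract theorem with slack
(MP_73ccd0_lc, route M). -/

namespace Pool.Agent.RZ.RCN.K

open Set Finset MeasureTheory Pool.Agent.RZ.RCRSHalf Pool.Agent.RZ.RCG Pool.Agent.RZ.RCG.Ct
open Pool.Agent.RZ.RCN.Ker Pool.Agent.RZ.RCRS

variable {T : Dt} {sl : ℝ → ℝ → ℝ}

/-- the slack from the inequality `L0` with slack -/
theorem Dt.sl_ok (n : ∀ x ∈ Icc (0 : ℝ) 1, ∀ t ∈ Icc (0 : ℝ) 1, 0 ≤ sl x t)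
    (cn : ∀ x ∈ Icc (0 : ℝ) 1, ContinuousOn (sl x) (Icc 0 1))
    (z : ∀ x ∈ Icc (0 : ℝ) 1, sl x 0 ≤ eta x * T.Z' 0)
    (L0 : ∀ x ∈ Icc (0 : ℝ) 1, x ≠ 0 → ∀ t ∈ Icc (0 : ℝ) 1,
      2 * (1 - x) * T.KK x t + sl x t < eta x * T.Z' t * (1 + t) ^ 2
        + 2 * (x * (T.o0 t + eta x * T.o1 t)) + 2 * (T.lam t * T.S x t)) :
    Sl T.cf T.cg sl where
  n := n
  cn := cn
  z := z
  L0 x hx hx0 t ht := by
    show 2 * (1 - x) * T.KK x t + 0
      + (Real.log (qq t) + (((1 + t) ^ 2)⁻¹ - eta x * T.Z' t) / qq t - 1) + sl x t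
      < 2 * (x * (T.o0 t + eta x * T.o1 t))
        + 2 * (T.lam t * (x * (eta x * T.Z t) - T.sgf x t)) - 2 * Real.log (1 + t)
    have hT : 0 < 1 + t := by linarith [ht.1]
    have h1 : 0 < (1 + t) ^ 2 := by positivity
    have e1 : Real.log (qq t) = -(2 * Real.log (1 + t)) := by
      unfold qq
      rw [Real.log_inv, Real.log_pow]
      norm_num
    have e2 : (((1 + t) ^ 2)⁻¹ - eta x * T.Z' t) / qq t = 1 - eta x * T.Z' t * (1 + t) ^ 2 := by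
      unfold qq
      rw [div_inv_eq_mul, sub_mul, inv_mul_cancel₀ h1.ne']
    rw [e1, e2]
    have h2 := L0 x hx hx0 t ht
    unfold Dt.S at h2
    linarith

variable {V : Type} [Fintype V] [DecidableEq V] {G : SimpleGraph V} [Fintype G.edgeSet]
  [DecidableEq G.edgeSet] {x : G.edgeSet → ℝ} [Pool.Agent.RZ.RCG.CX x] {w : V ⊕ V → V ⊕ V → ℝ → ℝ}

theorem Dt.wk (hx : IsFractionalMatching G x) (h : T.Ok) (hw : Wr T.ek.kd (xe x) (P0 V) w) :
    Wk T.cf T.cg (xe x) (P0 V) (pfOf T.ek.kd (xe x) (P0 V) w) :=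
  wk_of (T.kd_ok h) (wt_xe hx zero_le_one le_rfl fun e => (hx.1 e).2) hw
    (sg1 := fun y t => y ^ 2 * (1 - y) * (T.F t + y * T.F3 t + 4 * (y * (1 - y)) * T.F2 t))
    (fun a _ t ht => mu_sum (wt_xe hx zero_le_one le_rfl fun e => (hx.1 e).2) h a ht)
    (fun y _ t _ => by
      show y ^ 2 * (1 - y) * (T.F t + y * T.F3 t + 4 * (y * (1 - y)) * T.F2 t)
        + T.Gs t * T.sT y ≤ T.sgf y t
      unfold Dt.sgf
      linarith)

theorem Dt.cor (hx : IsFractionalMatching G x) (h : T.Ok) (hw : Wr T.ek.kd (xe x) (P0 V) w) :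
    Cor (xe x) (P0 V) (psi T.cf (xe x) (P0 V) (pfOf T.ek.kd (xe x) (P0 V) w))
      (psi' T.cf (xe x) (P0 V) (pfOf T.ek.kd (xe x) (P0 V) w)) :=
  cor_psi (T.cf_ok h) (T.cg_ok h) (wt_xe hx zero_le_one le_rfl fun e => (hx.1 e).2)
    (Dt.wk hx h hw)

/-- **the final abstract theorem with slack** -/
theorem half_of_dtS (hx : IsFractionalMatching G x) (h : T.Ok) (hsl : Sl T.cf T.cg sl)
    (hw : Wr T.ek.kd (xe x) (P0 V) w)
    (hcost : CostS T.cf (xe x) (P0 V) (pfOf T.ek.kd (xe x) (P0 V) w) sl) :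
    ∃ S : Scheme G, ∀ e : G.edgeSet, S.selProb x e = x e / 2 :=
  half_of_costS hx (T.cf_ok h) (T.cg_ok h) hsl (Dt.wk hx h hw) hcost

end Pool.Agent.RZ.RCN.K
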