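import Pool.Agent.RZ.RCG.CtA

/-! The abstract theorem of route M: cost bounds and local inequalities imply the exact
selectability 1/2 (MP_73ccd0_lc). -/

namespace Pool.Agent.RZ.RCN

open Set Finset Pool.Agent.RZ.RCG Pool.Agent.RZ.RCG.Ct

set_option linter.unusedSectionVars false

/-- The functions of the certificate: `al x t` is the own correction, `mu x y z t` the correction
of the cherry with weights `y`, `z` over an edge of weight `x`, `G j t` the factor of the form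
`W j`, `ab x t` the upper bound of the free probabilities, `k`, `kw j` the cost rates, `ka j` and
`bW j` the local bounds of the form `W j`. -/
structure Cf (ι : Type) where
  al : ℝ → ℝ → ℝ
  al' : ℝ → ℝ → ℝ
  mu : ℝ → ℝ → ℝ → ℝ → ℝ
  mu' : ℝ → ℝ → ℝ → ℝ → ℝ
  G : ι → ℝ → ℝ
  G' : ι → ℝ → ℝ
  ab : ℝ → ℝ → ℝ
  k : ℝ → ℝ → ℝ → ℝ → ℝ
  kw : ι → ℝ → ℝ
  ka : ι → ℝ → ℝ
  bW : ι → ℝ → ℝ

variable {ι : Type} [Fintype ι]

variable {V : Type*} [Fintype V] [DecidableEq V]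

/-- auxiliary functions -/
structure Cg (ι : Type) where
  sg : ℝ → ℝ → ℝ
  C : ℝ → ℝ → ℝ → ℝ → ℝ
  C' : ℝ → ℝ → ℝ → ℝ → ℝ
  CW : ι → ℝ → ℝ
  CW' : ι → ℝ → ℝ
  ow : ℝ → ℝ → ℝ
  ow' : ℝ → ℝ → ℝ
  om : ℝ → ℝ → ℝ → ℝ → ℝ
  om' : ℝ → ℝ → ℝ → ℝ → ℝ
  og : ι → ℝ → ℝ → ℝ
  og' : ι → ℝ → ℝ → ℝ
  lam : ℝ → ℝ → ℝ
  X : ℝ → ℝ → ℝ
  K2 : ℝ → ℝ → ℝ
  K3 : ι → ℝ → ℝ → ℝ
  wc : ι → ℝ → ℝ → ℝ
  N : ℝ → ℝ → ℝ
  gm : ι → ℝ → ℝ

variable {c : Cf ι} {g : Cg ι} {x : V → V → ℝ} {P : V → Prop} [DecidablePred P]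
variable {W : ι → V → V → ℝ}
variable {h : ℝ → V → V → ℝ} {H : V → V → ℝ → ℝ} {t : ℝ}

theorem xmem1 (hx : Wt x P 1) (a b : V) : xr x P a b ∈ Icc (0 : ℝ) 1 := xmem hx a b

section final

end final

end Pool.Agent.RZ.RCN
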