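import Pool.Agent.RZ.RCN.KerE
import Pool.Agent.RZ.RCN.KleA
import Pool.Agent.RZ.RCN.Main

/-! The cherry part of the cost in the certified process: bounds of the densities, of the
integrated densities and of the rate of the density factor (MP_73ccd0_lc, route M). -/

namespace Pool.Agent.RZ.RCN.K

open Set Finset MeasureTheory Pool.Agent.RZ.RCRSHalf Pool.Agent.RZ.RCG Pool.Agent.RZ.RCG.Ct
open Pool.Agent.RZ.RCN.Ker

set_option linter.unusedSectionVars false

/-- the functions of the cost bound belong to the functions of the certificate -/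
structure Kf.Fit (k : Kf) (c : Cf) (E : Ek) : Prop where
  al : ∀ x ∈ Icc (0 : ℝ) 1, ∀ t ∈ Icc (0 : ℝ) 1, c.al x t = eta x * k.Z t
  al' : ∀ x ∈ Icc (0 : ℝ) 1, ∀ t ∈ Icc (0 : ℝ) 1, c.al' x t = eta x * k.Z' t
  mu : ∀ x y z t, c.mu x y z t = y * z * (k.F t + (y + z) * k.F3 t + 4 * (y * z) * k.F2 t)
  mu' : ∀ x y z t, c.mu' x y z t = y * z * (k.F' t + (y + z) * k.F3' t + 4 * (y * z) * k.F2' t)
  rho : k.rho = E.rho
  sp : k.sp = E.SP
  Gs : ∀ t ∈ Icc (0 : ℝ) 1, E.Gp t = k.Gs t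
  m : ∀ t ∈ Icc (0 : ℝ) 1, k.m t = (1 + t) ^ 2 * (E.G' t + E.j t)

variable {V : Type*} [Fintype V] [DecidableEq V]
variable {x : V → V → ℝ} {P : V → Prop} [DecidablePred P]
variable {h : ℝ → V → V → ℝ} {H : V → V → ℝ → ℝ}
variable {k : Kf} {c : Cf} {g : Cg} {E : Ek} {Pd : ℝ → ℝ → ℝ} {w : V → V → ℝ → ℝ} {t : ℝ}

/-- the number of cherries over an edge -/
theorem yz_sum (hx : Wt x P 1) {u v : V} (huv : u ≠ v) :
    ∑ d ∈ ({u, v} : Finset V)ᶜ, xr x P u d * xr x P v d ≤ (1 - xr x P u v) / 2 := by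
  have h1 : ∑ d ∈ ({u, v} : Finset V)ᶜ, xr x P u d * xr x P v d
      ≤ ∑ d ∈ ({u, v} : Finset V)ᶜ, (xr x P u d + xr x P v d) / 4 := by
    refine Finset.sum_le_sum fun d hd => ?_
    have h3 := yz_le hx huv hd
    have h4 := xmem1 (P := P) hx u d
    have h5 := xmem1 (P := P) hx v d
    nlinarith [sq_nonneg (xr x P u d - xr x P v d), h4.1, h5.1, h3.2.2,
      mul_nonneg (add_nonneg h4.1 h5.1) (sub_nonneg.2 h3.2.2)]
  rw [← Finset.sum_div, Finset.sum_add_distrib] at h1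
  have h2 := sum_compl (P := P) hx huv
  have h3 := sum_compl' (P := P) hx huv
  linarith

/-- a bound of the sum over the cherries of an edge -/
theorem ch_le (hx : Wt x P 1) {u v : V} (huv : u ≠ v) {f f3 f2 B : ℝ} (hB : 0 ≤ B)
    (h1 : f ≤ B) (h2 : f + f3 ≤ B) (h3 : f + f3 + f2 ≤ B) :
    ∑ d, xr x P u d * xr x P v d * (f + (xr x P u d + xr x P v d) * f3
        + 4 * (xr x P u d * xr x P v d) * f2)
      ≤ (1 - xr x P u v) / 2 * B := by
  rw [← Finset.sum_add_sum_compl ({u, v} : Finset V), Finset.sum_pair huv, xr_diag hx u,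
    xr_diag hx v]
  simp only [zero_mul, mul_zero, zero_add]
  have e1 : ∑ d ∈ ({u, v} : Finset V)ᶜ, xr x P u d * xr x P v d *
      (f + (xr x P u d + xr x P v d) * f3 + 4 * (xr x P u d * xr x P v d) * f2)
      ≤ ∑ d ∈ ({u, v} : Finset V)ᶜ, xr x P u d * xr x P v d * B := by
    refine Finset.sum_le_sum fun d hd => ?_
    have h6 := yz_le hx huv hd
    have h4 := xmem1 (P := P) hx u d
    have h5 := xmem1 (P := P) hx v d
    have p0 : 0 ≤ xr x P u d * xr x P v d := mul_nonneg h4.1 h5.1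
    refine mul_le_mul_of_nonneg_left ?_ p0
    have p1 : 4 * (xr x P u d * xr x P v d) ≤ xr x P u d + xr x P v d := by
      nlinarith [sq_nonneg (xr x P u d - xr x P v d), h4.1, h5.1, h6.2.2]
    set θ := 4 * (xr x P u d * xr x P v d) with hθ
    set σ := xr x P u d + xr x P v d with hσ
    have p2 : 0 ≤ θ := by rw [hθ]; linarith
    have p3 : σ ≤ 1 := h6.2.2
    have e : f + σ * f3 + θ * f2 = (1 - σ) * f + (σ - θ) * (f + f3) + θ * (f + f3 + f2) := by
      ring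
    rw [e]
    have q1 := mul_le_mul_of_nonneg_left h1 (show 0 ≤ 1 - σ by linarith)
    have q2 := mul_le_mul_of_nonneg_left h2 (show 0 ≤ σ - θ by linarith)
    have q3 := mul_le_mul_of_nonneg_left h3 p2
    linarith
  refine e1.trans ?_
  rw [← Finset.sum_mul]
  exact mul_le_mul_of_nonneg_right (yz_sum hx huv) hB

/-- bound of the derivative of the walk correction -/
theorem Ek.Om'_le (hE : E.Ok) (hD : E.kd.Ok c g) (hx : Wt x P 1) (hw : Wr E.kd x P w) {a b : V}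
    (ha : P a) (hb : P b) (hab : a ≠ b) (ht : t ∈ Icc (0 : ℝ) 1) :
    Om' E.kd.M' (w a b) t ≤ (E.G' t + E.j t) * (E.rho * E.SP * (1 - xr x P a b)) := by
  rw [Om'_eq ht]
  have o : (1 : ℝ) ∈ Icc (0 : ℝ) 1 := ⟨zero_le_one, le_rfl⟩
  have h1 : 0 ≤ qq t * I (w a b) t :=
    mul_nonneg (qq_pos ht).le (I_nonneg (hw.i a b) (hw.n a b) ht)
  have h2 := A_w_le hD hw ha hb hab (t := 1) zero_le_one
  have e1 : A qq E.kd.kP 1 = E.rho * E.J 1 := E.A_kp1 hE
  rw [e1] at h2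
  have h3 : Sab E.kd x P a b ≤ (1 - xr x P a b) * E.SP := Sab_le hD hx hab
  have h4 := mul_le_mul_of_nonneg_right h3 (mul_nonneg hE.rho0 hE.J1.le)
  have h5 : 0 ≤ E.kd.M' t := hD.M'n t ht
  have h6 := mul_le_mul_of_nonneg_left (h2.trans h4) h5
  have e2 : E.kd.M' t = (E.G' t + E.j t) / E.J 1 := rfl
  have e3 : E.kd.M' t * ((1 - xr x P a b) * E.SP * (E.rho * E.J 1))
      = (E.G' t + E.j t) * (E.rho * E.SP * (1 - xr x P a b)) := by
    rw [e2]
    have := hE.J1.ne'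
    field_simp
  rw [e3] at h6
  linarith

/-- bound of the walk correction -/
theorem Ek.Om_le' (hD : E.kd.Ok c g) (hE : E.Ok) (hx : Wt x P 1) (hw : Wr E.kd x P w) {a b : V}
    (ha : P a) (hb : P b) (hab : a ≠ b) (ht : t ∈ Icc (0 : ℝ) 1) :
    Om E.kd.M' (w a b) t ≤ E.SP * (1 - xr x P a b) * E.Gp t := by
  have h1 : Om E.kd.M' (w a b) t ≤ E.Gp t * Sab E.kd x P a b :=
    Om_P hD hx hw ha hb hab ht
  have h3 : Sab E.kd x P a b ≤ (1 - xr x P a b) * E.SP := Sab_le hD hx hab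
  have h4 := mul_le_mul_of_nonneg_left h3 (hE.Gp0 t ht)
  linarith

/-- **K1**: bound of the densities -/
theorem Kf.Fit.phi_le (hf : k.Fit c E) (hk : k.Ok) (hE : E.Ok) (hD : E.kd.Ok c g)
    (hx : Wt x P 1) (hw : Wr E.kd x P w) {a b : V} (ha : P a) (hb : P b) (hab : x a b ≠ 0)
    (ht : t ∈ Icc (0 : ℝ) 1) :
    dn x P (psi' c x P (pfOf E.kd x P w)) a b t ≤ k.fh (x a b) t := by
  have hne : a ≠ b := fun e => hab (by rw [e]; exact hx.diag b)
  have hxe : xr x P a b = x a b := by unfold xr; rw [if_pos ⟨ha, hb⟩]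
  have hy := xmem1 (P := P) hx a b
  have hT : 0 < (1 + t) ^ 2 := by have := ht.1; positivity
  rw [dn_real ha hb hab]
  unfold psi'
  have hO : (pfOf E.kd x P w).Om' a b t = Om' E.kd.M' (w a b) t := rfl
  rw [hO, hf.al' _ hy t ht]
  have h1 := E.Om'_le hE hD hx hw ha hb hne ht
  set β := k.b0 t - 1 - k.rho * k.sp * k.m t with hβ
  have hβ0 : 0 ≤ β := hk.b00 t ht
  have h2 : ∑ d, c.mu' (xr x P a b) (xr x P a d) (xr x P b d) t
      ≤ (1 - xr x P a b) / 2 * (2 * β * ((1 + t) ^ 2)⁻¹) := by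
    have e : ∀ d, c.mu' (xr x P a b) (xr x P a d) (xr x P b d) t
        = xr x P a d * xr x P b d * (k.F' t + (xr x P a d + xr x P b d) * k.F3' t
          + 4 * (xr x P a d * xr x P b d) * k.F2' t) :=
      fun d => hf.mu' _ _ _ _
    simp_rw [e]
    have i1 := hk.b01 t ht
    have i2 := hk.b02 t ht
    have i3 := hk.b03 t ht
    refine ch_le hx hne (by positivity) ?_ ?_ ?_
    · rw [← div_eq_mul_inv, le_div_iff₀ hT]
      rw [← hβ] at i1
      linarith
    · rw [← div_eq_mul_inv, le_div_iff₀ hT]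
      rw [← hβ] at i2
      linarith
    · rw [← div_eq_mul_inv, le_div_iff₀ hT]
      rw [← hβ] at i3
      linarith
  have h3 : (E.G' t + E.j t) = k.m t * ((1 + t) ^ 2)⁻¹ := by
    rw [hf.m t ht, mul_comm ((1 + t) ^ 2), mul_assoc, mul_inv_cancel₀ hT.ne', mul_one]
  have h4 : -(eta (xr x P a b) * k.Z' t) ≤ eta (xr x P a b) * k.b1 t * ((1 + t) ^ 2)⁻¹ := by
    rw [← div_eq_mul_inv, le_div_iff₀ hT]
    have i3 := mul_le_mul_of_nonneg_left (hk.b1 t ht) (eta_nonneg hy.1)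
    linarith
  rw [h3] at h1
  have e2 : k.fh (xr x P a b) t = (1 + (1 - xr x P a b) * (β + k.rho * k.sp * k.m t)
      + eta (xr x P a b) * k.b1 t) * ((1 + t) ^ 2)⁻¹ := by
    unfold Kf.fh Kf.b
    rw [hβ]
    ring
  rw [← hxe, e2, hf.rho, hf.sp]
  linarith

/-- **K4**: bound of the integrated densities -/
theorem Kf.Fit.fi_ge (hf : k.Fit c E) (hk : k.Ok) (hE : E.Ok) (hD : E.kd.Ok c g)
    (hx : Wt x P 1) (hw : Wr E.kd x P w) {a b : V} (ha : P a) (hb : P b) (hab : a ≠ b)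
    (ht : t ∈ Icc (0 : ℝ) 1) :
    1 - (1 + t)⁻¹ - psi c x P (pfOf E.kd x P w) a b t ≤ k.fi (xr x P a b) t := by
  have hy := xmem1 (P := P) hx a b
  have hT : 0 < 1 + t := by linarith [ht.1]
  unfold psi
  have hO : (pfOf E.kd x P w).Om a b t = Om E.kd.M' (w a b) t := rfl
  rw [hO, hf.al _ hy t ht]
  have h1 := Ek.Om_le' hD hE hx hw ha hb hab ht
  have h2 : ∑ d, c.mu (xr x P a b) (xr x P a d) (xr x P b d) t
      ≤ (1 - xr x P a b) / 2 * (k.F t + k.F3 t + k.F2 t) := by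
    have e : ∀ d, c.mu (xr x P a b) (xr x P a d) (xr x P b d) t
        = xr x P a d * xr x P b d * (k.F t + (xr x P a d + xr x P b d) * k.F3 t
          + 4 * (xr x P a d * xr x P b d) * k.F2 t) :=
      fun d => hf.mu _ _ _ _
    simp_rw [e]
    have i1 := hk.F0 t ht
    have i2 := hk.F20 t ht
    have i3 := hk.F30 t ht
    exact ch_le hx hab (by linarith) (by linarith) (by linarith) le_rfl
  have e3 : 1 - (1 + t)⁻¹ = t / (1 + t) := by field_simp; ring
  unfold Kf.fi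
  rw [← e3, hf.sp, ← hf.Gs t ht]
  linarith

end Pool.Agent.RZ.RCN.K
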