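import Pool.Agent.RZ.RCN.Fin
import Pool.Agent.RZ.RCN.KleB

/-! The functions of the cherry cost built from the certificate (MP_73ccd0_lc, route M). -/

namespace Pool.Agent.RZ.RCN.K

open Set Finset MeasureTheory Pool.Agent.RZ.RCRSHalf Pool.Agent.RZ.RCG Pool.Agent.RZ.RCG.Ct
open Pool.Agent.RZ.RCN.Ker Pool.Agent.RZ.RCRS

set_option linter.unusedSectionVars false

/-- the functions of the cherry cost -/
noncomputable def Dt.kf (T : Dt) (b0 b1 : ℝ → ℝ) (Pe : ℝ → ℝ → ℝ) (Pt : ℝ → ℝ → ℝ → ℝ) : Kf where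
  Z := T.Z
  Z' := T.Z'
  F := T.F
  F' := T.F'
  F2 := T.F2
  F2' := T.F2'
  F3 := T.F3
  F3' := T.F3'
  Gs := T.Gp
  m t := (1 + t) ^ 2 * (T.G' t + T.j t)
  rho := T.rho
  sp := T.SP
  b0 := b0
  b1 := b1
  Pe := Pe
  Pt := Pt

/-- `(1 + t)` times the bound of the integrated density -/
noncomputable def Dt.ez (T : Dt) (z t : ℝ) : ℝ :=
  t + (1 + t) * (-(eta z * T.Z t) + (1 - z) / 2 * (T.F t + T.F3 t + T.F2 t)
    + T.SP * (1 - z) * T.Gp t)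

/-- the side conditions of the functions of the cherry cost -/
structure Dt.KOk (T : Dt) (b0 b1 : ℝ → ℝ) (Pe : ℝ → ℝ → ℝ) (Pt : ℝ → ℝ → ℝ → ℝ) : Prop where
  cb0 : ContinuousOn b0 (Icc 0 1)
  cb1 : ContinuousOn b1 (Icc 0 1)
  cPe : ∀ w, ContinuousOn (Pe w) (Icc 0 1)
  be00 : ∀ t ∈ Icc (0 : ℝ) 1, 0 ≤ b0 t - 1 - T.SP * T.W0 t
  be01 : ∀ t ∈ Icc (0 : ℝ) 1, 0 ≤ b0 t - 1 - (1 + t) ^ 2 * T.F' t / 2 - T.SP * T.W0 t
  be02 : ∀ t ∈ Icc (0 : ℝ) 1,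
    0 ≤ b0 t - 1 - (1 + t) ^ 2 * (T.F' t + T.F3' t) / 2 - T.SP * T.W0 t
  be03 : ∀ t ∈ Icc (0 : ℝ) 1,
    0 ≤ b0 t - 1 - (1 + t) ^ 2 * (T.F' t + T.F3' t + T.F2' t) / 2 - T.SP * T.W0 t
  be1 : ∀ t ∈ Icc (0 : ℝ) 1, 0 ≤ b1 t + T.Z' t * (1 + t) ^ 2
  ez0 : ∀ z ∈ Icc (0 : ℝ) 1, ∀ t ∈ Icc (0 : ℝ) 1, 0 ≤ T.ez z t
  Pe0 : ∀ w ∈ Icc (0 : ℝ) 1, ∀ t ∈ Icc (0 : ℝ) 1, 0 ≤ Pe w t
  lt : ∀ w ∈ Icc (0 : ℝ) 1, ∀ z ∈ Icc (0 : ℝ) 1, w ≤ 2 * (1 - z) → ∀ t ∈ Icc (0 : ℝ) 1,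
    z * (Pe w t * T.ez z t) < 1 + t
  pt : ∀ w ∈ Icc (0 : ℝ) 1, ∀ z ∈ Icc (0 : ℝ) 1, w ≤ 2 * (1 - z) → ∀ t ∈ Icc (0 : ℝ) 1,
    Pe w t * T.ez z t ≤ (1 + t) * (1 + t - z * (Pe w t * T.ez z t)) * Pt w z t
  hC : ∀ x ∈ Icc (0 : ℝ) 1, ∀ y ∈ Icc (0 : ℝ) 1, ∀ z ∈ Icc (0 : ℝ) 1, ∀ t ∈ Icc (0 : ℝ) 1,
    x + y ≤ 1 → x + z ≤ 1 → y + z ≤ 1 →
    (1 + (1 - y) * (b0 t - 1) + eta y * b1 t) * Pt (x + y) z t ≤ T.C1' x y z t

variable {T : Dt} {b0 b1 : ℝ → ℝ} {Pe : ℝ → ℝ → ℝ} {Pt : ℝ → ℝ → ℝ → ℝ}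

theorem Dt.fi_eq {z t : ℝ} (ht : t ∈ Icc (0 : ℝ) 1) :
    (1 + t) * (T.kf b0 b1 Pe Pt).fi z t = T.ez z t := by
  have h0 : (1 + t) ≠ 0 := by linarith [ht.1]
  show (1 + t) * (t / (1 + t) - eta z * T.Z t + (1 - z) / 2 * (T.F t + T.F3 t + T.F2 t)
    + T.SP * (1 - z) * T.Gp t) = _
  unfold Dt.ez
  field_simp
  ring

theorem Dt.kf_ok (h : T.Ok) (hk : T.KOk b0 b1 Pe Pt) : (T.kf b0 b1 Pe Pt).Ok := by
  have hW : ∀ t, T.SP * T.W0 t = T.rho * T.SP * ((1 + t) ^ 2 * (T.G' t + T.j t)) := fun t => by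
    unfold Dt.W0; ring
  have hfi : ∀ z, ∀ t ∈ Icc (0 : ℝ) 1, (T.kf b0 b1 Pe Pt).fi z t = (1 + t)⁻¹ * T.ez z t := by
    intro z t ht
    have h0 : (1 + t) ≠ 0 := by linarith [ht.1]
    rw [← Dt.fi_eq (b0 := b0) (b1 := b1) (Pe := Pe) (Pt := Pt) ht, inv_mul_cancel_left₀ h0]
  refine
    { rho0 := h.rho0
      sp0 := h.SPn
      m0 := fun t ht => mul_nonneg (sq_nonneg _) (h.Mp t ht)
      b00 := fun t ht => by
        have := hk.be00 t ht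
        rw [hW] at this
        exact this
      b01 := fun t ht => by
        have := hk.be01 t ht
        rw [hW] at this
        show (1 + t) ^ 2 * T.F' t / 2 ≤ b0 t - 1 - T.rho * T.SP * ((1 + t) ^ 2 * (T.G' t + T.j t))
        linarith
      b02 := fun t ht => by
        have := hk.be02 t ht
        rw [hW] at this
        show (1 + t) ^ 2 * (T.F' t + T.F3' t) / 2
          ≤ b0 t - 1 - T.rho * T.SP * ((1 + t) ^ 2 * (T.G' t + T.j t))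
        linarith
      b03 := fun t ht => by
        have := hk.be03 t ht
        rw [hW] at this
        show (1 + t) ^ 2 * (T.F' t + T.F3' t + T.F2' t) / 2
          ≤ b0 t - 1 - T.rho * T.SP * ((1 + t) ^ 2 * (T.G' t + T.j t))
        linarith
      b1 := fun t ht => by
        have := hk.be1 t ht
        show -((1 + t) ^ 2 * T.Z' t) ≤ b1 t
        linarith
      z2 := fun t ht => ?_
      F0 := h.hF
      F20 := h.hF2
      F30 := h.hF3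
      fi0 := fun z hz t ht => ?_
      Pe0 := hk.Pe0
      lt := fun w hw z hz hwz t ht => ?_
      pt := fun w hw z hz hwz t ht => ?_ }
  · show (1 + t) ^ 2 * T.Z' t ≤ 2
    have h1 := h.abd t ht
    have h2 := h.th0
    rcases le_total (T.Z' t) 0 with h3 | h3
    · have : (1 + t) ^ 2 * T.Z' t ≤ 0 := mul_nonpos_of_nonneg_of_nonpos (sq_nonneg _) h3
      linarith
    · have h4 : 0 ≤ T.Z' t * (1 + t) ^ 2 := mul_nonneg h3 (sq_nonneg _)
      have h5 := mul_le_mul_of_nonneg_right h2 h4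
      nlinarith
  · have hT : 0 < 1 + t := by linarith [ht.1]
    rw [hfi z t ht]
    exact mul_nonneg (inv_pos.2 hT).le (hk.ez0 z hz t ht)
  · have hT : 0 < 1 + t := by linarith [ht.1]
    show z * (Pe w t * (T.kf b0 b1 Pe Pt).fi z t) < 1
    rw [hfi z t ht]
    have h1 := hk.lt w hw z hz hwz t ht
    have e : z * (Pe w t * ((1 + t)⁻¹ * T.ez z t)) = z * (Pe w t * T.ez z t) / (1 + t) := by
      rw [div_eq_mul_inv]; ring
    rw [e, div_lt_one hT]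
    exact h1
  · have hT : 0 < 1 + t := by linarith [ht.1]
    show Pe w t * (T.kf b0 b1 Pe Pt).fi z t
      ≤ (1 + t) * (1 - z * (Pe w t * (T.kf b0 b1 Pe Pt).fi z t)) * Pt w z t
    rw [hfi z t ht]
    have h1 := hk.pt w hw z hz hwz t ht
    refine le_of_mul_le_mul_left ?_ hT
    have e1 : (1 + t) * (Pe w t * ((1 + t)⁻¹ * T.ez z t)) = Pe w t * T.ez z t := by
      field_simp
    have e2 : (1 + t) * ((1 + t) * (1 - z * (Pe w t * ((1 + t)⁻¹ * T.ez z t))) * Pt w z t)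
        = (1 + t) * (1 + t - z * (Pe w t * T.ez z t)) * Pt w z t := by
      field_simp
    rw [e1, e2]
    exact h1

theorem Dt.kf_fit (T : Dt) (b0 b1 : ℝ → ℝ) (Pe : ℝ → ℝ → ℝ) (Pt : ℝ → ℝ → ℝ → ℝ) :
    (T.kf b0 b1 Pe Pt).Fit T.cf T.ek where
  al _ _ _ _ := rfl
  al' _ _ _ _ := rfl
  mu _ _ _ _ := rfl
  mu' _ _ _ _ := rfl
  rho := rfl
  sp := rfl
  Gs _ _ := rfl
  m _ _ := rfl

/-- **the functions of the cost bounds** -/
theorem Dt.kq (h : T.Ok) (hk : T.KOk b0 b1 Pe Pt) :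
    Kq T (T.kf b0 b1 Pe Pt).fh (T.kf b0 b1 Pe Pt).mb := by
  have ok := Dt.kf_ok h hk
  have cF : ContinuousOn T.F (Icc 0 1) := fun t ht => (h.dF t ht).continuousAt.continuousWithinAt
  have cF2 : ContinuousOn T.F2 (Icc 0 1) :=
    fun t ht => (h.dF2 t ht).continuousAt.continuousWithinAt
  have cF3 : ContinuousOn T.F3 (Icc 0 1) :=
    fun t ht => (h.dF3 t ht).continuousAt.continuousWithinAt
  have cZ : ContinuousOn T.Z (Icc 0 1) := fun t ht => (h.dZ t ht).continuousAt.continuousWithinAt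
  have c1 : ContinuousOn (fun t : ℝ => 1 + t) (Icc 0 1) := by fun_prop
  have hne : ∀ t ∈ Icc (0 : ℝ) 1, (1 + t) ≠ 0 := fun t ht => by linarith [ht.1]
  refine
    { f0 := fun y hy t ht => ok.fh_nonneg hy ht
      fc := fun y hy => ?_
      m0 := fun x hx y hy z hz t ht hxy _ _ => ok.mb_nonneg hx hy hz hxy ht
      ms := fun x y z t => by unfold Kf.mb; rw [add_comm x y]
      mz := fun x y t => by unfold Kf.mb; rw [zero_mul]
      mc := fun x hx y hy z hz => ?_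
      mq := fun x hx y hy z hz t ht hxy hxz hyz => ?_ }
  · show ContinuousOn (fun t => (1 + (1 - y) * (b0 t - 1) + eta y * b1 t) * ((1 + t) ^ 2)⁻¹) _
    exact ((continuousOn_const.add (continuousOn_const.mul (hk.cb0.sub continuousOn_const))).add
      (continuousOn_const.mul hk.cb1)).mul
      ((c1.pow 2).inv₀ fun t ht => pow_ne_zero 2 (hne t ht))
  · show ContinuousOn (fun t => z * (Pe (x + y) t * (t / (1 + t) - eta z * T.Z t
      + (1 - z) / 2 * (T.F t + T.F3 t + T.F2 t) + T.SP * (1 - z) * T.Gp t))) _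
    refine continuousOn_const.mul ((hk.cPe _).mul ?_)
    exact (((continuousOn_id.div c1 hne).sub (continuousOn_const.mul cZ)).add
      (continuousOn_const.mul ((cF.add cF3).add cF2))).add (continuousOn_const.mul h.cGp)
  · refine (ok.side hx hy hz hxy hxz hyz ht).trans ?_
    exact mul_le_mul_of_nonneg_left (hk.hC x hx y hy z hz t ht hxy hxz hyz)
      (mul_nonneg hy.1 hz.1)

variable {V : Type*} [Fintype V] [DecidableEq V] {x : V → V → ℝ} {P : V → Prop}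
  [DecidablePred P] {w : V → V → ℝ → ℝ}

/-- the bound of the densities for the functions of the certificate -/
theorem Dt.phi_le (h : T.Ok) (hk : T.KOk b0 b1 Pe Pt) (hx : Wt x P 1)
    (hw : Wr T.ek.kd x P w) {a b : V} (ha : P a) (hb : P b) (hab : x a b ≠ 0) {t : ℝ}
    (ht : t ∈ Icc (0 : ℝ) 1) :
    dn x P (psi' T.cf x P (pfOf T.ek.kd x P w)) a b t
      ≤ (T.kf b0 b1 Pe Pt).fh (xr x P a b) t := by
  have e : xr x P a b = x a b := by unfold xr; rw [if_pos ⟨ha, hb⟩]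
  rw [e]
  exact (T.kf_fit b0 b1 Pe Pt).phi_le (Dt.kf_ok h hk) (Dt.ek_ok h) (Dt.kd_ok h) hx hw ha hb hab ht

end Pool.Agent.RZ.RCN.K
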