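import Mathlib

/-! Functions on the triangle `0 ≤ s ≤ t ≤ 1` which are continuous on cells in `t`: continuity of
integrals with a moving endpoint, measurability (MP_73ccd0_lc, route M). -/

namespace Pool.Agent.RZ.RCN

open Set MeasureTheory

/-- the wedge `α ≤ t ≤ β`, `0 ≤ s ≤ t`; points are `(t, s)` -/
def Wg (α β : ℝ) : Set (ℝ × ℝ) := {p | (α ≤ p.1 ∧ p.1 ≤ β) ∧ 0 ≤ p.2 ∧ p.2 ≤ p.1}

/-- the retraction onto the wedge -/
noncomputable def wgR (α β : ℝ) (p : ℝ × ℝ) : ℝ × ℝ :=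
  (max α (min p.1 β), max 0 (min p.2 (max α (min p.1 β))))

variable {α β : ℝ}

theorem wgR_cont : Continuous (wgR α β) := by unfold wgR; fun_prop

theorem wgR_mem (h0 : 0 ≤ α) (h : α ≤ β) (p : ℝ × ℝ) : wgR α β p ∈ Wg α β :=
  ⟨⟨le_max_left _ _, max_le h (min_le_right _ _)⟩, le_max_left _ _,
    max_le (h0.trans (le_max_left _ _)) (min_le_right _ _)⟩

theorem wgR_eq {p : ℝ × ℝ} (hp : p ∈ Wg α β) : wgR α β p = p := by
  obtain ⟨⟨h1, h2⟩, h3, h4⟩ := hp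
  have e1 : max α (min p.1 β) = p.1 := by rw [min_eq_left h2, max_eq_right h1]
  unfold wgR
  rw [e1, min_eq_left h4, max_eq_right h3]

/-- continuity of `t ↦ ∫₀ᵗ F(t, s) ds` on a cell -/
theorem wg_int (h0 : 0 ≤ α) (h : α ≤ β) {F : ℝ → ℝ → ℝ}
    (hF : ContinuousOn (fun p : ℝ × ℝ => F p.1 p.2) (Wg α β)) :
    ContinuousOn (fun t => ∫ s in (0 : ℝ)..t, F t s) (Icc α β) := by
  have hc : Continuous fun p : ℝ × ℝ => F (wgR α β p).1 (wgR α β p).2 :=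
    hF.comp_continuous wgR_cont (wgR_mem h0 h)
  have h1 : Continuous fun t => ∫ s in (0 : ℝ)..t, F (wgR α β (t, s)).1 (wgR α β (t, s)).2 :=
    intervalIntegral.continuous_parametric_intervalIntegral_of_continuous
      (f := fun t s => F (wgR α β (t, s)).1 (wgR α β (t, s)).2) hc continuous_id
  refine h1.continuousOn.congr fun t ht => ?_
  refine intervalIntegral.integral_congr fun s hs => ?_
  rw [uIcc_of_le (h0.trans ht.1)] at hs
  have : (t, s) ∈ Wg α β := ⟨ht, hs.1, hs.2⟩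
  show F t s = F (wgR α β (t, s)).1 (wgR α β (t, s)).2
  rw [wgR_eq this]

/-- joint continuity of `(t, s) ↦ ∫ₛᵗ F(t, r) dr` on a wedge -/
theorem wg_tail (h0 : 0 ≤ α) (h : α ≤ β) {F : ℝ → ℝ → ℝ}
    (hF : ContinuousOn (fun p : ℝ × ℝ => F p.1 p.2) (Wg α β)) :
    ContinuousOn (fun p : ℝ × ℝ => ∫ r in p.2..p.1, F p.1 r) (Wg α β) := by
  have hc : Continuous fun p : ℝ × ℝ => F (wgR α β p).1 (wgR α β p).2 :=
    hF.comp_continuous wgR_cont (wgR_mem h0 h)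
  have hk : ∀ t, Continuous fun s => F (wgR α β (t, s)).1 (wgR α β (t, s)).2 := fun t =>
    hc.comp (by fun_prop : Continuous fun s : ℝ => (t, s))
  have h1 : Continuous fun p : ℝ × ℝ => ∫ r in (0 : ℝ)..p.1,
      F (wgR α β (p.1, r)).1 (wgR α β (p.1, r)).2 :=
    intervalIntegral.continuous_parametric_intervalIntegral_of_continuous
      (f := fun (p : ℝ × ℝ) r => F (wgR α β (p.1, r)).1 (wgR α β (p.1, r)).2)
      (hc.comp (by fun_prop : Continuous fun q : (ℝ × ℝ) × ℝ => (q.1.1, q.2))) continuous_fst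
  have h2 : Continuous fun p : ℝ × ℝ => ∫ r in (0 : ℝ)..p.2,
      F (wgR α β (p.1, r)).1 (wgR α β (p.1, r)).2 :=
    intervalIntegral.continuous_parametric_intervalIntegral_of_continuous
      (f := fun (p : ℝ × ℝ) r => F (wgR α β (p.1, r)).1 (wgR α β (p.1, r)).2)
      (hc.comp (by fun_prop : Continuous fun q : (ℝ × ℝ) × ℝ => (q.1.1, q.2))) continuous_snd
  refine (h1.sub h2).continuousOn.congr fun p hp => ?_
  obtain ⟨a1, a2, a3⟩ := hp
  show ∫ r in p.2..p.1, F p.1 r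
    = (∫ r in (0 : ℝ)..p.1, F (wgR α β (p.1, r)).1 (wgR α β (p.1, r)).2)
    - ∫ r in (0 : ℝ)..p.2, F (wgR α β (p.1, r)).1 (wgR α β (p.1, r)).2
  rw [intervalIntegral.integral_interval_sub_left ((hk p.1).intervalIntegrable _ _)
    ((hk p.1).intervalIntegrable _ _)]
  refine intervalIntegral.integral_congr fun r hr => ?_
  rw [uIcc_of_le a3] at hr
  have : (p.1, r) ∈ Wg α β := ⟨a1, a2.trans hr.1, hr.2⟩
  show F p.1 r = F (wgR α β (p.1, r)).1 (wgR α β (p.1, r)).2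
  rw [wgR_eq this]

/-- slices of the wedge -/
theorem wg_slice {F : ℝ → ℝ → ℝ} (hF : ContinuousOn (fun p : ℝ × ℝ => F p.1 p.2) (Wg α β))
    {t : ℝ} (ht : t ∈ Icc α β) : ContinuousOn (F t) (Icc 0 t) :=
  hF.comp (f := fun s => (t, s)) (by fun_prop) fun _ hs => ⟨ht, hs.1, hs.2⟩

/-- left end of a cell -/
noncomputable def ca (N i : ℕ) : ℝ := (i : ℝ) / N

/-- right end of a cell -/
noncomputable def cb (N i : ℕ) : ℝ := ((i : ℝ) + 1) / N

theorem ca_nonneg (N i : ℕ) : 0 ≤ ca N i := by unfold ca; positivity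

theorem ca_le_cb (N i : ℕ) : ca N i ≤ cb N i := by
  unfold ca cb
  exact div_le_div_of_nonneg_right (by linarith) (Nat.cast_nonneg N)

theorem cb_le_one {N i : ℕ} (h : i < N) : cb N i ≤ 1 := by
  unfold cb
  have : (0 : ℝ) < N := Nat.cast_pos.2 (lt_of_le_of_lt (Nat.zero_le i) h)
  rw [div_le_one this]
  exact_mod_cast h

theorem cell_sub {N i : ℕ} (h : i < N) : Icc (ca N i) (cb N i) ⊆ Icc 0 1 :=
  Icc_subset_Icc (ca_nonneg N i) (cb_le_one h)

theorem exists_cell {N : ℕ} (hN : 0 < N) {t : ℝ} (h0 : 0 < t) (h1 : t ≤ 1) :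
    ∃ i < N, ca N i < t ∧ t ≤ cb N i := by
  have hN' : (0 : ℝ) < N := Nat.cast_pos.2 hN
  have h2 : 0 < t * N := mul_pos h0 hN'
  have h3 : 0 < ⌈t * N⌉₊ := Nat.ceil_pos.2 h2
  have h4 : ⌈t * N⌉₊ ≤ N := by
    rw [Nat.ceil_le]
    calc t * N ≤ 1 * N := mul_le_mul_of_nonneg_right h1 hN'.le
      _ = N := one_mul _
  refine ⟨⌈t * N⌉₊ - 1, by omega, ?_, ?_⟩
  · unfold ca
    rw [div_lt_iff₀ hN']
    have h5 := Nat.ceil_lt_add_one h2.le
    have h6 : ((⌈t * N⌉₊ - 1 : ℕ) : ℝ) = (⌈t * N⌉₊ : ℝ) - 1 := by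
      rw [Nat.cast_sub (by omega)]; simp
    rw [h6]
    linarith
  · unfold cb
    rw [le_div_iff₀ hN']
    have h5 := Nat.le_ceil (t * N)
    have h6 : ((⌈t * N⌉₊ - 1 : ℕ) : ℝ) = (⌈t * N⌉₊ : ℝ) - 1 := by
      rw [Nat.cast_sub (by omega)]; simp
    rw [h6]
    linarith

/-- piecewise joint continuity on the triangle, with `N` cells in `t` -/
def CN (N : ℕ) (F : ℝ → ℝ → ℝ) : Prop :=
  ∀ i < N, ∃ G : ℝ → ℝ → ℝ, ContinuousOn (fun p : ℝ × ℝ => G p.1 p.2) (Wg (ca N i) (cb N i)) ∧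
    ∀ t s, ca N i < t → t ≤ cb N i → 0 ≤ s → s ≤ t → F t s = G t s

/-- piecewise continuity in `t` -/
def CP (N : ℕ) (f : ℝ → ℝ) : Prop :=
  ∀ i < N, ∃ g : ℝ → ℝ, ContinuousOn g (Icc (ca N i) (cb N i)) ∧
    ∀ t, ca N i < t → t ≤ cb N i → f t = g t

variable {N : ℕ} {F G : ℝ → ℝ → ℝ}

theorem CN.mul (hF : CN N F) (hG : CN N G) : CN N fun t s => F t s * G t s := fun i hi => by
  obtain ⟨f, cf, ef⟩ := hF i hi
  obtain ⟨g, cg, eg⟩ := hG i hi
  exact ⟨fun t s => f t s * g t s, cf.mul cg, fun t s h1 h2 h3 h4 => by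
    beta_reduce; rw [ef t s h1 h2 h3 h4, eg t s h1 h2 h3 h4]⟩

theorem CN.add (hF : CN N F) (hG : CN N G) : CN N fun t s => F t s + G t s := fun i hi => by
  obtain ⟨f, cf, ef⟩ := hF i hi
  obtain ⟨g, cg, eg⟩ := hG i hi
  exact ⟨fun t s => f t s + g t s, cf.add cg, fun t s h1 h2 h3 h4 => by
    beta_reduce; rw [ef t s h1 h2 h3 h4, eg t s h1 h2 h3 h4]⟩

theorem CN.sub (hF : CN N F) (hG : CN N G) : CN N fun t s => F t s - G t s := fun i hi => by
  obtain ⟨f, cf, ef⟩ := hF i hi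
  obtain ⟨g, cg, eg⟩ := hG i hi
  exact ⟨fun t s => f t s - g t s, cf.sub cg, fun t s h1 h2 h3 h4 => by
    beta_reduce; rw [ef t s h1 h2 h3 h4, eg t s h1 h2 h3 h4]⟩

theorem CN.min (hF : CN N F) (hG : CN N G) : CN N fun t s => Min.min (F t s) (G t s) :=
  fun i hi => by
  obtain ⟨f, cf, ef⟩ := hF i hi
  obtain ⟨g, cg, eg⟩ := hG i hi
  exact ⟨fun t s => Min.min (f t s) (g t s), cf.inf cg, fun t s h1 h2 h3 h4 => by
    beta_reduce; rw [ef t s h1 h2 h3 h4, eg t s h1 h2 h3 h4]⟩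

theorem CN.const (c : ℝ) : CN N fun _ _ => c := fun _ _ =>
  ⟨fun _ _ => c, continuousOn_const, fun _ _ _ _ _ _ => rfl⟩

theorem CN.fst {f : ℝ → ℝ} (hf : CP N f) : CN N fun t _ => f t := fun i hi => by
  obtain ⟨g, cg, eg⟩ := hf i hi
  exact ⟨fun t _ => g t, cg.comp continuousOn_fst fun p hp => hp.1,
    fun t _ h1 h2 _ _ => eg t h1 h2⟩

theorem CP.of_cont {f : ℝ → ℝ} (hf : ContinuousOn f (Icc 0 1)) : CP N f := fun _ hi =>
  ⟨f, hf.mono (cell_sub hi), fun _ _ _ => rfl⟩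

theorem CN.snd {f : ℝ → ℝ} (hf : ContinuousOn f (Icc 0 1)) : CN N fun _ s => f s := fun i hi =>
  ⟨fun _ s => f s, hf.comp continuousOn_snd fun _ hp =>
    ⟨hp.2.1, hp.2.2.trans (hp.1.2.trans (cb_le_one hi))⟩, fun _ _ _ _ _ _ => rfl⟩

theorem CN.sum {ι : Type*} {s : Finset ι} {F : ι → ℝ → ℝ → ℝ} (hF : ∀ i ∈ s, CN N (F i)) :
    CN N fun t r => ∑ i ∈ s, F i t r := fun j hj => by
  choose! g cg eg using fun i hi => hF i hi j hj
  exact ⟨fun t r => ∑ i ∈ s, g i t r, continuousOn_finsetSum _ fun i hi => cg i hi,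
    fun t r h1 h2 h3 h4 => Finset.sum_congr rfl fun i hi => eg i hi t r h1 h2 h3 h4⟩

theorem CN.of_cont (hF : ContinuousOn (fun p : ℝ × ℝ => F p.1 p.2) (Wg 0 1)) : CN N F :=
  fun i hi => ⟨F, hF.mono fun _ hp => ⟨⟨(ca_nonneg N i).trans hp.1.1,
    hp.1.2.trans (cb_le_one hi)⟩, hp.2⟩, fun _ _ _ _ _ _ => rfl⟩

theorem CN.tail (hF : CN N F) : CN N fun t s => ∫ r in s..t, F t r := fun i hi => by
  obtain ⟨f, cf, ef⟩ := hF i hi
  refine ⟨fun t s => ∫ r in s..t, f t r, wg_tail (ca_nonneg N i) (ca_le_cb N i) cf,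
    fun t s h1 h2 h3 h4 => ?_⟩
  refine intervalIntegral.integral_congr fun r hr => ?_
  rw [uIcc_of_le h4] at hr
  exact ef t r h1 h2 (h3.trans hr.1) hr.2

theorem CN.int (hF : CN N F) : CP N fun t => ∫ s in (0 : ℝ)..t, F t s := fun i hi => by
  obtain ⟨f, cf, ef⟩ := hF i hi
  refine ⟨fun t => ∫ s in (0 : ℝ)..t, f t s, wg_int (ca_nonneg N i) (ca_le_cb N i) cf,
    fun t h1 h2 => ?_⟩
  refine intervalIntegral.integral_congr fun r hr => ?_
  rw [uIcc_of_le ((ca_nonneg N i).trans h1.le)] at hr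
  exact ef t r h1 h2 hr.1 hr.2

theorem CN.slice (hN : 0 < N) (hF : CN N F) {t : ℝ} (ht : t ∈ Icc (0 : ℝ) 1) :
    ContinuousOn (F t) (Icc 0 t) := by
  rcases eq_or_lt_of_le ht.1 with h0 | h0
  · rw [← h0, Icc_self]
    exact continuousOn_singleton _ _
  · obtain ⟨i, hi, h1, h2⟩ := exists_cell hN h0 ht.2
    obtain ⟨f, cf, ef⟩ := hF i hi
    exact (wg_slice cf ⟨h1.le, h2⟩).congr fun s hs => ef t s h1 h2 hs.1 hs.2

theorem CP.mul {f g : ℝ → ℝ} (hf : CP N f) (hg : CP N g) : CP N fun t => f t * g t :=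
  fun i hi => by
  obtain ⟨a, ca', ea⟩ := hf i hi
  obtain ⟨b, cb', eb⟩ := hg i hi
  exact ⟨fun t => a t * b t, ca'.mul cb', fun t h1 h2 => by
    beta_reduce; rw [ea t h1 h2, eb t h1 h2]⟩

theorem CP.add {f g : ℝ → ℝ} (hf : CP N f) (hg : CP N g) : CP N fun t => f t + g t :=
  fun i hi => by
  obtain ⟨a, ca', ea⟩ := hf i hi
  obtain ⟨b, cb', eb⟩ := hg i hi
  exact ⟨fun t => a t + b t, ca'.add cb', fun t h1 h2 => by
    beta_reduce; rw [ea t h1 h2, eb t h1 h2]⟩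

/-- piecewise continuous functions are measurable -/
theorem CP.meas (hN : 0 < N) {f : ℝ → ℝ} (hf : CP N f) :
    AEMeasurable f (volume.restrict (Icc 0 1)) := by
  have h1 : ∀ i : Fin N, AEMeasurable f (volume.restrict (Ioc (ca N i) (cb N i))) := fun i => by
    obtain ⟨g, cg, eg⟩ := hf i i.2
    have h2 : AEMeasurable g (volume.restrict (Icc (ca N i) (cb N i))) :=
      cg.aemeasurable measurableSet_Icc
    refine (h2.mono_measure (Measure.restrict_mono Ioc_subset_Icc_self le_rfl)).congr ?_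
    filter_upwards [ae_restrict_mem measurableSet_Ioc] with t ht
    exact (eg t ht.1 ht.2).symm
  have h2 := aemeasurable_iUnion_iff.2 h1
  have h3 : Ioc (0 : ℝ) 1 ⊆ ⋃ i : Fin N, Ioc (ca N i) (cb N i) := fun t ht => by
    obtain ⟨i, hi, h4, h5⟩ := exists_cell hN ht.1 ht.2
    exact mem_iUnion.2 ⟨⟨i, hi⟩, h4, h5⟩
  have h4 := h2.mono_measure (Measure.restrict_mono h3 le_rfl)
  rwa [Measure.restrict_congr_set Ioc_ae_eq_Icc] at h4

end Pool.Agent.RZ.RCN
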