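import Pool.Agent.RZ.RCG.Cx
import Pool.Agent.RZ.RCN.Par

/-! The bridge: the closures with explicit constants in the cells give the facts about the
certified process (MP_73ccd0_lc, route M). -/

namespace Pool.Agent.RZ.RCN.K

open Set Finset MeasureTheory Pool.Agent.RZ.RCRSHalf Pool.Agent.RZ.RCG

set_option linter.unusedSectionVars false

/-! ### the cell of a time -/

/-- the cell of a time -/
noncomputable def ci (N : ℕ) (t : ℝ) : ℕ := ⌈t * N⌉₊ - 1

theorem ci_lt {N : ℕ} (hN : 0 < N) {t : ℝ} (h1 : t ≤ 1) : ci N t < N := by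
  have hN' : (0 : ℝ) < N := Nat.cast_pos.2 hN
  have h4 : ⌈t * N⌉₊ ≤ N := by
    rw [Nat.ceil_le]
    calc t * N ≤ 1 * N := mul_le_mul_of_nonneg_right h1 hN'.le
      _ = N := one_mul _
  unfold ci
  omega

theorem ci_eq {N : ℕ} {i : ℕ} {t : ℝ} (hN : 0 < N) (h0 : ca N i < t) (h1 : t ≤ cb N i) :
    ci N t = i := by
  have hN' : (0 : ℝ) < N := Nat.cast_pos.2 hN
  unfold ca at h0
  unfold cb at h1
  rw [div_lt_iff₀ hN'] at h0
  rw [le_div_iff₀ hN'] at h1
  have h2 : ⌈t * N⌉₊ = i + 1 := by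
    refine le_antisymm (Nat.ceil_le.2 (by push_cast; exact h1)) ?_
    exact Nat.lt_ceil.2 h0
  unfold ci
  rw [h2]
  omega

theorem ci_mem {N : ℕ} (hN : 0 < N) {t : ℝ} (h0 : 0 ≤ t) (h1 : t ≤ 1) :
    t ∈ Icc (ca N (ci N t)) (cb N (ci N t)) := by
  rcases eq_or_lt_of_le h0 with h | h
  · subst h
    have e : ci N 0 = 0 := by unfold ci; simp
    rw [e]
    unfold ca cb
    constructor
    · simp
    · positivity
  · obtain ⟨i, _, h2, h3⟩ := exists_cell hN h h1
    rw [ci_eq hN h2 h3]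
    exact ⟨h2.le, h3⟩

/-! ### classes of the second time -/

/-- the weight of the later classes -/
noncomputable def lam (ε σ s : ℝ) : ℝ := max 0 (min 1 ((s - σ) / ε + 1))

theorem lam_nonneg (ε σ s : ℝ) : 0 ≤ lam ε σ s := le_max_left _ _

theorem lam_le_one (ε σ s : ℝ) : lam ε σ s ≤ 1 := max_le zero_le_one (min_le_left _ _)

theorem lam_cont (ε σ : ℝ) : Continuous (lam ε σ) := by
  unfold lam
  fun_prop

theorem lam_one {ε σ s : ℝ} (hε : 0 < ε) (h : σ ≤ s) : lam ε σ s = 1 := by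
  unfold lam
  have h1 : 0 ≤ (s - σ) / ε := div_nonneg (by linarith) hε.le
  rw [min_eq_left (by linarith), max_eq_right zero_le_one]

theorem lam_zero {ε σ s : ℝ} (hε : 0 < ε) (h : s ≤ σ - ε) : lam ε σ s = 0 := by
  unfold lam
  have h1 : (s - σ) / ε + 1 ≤ 0 := by
    have h2 : (s - σ) / ε ≤ -1 := by
      rw [div_le_iff₀ hε]
      linarith
    linarith
  rw [max_eq_left ((min_le_right _ _).trans h1)]

/-- the interpolation of the classes; `n` classes after the class `j` -/
noncomputable def bl (ε : ℝ) (σ : ℕ → ℝ) (f : ℕ → ℝ) (s : ℝ) : ℕ → ℕ → ℝ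
  | 0, j => f j
  | n + 1, j => (1 - lam ε (σ j) s) * f j + lam ε (σ j) s * bl ε σ f s n (j + 1)

theorem bl_succ (ε : ℝ) (σ f : ℕ → ℝ) (s : ℝ) (n j : ℕ) : bl ε σ f s (n + 1) j
    = (1 - lam ε (σ j) s) * f j + lam ε (σ j) s * bl ε σ f s n (j + 1) := rfl

/-- linear combinations -/
theorem bl_sum {ε : ℝ} {σ : ℕ → ℝ} {s : ℝ} {ι : Type*} (U : Finset ι) (w : ι → ℝ)
    (f : ι → ℕ → ℝ) (n : ℕ) : ∀ j, ∑ q ∈ U, w q * bl ε σ (f q) s n j
      = bl ε σ (fun i => ∑ q ∈ U, w q * f q i) s n j := by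
  induction n with
  | zero => exact fun j => rfl
  | succ n ih =>
    intro j
    rw [bl_succ, ← ih (j + 1), Finset.mul_sum, Finset.mul_sum, ← Finset.sum_add_distrib]
    refine Finset.sum_congr rfl fun q _ => ?_
    rw [bl_succ]
    ring

/-- a constant bound of the active classes -/
theorem bl_le {ε : ℝ} (hε : 0 < ε) {σ f : ℕ → ℝ} {s c : ℝ} (n : ℕ) :
    ∀ j, (∀ i, j ≤ i → i ≤ j + n → (i < j + n → s ≤ σ i) → (∀ k, j ≤ k → k < i → σ k - ε < s) →
      f i ≤ c) → bl ε σ f s n j ≤ c := by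
  induction n with
  | zero =>
    exact fun j h => h j le_rfl le_rfl (fun h => absurd h (lt_irrefl _))
      (fun k h1 h2 => absurd h2 (not_lt.2 h1))
  | succ n ih =>
    intro j h
    rw [bl_succ]
    by_cases h0 : s ≤ σ j - ε
    · rw [lam_zero hε h0]
      have := h j le_rfl (by omega) (fun _ => by linarith) fun k h1 h2 => absurd h2 (not_lt.2 h1)
      linarith
    · have h1 : bl ε σ f s n (j + 1) ≤ c :=
        ih (j + 1) fun i h2 h3 h4 h5 => h i (by omega) (by omega) (fun h6 => h4 (by omega))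
          fun k h6 h7 => by
            rcases eq_or_lt_of_le h6 with h8 | h8
            · rw [← h8]; exact not_le.1 h0
            · exact h5 k h8 h7
      have l0 := lam_nonneg ε (σ j) s
      have l1 := lam_le_one ε (σ j) s
      by_cases hj : s ≤ σ j
      · have h2 := h j le_rfl (by omega) (fun _ => hj) fun k h1 h2 => absurd h2 (not_lt.2 h1)
        nlinarith
      · rw [lam_one hε (not_le.1 hj).le]
        linarith

variable {V : Type*} [Fintype V] [DecidableEq V]

/-- cells of the first time and classes of the second time, with the exponents of the closures -/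
structure Cx (V : Type*) where
  N : ℕ
  M : ℕ → ℕ
  sg : ℕ → ℕ → ℝ
  ε : ℝ
  L : ℕ → ℕ → V → V → V → V → ℝ → ℝ → ℝ
  Lt : ℕ → ℕ → V → V → V → V → ℝ → ℝ → ℝ

section defs

variable (x : V → V → ℝ) (P : V → Prop) [DecidablePred P] (C : Cx V)

/-- valid quadruples -/
def Vq (a b c d : V) : Prop :=
  P a ∧ P b ∧ a ≠ b ∧ c ∈ ({a, b} : Finset V)ᶜ ∧ d ∈ ({a, b} : Finset V)ᶜ ∧ c ≠ d

instance (a b c d : V) : Decidable (Vq P a b c d) := by unfold Vq; infer_instance

/-- the exponent of the deleted closure -/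
noncomputable def Lc (a b c d : V) (t s : ℝ) : ℝ :=
  if Vq P a b c d then
    bl C.ε (C.sg (ci C.N t)) (fun j => max 0 (C.L (ci C.N t) j a b c d t
      (min s (C.sg (ci C.N t) j)))) s (C.M (ci C.N t)) 0
  else 0

/-- the exponent of the released closure -/
noncomputable def Lr (a b c d : V) (t s : ℝ) : ℝ :=
  if Vq P a b c d then
    bl C.ε (C.sg (ci C.N t)) (fun j => max 0 (C.Lt (ci C.N t) j a b c d t
      (min s (C.sg (ci C.N t) j)))) s (C.M (ci C.N t)) 0
  else 0

end defs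

section world

end world

section final

end final

end Pool.Agent.RZ.RCN.K
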