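import Pool.Agent.RZ.RCM.NuB
import Pool.Agent.RZ.RCM.WldV_2
import Pool.Agent.RZ.RCN.Brg_1
import Pool.Agent.RZ.RCN.Hz

/-! The bridge: the closures with explicit constants in the cells give the facts about the
certified process (MP_73ccd0_lc, route M). -/

namespace Pool.Agent.RZ.RCN.K

open Set Finset MeasureTheory Pool.Agent.RZ.RCRSHalf Pool.Agent.RZ.RCG Pool.Agent.RZ.RCG.Ct
open Pool.Agent.RZ.RCRS

set_option linter.unusedSectionVars false

/-! ### the cell of a time -/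

/-! ### classes of the second time -/

/-- the interpolation keeps upward closed properties -/
theorem bl_of {ε : ℝ} (hε : 0 < ε) {σ f : ℕ → ℝ} {s : ℝ} {Q : ℝ → Prop}
    (hQ : ∀ a b, Q a → a ≤ b → Q b) (n : ℕ) : ∀ j, (∀ i, j ≤ i → i ≤ j + n → s ≤ σ i → Q (f i)) →
    s ≤ σ (j + n) → Q (bl ε σ f s n j) := by
  induction n with
  | zero => exact fun j h hs => h j le_rfl le_rfl hs
  | succ n ih =>
    intro j h hs
    have h1 : Q (bl ε σ f s n (j + 1)) := by
      refine ih (j + 1) (fun i h2 h3 h4 => h i (by omega) (by omega) h4) ?_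
      rwa [show j + 1 + n = j + (n + 1) by ring]
    rw [bl_succ]
    by_cases hj : s ≤ σ j
    · have h2 := h j le_rfl (by omega) hj
      have l0 := lam_nonneg ε (σ j) s
      have l1 := lam_le_one ε (σ j) s
      rcases le_total (f j) (bl ε σ f s n (j + 1)) with h3 | h3
      · refine hQ _ _ h2 ?_
        nlinarith
      · refine hQ _ _ h1 ?_
        nlinarith
    · rw [lam_one hε (not_le.1 hj).le]
      refine hQ _ _ h1 (le_of_eq ?_)
      ring

theorem bl_nonneg {ε : ℝ} {σ f : ℕ → ℝ} {s : ℝ} (n : ℕ) :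
    ∀ j, (∀ i, j ≤ i → i ≤ j + n → 0 ≤ f i) → 0 ≤ bl ε σ f s n j := by
  induction n with
  | zero => exact fun j h => h j le_rfl le_rfl
  | succ n ih =>
    intro j h
    rw [bl_succ]
    exact add_nonneg (mul_nonneg (sub_nonneg.2 (lam_le_one _ _ _)) (h j le_rfl (by omega)))
      (mul_nonneg (lam_nonneg _ _ _) (ih (j + 1) fun i h2 h3 => h i (by omega) (by omega)))

variable {V : Type*} [Fintype V] [DecidableEq V]

section defs

end defs

variable {Z : Hzd} {x : V → V → ℝ} {P : V → Prop} [DecidablePred P] {C : Cx V}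
  {B E1 : ℝ → ℝ → ℝ} {sl : ℝ → ℝ → ℝ}

theorem Lc_nonneg (a b c d : V) (t s : ℝ) : 0 ≤ Lc P C a b c d t s := by
  unfold Lc
  split_ifs
  · exact bl_nonneg _ _ fun i _ _ => le_max_left _ _
  · exact le_rfl

theorem Lr_nonneg (a b c d : V) (t s : ℝ) : 0 ≤ Lr P C a b c d t s := by
  unfold Lr
  split_ifs
  · exact bl_nonneg _ _ fun i _ _ => le_max_left _ _
  · exact le_rfl

theorem bl_cont {ε : ℝ} {σ : ℕ → ℝ} {f : ℕ → ℝ × ℝ → ℝ} {S : Set (ℝ × ℝ)} (n : ℕ) :
    ∀ j, (∀ i, j ≤ i → i ≤ j + n → ContinuousOn (f i) S) →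
    ContinuousOn (fun p : ℝ × ℝ => bl ε σ (fun i => f i p) p.2 n j) S := by
  induction n with
  | zero => exact fun j h => h j le_rfl le_rfl
  | succ n ih =>
    intro j h
    have c1 : ContinuousOn (fun p : ℝ × ℝ => lam ε (σ j) p.2) S :=
      ((lam_cont ε (σ j)).comp continuous_snd).continuousOn
    exact ((continuousOn_const.sub c1).mul (h j le_rfl (by omega))).add
      (c1.mul (ih (j + 1) fun i h2 h3 => h i (by omega) (by omega)))

section world

variable {h : ℝ → V → V → ℝ} {H : V → V → ℝ → ℝ} {t : ℝ}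

/-- removal of a vertex in the world of `a`, with the vector lower function -/
theorem rem_of_L0s {mb : ℝ → ℝ} {θ : V → ℝ → ℝ} {Y Y' M M' : ℝ → ℝ} {a : V}
    (hL : RCM.L0s (Z.hh x P) x {a} t mb θ Y Y' M M') (hx : Wt x P 1)
    (hh : Haz h H) (ht : t ∈ Icc (0 : ℝ) 1)
    (hle : ∀ u v, ∀ r ∈ Icc 0 t, h r u v ≤ Z.hh x P r u v)
    (hθ : ∀ e, ∀ r ∈ Icc 0 t, H a e t - H a e r ≤ x a e * θ a r)
    {Ra : Finset V → ℝ → ℝ} (hRa : RCM.Wd h (fun r v => h r a v) t Ra)
    (a1 : ∀ F, Ra F t = 1) {s : ℝ} (hs : s ∈ Icc 0 t) (F : Finset V) (e : V) (haF : a ∉ F)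
    (heF : e ∉ F) (hea : e ≠ a) :
    (1 - RCM.nx (Z.hh x P) x {a} θ Y t e s) * Ra (insert e F) s ≤ Ra F s := by
  obtain ⟨Q, Q', L, -, -⟩ := hL.phase (wt_of hx) hh ht.1 hle (A := {a}) (Finset.Subset.refl _)
    (s := t) le_rfl (τ := fun _ => t) (fun _ _ => le_rfl)
    (fun w hw e r hr => by rw [Finset.mem_singleton.1 hw]; exact hθ e r hr)
  have key := L.inf hh.symm hh.diag hh.nonneg (κ1 := fun r v => h r a v)
    (fun r v => hh.nonneg r a v) (fun r v => by rw [Finset.sum_singleton]) le_rfl hRa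
    (fun h0 G _ e _ => by
      rw [a1, a1, mul_one, mul_one]
      exact ⟨by linarith [L.P0 e t ⟨h0, le_rfl⟩], by linarith [L.N0 e t ⟨h0, le_rfl⟩]⟩)
  have hG : insert e F ⊆ ({a} : Finset V)ᶜ := by
    intro z hz
    rw [Finset.mem_compl, Finset.mem_singleton]
    rcases Finset.mem_insert.1 hz with h1 | h1
    · rw [h1]; exact hea
    · exact fun h2 => haF (h2 ▸ h1)
  have h1 := key s hs (insert e F) hG e (Finset.mem_insert_self e F)
  rw [Finset.erase_insert heF] at h1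
  exact h1.2

end world

section final

end final

end Pool.Agent.RZ.RCN.K
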