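import Pool.Agent.RZ.RCM.BTau
import Pool.Agent.RZ.RCN.Main
import Pool.Agent.RZ.RCN.MainK

/-! Lower bounds of the densities and of the hazards (MP_73ccd0_lc, route M). -/

namespace Pool.Agent.RZ.RCN.K

open Set Finset MeasureTheory Pool.Agent.RZ.RCRSHalf Pool.Agent.RZ.RCG Pool.Agent.RZ.RCG.Ct
set_option linter.unusedSectionVars false

variable {V : Type*} [Fintype V] [DecidableEq V]
variable {x : V → V → ℝ} {P : V → Prop} [DecidablePred P] {c : Cf} {g : Cg} {W : Pf V}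
variable {h : ℝ → V → V → ℝ} {H : V → V → ℝ → ℝ} {t : ℝ}

/-- lower bound of the densities of the real pairs -/
theorem dn_ge (hc : c.Ok) (hg : g.Ok c) (hx : Wt x P 1) (hW : Wk c g x P W) {a b : V}
    (ha : P a) (hb : P b) (hab : x a b ≠ 0) {t : ℝ} (ht : t ∈ Icc (0 : ℝ) 1) :
    ((1 + t) ^ 2)⁻¹ - c.al' (x a b) t - 2 * (1 - x a b) * g.N (x a b) t - g.gm (x a b) t
      ≤ dn x P (psi' c x P W) a b t := by
  have hne : a ≠ b := fun e => hab (by rw [e]; exact hx.diag b)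
  have hxe : xr x P a b = x a b := by unfold xr; rw [if_pos ⟨ha, hb⟩]
  have hy := xmem1 hx a b
  rw [dn_real ha hb hab]
  unfold psi'
  rw [mu_compl hc hx hne]
  set y := xr x P a b with hyd
  have h2 : -∑ d ∈ ({a, b} : Finset V)ᶜ, c.mu' y (xr x P a d) (xr x P b d) t
      ≤ g.N y t * (∑ d ∈ ({a, b} : Finset V)ᶜ, xr x P a d
        + ∑ d ∈ ({a, b} : Finset V)ᶜ, xr x P b d) := by
    rw [← Finset.sum_neg_distrib, ← Finset.sum_add_distrib, Finset.mul_sum]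
    refine Finset.sum_le_sum fun d hd => ?_
    have h3 := yz_le hx hne hd
    exact hg.LP y hy _ (xmem1 hx a d) _ (xmem1 hx b d) t ht h3.1 h3.2.1 h3.2.2
  have h3 := mul_le_mul_of_nonneg_left (add_le_add (sum_compl hx hne) (sum_compl' hx hne))
    (hg.N0 y hy t ht)
  have h5 := hW.gm a b ha hb hne t ht
  rw [← hyd] at h5
  have h6 : g.N y t * ((1 - y) + (1 - y)) = 2 * (1 - y) * g.N y t := by ring
  rw [← hyd] at h3
  rw [h6] at h3
  rw [← hxe]
  linarith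

/-- **lower bound of the hazards of the real pairs**, with a bound depending on the weight -/
theorem haz_geY (hc : c.Ok) (hg : g.Ok c) (hx : Wt x P 1) (hW : Wk c g x P W)
    (hK : Kn x P (dn x P (psi' c x P W)) c.ab h H t) {lo : ℝ → ℝ} {r : ℝ} (hr : r ∈ Icc 0 t)
    (lo0 : ∀ y ∈ Icc (0 : ℝ) 1, 0 ≤ lo y)
    (hlo : ∀ y ∈ Icc (0 : ℝ) 1, lo y * c.ab y r
      ≤ ((1 + r) ^ 2)⁻¹ - c.al' y r - 2 * (1 - y) * g.N y r - g.gm y r)
    {u v : V} (hu : P u) (hv : P v) : x u v * lo (x u v) ≤ h r u v := by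
  have hr1 : r ∈ Icc (0 : ℝ) 1 := ⟨hr.1, hr.2.trans hK.ht.2⟩
  by_cases huv : x u v = 0
  · rw [huv, zero_mul]
    exact hK.hh.nonneg r u v
  · have hne : u ≠ v := fun e => huv (by rw [e]; exact hx.diag v)
    have hxm : x u v ∈ Icc (0 : ℝ) 1 := by
      have := xmem1 (P := P) hx u v
      unfold xr at this
      rwa [if_pos ⟨hu, hv⟩] at this
    have h1 := hK.fl r hr u v
    have h2 := hK.pos r hr u v huv
    have h3 := dn_ge hc hg hx hW hu hv huv hr1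
    have h4 : pp h u v r ≤ c.ab (x u v) r :=
      (RCM.pr_mono (fun F => (hK.hh.lw (∅ : Finset V)).nonneg F r hr1) (by simp)).trans
        (hK.up r hr u v hu hv hne)
    have h5 := hlo (x u v) hxm
    have h6 := mul_le_mul_of_nonneg_left h4 (lo0 _ hxm)
    refine le_of_mul_le_mul_right ?_ h2
    rw [h1, mul_assoc]
    exact mul_le_mul_of_nonneg_left (h6.trans (h5.trans h3)) (hx.nonneg u v)

/-- **lower bound of the hazards of the real pairs** -/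
theorem haz_ge (hc : c.Ok) (hg : g.Ok c) (hx : Wt x P 1) (hW : Wk c g x P W)
    (hK : Kn x P (dn x P (psi' c x P W)) c.ab h H t) {lo : ℝ → ℝ → ℝ}
    (lo0 : ∀ y ∈ Icc (0 : ℝ) 1, ∀ r ∈ Icc (0 : ℝ) 1, 0 ≤ lo y r)
    (hlo : ∀ y ∈ Icc (0 : ℝ) 1, ∀ r ∈ Icc (0 : ℝ) 1, lo y r * c.ab y r
      ≤ ((1 + r) ^ 2)⁻¹ - c.al' y r - 2 * (1 - y) * g.N y r - g.gm y r)
    {u v : V} (hu : P u) (hv : P v) {r : ℝ} (hr : r ∈ Icc 0 t) :
    x u v * lo (x u v) r ≤ h r u v := by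
  have hr1 : r ∈ Icc (0 : ℝ) 1 := ⟨hr.1, hr.2.trans hK.ht.2⟩
  exact haz_geY hc hg hx hW hK hr (lo := fun y => lo y r) (fun y hy => lo0 y hy r hr1)
    (fun y hy => hlo y hy r hr1) hu hv

/-- the pairs with a lower bound of the hazard: two real vertices, or any pair if there are two
real vertices -/
def Bp {V : Type*} (P : V → Prop) (u v : V) : Prop := (P u ∧ P v) ∨ ∃ a b, P a ∧ P b ∧ a ≠ b

/-- **lower bound of the hazards of all pairs**, real or pendant -/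
theorem haz_geB (hc : c.Ok) (hg : g.Ok c) (hx : Wt x P 1) (hW : Wk c g x P W)
    (hK : Kn x P (dn x P (psi' c x P W)) c.ab h H t) {lo : ℝ → ℝ → ℝ}
    (lo0 : ∀ y ∈ Icc (0 : ℝ) 1, ∀ r ∈ Icc (0 : ℝ) 1, 0 ≤ lo y r)
    (hlo : ∀ y ∈ Icc (0 : ℝ) 1, ∀ r ∈ Icc (0 : ℝ) 1, lo y r * c.ab y r
      ≤ ((1 + r) ^ 2)⁻¹ - c.al' y r - 2 * (1 - y) * g.N y r - g.gm y r)
    (hlp : ∀ y ∈ Icc (0 : ℝ) 1, ∀ r ∈ Icc (0 : ℝ) 1, lo 0 r * c.ab y r ≤ ((1 + r) ^ 2)⁻¹)
    {u v : V} (huv : Bp P u v) {r : ℝ} (hr : r ∈ Icc 0 t) :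
    x u v * lo (xr x P u v) r ≤ h r u v := by
  by_cases hP : P u ∧ P v
  · have e : xr x P u v = x u v := if_pos hP
    rw [e]
    exact haz_ge hc hg hx hW hK lo0 hlo hP.1 hP.2 hr
  have e : xr x P u v = 0 := if_neg hP
  rw [e]
  rcases huv with h0 | ⟨a, b, ha, hb, hab⟩
  · exact absurd h0 hP
  have hr1 : r ∈ Icc (0 : ℝ) 1 := ⟨hr.1, hr.2.trans hK.ht.2⟩
  have z1 : (0 : ℝ) ∈ Icc (0 : ℝ) 1 := ⟨le_rfl, zero_le_one⟩
  by_cases hx0 : x u v = 0
  · rw [hx0, zero_mul]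
    exact hK.hh.nonneg r u v
  have x1 : ∀ a b, x a b ∈ Icc (0 : ℝ) 1 := fun a b => ⟨hx.nonneg a b,
    (Finset.single_le_sum (fun c _ => hx.nonneg a c) (Finset.mem_univ b)).trans (hx.row a)⟩
  -- a real vertex of the pair and another real vertex
  have key : ∀ w, P w → (w = u ∨ w = v) → pp h u v r * lo 0 r ≤ ((1 + r) ^ 2)⁻¹ := by
    intro w hw hwu
    obtain ⟨z, hz, hzw⟩ : ∃ z, P z ∧ w ≠ z := by
      by_cases e : w = a
      · exact ⟨b, hb, fun h => hab (e.symm.trans h)⟩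
      · exact ⟨a, ha, e⟩
    have h4 : pp h u v r ≤ c.ab (x w z) r := by
      refine (RCM.pr_mono (fun F => (hK.hh.lw (∅ : Finset V)).nonneg F r hr1) ?_).trans
        (hK.up r hr w z hw hz hzw)
      rcases hwu with e | e
      · rw [e]; simp
      · rw [e]; simp
    have h6 := mul_le_mul_of_nonneg_right h4 (lo0 0 z1 r hr1)
    have h7 := hlp _ (x1 w z) r hr1
    rw [mul_comm (lo _ _)] at h7
    exact h6.trans h7
  have hw : pp h u v r * lo 0 r ≤ ((1 + r) ^ 2)⁻¹ := by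
    by_cases hu : P u
    · exact key u hu (Or.inl rfl)
    · exact key v (hx.pend v u hu (by rwa [hx.symm v u])) (Or.inr rfl)
  have h1 := hK.fl r hr u v
  rw [dn_pend hP] at h1
  have h2 := hK.pos r hr u v hx0
  refine le_of_mul_le_mul_right ?_ h2
  rw [h1, mul_assoc]
  refine mul_le_mul_of_nonneg_left ?_ (hx.nonneg u v)
  rw [mul_comm]
  exact hw

end Pool.Agent.RZ.RCN.K
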