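import Pool.Agent.RZ.RCM.BEps
import Pool.Agent.RZ.RCM.BMl
import Pool.Agent.RZ.RCM.NuD
import Pool.Agent.RZ.RCN.Brg_1
import Pool.Agent.RZ.RCN.Hlo
import Pool.Agent.RZ.RCN.Hz

/-! The bridge: the closures with explicit constants in the cells give the facts about the
certified process (MP_73ccd0_lc, route M). -/

namespace Pool.Agent.RZ.RCN.K

open Set Finset MeasureTheory Pool.Agent.RZ.RCRSHalf Pool.Agent.RZ.RCG Pool.Agent.RZ.RCG.Ct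
open Pool.Agent.RZ.RCRS

set_option linter.unusedSectionVars false

/-! ### the cell of a time -/

/-! ### classes of the second time -/

variable {V : Type*} [Fintype V] [DecidableEq V]

section defs

variable (Z : Hzd) (x : V → V → ℝ) (P : V → Prop) [DecidablePred P] (C : Cx V)

/-- the conditions on the cells and classes -/
structure Cls : Prop where
  N0 : 0 < C.N
  ε0 : 0 < C.ε
  sg0 : ∀ i < C.N, ∀ j ≤ C.M i, 0 ≤ C.sg i j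
  last : ∀ i < C.N, C.sg i (C.M i) = cb C.N i
  cL : ∀ i < C.N, ∀ j ≤ C.M i, ∀ a b c d, Vq P a b c d →
    ContinuousOn (fun p : ℝ × ℝ => C.L i j a b c d p.1 p.2) (Ws (ca C.N i) (cb C.N i) (C.sg i j))
  cLt : ∀ i < C.N, ∀ j ≤ C.M i, ∀ a b c d, Vq P a b c d →
    ContinuousOn (fun p : ℝ × ℝ => C.Lt i j a b c d p.1 p.2) (Ws (ca C.N i) (cb C.N i) (C.sg i j))
  vL : ∀ i < C.N, ∀ j ≤ C.M i, ∀ (h : ℝ → V → V → ℝ) (H : V → V → ℝ → ℝ) (t : ℝ), Haz h H →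
    t ∈ Icc (ca C.N i) (cb C.N i) → (∀ u v, ∀ r ∈ Icc 0 t, h r u v ≤ Z.hh x P r u v) →
    (∀ u v, ∀ σ ∈ Icc 0 t, ∀ r ∈ Icc 0 σ, H u v σ - H u v r ≤ Z.Hh x P σ u v r) →
    (∀ u v, Bp P u v → ∀ r ∈ Icc 0 t, x u v * Z.hl (xr x P u v) r ≤ h r u v) →
    ∀ a b c d, Vq P a b c d → ∀ s ∈ Icc 0 t, s ≤ C.sg i j →
    RCM.CloD h t s {a} {a, b} c d (Real.exp (C.L i j a b c d t s))
  vLt : ∀ i < C.N, ∀ j ≤ C.M i, ∀ (h : ℝ → V → V → ℝ) (H : V → V → ℝ → ℝ) (t : ℝ), Haz h H →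
    t ∈ Icc (ca C.N i) (cb C.N i) → (∀ u v, ∀ r ∈ Icc 0 t, h r u v ≤ Z.hh x P r u v) →
    (∀ u v, ∀ σ ∈ Icc 0 t, ∀ r ∈ Icc 0 σ, H u v σ - H u v r ≤ Z.Hh x P σ u v r) →
    (∀ u v, Bp P u v → ∀ r ∈ Icc 0 t, x u v * Z.hl (xr x P u v) r ≤ h r u v) →
    ∀ a b c d, Vq P a b c d → ∀ s ∈ Icc 0 t, s ≤ C.sg i j →
    RCM.CloDt h t s {a} {a, b} c d (Real.exp (C.Lt i j a b c d t s))

end defs

section world

end world

section final

end final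

end Pool.Agent.RZ.RCN.K
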