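import Pool.Agent.RZ.RCN.Hm

/-! The error function from the logarithms of the closure constants (MP_73ccd0_lc, route M). -/

namespace Pool.Agent.RZ.RCN.K

open Set Finset MeasureTheory Pool.Agent.RZ.RCRSHalf Pool.Agent.RZ.RCG Pool.Agent.RZ.RCG.Ct
open Pool.Agent.RZ.RCN.Ker Pool.Agent.RZ.RCRS Pool.Agent.RZ.RCM

set_option linter.unusedSectionVars false

variable {V : Type*} [Fintype V] [DecidableEq V]

/-- the error of a closure with constant `e^L` -/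
noncomputable def nuL (L : ℝ) : ℝ := 1 - Real.exp (-L)

theorem nuL_mul (L : ℝ) : (1 - nuL L) * Real.exp L ≤ 1 := by
  unfold nuL
  rw [sub_sub_cancel, ← Real.exp_add, neg_add_cancel, Real.exp_zero]

/-- the functions of the error from `L`, `Lt` (logarithms of the closure constants), `R` (rates of
the released pairs), `κd` (the density factor) -/
noncomputable def xdOf (x : V → V → ℝ) (κd : ℝ → ℝ → ℝ → ℝ)
    (R : V → V → V → ℝ → ℝ → ℝ) (L Lt : V → V → V → V → ℝ → ℝ → ℝ) : Xd V where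
  B a b d t s := κd (x a b + x a d) t s
  nu a b c d t s := nuL (L a b c d t s)
  nut a b c d t s := nuL (Lt a b c d t s)
  la a b c t s := ∑ d ∈ ({a, b, c} : Finset V)ᶜ, R a b d t s * nuL (Lt a b c d t s)
  dl _ _ _ _ := 0

variable {x : V → V → ℝ} {P : V → Prop} [DecidablePred P] {k : Kf} {N : ℕ}
variable {κd : ℝ → ℝ → ℝ → ℝ} {R : V → V → V → ℝ → ℝ → ℝ} {L Lt : V → V → V → V → ℝ → ℝ → ℝ}

/-- the conditions on the functions -/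
structure Lf (N : ℕ) (k : Kf) (κd : ℝ → ℝ → ℝ → ℝ) (R : V → V → V → ℝ → ℝ → ℝ)
    (L Lt : V → V → V → V → ℝ → ℝ → ℝ) : Prop where
  N0 : 0 < N
  cκ : ∀ w, CN N (κd w)
  κP : ∀ w ∈ Icc (0 : ℝ) 1, ∀ t s, 0 ≤ s → s ≤ t → t ≤ 1 → k.Pe w t ≤ κd w t s
  cR : ∀ a b d, CN N (R a b d)
  R0 : ∀ a b d t s, 0 ≤ s → s ≤ t → t ≤ 1 → 0 ≤ R a b d t s
  cL : ∀ a b c d, CN N (L a b c d)
  cLt : ∀ a b c d, CN N (Lt a b c d)
  L0 : ∀ a b c d t s, 0 ≤ s → s ≤ t → t ≤ 1 → 0 ≤ L a b c d t s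
  Lt0 : ∀ a b c d t s, 0 ≤ s → s ≤ t → t ≤ 1 → 0 ≤ Lt a b c d t s

theorem nuL_nonneg {L : ℝ} (h : 0 ≤ L) : 0 ≤ nuL L := by
  have : Real.exp (-L) ≤ 1 := by
    rw [Real.exp_le_one_iff]; linarith
  unfold nuL
  linarith

theorem nuL_le_one (L : ℝ) : nuL L ≤ 1 := by
  have := (Real.exp_pos (-L)).le
  unfold nuL
  linarith

theorem nuL_le (L : ℝ) : nuL L ≤ L := by
  have := Real.add_one_le_exp (-L)
  unfold nuL
  linarith

theorem nuL_cn {F : ℝ → ℝ → ℝ} (hF : CN N F) : CN N fun t s => nuL (F t s) :=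
  (CN.const 1).sub (CN.exp (CN.neg hF))

theorem two_mem (hx : Wt x P 1) (a : V) {b d : V} (hbd : b ≠ d) :
    x a b + x a d ∈ Icc (0 : ℝ) 1 := by
  refine ⟨add_nonneg (hx.nonneg a b) (hx.nonneg a d), ?_⟩
  have h1 : ∑ e ∈ ({b, d} : Finset V), x a e ≤ ∑ e, x a e :=
    Finset.sum_le_sum_of_subset_of_nonneg (Finset.subset_univ _) fun e _ _ => hx.nonneg a e
  rw [Finset.sum_pair hbd] at h1
  exact h1.trans (hx.row a)

theorem x_mem (hx : Wt x P 1) (b d : V) : x b d ∈ Icc (0 : ℝ) 1 :=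
  ⟨hx.nonneg b d, (Finset.single_le_sum (fun e _ => hx.nonneg b e) (Finset.mem_univ d)).trans
    (hx.row b)⟩

theorem fq_cont' (hfc : ∀ y ∈ Icc (0 : ℝ) 1, ContinuousOn (k.fh y) (Icc 0 1)) (hx : Wt x P 1)
    (b d : V) : ContinuousOn (fq x P k.fh b d) (Icc 0 1) := by
  unfold fq
  split_ifs with hd
  · exact hfc _ (x_mem hx b d)
  · exact qq_cont

theorem fq_nonneg' (hk : k.Ok) (hx : Wt x P 1) (b d : V) {s : ℝ}
    (hs : s ∈ Icc (0 : ℝ) 1) : 0 ≤ fq x P k.fh b d s := by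
  unfold fq
  split_ifs with hd
  · exact hk.fh_nonneg (x_mem hx b d) hs
  · exact (qq_pos hs).le

theorem xd_ok (hf : Lf N k κd R L Lt) (hx : Wt x P 1) (hk : k.Ok)
    : Xd.Ok N (xdOf x κd R L Lt) x k := by
  have hw : ∀ a b d, b ≠ d → x a b + x a d ∈ Icc (0 : ℝ) 1 := fun a b d hbd => two_mem hx a hbd
  refine
    { N0 := hf.N0
      B0 := fun a b d _ _ hbd t s h0 h1 h2 => (hk.Pe0 _ (hw a b d hbd) t
        ⟨h0.trans h1, h2⟩).trans (hf.κP _ (hw a b d hbd) t s h0 h1 h2)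
      Bc := fun a b c _ _ hbc t s h0 h1 h2 => ?_
      nu0 := fun a b c d t s h0 h1 h2 => nuL_nonneg (hf.L0 a b c d t s h0 h1 h2)
      nu1 := fun a b c d t s _ _ _ => nuL_le_one _
      la0 := fun a b c t s h0 h1 h2 => Finset.sum_nonneg fun d _ =>
          mul_nonneg (hf.R0 a b d t s h0 h1 h2) (nuL_nonneg (hf.Lt0 a b c d t s h0 h1 h2))
      dl0 := fun a b c t h0 h1 => le_rfl
      cB := fun a b d => hf.cκ _
      cnu := fun a b c d => nuL_cn (hf.cL a b c d)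
      cla := fun a b c => CN.sum fun d _ => (hf.cR a b d).mul (nuL_cn (hf.cLt a b c d))
      cdl := fun a b c => CP.of_cont continuousOn_const }
  show k.Pe (x a b + x a c) t * (1 + 0) ≤ κd (x a b + x a c) t s
  rw [add_zero, mul_one]
  exact hf.κP _ (hw a b c hbc) t s h0 h1 h2

/-- the facts about the certified process -/
structure Lp (x : V → V → ℝ) (κd : ℝ → ℝ → ℝ → ℝ)
    (R : V → V → V → ℝ → ℝ → ℝ) (L Lt : V → V → V → V → ℝ → ℝ → ℝ) (h : ℝ → V → V → ℝ) (t : ℝ)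
    (a b c : V) : Prop where
  clo : ∀ d ∈ ({a, b, c} : Finset V)ᶜ, ∀ s ∈ Icc 0 t,
      CloD h t s {a} {a, b} c d (Real.exp (L a b c d t s))
  clot : ∀ d ∈ ({a, b, c} : Finset V)ᶜ, ∀ s ∈ Icc 0 t,
      CloDt h t s {a} {a, b} c d (Real.exp (Lt a b c d t s))
  dens : ∀ d ∈ ({a, b} : Finset V)ᶜ, x b d ≠ 0 → ∀ s ∈ Icc 0 t,
      Dens h t s a b d (κd (x a b + x a d) t s)
  rh : ∀ Ra : Finset V → ℝ → ℝ, Wd h (fun r v => h r a v) t Ra → (∀ F, Ra F t = 1) →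
      ∀ d ∈ ({a, b, c} : Finset V)ᶜ, ∀ s ∈ Icc 0 t,
        h s b d * eYt h a b d Ra s ≤ R a b d t s * eZ h a b Ra s

theorem xd_pr {h : ℝ → V → V → ℝ} {t : ℝ} (ht : t ∈ Icc (0 : ℝ) 1)
    (hf : Lf N k κd R L Lt) {a b c : V} (hp : Lp x κd R L Lt h t a b c) :
    (xdOf x κd R L Lt).Pr x h t a b c where
  clo d hd s hs := ⟨_, hp.clo d hd s hs, nuL_mul _⟩
  clot d hd s hs := ⟨_, hp.clot d hd s hs, nuL_mul _⟩
  dens := hp.dens
  hl := by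
    intro Ra hRa a1 s hs
    show _ ≤ (∑ d ∈ ({a, b, c} : Finset V)ᶜ, R a b d t s * nuL (Lt a b c d t s))
      * eZ h a b Ra s
    rw [Finset.sum_mul]
    refine Finset.sum_le_sum fun d hd => ?_
    have h1 := hp.rh Ra hRa a1 d hd s hs
    have h2 := mul_le_mul_of_nonneg_left h1
      (nuL_nonneg (hf.Lt0 a b c d t s hs.1 hs.2 ht.2))
    calc h s b d * (nuL (Lt a b c d t s) * eYt h a b d Ra s)
        = nuL (Lt a b c d t s) * (h s b d * eYt h a b d Ra s) := by ring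
      _ ≤ nuL (Lt a b c d t s) * (R a b d t s * eZ h a b Ra s) := h2
      _ = _ := by ring

section final

variable {V : Type} [Fintype V] [DecidableEq V] {G : SimpleGraph V} [Fintype G.edgeSet]
  [DecidableEq G.edgeSet] {x : G.edgeSet → ℝ} [Pool.Agent.RZ.RCG.CX x]
variable {T : Dt} {sl : ℝ → ℝ → ℝ} {δ : ℝ}
variable {b0 b1 : ℝ → ℝ} {Pe : ℝ → ℝ → ℝ} {Pt : ℝ → ℝ → ℝ → ℝ}
variable {κd : ℝ → ℝ → ℝ → ℝ} {R : V ⊕ V → V ⊕ V → V ⊕ V → ℝ → ℝ → ℝ}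
  {L Lt : V ⊕ V → V ⊕ V → V ⊕ V → V ⊕ V → ℝ → ℝ → ℝ}

/-- the error function of the assembled proof -/
noncomputable def eL (k : Kf) (κd : ℝ → ℝ → ℝ → ℝ) (R : V ⊕ V → V ⊕ V → V ⊕ V → ℝ → ℝ → ℝ)
    (L Lt : V ⊕ V → V ⊕ V → V ⊕ V → V ⊕ V → ℝ → ℝ → ℝ) (x : G.edgeSet → ℝ) :
    V ⊕ V → V ⊕ V → V ⊕ V → ℝ → ℝ :=
  (xdOf (xe x) κd R L Lt).E (xe x) (P0 V) k

/-- the walk rates of the assembled proof -/
noncomputable def wL (k : Kf) (κd : ℝ → ℝ → ℝ → ℝ) (R : V ⊕ V → V ⊕ V → V ⊕ V → ℝ → ℝ → ℝ)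
    (L Lt : V ⊕ V → V ⊕ V → V ⊕ V → V ⊕ V → ℝ → ℝ → ℝ) (x : G.edgeSet → ℝ) :
    V ⊕ V → V ⊕ V → ℝ → ℝ :=
  wE k.fh k.mb (eL k κd R L Lt x) (xe x) (P0 V)

/-- **the assembly with closures in logarithmic form** -/
theorem half_of_L (hx : IsFractionalMatching G x) (h : T.Ok) (hsl : Sl T.cf T.cg sl)
    (hk : T.KOk b0 b1 Pe Pt) (hf : Lf N (T.kf b0 b1 Pe Pt) κd R L Lt) (hd0 : 0 < δ) (hd1 : δ ≤ 1)
    (hl : ∀ a b d, P0 V a → P0 V b → P0 V d → a ≠ b → a ≠ d → b ≠ d → ∀ t ∈ Icc (0 : ℝ) 1,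
      (T.kf b0 b1 Pe Pt).mb (xr (xe x) (P0 V) a b) (xr (xe x) (P0 V) a d)
        (xr (xe x) (P0 V) b d) t
        + min (eL (T.kf b0 b1 Pe Pt) κd R L Lt x a b d t)
            (eL (T.kf b0 b1 Pe Pt) κd R L Lt x a d b t) ≤ 1 - δ)
    (hT : ∀ a, P0 V a → ∀ t ∈ Icc (0 : ℝ) 1,
      ∑ b, xr (xe x) (P0 V) a b * wL (T.kf b0 b1 Pe Pt) κd R L Lt x a b t
        ≤ T.kt t * (∑ b, T.sT (xr (xe x) (P0 V) a b) - T.k1 * Qs (xe x) (P0 V) a))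
    (hP : ∀ a b, P0 V a → P0 V b → a ≠ b → ∀ t ∈ Icc (0 : ℝ) 1,
      wL (T.kf b0 b1 Pe Pt) κd R L Lt x a b t
        ≤ T.kp t * ∑ d ∈ ({a, b} : Finset (V ⊕ V))ᶜ,
        (T.ka (xr (xe x) (P0 V) a d) / 2 + T.ka (xr (xe x) (P0 V) b d) / 2))
    (hpr : ∀ (h : ℝ → V ⊕ V → V ⊕ V → ℝ) (H : V ⊕ V → V ⊕ V → ℝ → ℝ) (t : ℝ),
      Cp T sl (xe x) (P0 V) (wL (T.kf b0 b1 Pe Pt) κd R L Lt x) h H t →
      ∀ a b c, P0 V a → P0 V b → P0 V c → a ≠ b → a ≠ c → b ≠ c → xe x a b ≠ 0 →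
        xe x a c ≠ 0 → Lp (xe x) κd R L Lt h t a b c) :
    ∃ S : Scheme G, ∀ e : G.edgeSet, S.selProb x e = x e / 2 := by
  have hw := wt_xe hx zero_le_one le_rfl fun e => (hx.1 e).2
  have hX : Xd.Ok N (xdOf (xe x) κd R L Lt) (xe x) (T.kf b0 b1 Pe Pt) :=
    xd_ok hf hw (Dt.kf_ok h hk)
  exact half_of_X hx h hsl hk hX hd0 hd1 hl hT hP fun h' H t hC a b c ha hb' hc hab hac hbc
      h1 h2 => xd_pr hC.1.ht hf (hpr h' H t hC a b c ha hb' hc hab hac hbc h1 h2)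

end final

end Pool.Agent.RZ.RCN.K
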