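import Pool.Agent.RZ.RCN.Hz

/-! The constants of the tail systems (MP_73ccd0_lc, route M). -/

namespace Pool.Agent.RZ.RCN.K

open Set Finset MeasureTheory Pool.Agent.RZ.RCRSHalf Pool.Agent.RZ.RCG Pool.Agent.RZ.RCG.Ct

set_option linter.unusedSectionVars false

variable {V : Type*} [Fintype V] [DecidableEq V]

/-- the bounds `B` of `D / x` and `E1` of `e^H` -/
structure Hzd.Cf (Z : Hzd) (B E1 : ℝ → ℝ → ℝ) : Prop where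
  b : ∀ y ∈ Icc (0 : ℝ) 1, ∀ r t, 0 ≤ r → r ≤ t → t ≤ 1 →
    Z.S y t - Z.S y r ≤ B t r * (1 - y * Z.S y t)
  bp : ∀ r t, 0 ≤ r → r ≤ t → t ≤ 1 → t - r ≤ B t r * (1 + r)
  e : ∀ y ∈ Icc (0 : ℝ) 1, ∀ r t, 0 ≤ r → r ≤ t → t ≤ 1 →
    1 - y * Z.S y r ≤ E1 t r * (1 - y * Z.S y t)
  ep : ∀ r t, 0 ≤ r → r ≤ t → t ≤ 1 → 1 + t ≤ E1 t r * (1 + r)

variable {Z : Hzd} {sl : ℝ → ℝ → ℝ} {B E1 : ℝ → ℝ → ℝ}
variable {x : V → V → ℝ} {P : V → Prop} [DecidablePred P] {t : ℝ}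

theorem Hzd.Ok.Hh_nonneg (hZ : Z.Ok sl) (hx : Wt x P 1) (ht : t ∈ Icc (0 : ℝ) 1) (u v : V) {r : ℝ}
    (hr : r ∈ Icc 0 t) : 0 ≤ Z.Hh x P t u v r := by
  have hm := xw_mem hx u v
  have hr1 : r ∈ Icc (0 : ℝ) 1 := ⟨hr.1, hr.2.trans ht.2⟩
  unfold Hzd.Hh
  split_ifs
  · refine sub_nonneg.2 (Real.log_le_log (hZ.den _ hm t ht) ?_)
    have := mul_le_mul_of_nonneg_left (hZ.S_mono hm hr.1 hr.2 ht.2) hm.1
    linarith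
  · refine mul_nonneg hm.1 (sub_nonneg.2 (Real.log_le_log (by linarith [hr.1]) (by linarith [hr.2])))

end Pool.Agent.RZ.RCN.K
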