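import Pool.Agent.RZ.RCN.KerB
import Pool.Agent.RZ.RCN.MainK

/-! From the cost rates of the walks to the corrections (MP_73ccd0_lc, route M). -/

namespace Pool.Agent.RZ.RCN.K

open Set Finset MeasureTheory Pool.Agent.RZ.RCRSHalf Pool.Agent.RZ.RCG Pool.Agent.RZ.RCG.Ct
open Pool.Agent.RZ.RCN.Ker

set_option linter.unusedSectionVars false

/-- kernel data: `M` weight function of the correction, `kT`, `kP` the rates of the sum bound and of
the pair bound, `sT`, `ka` their shapes, `GT`, `GP` bounds of the corrections, `r = 1/ab`, `JP`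
a bound of the integral of `GP r'`, `AP` a bound of the early negative part, `wc` the charge,
`k1` the coefficient of the reserve of the sum bound. -/
structure Kd where
  M : ℝ → ℝ
  M' : ℝ → ℝ
  t1 : ℝ
  kT : ℝ → ℝ
  kP : ℝ → ℝ
  sT : ℝ → ℝ
  ST : ℝ
  ka : ℝ → ℝ → ℝ
  cS : ℝ → ℝ
  GT : ℝ → ℝ
  GP : ℝ → ℝ
  r : ℝ → ℝ → ℝ
  r' : ℝ → ℝ → ℝ
  JP : ℝ → ℝ → ℝ
  AP : ℝ → ℝ
  wc : ℝ → ℝ → ℝ
  k1 : ℝ

structure Kd.Ok (D : Kd) (c : Cf) (g : Cg) : Prop where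
  hM : Mok D.M D.M' D.t1
  M'n : ∀ t ∈ Icc (0 : ℝ) 1, 0 ≤ D.M' t
  M'0 : D.M' 0 = 0
  kTi : IntegrableOn D.kT (Icc 0 1)
  kPi : IntegrableOn D.kP (Icc 0 1)
  kTn : ∀ t ∈ Icc (0 : ℝ) 1, 0 ≤ D.kT t
  kPn : ∀ t ∈ Icc (0 : ℝ) 1, 0 ≤ D.kP t
  sTn : ∀ y ∈ Icc (0 : ℝ) 1, 0 ≤ D.sT y
  sTS : ∀ y ∈ Icc (0 : ℝ) 1, D.sT y ≤ D.ST * y
  STn : 0 ≤ D.ST
  kan : ∀ x ∈ Icc (0 : ℝ) 1, ∀ y ∈ Icc (0 : ℝ) 1, x + y ≤ 1 → 0 ≤ D.ka x y
  kaS : ∀ x ∈ Icc (0 : ℝ) 1, ∀ y ∈ Icc (0 : ℝ) 1, x + y ≤ 1 → D.ka x y ≤ D.cS x * y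
  cSn : ∀ x ∈ Icc (0 : ℝ) 1, 0 ≤ D.cS x
  /-- bound of the correction in the sum -/
  GT1 : ∀ t ∈ Icc (0 : ℝ) 1, D.t1 ≤ t → D.M t * A qq D.kT 1 - A qq D.kT t ≤ D.GT t
  GT2 : ∀ t ∈ Icc (0 : ℝ) 1, t < D.t1 → D.M t * A qq D.kT 1 ≤ D.GT t
  k10 : 0 ≤ D.k1
  sTk : ∀ y ∈ Icc (0 : ℝ) 1, D.k1 * (y ^ 2 * (1 - y) ^ 2) ≤ D.sT y
  /-- bound of the correction of a pair -/
  GP1 : ∀ t ∈ Icc (0 : ℝ) 1, D.t1 ≤ t → D.M t * A qq D.kP 1 - A qq D.kP t ≤ D.GP t
  GP2 : ∀ t ∈ Icc (0 : ℝ) 1, t < D.t1 → D.M t * A qq D.kP 1 ≤ D.GP t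
  GPc : ContinuousOn D.GP (Icc 0 1)
  nb : ∀ t ∈ Icc (0 : ℝ) 1, t < D.t1 → D.ST * A qq D.kT t ≤ c.nb t
  nb0 : ∀ t ∈ Icc (0 : ℝ) 1, 0 ≤ c.nb t
  gm : ∀ x ∈ Icc (0 : ℝ) 1, ∀ t ∈ Icc (0 : ℝ) 1,
    qq t * I D.kP t * ((1 - x) * D.cS x) ≤ g.gm x t
  dr : ∀ x ∈ Icc (0 : ℝ) 1, ∀ t ∈ Icc (0 : ℝ) 1, HasDerivAt (D.r x) (D.r' x t) t
  cr : ∀ x ∈ Icc (0 : ℝ) 1, ContinuousOn (D.r' x) (Icc 0 1)
  rn : ∀ x ∈ Icc (0 : ℝ) 1, ∀ t ∈ Icc (0 : ℝ) 1, 0 ≤ D.r x t
  r'n : ∀ x ∈ Icc (0 : ℝ) 1, ∀ t ∈ Icc (0 : ℝ) 1, 0 ≤ D.r' x t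
  rab : ∀ x ∈ Icc (0 : ℝ) 1, ∀ t ∈ Icc (0 : ℝ) 1, D.r x t * c.ab x t = 1
  JP : ∀ x ∈ Icc (0 : ℝ) 1, ∀ t ∈ Icc (0 : ℝ) 1,
    ∫ s in (0 : ℝ)..t, D.GP (cl s) * D.r' x (cl s) ≤ D.JP x t
  AP : ∀ t ∈ Icc (0 : ℝ) 1, t < D.t1 → A qq D.kP t ≤ D.AP t
  /-- the charge -/
  wc1 : ∀ x ∈ Icc (0 : ℝ) 1, ∀ t ∈ Icc (0 : ℝ) 1, D.t1 ≤ t →
    (1 + t) ^ 2 * D.M' t * A qq D.kP 1 + 2 * x * D.JP x t ≤ D.wc x t
  wc2 : ∀ x ∈ Icc (0 : ℝ) 1, ∀ t ∈ Icc (0 : ℝ) 1, t < D.t1 →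
    (1 + t) ^ 2 * D.M' t * A qq D.kP 1 + 2 * x * (D.r x t * D.AP t + D.JP x t) ≤ D.wc x t
  X : ∀ x ∈ Icc (0 : ℝ) 1, ∀ t ∈ Icc (0 : ℝ) 1, g.X x t = qq t
  kl : ∀ x ∈ Icc (0 : ℝ) 1, ∀ y ∈ Icc (0 : ℝ) 1, x + y ≤ 1 → ∀ t ∈ Icc (0 : ℝ) 1,
    D.wc x t * (D.ka x y / 2) ≤ g.kl x y t
  K3 : ∀ x ∈ Icc (0 : ℝ) 1, ∀ t ∈ Icc (0 : ℝ) 1, 0 ≤ g.K3 x t

variable {V : Type*} [Fintype V] [DecidableEq V]

/-- the reserve of the sum bound -/
noncomputable def Qs (x : V → V → ℝ) (P : V → Prop) [DecidablePred P] (a : V) : ℝ :=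
  ∑ b, xr x P a b ^ 2 * ∑ d ∈ ({a} : Finset V)ᶜ, xr x P b d ^ 2

theorem Qs_nonneg (x : V → V → ℝ) (P : V → Prop) [DecidablePred P] (a : V) : 0 ≤ Qs x P a :=
  Finset.sum_nonneg fun _ _ => mul_nonneg (sq_nonneg _) (Finset.sum_nonneg fun _ _ => sq_nonneg _)

/-- bounds of the cost rates of the walks -/
structure Wr (D : Kd) (x : V → V → ℝ) (P : V → Prop) [DecidablePred P]
    (w : V → V → ℝ → ℝ) : Prop where
  s : ∀ a b, w a b = w b a
  i : ∀ a b, IntegrableOn (w a b) (Icc 0 1)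
  n : ∀ a b, ∀ t ∈ Icc (0 : ℝ) 1, 0 ≤ w a b t
  T : ∀ a, P a → ∀ t ∈ Icc (0 : ℝ) 1,
    ∑ b, xr x P a b * w a b t ≤ D.kT t * (∑ b, D.sT (xr x P a b) - D.k1 * Qs x P a)
  P : ∀ a b, P a → P b → a ≠ b → ∀ t ∈ Icc (0 : ℝ) 1,
    w a b t ≤ D.kP t * ∑ d ∈ ({a, b} : Finset V)ᶜ,
      (D.ka (xr x P a b) (xr x P a d) / 2 + D.ka (xr x P a b) (xr x P b d) / 2)

/-- the functions of the pairs -/
noncomputable def pfOf (D : Kd) (x : V → V → ℝ) (P : V → Prop) [DecidablePred P]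
    (w : V → V → ℝ → ℝ) : Pf V where
  Om a b := Om D.M' (w a b)
  Om' a b := Om' D.M' (w a b)
  w := w
  CO a b := I (w a b)
  og a b t := xr x P a b * (Om D.M' (w a b) t * D.r (xr x P a b) t
    - ∫ s in (0 : ℝ)..t, Om D.M' (w a b) (cl s) * D.r' (xr x P a b) (cl s))
  og' a b t := xr x P a b * (Om' D.M' (w a b) t * D.r (xr x P a b) t
    + Om D.M' (w a b) t * D.r' (xr x P a b) t
    - Om D.M' (w a b) (cl t) * D.r' (xr x P a b) (cl t))

variable {D : Kd} {c : Cf} {g : Cg} {x : V → V → ℝ} {P : V → Prop} [DecidablePred P]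
variable {w : V → V → ℝ → ℝ} {t : ℝ}

theorem Om_contOn (hD : D.Ok c g) {v : ℝ → ℝ} (hv : IntegrableOn v (Icc 0 1)) :
    ContinuousOn (Om D.M' v) (Icc 0 1) :=
  fun s _ => (Om_deriv hD.hM hv s).continuousAt.continuousWithinAt

/-- the sum of the corrections around a vertex -/
theorem sum_Om (hD : D.Ok c g) (hw : Wr D x P w) (a : V) (ht : t ∈ Icc (0 : ℝ) 1) :
    ∑ b, xr x P a b * Om D.M' (w a b) t = Om D.M' (fun s => ∑ b, xr x P a b * w a b s) t := by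
  rw [← Om_sum (Finset.univ : Finset V) (f := fun b s => xr x P a b * w a b s) hD.hM
    (fun b _ => (hw.i a b).const_mul _) ht]
  refine Finset.sum_congr rfl fun b _ => ?_
  rw [Om_eq hD.hM (hw.i a b) ht, Om_eq hD.hM ((hw.i a b).const_mul _) ht, A_const_mul,
    A_const_mul]
  ring

theorem sumw_int (hw : Wr D x P w) (a : V) :
    IntegrableOn (fun s => ∑ b, xr x P a b * w a b s) (Icc 0 1) :=
  integrable_finsetSum _ fun b _ => (hw.i a b).const_mul _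

theorem sumw_nonneg (hx : Wt x P 1) (hw : Wr D x P w) (a : V) {s : ℝ} (hs : s ∈ Icc (0 : ℝ) 1) :
    0 ≤ ∑ b, xr x P a b * w a b s :=
  Finset.sum_nonneg fun b _ => mul_nonneg (xr_nonneg hx a b) (hw.n a b s hs)

/-- the shape of the sum bound is nonnegative -/
theorem SQ_nonneg (hD : D.Ok c g) (hx : Wt x P 1) (a : V) :
    0 ≤ ∑ b, D.sT (xr x P a b) - D.k1 * Qs x P a := by
  unfold Qs
  rw [Finset.mul_sum, ← Finset.sum_sub_distrib]
  refine Finset.sum_nonneg fun b _ => ?_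
  by_cases hab : a = b
  · subst hab
    have := hD.sTn _ (xmem1 (P := P) hx a a)
    rw [xr_diag hx a] at this ⊢
    simpa using this
  have hy := xmem1 (P := P) hx a b
  have h1 : ∑ d ∈ ({a} : Finset V)ᶜ, xr x P b d ≤ 1 - xr x P a b := by
    have h2 := xr_row (P := P) hx b
    rw [← Finset.add_sum_erase _ _ (Finset.mem_univ a)] at h2
    have e : (Finset.univ.erase a) = ({a} : Finset V)ᶜ := by
      ext z; simp
    rw [e, xr_symm hx b a] at h2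
    linarith
  have h0 : 0 ≤ ∑ d ∈ ({a} : Finset V)ᶜ, xr x P b d :=
    Finset.sum_nonneg fun d _ => xr_nonneg hx b d
  have h2 : ∑ d ∈ ({a} : Finset V)ᶜ, xr x P b d ^ 2
      ≤ (∑ d ∈ ({a} : Finset V)ᶜ, xr x P b d) ^ 2 := by
    rw [pow_two, Finset.sum_mul]
    refine Finset.sum_le_sum fun d hd => ?_
    rw [pow_two]
    exact mul_le_mul_of_nonneg_left (Finset.single_le_sum (f := fun d => xr x P b d)
      (fun d _ => xr_nonneg hx b d) hd) (xr_nonneg hx b d)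
  have h3 : ∑ d ∈ ({a} : Finset V)ᶜ, xr x P b d ^ 2 ≤ (1 - xr x P a b) ^ 2 :=
    h2.trans (pow_le_pow_left₀ h0 h1 2)
  have h4 := hD.sTk _ hy
  have h5 := mul_le_mul_of_nonneg_left (mul_le_mul_of_nonneg_left h3
    (sq_nonneg (xr x P a b))) hD.k10
  linarith

/-- **the sum bound of the corrections** -/
theorem Om_T (hD : D.Ok c g) (hx : Wt x P 1) (hw : Wr D x P w) {a : V} (ha : P a)
    (ht : t ∈ Icc (0 : ℝ) 1) :
    ∑ b, xr x P a b * Om D.M' (w a b) t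
      ≤ D.GT t * (∑ b, D.sT (xr x P a b) - D.k1 * Qs x P a) := by
  rw [sum_Om hD hw a ht]
  set S := ∑ b, D.sT (xr x P a b) - D.k1 * Qs x P a with hS
  have hS0 : 0 ≤ S := SQ_nonneg hD hx a
  refine Om_le hD.hM (w := fun s => S * D.kT s) (hD.kTi.const_mul _) (sumw_int hw a)
    (fun s hs => sumw_nonneg hx hw a hs) (fun s hs => ?_) ht (fun h1 => ?_) (fun h1 => ?_)
  · have := hw.T a ha s hs
    rw [mul_comm] at this
    exact this
  · rw [A_const_mul, A_const_mul]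
    have := mul_le_mul_of_nonneg_left (hD.GT1 t ht h1) hS0
    linarith
  · rw [A_const_mul]
    have := mul_le_mul_of_nonneg_left (hD.GT2 t ht h1) hS0
    linarith

theorem Om_N (hD : D.Ok c g) (hx : Wt x P 1) (hw : Wr D x P w) {a : V} (ha : P a)
    (ht : t ∈ Icc (0 : ℝ) 1) : -c.nb t ≤ ∑ b, xr x P a b * Om D.M' (w a b) t := by
  rw [sum_Om hD hw a ht]
  rcases le_or_gt D.t1 t with h1 | h1
  · have h2 := Om_nonneg hD.hM (sumw_int hw a) (fun s hs => sumw_nonneg hx hw a hs) ht h1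
    have h3 := hD.nb0 t ht
    linarith
  · have h2 := Om_lower hD.hM (sumw_int hw a) (fun s hs => sumw_nonneg hx hw a hs) ht
    set S := ∑ b, D.sT (xr x P a b) - D.k1 * Qs x P a with hS
    have h3 : A qq (fun s => ∑ b, xr x P a b * w a b s) t ≤ S * A qq D.kT t := by
      rw [← A_const_mul]
      refine A_mono qq_cont (fun s hs => (qq_pos hs).le) (hD.kTi.const_mul _) (sumw_int hw a)
        (fun s hs => ?_) ht.1
      have := hw.T a ha s hs
      rw [mul_comm] at this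
      exact this
    have h4 : S ≤ D.ST := by
      have h5 : ∑ b, D.sT (xr x P a b) ≤ ∑ b, D.ST * xr x P a b :=
        Finset.sum_le_sum fun b _ => hD.sTS _ (xmem1 hx a b)
      rw [← Finset.mul_sum] at h5
      have h6 := mul_le_mul_of_nonneg_left (xr_row hx a) hD.STn
      have h7 : 0 ≤ D.k1 * Qs x P a := mul_nonneg hD.k10 (Qs_nonneg x P a)
      linarith
    have h5 := mul_le_mul_of_nonneg_right h4
      (A_nonneg qq_cont (fun s hs => (qq_pos hs).le) hD.kTi hD.kTn ht.1)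
    have h6 := hD.nb t ht h1
    linarith

/-- the shape of the pair bound -/
noncomputable def Sab (D : Kd) (x : V → V → ℝ) (P : V → Prop) [DecidablePred P] (a b : V) : ℝ :=
  ∑ d ∈ ({a, b} : Finset V)ᶜ,
    (D.ka (xr x P a b) (xr x P a d) / 2 + D.ka (xr x P a b) (xr x P b d) / 2)

theorem Sab_nonneg (hD : D.Ok c g) (hx : Wt x P 1) {a b : V} (hab : a ≠ b) :
    0 ≤ Sab D x P a b := by
  unfold Sab
  refine Finset.sum_nonneg fun d hd => ?_
  have h3 := yz_le hx hab hd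
  have h1 := hD.kan _ (xmem1 hx a b) _ (xmem1 hx a d) h3.1
  have h2 := hD.kan _ (xmem1 hx a b) _ (xmem1 hx b d) h3.2.1
  linarith

theorem Sab_le (hD : D.Ok c g) (hx : Wt x P 1) {a b : V} (hab : a ≠ b) :
    Sab D x P a b ≤ (1 - xr x P a b) * D.cS (xr x P a b) := by
  unfold Sab
  have h1 : ∑ d ∈ ({a, b} : Finset V)ᶜ,
      (D.ka (xr x P a b) (xr x P a d) / 2 + D.ka (xr x P a b) (xr x P b d) / 2)
      ≤ D.cS (xr x P a b) / 2 * (∑ d ∈ ({a, b} : Finset V)ᶜ, xr x P a d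
        + ∑ d ∈ ({a, b} : Finset V)ᶜ, xr x P b d) := by
    rw [← Finset.sum_add_distrib, Finset.mul_sum]
    refine Finset.sum_le_sum fun d hd => ?_
    have h3 := yz_le hx hab hd
    have h1 := hD.kaS _ (xmem1 hx a b) _ (xmem1 hx a d) h3.1
    have h2 := hD.kaS _ (xmem1 hx a b) _ (xmem1 hx b d) h3.2.1
    linarith
  have h2 := mul_le_mul_of_nonneg_left (add_le_add (sum_compl (P := P) hx hab)
    (sum_compl' (P := P) hx hab)) (show 0 ≤ D.cS (xr x P a b) / 2 by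
      have := hD.cSn _ (xmem1 hx a b); linarith)
  linarith

theorem w_le (hw : Wr D x P w) {a b : V} (ha : P a) (hb : P b) (hab : a ≠ b) {s : ℝ}
    (hs : s ∈ Icc (0 : ℝ) 1) : w a b s ≤ Sab D x P a b * D.kP s := by
  have := hw.P a b ha hb hab s hs
  rw [mul_comm] at this
  exact this

theorem A_w_le (hD : D.Ok c g) (hw : Wr D x P w) {a b : V} (ha : P a) (hb : P b)
    (hab : a ≠ b) (ht : 0 ≤ t) : A qq (w a b) t ≤ Sab D x P a b * A qq D.kP t := by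
  rw [← A_const_mul]
  exact A_mono qq_cont (fun s hs => (qq_pos hs).le) (hD.kPi.const_mul _) (hw.i a b)
    (fun s hs => w_le hw ha hb hab hs) ht

/-- **the bound of the correction of a pair** -/
theorem Om_P (hD : D.Ok c g) (hx : Wt x P 1) (hw : Wr D x P w) {a b : V} (ha : P a) (hb : P b)
    (hab : a ≠ b) (ht : t ∈ Icc (0 : ℝ) 1) :
    Om D.M' (w a b) t ≤ D.GP t * Sab D x P a b := by
  have hS0 := Sab_nonneg hD hx hab
  refine Om_le hD.hM (w := fun s => Sab D x P a b * D.kP s) (hD.kPi.const_mul _) (hw.i a b)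
    (fun s hs => hw.n a b s hs) (fun s hs => w_le hw ha hb hab hs) ht (fun h1 => ?_)
    (fun h1 => ?_)
  · rw [A_const_mul, A_const_mul]
    have := mul_le_mul_of_nonneg_left (hD.GP1 t ht h1) hS0
    linarith
  · rw [A_const_mul]
    have := mul_le_mul_of_nonneg_left (hD.GP2 t ht h1) hS0
    linarith

open Classical in
/-- lower bound of the own gain -/
theorem og_ge (hD : D.Ok c g) (hx : Wt x P 1) (hw : Wr D x P w) {a b : V} (ha : P a) (hb : P b)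
    (hab : a ≠ b) (ht : t ∈ Icc (0 : ℝ) 1) :
    -(xr x P a b * ((D.r (xr x P a b) t * (if t < D.t1 then D.AP t else 0)
      + D.JP (xr x P a b) t) * Sab D x P a b)) ≤ (pfOf D x P w).og a b t := by
  have hy := xmem1 hx a b
  have hS0 := Sab_nonneg hD hx (P := P) hab
  show _ ≤ xr x P a b * (Om D.M' (w a b) t * D.r (xr x P a b) t
    - ∫ s in (0 : ℝ)..t, Om D.M' (w a b) (cl s) * D.r' (xr x P a b) (cl s))
  rw [← mul_neg]
  refine mul_le_mul_of_nonneg_left ?_ hy.1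
  set y := xr x P a b with hyd
  set S := Sab D x P a b with hSd
  have h1 : -((if t < D.t1 then D.AP t else 0) * S) ≤ Om D.M' (w a b) t := by
    rcases le_or_gt D.t1 t with h1 | h1
    · have h2 := Om_nonneg hD.hM (hw.i a b) (hw.n a b) ht h1
      rw [if_neg (not_lt.2 h1)]
      linarith
    · have h2 := Om_lower hD.hM (hw.i a b) (hw.n a b) ht
      have h3 := A_w_le hD hw ha hb hab (t := t) ht.1
      have h4 := mul_le_mul_of_nonneg_left (hD.AP t ht h1) hS0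
      rw [← hSd] at h3
      rw [if_pos h1]
      linarith
  have h2 : ∫ s in (0 : ℝ)..t, Om D.M' (w a b) (cl s) * D.r' y (cl s) ≤ D.JP y t * S := by
    have h3 : ∫ s in (0 : ℝ)..t, Om D.M' (w a b) (cl s) * D.r' y (cl s)
        ≤ ∫ s in (0 : ℝ)..t, S * (D.GP (cl s) * D.r' y (cl s)) := by
      refine intervalIntegral.integral_mono_on ht.1
        (((comp_cl (Om_contOn hD (hw.i a b))).mul (comp_cl (hD.cr y hy))).intervalIntegrable _ _)
        ((continuous_const.mul ((comp_cl hD.GPc).mul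
          (comp_cl (hD.cr y hy)))).intervalIntegrable _ _) fun s _ => ?_
      have h4 := Om_P hD hx hw ha hb hab (cl_mem s)
      have h5 := mul_le_mul_of_nonneg_right h4 (hD.r'n y hy _ (cl_mem s))
      rw [← hSd] at h5
      linarith
    rw [intervalIntegral.integral_const_mul] at h3
    have h6 := mul_le_mul_of_nonneg_left (hD.JP y hy t ht) hS0
    linarith
  have h3 := mul_le_mul_of_nonneg_right h1 (hD.rn y hy t ht)
  have e : -((D.r y t * (if t < D.t1 then D.AP t else 0) + D.JP y t) * S)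
      = -((if t < D.t1 then D.AP t else 0) * S) * D.r y t - D.JP y t * S := by
    ring
  rw [e]
  linarith

theorem Kd.Ok.wc (hD : D.Ok c g) {y : ℝ} (hy : y ∈ Icc (0 : ℝ) 1) (ht : t ∈ Icc (0 : ℝ) 1)
    [Decidable (t < D.t1)] :
    (1 + t) ^ 2 * D.M' t * A qq D.kP 1
      + 2 * y * (D.r y t * (if t < D.t1 then D.AP t else 0) + D.JP y t) ≤ D.wc y t := by
  by_cases h : t < D.t1
  · rw [if_pos h]; exact hD.wc2 y hy t ht h
  · rw [if_neg h, mul_zero, zero_add]; exact hD.wc1 y hy t ht (not_lt.1 h)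

open Classical in
/-- **the properties of the functions of the pairs** -/
theorem wk_of (hD : D.Ok c g) (hx : Wt x P 1) (hw : Wr D x P w)
    {sg1 : ℝ → ℝ → ℝ}
    (hmu : ∀ a, P a → ∀ t ∈ Icc (0 : ℝ) 1,
      ∑ b, xr x P a b * ∑ d, c.mu (xr x P a b) (xr x P a d) (xr x P b d) t
        ≤ ∑ b, sg1 (xr x P a b) t + D.GT t * (D.k1 * Qs x P a))
    (hsg : ∀ y ∈ Icc (0 : ℝ) 1, ∀ t ∈ Icc (0 : ℝ) 1, sg1 y t + D.GT t * D.sT y ≤ g.sg y t) :
    Wk c g x P (pfOf D x P w) where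
  s a b t := by
    show Om' D.M' (w a b) t = Om' D.M' (w b a) t
    rw [hw.s a b]
  d a b t _ := Om_deriv hD.hM (hw.i a b) t
  cn a b := (Om'_cont hD.hM (hw.i a b)).continuousOn
  z0 a b := Om_zero
  z1 a b := Om_one hD.hM (hw.i a b)
  n a ha t ht := Om_N hD hx hw ha ht
  d0 a b := by
    show Om' D.M' (w a b) 0 ≤ 0
    rw [Om'_eq ⟨le_rfl, zero_le_one⟩, hD.M'0, I_zero]
    simp
  ts a ha t ht := by
    show ∑ b, xr x P a b * (∑ d, c.mu (xr x P a b) (xr x P a d) (xr x P b d) t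
      + Om D.M' (w a b) t) ≤ ∑ b, g.sg (xr x P a b) t
    have h1 := hmu a ha t ht
    have h2 := Om_T hD hx hw ha ht
    have h3 : ∑ b, (sg1 (xr x P a b) t + D.GT t * D.sT (xr x P a b))
        ≤ ∑ b, g.sg (xr x P a b) t := Finset.sum_le_sum fun b _ => hsg _ (xmem1 hx a b) t ht
    rw [Finset.sum_add_distrib, ← Finset.mul_sum] at h3
    simp_rw [mul_add]
    rw [Finset.sum_add_distrib]
    linarith
  gm a b ha hb hab t ht := by
    show -Om' D.M' (w a b) t ≤ g.gm (xr x P a b) t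
    have hy := xmem1 hx a b
    rw [Om'_eq ht]
    have h1 := mul_nonneg (hD.M'n t ht) (A_nonneg qq_cont (fun s hs => (qq_pos hs).le)
      (hw.i a b) (hw.n a b) zero_le_one)
    have h2 : I (w a b) t ≤ Sab D x P a b * I D.kP t := by
      rw [← I_const_mul]
      exact I_mono_w (hD.kPi.const_mul _) (hw.i a b) (fun s hs => w_le hw ha hb hab hs) ht
    have h3 := mul_le_mul_of_nonneg_right (Sab_le hD hx (P := P) hab)
      (I_nonneg hD.kPi hD.kPn ht)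
    have h4 := mul_le_mul_of_nonneg_left (h2.trans h3) (qq_pos ht).le
    have h5 := hD.gm _ hy t ht
    have e : qq t * ((1 - xr x P a b) * D.cS (xr x P a b) * I D.kP t)
        = qq t * I D.kP t * ((1 - xr x P a b) * D.cS (xr x P a b)) := by ring
    rw [e] at h4
    linarith
  wi a b _ _ _ := hw.i a b
  wCO a b _ _ _ t _ := le_rfl
  dog a b t ht := by
    have hy := xmem1 hx a b
    have d1 := (Om_deriv hD.hM (hw.i a b) t).mul (hD.dr _ hy t ht)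
    have d2 := (((comp_cl (Om_contOn hD (hw.i a b))).mul
      (comp_cl (hD.cr _ hy))).integral_hasStrictDerivAt 0 t).hasDerivAt
    exact (d1.sub d2).const_mul (xr x P a b)
  og0 a b := by
    show xr x P a b * (Om D.M' (w a b) 0 * D.r (xr x P a b) 0
      - ∫ s in (0 : ℝ)..0, Om D.M' (w a b) (cl s) * D.r' (xr x P a b) (cl s)) ≤ 0
    rw [Om_zero, intervalIntegral.integral_same]
    simp
  ogs a b t := by
    show xr x P a b * (Om D.M' (w a b) t * D.r (xr x P a b) t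
      - ∫ s in (0 : ℝ)..t, Om D.M' (w a b) (cl s) * D.r' (xr x P a b) (cl s))
      = xr x P b a * (Om D.M' (w b a) t * D.r (xr x P b a) t
      - ∫ s in (0 : ℝ)..t, Om D.M' (w b a) (cl s) * D.r' (xr x P b a) (cl s))
    rw [xr_symm hx a b, hw.s a b]
  ogi a b _ _ _ t ht := by
    have hy := xmem1 hx a b
    show xr x P a b * (Om' D.M' (w a b) t * D.r (xr x P a b) t
      + Om D.M' (w a b) t * D.r' (xr x P a b) t
      - Om D.M' (w a b) (cl t) * D.r' (xr x P a b) (cl t)) * c.ab (xr x P a b) t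
      ≤ xr x P a b * Om' D.M' (w a b) t
    rw [cl_eq ht]
    have h1 := hD.rab _ hy t ht
    have e : xr x P a b * (Om' D.M' (w a b) t * D.r (xr x P a b) t
      + Om D.M' (w a b) t * D.r' (xr x P a b) t
      - Om D.M' (w a b) t * D.r' (xr x P a b) t) * c.ab (xr x P a b) t
      = xr x P a b * Om' D.M' (w a b) t * (D.r (xr x P a b) t * c.ab (xr x P a b) t) := by ring
    rw [e, h1, mul_one]
  LW a b ha hb hab t ht := by
    have hy := xmem1 hx a b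
    have hog := og_ge hD hx hw ha hb hab ht
    set og := (pfOf D x P w).og a b t with hogd
    show I (w a b) t + Om' D.M' (w a b) t / g.X (xr x P a b) t - 2 * og ≤ _
    set y := xr x P a b with hyd
    set S := Sab D x P a b with hSd
    have hS0 : 0 ≤ S := Sab_nonneg hD hx (P := P) hab
    rw [hD.X y hy t ht, Om'_eq ht]
    have hq := qq_pos ht
    have e1 : I (w a b) t + (D.M' t * A qq (w a b) 1 - qq t * I (w a b) t) / qq t
        = (1 + t) ^ 2 * D.M' t * A qq (w a b) 1 := by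
      have e2 : (1 + t) ^ 2 = (qq t)⁻¹ := by unfold qq; rw [inv_inv]
      rw [e2]
      field_simp
      ring
    have h1 := A_w_le hD hw ha hb hab (t := 1) zero_le_one
    rw [← hSd] at h1
    have h2 := mul_le_mul_of_nonneg_left h1
      (mul_nonneg (sq_nonneg (1 + t)) (hD.M'n t ht))
    have h3 := mul_le_mul_of_nonneg_left (hD.wc hy ht) hS0
    have h4 : D.wc y t * S ≤ ∑ d ∈ ({a, b} : Finset V)ᶜ, (g.kl y (xr x P a d) t
        + g.kl y (xr x P b d) t) := by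
      rw [hSd]
      unfold Sab
      rw [Finset.mul_sum]
      refine Finset.sum_le_sum fun d hd => ?_
      have h5 := yz_le hx hab hd
      have h6 := hD.kl _ hy _ (xmem1 hx a d) h5.1 t ht
      have h7 := hD.kl _ hy _ (xmem1 hx b d) h5.2.1 t ht
      rw [mul_add]
      exact add_le_add h6 h7
    have h5 := hD.K3 y hy t ht
    have e3 : I (w a b) t + (D.M' t * A qq (w a b) 1 - qq t * I (w a b) t) / qq t - 2 * og
        = (1 + t) ^ 2 * D.M' t * A qq (w a b) 1 - 2 * og := by rw [← e1]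
    rw [e3]
    linarith

end Pool.Agent.RZ.RCN.K
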