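import Pool.Agent.RZ.RCM.BTau
import Pool.Agent.RZ.RCN.Ident
import Pool.Agent.RZ.RCN.KerC
import Pool.Agent.RZ.RCN.Main

/-! A lower bound of the pair probabilities by inclusion and exclusion (MP_73ccd0_lc, route M). -/

namespace Pool.Agent.RZ.RCN.K

open Set Finset MeasureTheory Pool.Agent.RZ.RCRSHalf Pool.Agent.RZ.RCG Pool.Agent.RZ.RCG.Ct
open Pool.Agent.RZ.RCN.Ker

set_option linter.unusedSectionVars false

variable {V : Type*} [Fintype V] [DecidableEq V]
variable {x : V → V → ℝ} {P : V → Prop} [DecidablePred P] {c : Cf} {g : Cg} {W : Pf V}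
variable {h : ℝ → V → V → ℝ} {H : V → V → ℝ → ℝ} {t : ℝ}
variable {ψ ψ' : V → V → ℝ → ℝ} {ab : ℝ → ℝ → ℝ}

theorem pp_comm' (h : ℝ → V → V → ℝ) (u v : V) (s : ℝ) : pp h v u s = pp h u v s := by
  unfold pp
  rw [Finset.pair_comm]

/-- inclusion and exclusion: both ends are free, or one of them is taken, and the two are taken
at the same time by the edge between them with the known probability -/
theorem pp_ie (hψ : Cor x P ψ ψ') (hK : Kn x P (dn x P ψ') ab h H t) {u v : V}
    (hu : P u) (hv : P v) (huv : u ≠ v) (hxuv : x u v ≠ 0) {s : ℝ} (hs : s ∈ Icc 0 t) :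
    bb h ∅ u s + bb h ∅ v s - 1 + x u v * (1 - (1 + s)⁻¹ - ψ u v s) ≤ pp h u v s := by
  have hh := hK.hh
  have ht := hK.ht
  have key := nonneg_of_forward (a := 0) (s := t)
    (U := fun s => pp h u v s
      - (bb h ∅ u s + bb h ∅ v s - 1 + x u v * (1 - (1 + s)⁻¹ - ψ u v s)))
    (U' := fun s => -(h s u v * pp h u v s
        + ∑ c ∈ ({u, v} : Finset V)ᶜ, (h s u c + h s v c) * ppp h u v c s)
      - (-(∑ c, h s u c * pp h u c s) + -(∑ c, h s v c * pp h v c s)
        + x u v * (((1 + s) ^ 2)⁻¹ - ψ' u v s)))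
    (fun r hr => by
      have hr1 : r ∈ Icc (0 : ℝ) 1 := ⟨hr.1, hr.2.trans ht.2⟩
      have hr0 : (1 + r) ≠ 0 := by linarith [hr.1]
      have d1 := pp_deriv hh huv hr1
      have d2 := bb_deriv hh u hr1
      have d3 := bb_deriv hh v hr1
      have d4 : HasDerivAt (fun s : ℝ => (1 + s)⁻¹) (-((1 + r) ^ 2)⁻¹) r := by
        have := (((hasDerivAt_id r).const_add 1).inv hr0)
        refine this.congr_deriv ?_
        simp only [id]; rw [neg_div, one_div]
      have d5 := hψ.d u v hu hv r hr1
      have d6 := ((d4.const_sub 1).sub d5).const_mul (x u v)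
      refine (d1.sub (((d2.add d3).sub_const 1).add d6)).congr_deriv ?_
      ring)
    (by
      have h0 : (0 : ℝ) ∈ Icc (0 : ℝ) 1 := ⟨le_rfl, zero_le_one⟩
      have e : pp h u v 0 = 1 := by
        unfold pp
        rw [(hh.lw ∅).pr_start, if_pos]
        rw [Finset.compl_empty]; exact Finset.subset_univ _
      simp only [e, bb_start hh (Finset.notMem_empty u), bb_start hh (Finset.notMem_empty v),
        hψ.z0 u v hu hv]
      simp)
    (fun r hr _ => by
      have hr1 : r ∈ Icc (0 : ℝ) 1 := ⟨hr.1, hr.2.trans ht.2⟩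
      have e1 := Cu.sum_split' huv (fun c => h r u c * pp h u c r)
        (by simp only [hh.diag, zero_mul])
      have e2 := Cu.sum_split' huv.symm (fun c => h r v c * pp h v c r)
        (by simp only [hh.diag, zero_mul])
      rw [Finset.pair_comm v u, hh.symm r v u, pp_comm' h u v r] at e2
      have e3 := hK.fl r hr u v
      rw [dn_real hu hv hxuv] at e3
      have e4 : ∑ c ∈ ({u, v} : Finset V)ᶜ, (h r u c + h r v c) * ppp h u v c r
          ≤ ∑ c ∈ ({u, v} : Finset V)ᶜ, h r u c * pp h u c r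
            + ∑ c ∈ ({u, v} : Finset V)ᶜ, h r v c * pp h v c r := by
        rw [← Finset.sum_add_distrib]
        refine Finset.sum_le_sum fun c _ => ?_
        have n := fun F => (hh.lw (∅ : Finset V)).nonneg F r hr1
        have i1 : ppp h u v c r ≤ pp h u c r := by
          unfold ppp pp
          refine RCM.pr_mono n ?_
          intro z hz
          simp only [Finset.mem_insert, Finset.mem_singleton] at hz ⊢
          tauto
        have i2 : ppp h u v c r ≤ pp h v c r := by
          unfold ppp pp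
          refine RCM.pr_mono n ?_
          intro z hz
          simp only [Finset.mem_insert, Finset.mem_singleton] at hz ⊢
          tauto
        have j1 := mul_le_mul_of_nonneg_left i1 (hh.nonneg r u c)
        have j2 := mul_le_mul_of_nonneg_left i2 (hh.nonneg r v c)
        linarith
      linarith)
    s hs
  linarith

/-- the bound with the local functions -/
theorem pp_ie' (hg : g.Ok c) (hx : Wt x P 1) (hW : Wk c g x P W) (hc : c.Ok)
    (hK : Kn x P (dn x P (psi' c x P W)) c.ab h H t) {u v : V}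
    (hu : P u) (hv : P v) (huv : u ≠ v) (hxuv : x u v ≠ 0) {s : ℝ} (hs : s ∈ Icc 0 t)
    (hO : -c.nb s ≤ x u v * W.Om u v s) :
    (1 - (1 - x u v) * s) * (1 + s)⁻¹ + (x u v * c.al (x u v) s - 2 * g.sg (x u v) s)
      - c.nb s ≤ pp h u v s := by
  have hs1 : s ∈ Icc (0 : ℝ) 1 := ⟨hs.1, hs.2.trans hK.ht.2⟩
  have hψ := cor_psi hc hg hx hW
  have e1 : xr x P u v = x u v := by unfold xr; rw [if_pos ⟨hu, hv⟩]
  have e2 : xr x P v u = x u v := by rw [xr_symm hx v u, e1]
  have single : ∀ {a b : V}, P a → (1 + s)⁻¹ + (xr x P a b * c.al (xr x P a b) s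
      - g.sg (xr x P a b) s) ≤ bb h ∅ a s := by
    intro a b ha
    rw [free_eq hx hψ hK.hh hK.ht hK.fl ha hs]
    have h1 := corr_low hW ha hs1
    have h2 : xr x P a b * c.al (xr x P a b) s - g.sg (xr x P a b) s
        ≤ ∑ e, (xr x P a e * c.al (xr x P a e) s - g.sg (xr x P a e) s) :=
      Finset.single_le_sum (f := fun e => xr x P a e * c.al (xr x P a e) s
        - g.sg (xr x P a e) s) (fun e _ => by
          have := hg.sg1 _ (xmem1 hx a e) s hs1
          linarith) (Finset.mem_univ b)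
    linarith
  have h1 := single (a := u) (b := v) hu
  have h2 := single (a := v) (b := u) hv
  rw [e1] at h1
  rw [e2] at h2
  have h3 := pp_ie hψ hK hu hv huv hxuv hs
  have h4 : psi c x P W u v s ≤ c.al (x u v) s - W.Om u v s := by
    unfold psi
    rw [e1]
    have : 0 ≤ ∑ d, c.mu (x u v) (xr x P u d) (xr x P v d) s :=
      Finset.sum_nonneg fun d _ => by
        have := hc.mun _ (xmem1 hx u v) _ (xmem1 hx u d) _ (xmem1 hx v d) s hs1
        rwa [e1] at this
    linarith
  have h5 := mul_le_mul_of_nonneg_left h4 (hx.nonneg u v)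
  have hs0 : (1 + s) ≠ 0 := by linarith [hs.1]
  have e3 : (1 - (1 - x u v) * s) * (1 + s)⁻¹
      = 2 * (1 + s)⁻¹ - 1 + x u v * (1 - (1 + s)⁻¹) := by
    field_simp
    ring
  rw [e3]
  have e4 : x u v * (1 - (1 + s)⁻¹ - psi c x P W u v s)
      = x u v * (1 - (1 + s)⁻¹) - x u v * psi c x P W u v s := by ring
  rw [e4] at h3
  have e5 : x u v * (c.al (x u v) s - W.Om u v s)
      = x u v * c.al (x u v) s - x u v * W.Om u v s := by ring
  rw [e5] at h5
  linarith

/-- the early negative part of one pair -/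
theorem Om_N1 {D : Kd} {w : V → V → ℝ → ℝ} (hD : D.Ok c g) (hx : Wt x P 1) (hw : Wr D x P w)
    {a b : V} (ha : P a) (ht : t ∈ Icc (0 : ℝ) 1) :
    -c.nb t ≤ xr x P a b * Om D.M' (w a b) t := by
  have hi : IntegrableOn (fun s => xr x P a b * w a b s) (Icc 0 1) := (hw.i a b).const_mul _
  have hn : ∀ s ∈ Icc (0 : ℝ) 1, 0 ≤ xr x P a b * w a b s := fun s hs =>
    mul_nonneg (xr_nonneg hx a b) (hw.n a b s hs)
  have e : xr x P a b * Om D.M' (w a b) t = Om D.M' (fun s => xr x P a b * w a b s) t := by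
    rw [Om_eq hD.hM (hw.i a b) ht, Om_eq hD.hM hi ht, A_const_mul, A_const_mul]
    ring
  rw [e]
  rcases le_or_gt D.t1 t with h1 | h1
  · have h2 := Om_nonneg hD.hM hi hn ht h1
    have h3 := hD.nb0 t ht
    linarith
  · have h2 := Om_lower hD.hM hi hn ht
    have h3 : A qq (fun s => xr x P a b * w a b s) t
        ≤ A qq (fun s => D.ST * D.kT s) t := by
      refine A_mono qq_cont (fun s hs => (qq_pos hs).le) (hD.kTi.const_mul _) hi
        (fun s hs => ?_) ht.1
      have k1 := hw.T a ha s hs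
      have k2 : xr x P a b * w a b s ≤ ∑ b, xr x P a b * w a b s :=
        Finset.single_le_sum (f := fun b => xr x P a b * w a b s)
          (fun b _ => mul_nonneg (xr_nonneg hx a b) (hw.n a b s hs)) (Finset.mem_univ b)
      have k3 : ∑ b, D.sT (xr x P a b) - D.k1 * Qs x P a ≤ D.ST := by
        have h5 : ∑ b, D.sT (xr x P a b) ≤ ∑ b, D.ST * xr x P a b :=
          Finset.sum_le_sum fun b _ => hD.sTS _ (xmem1 hx a b)
        rw [← Finset.mul_sum] at h5
        have h6 := mul_le_mul_of_nonneg_left (xr_row hx a) hD.STn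
        have h7 : 0 ≤ D.k1 * Qs x P a := mul_nonneg hD.k10 (Qs_nonneg x P a)
        linarith
      have k4 := mul_le_mul_of_nonneg_left k3 (hD.kTn s hs)
      show xr x P a b * w a b s ≤ D.ST * D.kT s
      linarith
    have e9 : A qq (fun s => D.ST * D.kT s) t = D.ST * A qq D.kT t := by rw [A_const_mul]
    rw [e9] at h3
    have h6 := hD.nb t ht h1
    linarith

end Pool.Agent.RZ.RCN.K
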