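import Pool.Agent.RZ.RCN.Hz
import Pool.Agent.RZ.RCN.KleC
import Pool.Agent.RZ.RCN.R3

/-! The certified process satisfies the inclusion-exclusion bounds (MP_73ccd0_lc, route M). -/

namespace Pool.Agent.RZ.RCN.K

open Set Finset MeasureTheory Pool.Agent.RZ.RCRSHalf Pool.Agent.RZ.RCG Pool.Agent.RZ.RCG.Ct
open Pool.Agent.RZ.RCN.Ker Pool.Agent.RZ.RCRS

set_option linter.unusedSectionVars false

variable {V : Type} [Fintype V] [DecidableEq V] {Gr : SimpleGraph V} [Fintype Gr.edgeSet]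
  [DecidableEq Gr.edgeSet] {x : Gr.edgeSet → ℝ} [Pool.Agent.RZ.RCG.CX x]
variable {T : Dt} {Z : Hzd} {sl : ℝ → ℝ → ℝ} {w : V ⊕ V → V ⊕ V → ℝ → ℝ}
variable {b0 b1 : ℝ → ℝ} {Pe : ℝ → ℝ → ℝ} {Pt : ℝ → ℝ → ℝ → ℝ}

/-- the inequality behind the inclusion-exclusion bound -/
structure IEc (T : Dt) (fh : ℝ → ℝ → ℝ) (Z : Hzd) : Prop where
  D : ∀ y ∈ Icc (0 : ℝ) 1, ∀ r ∈ Icc (0 : ℝ) 1, Z.B y r →
    fh y r * (1 - y * Z.S y r) ≤ Z.E y r * ((1 - (1 - y) * r) * (1 + r)⁻¹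
      + (y * T.cf.al y r - 2 * T.cg.sg y r) - T.cf.nb r)

theorem IEc.ie (hI : IEc T (T.kf b0 b1 Pe Pt).fh Z) (hZ : Z.Ok sl)
    (hx : IsFractionalMatching Gr x) (h : T.Ok)
    (hk : T.KOk b0 b1 Pe Pt) (hw : Wr T.ek.kd (xe x) (P0 V) w)
    {h' : ℝ → V ⊕ V → V ⊕ V → ℝ} {H : V ⊕ V → V ⊕ V → ℝ → ℝ} {t : ℝ}
    (hCp : Cp T sl (xe x) (P0 V) w h' H t) :
    Z.IE (xe x) (P0 V) (dn (xe x) (P0 V) (psi' T.cf (xe x) (P0 V)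
      (pfOf T.ek.kd (xe x) (P0 V) w))) h' t := by
  intro s hs u v hu hv h0 hB
  have hwt := wt_xe hx zero_le_one le_rfl fun e => (hx.1 e).2
  have hs1 : s ∈ Icc (0 : ℝ) 1 := ⟨hs.1, hs.2.trans hCp.1.ht.2⟩
  have huv : u ≠ v := fun e => h0 (by rw [e]; exact hwt.diag v)
  have hm : xe x u v ∈ Icc (0 : ℝ) 1 := xw_mem hwt u v
  have e1 : xr (xe x) (P0 V) u v = xe x u v := by unfold xr; rw [if_pos ⟨hu, hv⟩]
  have k1 := (T.kf_fit b0 b1 Pe Pt).phi_le (Dt.kf_ok h hk) (T.ek_ok h) (T.kd_ok h) hwt hw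
    hu hv h0 hs1
  have h1 := Om_N1 (c := T.cf) (g := T.cg) (T.kd_ok h) hwt hw (a := u) (b := v) hu hs1
  rw [e1] at h1
  have k2 := pp_ie' (T.cg_ok h) hwt (Dt.wk hx h hw) (T.cf_ok h) hCp.1 hu hv huv h0 hs h1
  exact (mul_le_mul_of_nonneg_right k1 (hZ.den _ hm s hs1).le).trans
    ((hI.D _ hm s hs1 hB).trans (mul_le_mul_of_nonneg_left k2 (hZ.E_pos hm hs1).le))

end Pool.Agent.RZ.RCN.K
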