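import Pool.Agent.RZ.RCM9.DatC
import Pool.Agent.RZ.RCM9.DatK
import Pool.Agent.RZ.RCM9.DatS
import Pool.Agent.RZ.RCM9.DatY
import Pool.Agent.RZ.RCN.Asm

/-! The data of the assembly from rational polynomials (MP_73ccd0_lc, route M). -/

namespace Pool.Agent.RZ.RCN.K

open Set Finset MeasureTheory Pool.Agent.RZ.RCRSHalf Pool.Agent.RZ.RCG Pool.Agent.RZ.RCG.Ct
open Pool.Agent.RZ.RCN.Ker Pool.Agent.RZ.RCRS Pool.Agent.RZ.RCM9 Pool.Agent.RZ.RCM9.Bern Pool.Agent.RZ.RCM9.Pk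

set_option linter.unusedSectionVars false

/-- the polynomial data -/
structure Ps where
  d : Dat
  z : HDat
  y : YDat
  g : KDat
  κ : ℚ

/-- the condition on the constant of the truncation: `κ mb (1 + t)² ≤ b(y, t)` -/
def Ps.eKl (p : Ps) : E :=
  1 + (1 - Dat.xlo) * (pe p.d.be0 vT - 1) + Dat.xlo * pe p.d.be1 vT
    - qc p.κ * pe p.z.mb vT * (1 + vT) ^ 2

def Ps.eKh (p : Ps) : E :=
  1 + (1 - Dat.xhi) * (pe p.d.be0 vT - 1) + hlf * pe p.d.be1 vT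
    - qc p.κ * pe p.z.mb vT * (1 + vT) ^ 2

/-- the expressions of the lower bound of the hazards -/
def Ps.eLo (p : Ps) (x e : E) : E :=
  p.d.eLP x e vT - (pe p.z.l0 vT + e * pe p.z.l1 vT)
    * ((1 + vT) + qc p.d.th * pe p.d.Z vT * (1 + vT) ^ 2)

def Ps.eLoa (p : Ps) : E := pe p.z.l0 vT
def Ps.eLob (p : Ps) : E := pe p.z.l0 vT + hlf * pe p.z.l1 vT
def Ps.eLol (p : Ps) : E := p.eLo Dat.xlo Dat.xlo
def Ps.eLoh (p : Ps) : E := p.eLo Dat.xhi hlf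

/-- the polynomial inequalities -/
structure Ps.Ok (p : Ps) : Prop where
  d : p.d.Pos
  b : p.d.Bd
  s : p.d.BdS
  k : p.d.PosK
  z : p.z.Pos p.d
  y : p.y.Pos p.z
  g : p.g.Pos p.z
  κ0 : 0 < p.κ
  κ2 : p.κ ≤ 1 / 2
  Kl : NN p.eKl
  Kh : NN p.eKh
  loa : NN p.eLoa
  lob : NN p.eLob
  lol : NN p.eLol
  loh : NN p.eLoh

variable {p : Ps}

theorem lo_nn (h : p.Ok) {y : ℝ} (hy : y ∈ Icc (0 : ℝ) 1) {t : ℝ} (ht : t ∈ Icc (0 : ℝ) 1) :
    0 ≤ p.z.hz.hl y t := by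
  have h1 := h.loa.t ht
  have h2 := h.lob.t ht
  simp only [Ps.eLoa, Ps.eLob, val_add, val_mul, val_hlf, val_pe, val_vT] at h1 h2
  show 0 ≤ pv p.z.l0 t + eta y * pv p.z.l1 t
  rcases le_total y (1 / 2) with h3 | h3
  · rw [Dat.eta_lo h3]
    nlinarith [hy.1, mul_nonneg hy.1 h2, mul_nonneg (by linarith : 0 ≤ 1 - 2 * y) h1]
  · rw [Dat.eta_hi h3]
    linarith

theorem lo_le (h : p.Ok) {y : ℝ} (hy : y ∈ Icc (0 : ℝ) 1) {t : ℝ} (ht : t ∈ Icc (0 : ℝ) 1) :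
    p.z.hz.hl y t * p.d.dt.cf.ab y t
      ≤ ((1 + t) ^ 2)⁻¹ - p.d.dt.cf.al' y t - 2 * (1 - y) * p.d.dt.cg.N y t
        - p.d.dt.cg.gm y t := by
  have hT : 0 < 1 + t := by linarith [ht.1]
  have h1 : 0 < (1 + t) ^ 2 := by positivity
  have key : (pv p.z.l0 t + eta y * pv p.z.l1 t)
      * ((1 + t) + (p.d.th : ℝ) * pv p.d.Z t * (1 + t) ^ 2) ≤ p.d.rLP y (eta y) t := by
    rcases le_total y (1 / 2) with h1 | h1
    · have h2 := h.lol (2 * y) 0 0 t (Dat.two_mul_mem hy.1 h1) Dat.z01 Dat.z01 ht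
      simp only [Ps.eLol, Ps.eLo, val_sub, Dat.val_eLP, val_mul, val_add, val_one, val_pow,
        val_pe, val_qc, Dat.val_xlo, val_vT] at h2
      rw [show 1 / 2 * (2 * y) = y by ring] at h2
      rw [Dat.eta_lo h1]
      linarith
    · have h2 := h.loh (2 * y - 1) 0 0 t (Dat.two_sub_mem h1 hy.2) Dat.z01 Dat.z01 ht
      simp only [Ps.eLoh, Ps.eLo, val_sub, Dat.val_eLP, val_mul, val_add, val_one, val_pow,
        val_pe, val_qc, Dat.val_xhi, val_hlf, val_vT] at h2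
      rw [show 1 / 2 + 1 / 2 * (2 * y - 1) = y by ring] at h2
      rw [Dat.eta_hi h1]
      linarith
  refine le_of_mul_le_mul_right ?_ h1
  have e0 : p.d.dt.cf.ab y t = (1 + t)⁻¹ + (p.d.th : ℝ) * pv p.d.Z t := rfl
  have e00 : p.z.hz.hl y t = pv p.z.l0 t + eta y * pv p.z.l1 t := rfl
  have e1 : p.z.hz.hl y t * p.d.dt.cf.ab y t * (1 + t) ^ 2
      = (pv p.z.l0 t + eta y * pv p.z.l1 t)
        * ((1 + t) + (p.d.th : ℝ) * pv p.d.Z t * (1 + t) ^ 2) := by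
    rw [e0, e00]
    field_simp
  have e2 : p.d.dt.cg.gm y t = (p.d.SP : ℝ) * (1 - y) * p.d.dt.jp t := rfl
  have e3 : p.d.dt.kapp t = (1 + t) ^ 2 * p.d.dt.jp t := (Dat.ok h.d h.b).hjp t ht
  have e4 : (((1 + t) ^ 2)⁻¹ - p.d.dt.cf.al' y t - 2 * (1 - y) * p.d.dt.cg.N y t
        - p.d.dt.cg.gm y t) * (1 + t) ^ 2 = p.d.rLP y (eta y) t := by
    rw [e2]
    have e5 : p.d.rLP y (eta y) t = 1 - (eta y * p.d.dt.Z' t * (1 + t) ^ 2
      + 2 * (1 - y) * p.d.dt.N t * (1 + t) ^ 2 + (p.d.SP : ℝ) * (1 - y) * p.d.dt.kapp t) := rfl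
    rw [e5, e3]
    have e6 : p.d.dt.cf.al' y t = eta y * p.d.dt.Z' t := rfl
    have e7 : p.d.dt.cg.N y t = p.d.dt.N t := rfl
    rw [e6, e7]
    field_simp
    ring
  rw [e1, e4]
  exact key

/-- the lower bound of the light pairs holds for the pendant pairs -/
theorem lo_lep (h : p.Ok) (y : ℝ) {t : ℝ} (ht : t ∈ Icc (0 : ℝ) 1) :
    p.z.hz.hl 0 t * p.d.dt.cf.ab y t ≤ ((1 + t) ^ 2)⁻¹ := by
  have hT := Dat.ok h.d h.b
  have h1 := lo_le h (y := 0) ⟨le_rfl, zero_le_one⟩ ht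
  have e0 : p.d.dt.cf.ab y t = p.d.dt.cf.ab 0 t := rfl
  have e1 : p.d.dt.cf.al' 0 t = 0 := by
    show eta 0 * p.d.dt.Z' t = 0
    have : eta 0 = 0 := by unfold eta; exact min_eq_left (by norm_num)
    rw [this, zero_mul]
  have e2 : 0 ≤ p.d.dt.cg.N 0 t := hT.hN t ht
  have e3 : 0 ≤ p.d.dt.kapp t := by
    have := nonneg_of_forward (U := p.d.dt.kapp) (U' := p.d.dt.kp) (a := 0) (s := t)
      (fun r hr => hT.dkapp r ⟨hr.1, hr.2.trans ht.2⟩) hT.kapp0.ge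
      (fun r hr _ => hT.kpn r ⟨hr.1, hr.2.trans ht.2⟩) t ⟨ht.1, le_rfl⟩
    exact this
  have e4 : 0 ≤ p.d.dt.jp t := by
    have h2 := hT.hjp t ht
    have h3 : (0 : ℝ) < (1 + t) ^ 2 := by
      have := ht.1
      positivity
    rw [h2] at e3
    exact nonneg_of_mul_nonneg_right e3 h3
  have e5 : 0 ≤ p.d.dt.cg.gm 0 t := by
    show 0 ≤ p.d.dt.SP * (1 - 0) * p.d.dt.jp t
    exact mul_nonneg (mul_nonneg hT.SPn (by norm_num)) e4
  rw [e0]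
  rw [e1] at h1
  linarith


/-- the region of inclusion and exclusion -/
theorem ie_le (h : p.Ok) :
    IEc p.d.dt (p.d.dt.kf (pv p.d.be0) (pv p.d.be1) p.d.rPe p.d.rP).fh p.z.hz where
  D y hy r hr hB := by
    obtain ⟨ht1, key⟩ := h.z.i3 hy hr hB
    have hT : 0 < 1 + r := by linarith [hr.1]
    have hT2 : 0 < (1 + r) ^ 2 := by positivity
    have e0 : p.d.dt.cf.nb r = 0 := by
      show Ek.nb _ r = 0
      unfold Ek.nb
      exact if_neg (not_lt.2 ht1)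
    have e1 : (p.d.dt.kf (pv p.d.be0) (pv p.d.be1) p.d.rPe p.d.rP).fh y r
        = p.d.rb y (eta y) r * ((1 + r) ^ 2)⁻¹ := rfl
    have e2 : y * p.d.dt.cf.al y r - 2 * p.d.dt.cg.sg y r
        = 2 * p.d.rS y (eta y) r - y * (eta y * pv p.d.Z r) := by
      have a1 : p.d.dt.cf.al y r = eta y * pv p.d.Z r := rfl
      have a2 : p.d.dt.cg.sg y r = y ^ 2 * (1 - y) * (pv p.d.F r + y * pv p.d.F3 r
        + 4 * (y * (1 - y)) * pv p.d.F2 r) + Dat.rk p.d.shT y * pv p.d.Gs r := rfl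
      rw [a1, a2]
      unfold Dat.rS
      ring
    rw [e0, e1, e2]
    refine le_of_mul_le_mul_right ?_ hT2
    have e3 : p.d.rb y (eta y) r * ((1 + r) ^ 2)⁻¹ * (1 - y * p.z.hz.S y r) * (1 + r) ^ 2
        = p.d.rb y (eta y) r * (1 - y * p.z.rSh y r) := by
      show p.d.rb y (eta y) r * ((1 + r) ^ 2)⁻¹ * (1 - y * p.z.rSh y r) * (1 + r) ^ 2 = _
      field_simp
    have e4 : p.z.hz.E y r * ((1 - (1 - y) * r) * (1 + r)⁻¹
        + (2 * p.d.rS y (eta y) r - y * (eta y * pv p.d.Z r)) - 0) * (1 + r) ^ 2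
        = p.z.rE y r * HDat.rD3 p.d y (eta y) r := by
      show p.z.rE y r * ((1 - (1 - y) * r) * (1 + r)⁻¹
        + (2 * p.d.rS y (eta y) r - y * (eta y * pv p.d.Z r)) - 0) * (1 + r) ^ 2 = _
      unfold HDat.rD3
      field_simp
      ring
    rw [e3, e4]
    exact key

theorem rr_le_fh (h : p.Ok) {y : ℝ} (hy : y ∈ Icc (0 : ℝ) 1) {s : ℝ} (hs : s ∈ Icc (0 : ℝ) 1) :
    p.z.hz.rr y s * (p.κ : ℝ) ≤ (p.d.dt.kf (pv p.d.be0) (pv p.d.be1) p.d.rPe p.d.rP).fh y s := by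
  have hm := h.z.rr_mb hy hs
  have κ0 : (0 : ℝ) ≤ (p.κ : ℝ) := by exact_mod_cast h.κ0.le
  have h1 := mul_le_mul_of_nonneg_right hm κ0
  refine h1.trans ?_
  show _ ≤ (1 + (1 - y) * (pv p.d.be0 s - 1) + eta y * pv p.d.be1 s) * ((1 + s) ^ 2)⁻¹
  have hs2 : 0 < (1 + s) ^ 2 := by
    have := hs.1
    positivity
  rw [← div_eq_mul_inv, le_div_iff₀ hs2]
  rcases le_total y (1 / 2) with h1 | h1
  · have h2 := h.Kl (2 * y) 0 0 s (Dat.two_mul_mem hy.1 h1) Dat.z01 Dat.z01 hs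
    simp only [Ps.eKl, val_sub, val_mul, val_add, val_one, val_pow, val_pe, val_qc,
      Dat.val_xlo, val_vT] at h2
    rw [show 1 / 2 * (2 * y) = y by ring] at h2
    rw [Dat.eta_lo h1]
    linarith
  · have h2 := h.Kh (2 * y - 1) 0 0 s (Dat.two_sub_mem h1 hy.2) Dat.z01 Dat.z01 hs
    simp only [Ps.eKh, val_sub, val_mul, val_add, val_one, val_pow, val_pe, val_qc, val_hlf,
      Dat.val_xhi, val_vT] at h2
    rw [show 1 / 2 + 1 / 2 * (2 * y - 1) = y by ring] at h2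
    rw [Dat.eta_hi h1]
    linarith

theorem rPe_one (h : p.Ok) {w : ℝ} (hw : w ∈ Icc (0 : ℝ) 1) {t : ℝ} (ht : t ∈ Icc (0 : ℝ) 1) :
    1 ≤ p.d.rPe w t := by
  have e0 : (0 : ℝ) ≤ (p.d.ee : ℝ) := by exact_mod_cast h.k.ee0
  have h1 := mul_nonneg hw.1 ht.1
  have h2 := mul_nonneg e0 ht.1
  unfold Dat.rPe
  nlinarith [mul_nonneg h1 h2]

variable {V : Type} [Fintype V] [DecidableEq V]
variable {Gr : SimpleGraph V} [Fintype Gr.edgeSet] [DecidableEq Gr.edgeSet]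

/-- the data of the assembly -/
noncomputable def Ps.da (p : Ps) (κd : ℝ → ℝ → ℝ → ℝ) (C : Cx (V ⊕ V)) :
    Da V where
  T := p.d.dt
  sl := p.d.rsig
  b0 := pv p.d.be0
  b1 := pv p.d.be1
  Pe := p.d.rPe
  Pt := p.d.rP
  Z := p.z.hz
  B := p.g.rB
  E1 := p.g.rE1
  Th := p.z.Th
  Y := p.y.Y
  κ := p.κ
  κd := κd
  C := C

theorem da_ok (h : p.Ok) {κd : ℝ → ℝ → ℝ → ℝ} {C : Cx (V ⊕ V)} (cκ : ∀ w, CN C.N (κd w))
    (κP : ∀ w ∈ Icc (0 : ℝ) 1, ∀ t s, 0 ≤ s → s ≤ t → t ≤ 1 → p.d.rPe w t ≤ κd w t s) :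
    (p.da κd C).Ok where
  T := Dat.ok h.d h.b
  sl := Dat.slok h.d h.s
  k := Dat.kok h.k
  Z := h.z.ok h.d
  Cf := h.g.cf
  kap :=
    { k0 := by
        show (0 : ℝ) < (p.κ : ℝ)
        exact_mod_cast h.κ0
      k2 := by
        show (p.κ : ℝ) ≤ 1 / 2
        have := h.κ2
        have h2 : (p.κ : ℝ) ≤ ((1 / 2 : ℚ) : ℝ) := by exact_mod_cast this
        refine h2.trans (le_of_eq ?_)
        norm_num
      fh := fun y hy s hs => rr_le_fh h hy hs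
      Pe := fun w hw t ht => rPe_one h hw ht }
  Th := CN.of_cont YDat.cont_Th.continuousOn
  Y := CN.of_cont YDat.cont_Y.continuousOn
  ck t ht r hr := YDat.Pos.clt h.z h.d hr.1 hr.2 ht.2 le_rfl
  cκ := cκ
  κP := κP
  ie := ie_le h
  lo0 := fun y hy r hr => lo_nn h hy hr
  lo := fun y hy r hr => lo_le h hy hr
  lop := fun y _ r hr => lo_lep h y hr

end Pool.Agent.RZ.RCN.K
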