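import Pool.Agent.RZ.RCN.KerE
import Pool.Agent.RZ.RCN.KleA

/-! The certificate with symbolic functions (MP_73ccd0_lc, route M). -/

namespace Pool.Agent.RZ.RCN.K

open Set Finset MeasureTheory Pool.Agent.RZ.RCRSHalf Pool.Agent.RZ.RCG Pool.Agent.RZ.RCG.Ct
open Pool.Agent.RZ.RCN.Ker

/-- the functions of the certificate -/
structure Dt where
  sT : ℝ → ℝ
  ka : ℝ → ℝ
  ST : ℝ
  SP : ℝ
  kt : ℝ → ℝ
  kap : ℝ → ℝ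
  j : ℝ → ℝ
  J : ℝ → ℝ
  kp : ℝ → ℝ
  kapp : ℝ → ℝ
  jp : ℝ → ℝ
  Jp : ℝ → ℝ
  rho : ℝ
  t1 : ℝ
  th : ℝ
  F : ℝ → ℝ
  F' : ℝ → ℝ
  F2 : ℝ → ℝ
  F2' : ℝ → ℝ
  F3 : ℝ → ℝ
  F3' : ℝ → ℝ
  k1 : ℝ
  G : ℝ → ℝ
  G' : ℝ → ℝ
  Gs : ℝ → ℝ
  Gp : ℝ → ℝ
  np : ℝ → ℝ
  Z : ℝ → ℝ
  Z' : ℝ → ℝ
  D : ℝ → ℝ
  V : ℝ → ℝ
  V' : ℝ → ℝ
  W1 : ℝ → ℝ
  lam : ℝ → ℝ
  o0 : ℝ → ℝ
  o0' : ℝ → ℝ
  o1 : ℝ → ℝ
  o1' : ℝ → ℝ
  PF : ℝ → ℝ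
  PF' : ℝ → ℝ
  PF2 : ℝ → ℝ
  PF2' : ℝ → ℝ
  PF3 : ℝ → ℝ
  PF3' : ℝ → ℝ
  N : ℝ → ℝ
  KK : ℝ → ℝ → ℝ
  C1 : ℝ → ℝ → ℝ → ℝ → ℝ
  C1' : ℝ → ℝ → ℝ → ℝ → ℝ

variable (T : Dt)

/-- `x al - sg` -/
noncomputable def Dt.sgf (x t : ℝ) : ℝ :=
  x ^ 2 * (1 - x) * (T.F t + x * T.F3 t + 4 * (x * (1 - x)) * T.F2 t) + T.sT x * T.Gs t

noncomputable def Dt.S (x t : ℝ) : ℝ := x * (eta x * T.Z t) - T.sgf x t

noncomputable def Dt.W0 (t : ℝ) : ℝ := T.rho * ((1 + t) ^ 2 * (T.G' t + T.j t))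

/-- the kernel part -/
noncomputable def Dt.ek : Ek where
  sT := T.sT
  ka := T.ka
  ST := T.ST
  SP := T.SP
  kt := T.kt
  kap := T.kap
  j := T.j
  J := T.J
  kp := T.kp
  kapp := T.kapp
  jp := T.jp
  Jp := T.Jp
  rho := T.rho
  t1 := T.t1
  th := T.th
  G := T.G
  G' := T.G'
  Gs := T.Gs
  Gp := T.Gp
  Dm := T.D
  V := T.V
  V' := T.V'
  W1 := T.W1
  ze := T.Z
  ze' := T.Z'
  k1 := T.k1

noncomputable def Dt.cf : Cf where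
  al x t := eta x * T.Z t
  al' x t := eta x * T.Z' t
  mu _ y z t := y * z * (T.F t + (y + z) * T.F3 t + 4 * (y * z) * T.F2 t)
  mu' _ y z t := y * z * (T.F' t + (y + z) * T.F3' t + 4 * (y * z) * T.F2' t)
  ab _ t := T.ek.abf t
  k x y z t := y * z * (T.C1' x y z t + T.C1' x z y t)
  nb := T.ek.nb

noncomputable def Dt.cg : Cg where
  sg := T.sgf
  C x y z t := y * z * (T.C1 x y z t + T.C1 x z y t)
  C' x y z t := y * z * (T.C1' x y z t + T.C1' x z y t)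
  ow x t := x * (T.o0 t + eta x * T.o1 t)
  ow' x t := x * (T.o0' t + eta x * T.o1' t)
  om x y z t := x * (y * z * (T.PF t + (y + z) * T.PF3 t + 4 * (y * z) * T.PF2 t))
  om' x y z t := x * (y * z * (T.PF' t + (y + z) * T.PF3' t + 4 * (y * z) * T.PF2' t))
  lam _ t := T.lam t
  X _ t := qq t
  K2 := T.KK
  K3 _ _ := 0
  kl x y t := (T.W0 t + x * T.W1 t) * (T.ka y / 2)
  N _ t := T.N t
  gm x t := T.SP * (1 - x) * T.jp t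

/-- the hypotheses: regularity, boundary values and inequalities (names as in `cert.py`) -/
structure Dt.Ok : Prop where
  -- the shapes
  sTn : ∀ y ∈ Icc (0 : ℝ) 1, 0 ≤ T.sT y
  sTS : ∀ y ∈ Icc (0 : ℝ) 1, T.sT y ≤ T.ST * y
  STn : 0 ≤ T.ST
  kan : ∀ y ∈ Icc (0 : ℝ) 1, 0 ≤ T.ka y
  kaS : ∀ y ∈ Icc (0 : ℝ) 1, T.ka y ≤ T.SP * y
  SPn : 0 ≤ T.SP
  k10 : 0 ≤ T.k1
  sTk : ∀ y ∈ Icc (0 : ℝ) 1, T.k1 * (y ^ 2 * (1 - y) ^ 2) ≤ T.sT y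
  -- regularity
  dkap : ∀ t ∈ Icc (0 : ℝ) 1, HasDerivAt T.kap (T.kt t) t
  ckt : ContinuousOn T.kt (Icc 0 1)
  cj : ContinuousOn T.j (Icc 0 1)
  dJ : ∀ t ∈ Icc (0 : ℝ) 1, HasDerivAt T.J (T.j t) t
  dkapp : ∀ t ∈ Icc (0 : ℝ) 1, HasDerivAt T.kapp (T.kp t) t
  ckp : ContinuousOn T.kp (Icc 0 1)
  dJp : ∀ t ∈ Icc (0 : ℝ) 1, HasDerivAt T.Jp (T.jp t) t
  cGp : ContinuousOn T.Gp (Icc 0 1)
  dF : ∀ t ∈ Icc (0 : ℝ) 1, HasDerivAt T.F (T.F' t) t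
  dF2 : ∀ t ∈ Icc (0 : ℝ) 1, HasDerivAt T.F2 (T.F2' t) t
  dF3 : ∀ t ∈ Icc (0 : ℝ) 1, HasDerivAt T.F3 (T.F3' t) t
  dG : ∀ t ∈ Icc (0 : ℝ) 1, HasDerivAt T.G (T.G' t) t
  dZ : ∀ t ∈ Icc (0 : ℝ) 1, HasDerivAt T.Z (T.Z' t) t
  dV : ∀ t ∈ Icc (0 : ℝ) 1, HasDerivAt T.V (T.V' t) t
  do0 : ∀ t ∈ Icc (0 : ℝ) 1, HasDerivAt T.o0 (T.o0' t) t
  do1 : ∀ t ∈ Icc (0 : ℝ) 1, HasDerivAt T.o1 (T.o1' t) t
  dPF : ∀ t ∈ Icc (0 : ℝ) 1, HasDerivAt T.PF (T.PF' t) t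
  dPF2 : ∀ t ∈ Icc (0 : ℝ) 1, HasDerivAt T.PF2 (T.PF2' t) t
  dPF3 : ∀ t ∈ Icc (0 : ℝ) 1, HasDerivAt T.PF3 (T.PF3' t) t
  dC1 : ∀ x ∈ Icc (0 : ℝ) 1, ∀ y ∈ Icc (0 : ℝ) 1, ∀ z ∈ Icc (0 : ℝ) 1, ∀ t ∈ Icc (0 : ℝ) 1,
    HasDerivAt (T.C1 x y z) (T.C1' x y z t) t
  cF : ContinuousOn T.F' (Icc 0 1)
  cF2 : ContinuousOn T.F2' (Icc 0 1)
  cF3 : ContinuousOn T.F3' (Icc 0 1)
  cG : ContinuousOn T.G' (Icc 0 1)
  cGs : ContinuousOn T.Gs (Icc 0 1)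
  cZ : ContinuousOn T.Z' (Icc 0 1)
  -- boundary values
  kap0 : T.kap 0 = 0
  J0 : T.J 0 = 0
  J1 : 0 < T.J 1
  kapp0 : T.kapp 0 = 0
  Jp0 : T.Jp 0 = 0
  Jp1 : T.Jp 1 = T.rho * T.J 1
  F0 : T.F 0 = 0
  F1 : T.F 1 = 0
  F20 : T.F2 0 = 0
  F21 : T.F2 1 = 0
  F30 : T.F3 0 = 0
  F31 : T.F3 1 = 0
  G0 : T.G 0 = 0
  G1 : T.G 1 = 0
  Z0 : T.Z 0 = 0
  Z1 : T.Z 1 = 0
  F'0 : T.F' 0 ≤ 0
  F2'0 : T.F2' 0 ≤ 0
  F3'0 : T.F3' 0 ≤ 0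
  G'0 : T.G' 0 = 0
  Z'0 : 0 ≤ T.Z' 0
  V0 : 0 ≤ T.V 0
  o00 : T.o0 0 = 0
  o10 : T.o1 0 = 0
  PF0 : T.PF 0 = 0
  PF20 : T.PF2 0 = 0
  PF30 : T.PF3 0 = 0
  C10 : ∀ x ∈ Icc (0 : ℝ) 1, ∀ y ∈ Icc (0 : ℝ) 1, ∀ z ∈ Icc (0 : ℝ) 1, 0 ≤ T.C1 x y z 0
  -- signs
  rho0 : 0 ≤ T.rho
  th0 : 1 / 2 ≤ T.th
  ktn : ∀ t ∈ Icc (0 : ℝ) 1, 0 ≤ T.kt t
  kpn : ∀ t ∈ Icc (0 : ℝ) 1, 0 ≤ T.kp t
  hF : ∀ t ∈ Icc (0 : ℝ) 1, 0 ≤ T.F t
  hF2 : ∀ t ∈ Icc (0 : ℝ) 1, 0 ≤ T.F2 t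
  hF3 : ∀ t ∈ Icc (0 : ℝ) 1, 0 ≤ T.F3 t
  hGs : ∀ t ∈ Icc (0 : ℝ) 1, 0 ≤ T.Gs t
  hGp : ∀ t ∈ Icc (0 : ℝ) 1, 0 ≤ T.Gp t
  hnp : ∀ t ∈ Icc (0 : ℝ) 1, 0 ≤ T.np t
  hZ : ∀ t ∈ Icc (0 : ℝ) 1, 0 ≤ T.Z t
  hN : ∀ t ∈ Icc (0 : ℝ) 1, 0 ≤ T.N t
  hK : ∀ x ∈ Icc (0 : ℝ) 1, ∀ t ∈ Icc (0 : ℝ) 1, 0 ≤ T.KK x t
  lam0 : ∀ t ∈ Icc (0 : ℝ) 1, 0 ≤ T.lam t
  -- inequalities
  hj : ∀ t ∈ Icc (0 : ℝ) 1, T.kap t = (1 + t) ^ 2 * T.j t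
  hjp : ∀ t ∈ Icc (0 : ℝ) 1, T.kapp t = (1 + t) ^ 2 * T.jp t
  Gp1 : ∀ t ∈ Icc (0 : ℝ) 1, T.t1 ≤ t → T.rho * (T.G t + T.J t) - T.Jp t ≤ T.Gp t
  Gp2 : ∀ t ∈ Icc (0 : ℝ) 1, t < T.t1 → T.rho * (T.G t + T.J t) ≤ T.Gp t
  np1 : ∀ t ∈ Icc (0 : ℝ) 1, t < T.t1 → T.Jp t ≤ T.np t
  Mp : ∀ t ∈ Icc (0 : ℝ) 1, 0 ≤ T.G' t + T.j t
  M1 : ∀ t ∈ Icc (0 : ℝ) 1, T.t1 ≤ t → 2 * t * T.J 1 ≤ (1 + t) * (T.G t + T.J t)
  GJ1 : ∀ t ∈ Icc (0 : ℝ) 1, T.t1 ≤ t → T.G t ≤ T.Gs t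
  GJ2 : ∀ t ∈ Icc (0 : ℝ) 1, t < T.t1 → T.G t + T.J t ≤ T.Gs t
  nb : ∀ t ∈ Icc (0 : ℝ) 1, t < T.t1 → T.ST * T.J t ≤ (T.th - 1 / 2) * T.Z t
  lam1 : ∀ t ∈ Icc (0 : ℝ) 1, T.lam t * (2 + T.th * T.Z t * (1 + t)) ≤ 2 * (1 + t)
  o0i : ∀ t ∈ Icc (0 : ℝ) 1, T.o0' t * ((1 + t) + T.th * T.Z t * (1 + t) ^ 2) ≤ 1
  o1i : ∀ t ∈ Icc (0 : ℝ) 1, T.o1' t * ((1 + t) + T.th * T.Z t * (1 + t) ^ 2)
    ≤ -T.Z' t * (1 + t) ^ 2
  PFi : ∀ t ∈ Icc (0 : ℝ) 1, T.PF' t * (1 + T.th * T.Z t * (1 + t)) ≤ T.F' t * (1 + t)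
  PF2i : ∀ t ∈ Icc (0 : ℝ) 1, T.PF2' t * (1 + T.th * T.Z t * (1 + t)) ≤ T.F2' t * (1 + t)
  PF3i : ∀ t ∈ Icc (0 : ℝ) 1, T.PF3' t * (1 + T.th * T.Z t * (1 + t)) ≤ T.F3' t * (1 + t)
  abd : ∀ t ∈ Icc (0 : ℝ) 1, T.th * T.Z' t * (1 + t) ^ 2 ≤ 1
  Di : ∀ t ∈ Icc (0 : ℝ) 1, 1 - T.th * T.Z' t * (1 + t) ^ 2
    ≤ T.D t * (1 + T.th * T.Z t * (1 + t)) ^ 2
  Vi : ∀ t ∈ Icc (0 : ℝ) 1, T.Gp t * T.D t ≤ T.V' t
  W1a : ∀ t ∈ Icc (0 : ℝ) 1, T.t1 ≤ t → 2 * T.V t ≤ T.W1 t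
  W1b : ∀ t ∈ Icc (0 : ℝ) 1, t < T.t1 → 2 * (T.V t + (1 + t) * T.Jp t) ≤ T.W1 t
  Nf1 : ∀ t ∈ Icc (0 : ℝ) 1, 0 ≤ 4 * T.N t + T.F' t
  Nf2 : ∀ t ∈ Icc (0 : ℝ) 1, 0 ≤ 4 * T.N t + (T.F' t + T.F3' t)
  Nf3 : ∀ t ∈ Icc (0 : ℝ) 1, 0 ≤ 4 * T.N t + (T.F' t + T.F3' t + T.F2' t)
  F3G : ∀ t ∈ Icc (0 : ℝ) 1, T.F3 t ≤ T.k1 * T.Gs t
  sg1 : ∀ y ∈ Icc (0 : ℝ) 1, ∀ t ∈ Icc (0 : ℝ) 1, 0 ≤ T.S y t
  LP0 : ∀ x ∈ Icc (0 : ℝ) 1, ∀ t ∈ Icc (0 : ℝ) 1,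
    eta x * T.Z' t * (1 + t) ^ 2 + 2 * (1 - x) * T.N t * (1 + t) ^ 2
      + T.SP * (1 - x) * T.kapp t < 1
  L0 : ∀ x ∈ Icc (0 : ℝ) 1, x ≠ 0 → ∀ t ∈ Icc (0 : ℝ) 1,
    2 * (1 - x) * T.KK x t < eta x * T.Z' t * (1 + t) ^ 2
      + 2 * (x * (T.o0 t + eta x * T.o1 t)) + 2 * (T.lam t * T.S x t)
  L1 : ∀ x ∈ Icc (0 : ℝ) 1, ∀ y ∈ Icc (0 : ℝ) 1, ∀ z ∈ Icc (0 : ℝ) 1, ∀ t ∈ Icc (0 : ℝ) 1,
    x + y ≤ 1 → x + z ≤ 1 → y + z ≤ 1 → y ≤ z →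
    y * z * (T.C1 x y z t + T.C1 x z y t)
      + (1 + t) ^ 2 * (y * z * (T.F' t + (y + z) * T.F3' t + 4 * (y * z) * T.F2' t))
      + (T.W0 t + x * T.W1 t) * ((T.ka y + T.ka z) / 2)
      ≤ T.KK x t * (y + z) + T.lam t * (T.S y t + T.S z t)
        + 2 * (x * (y * z * (T.PF t + (y + z) * T.PF3 t + 4 * (y * z) * T.PF2 t)))

variable {T}

theorem eta_mem {x : ℝ} (hx : x ∈ Icc (0 : ℝ) 1) : 0 ≤ eta x ∧ eta x ≤ 1 / 2 ∧ eta x ≤ x :=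
  ⟨le_min hx.1 (by norm_num), min_le_right _ _, min_le_left _ _⟩

theorem Dt.ek_ok (h : T.Ok) : T.ek.Ok where
  sTn := h.sTn
  sTS := h.sTS
  STn := h.STn
  kan := h.kan
  kaS := h.kaS
  SPn := h.SPn
  dkap := h.dkap
  ckt := h.ckt
  kap0 := h.kap0
  ktn := h.ktn
  hj t ht := by
    show qq t * T.kap t = T.j t
    rw [h.hj t ht]
    unfold qq
    have : (1 + t) ≠ 0 := by linarith [ht.1]
    field_simp
  cj := h.cj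
  dJ := h.dJ
  J0 := h.J0
  J1 := h.J1
  dkapp := h.dkapp
  ckp := h.ckp
  kapp0 := h.kapp0
  kpn := h.kpn
  hjp t ht := by
    show qq t * T.kapp t = T.jp t
    rw [h.hjp t ht]
    unfold qq
    have : (1 + t) ≠ 0 := by linarith [ht.1]
    field_simp
  dJp := h.dJp
  Jp0 := h.Jp0
  Jp1 := h.Jp1
  cGp := h.cGp
  Gp1 := h.Gp1
  Gp2 := h.Gp2
  Gp0 := h.hGp
  k10 := h.k10
  sTk := h.sTk
  rho0 := h.rho0
  th0 := by show 0 ≤ T.th; linarith [h.th0]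
  dG := h.dG
  cG := h.cG
  G0 := h.G0
  G'0 := h.G'0
  G1 := h.G1
  mn := h.Mp
  lb := h.M1
  cGs := h.cGs
  Gs1 := h.GJ1
  Gs2 := h.GJ2
  Gs0 := h.hGs
  dz := h.dZ
  cz := h.cZ
  z0 := h.hZ
  rn t ht := by
    show T.th * T.Z' t ≤ qq t
    unfold qq
    have h1 : 0 < (1 + t) ^ 2 := by have := ht.1; positivity
    rw [← one_div, le_div_iff₀ h1]
    exact h.abd t ht
  rD t ht := by
    show qq t - T.th * T.Z' t ≤ T.D t * (T.ek.abf t) ^ 2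
    have h1 : 0 < (1 + t) ^ 2 := by have := ht.1; positivity
    have h0 : (1 + t) ≠ 0 := by linarith [ht.1]
    have e1 : (qq t - T.th * T.Z' t) * (1 + t) ^ 2 = 1 - T.th * T.Z' t * (1 + t) ^ 2 := by
      unfold qq; field_simp
    have e2 : T.D t * (T.ek.abf t) ^ 2 * (1 + t) ^ 2
        = T.D t * (1 + T.th * T.Z t * (1 + t)) ^ 2 := by
      have : T.ek.abf t = (1 + t)⁻¹ + T.th * T.Z t := rfl
      rw [this]
      field_simp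
    refine le_of_mul_le_mul_right ?_ h1
    rw [e1, e2]
    exact h.Di t ht
  dV := h.dV
  V0 := h.V0
  V' := h.Vi
  W11 := h.W1a
  W12 := h.W1b

theorem Dt.cf_ok (h : T.Ok) : T.cf.Ok where
  da x _ t ht := (h.dZ t ht).const_mul _
  ca x _ := continuousOn_const.mul h.cZ
  dm x _ y _ z _ t ht := (((h.dF t ht).add ((h.dF3 t ht).const_mul _)).add
    ((h.dF2 t ht).const_mul _)).const_mul _
  cm x _ y _ z _ := continuousOn_const.mul ((h.cF.add (continuousOn_const.mul h.cF3)).add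
    (continuousOn_const.mul h.cF2))
  al0 x _ := by show eta x * T.Z 0 = 0; rw [h.Z0, mul_zero]
  al1 x _ := by show eta x * T.Z 1 = 0; rw [h.Z1, mul_zero]
  mu0 x _ y _ z _ := by
    show y * z * (T.F 0 + (y + z) * T.F3 0 + 4 * (y * z) * T.F2 0) = 0
    rw [h.F0, h.F20, h.F30]; ring
  mu1 x _ y _ z _ := by
    show y * z * (T.F 1 + (y + z) * T.F3 1 + 4 * (y * z) * T.F2 1) = 0
    rw [h.F1, h.F21, h.F31]; ring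
  mus x y z t := by
    show y * z * (T.F' t + (y + z) * T.F3' t + 4 * (y * z) * T.F2' t)
      = z * y * (T.F' t + (z + y) * T.F3' t + 4 * (z * y) * T.F2' t)
    ring
  muz x z t := by
    show 0 * z * (T.F' t + (0 + z) * T.F3' t + 4 * (0 * z) * T.F2' t) = 0
    ring
  mun x _ y hy z hz t ht := by
    show 0 ≤ y * z * (T.F t + (y + z) * T.F3 t + 4 * (y * z) * T.F2 t)
    have h0 := add_nonneg hy.1 hz.1
    have h1 := mul_nonneg hy.1 hz.1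
    have h2 := h.hF t ht
    have h3 := h.hF2 t ht
    have h4 := h.hF3 t ht
    positivity
  aln x hx t ht := mul_nonneg (eta_mem hx).1 (h.hZ t ht)
  a0 x hx := mul_nonneg (eta_mem hx).1 h.Z'0
  m0 x _ y hy z hz := by
    show y * z * (T.F' 0 + (y + z) * T.F3' 0 + 4 * (y * z) * T.F2' 0) ≤ 0
    have h1 := mul_nonneg hy.1 hz.1
    refine mul_nonpos_of_nonneg_of_nonpos h1 ?_
    have h2 := h.F'0
    have h3 := mul_nonpos_of_nonneg_of_nonpos (show 0 ≤ 4 * (y * z) by positivity) h.F2'0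
    have h4 := mul_nonpos_of_nonneg_of_nonpos (add_nonneg hy.1 hz.1) h.F3'0
    linarith
  up x hx y hy hxy t ht := by
    show (1 + t)⁻¹ + x * (eta x * T.Z t) + (1 - x) * (eta y * T.Z t) + T.ek.nb t
      ≤ (1 + t)⁻¹ + T.th * T.Z t
    have hZ := h.hZ t ht
    have h1 : x * eta x + (1 - x) * eta y ≤ 1 / 2 := by
      have h0 : 0 ≤ 1 - x := by linarith [hx.2]
      rcases le_total x (1 / 2) with hx2 | hx2
      · have e1 : x * eta x ≤ x * x := mul_le_mul_of_nonneg_left (eta_mem hx).2.2 hx.1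
        have e2 : (1 - x) * eta y ≤ (1 - x) * (1 / 2) :=
          mul_le_mul_of_nonneg_left (eta_mem hy).2.1 h0
        nlinarith [hx.1]
      · have e1 : x * eta x ≤ x * (1 / 2) := mul_le_mul_of_nonneg_left (eta_mem hx).2.1 hx.1
        have e2 : (1 - x) * eta y ≤ (1 - x) * (1 - x) :=
          mul_le_mul_of_nonneg_left ((eta_mem hy).2.2.trans (by linarith)) h0
        nlinarith
    have h2 : T.ek.nb t ≤ (T.th - 1 / 2) * T.Z t := by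
      unfold Ek.nb
      split_ifs with h3
      · exact h.nb t ht h3
      · exact mul_nonneg (by linarith [h.th0]) hZ
    have h3 := mul_le_mul_of_nonneg_right h1 hZ
    nlinarith

theorem Dt.abf_mul {t : ℝ} (ht : t ∈ Icc (0 : ℝ) 1) :
    T.ek.abf t * (1 + t) = 1 + T.th * T.Z t * (1 + t) := by
  have h0 : (1 + t) ≠ 0 := by linarith [ht.1]
  have : T.ek.abf t = (1 + t)⁻¹ + T.th * T.Z t := rfl
  rw [this, add_mul, inv_mul_cancel₀ h0]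

theorem Dt.cg_ok (h : T.Ok) : T.cg.Ok T.cf where
  sg0 t := by
    show 0 ^ 2 * (1 - 0) * (T.F t + 0 * T.F3 t + 4 * (0 * (1 - 0)) * T.F2 t)
      + T.sT 0 * T.Gs t = 0
    have z : (0 : ℝ) ∈ Icc (0 : ℝ) 1 := ⟨le_rfl, zero_le_one⟩
    have h1 := h.sTn 0 z
    have h2 := h.sTS 0 z
    rw [mul_zero] at h2
    rw [le_antisymm h2 h1]
    ring
  sg1 y hy t ht := by
    show T.sgf y t ≤ y * (eta y * T.Z t)
    have := h.sg1 y hy t ht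
    unfold Dt.S at this
    linarith
  dC x hx y hy z hz t ht :=
    ((h.dC1 x hx y hy z hz t ht).add (h.dC1 x hx z hz y hy t ht)).const_mul _
  C0 x hx y hy z hz := by
    show 0 ≤ y * z * (T.C1 x y z 0 + T.C1 x z y 0)
    exact mul_nonneg (mul_nonneg hy.1 hz.1) (add_nonneg (h.C10 x hx y hy z hz)
      (h.C10 x hx z hz y hy))
  kC x _ y _ z _ t _ _ _ _ := le_rfl
  dow x _ t ht := ((h.do0 t ht).add ((h.do1 t ht).const_mul _)).const_mul _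
  ow0 x _ := by
    show x * (T.o0 0 + eta x * T.o1 0) ≤ 0
    rw [h.o00, h.o10]; simp
  owi x hx t ht := by
    show x * (T.o0' t + eta x * T.o1' t) * T.ek.abf t
      ≤ x * (((1 + t) ^ 2)⁻¹ - eta x * T.Z' t)
    rw [mul_assoc]
    refine mul_le_mul_of_nonneg_left ?_ hx.1
    have h1 : 0 < (1 + t) ^ 2 := by have := ht.1; positivity
    have h0 : (1 + t) ≠ 0 := by linarith [ht.1]
    have e0 := T.abf_mul ht
    have i1 := h.o0i t ht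
    have i2 := mul_le_mul_of_nonneg_left (h.o1i t ht) (eta_mem hx).1
    refine le_of_mul_le_mul_right ?_ h1
    have e1 : (T.o0' t + eta x * T.o1' t) * T.ek.abf t * (1 + t) ^ 2
        = (T.o0' t + eta x * T.o1' t) * ((1 + t) + T.th * T.Z t * (1 + t) ^ 2) := by
      have : T.ek.abf t * (1 + t) ^ 2 = (1 + t) + T.th * T.Z t * (1 + t) ^ 2 := by
        rw [pow_two, ← mul_assoc, e0]; ring
      rw [mul_assoc, this]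
    have e2 : (((1 + t) ^ 2)⁻¹ - eta x * T.Z' t) * (1 + t) ^ 2
        = 1 - eta x * T.Z' t * (1 + t) ^ 2 := by
      field_simp
    rw [e1, e2]
    linarith
  dom x _ y _ z _ t ht :=
    ((((h.dPF t ht).add ((h.dPF3 t ht).const_mul _)).add
      ((h.dPF2 t ht).const_mul _)).const_mul _).const_mul _
  om0 x _ y _ z _ := by
    show x * (y * z * (T.PF 0 + (y + z) * T.PF3 0 + 4 * (y * z) * T.PF2 0)) ≤ 0
    rw [h.PF0, h.PF20, h.PF30]; simp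
  omi x hx y hy z hz t ht _ _ _ := by
    show x * (y * z * (T.PF' t + (y + z) * T.PF3' t + 4 * (y * z) * T.PF2' t)) * T.ek.abf t
      ≤ x * (y * z * (T.F' t + (y + z) * T.F3' t + 4 * (y * z) * T.F2' t))
    have hT : 0 < 1 + t := by linarith [ht.1]
    have e0 := T.abf_mul ht
    have yz := mul_nonneg hy.1 hz.1
    have i1 := h.PFi t ht
    have i2 := mul_le_mul_of_nonneg_left (h.PF2i t ht) (show 0 ≤ 4 * (y * z) by positivity)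
    have i5 := mul_le_mul_of_nonneg_left (h.PF3i t ht) (add_nonneg hy.1 hz.1)
    rw [← e0] at i1 i2 i5
    have i3 : (T.PF' t + (y + z) * T.PF3' t + 4 * (y * z) * T.PF2' t) * T.ek.abf t
        ≤ T.F' t + (y + z) * T.F3' t + 4 * (y * z) * T.F2' t := by
      refine le_of_mul_le_mul_right ?_ hT
      linarith
    have i4 := mul_le_mul_of_nonneg_left (mul_le_mul_of_nonneg_left i3 yz) hx.1
    linarith
  lam0 x _ t ht := h.lam0 t ht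
  lami x _ t ht := by
    show T.lam t * ((1 + t)⁻¹ + T.ek.abf t) ≤ 2
    have hT : 0 < 1 + t := by linarith [ht.1]
    have e0 := T.abf_mul ht
    refine le_of_mul_le_mul_right ?_ hT
    have e1 : T.lam t * ((1 + t)⁻¹ + T.ek.abf t) * (1 + t)
        = T.lam t * (2 + T.th * T.Z t * (1 + t)) := by
      rw [mul_assoc, add_mul, e0, inv_mul_cancel₀ hT.ne']; ring
    rw [e1]
    exact h.lam1 t ht
  Xp x _ t ht := qq_pos ht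
  K20 := h.hK
  N0 x _ t ht := h.hN t ht
  LP x _ y hy z hz t ht _ _ hyz := by
    show -(y * z * (T.F' t + (y + z) * T.F3' t + 4 * (y * z) * T.F2' t)) ≤ T.N t * (y + z)
    have yz := mul_nonneg hy.1 hz.1
    have h4 : 4 * (y * z) ≤ (y + z) := by nlinarith [sq_nonneg (y - z), hy.1, hz.1]
    have n1 := h.Nf1 t ht
    have n2 := h.Nf2 t ht
    have n3 := h.Nf3 t ht
    have i1 : 0 ≤ 4 * T.N t + (T.F' t + (y + z) * T.F3' t + 4 * (y * z) * T.F2' t) := by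
      have := mul_nonneg (show 0 ≤ 1 - (y + z) by linarith) n1
      have := mul_nonneg (show 0 ≤ (y + z) - 4 * (y * z) by linarith) n2
      have := mul_nonneg (show 0 ≤ 4 * (y * z) by positivity) n3
      linarith
    have i2 := mul_nonneg yz i1
    have i3 := mul_le_mul_of_nonneg_left h4 (h.hN t ht)
    nlinarith
  LP0 x hx _ t ht := by
    show 2 * (1 - x) * T.N t + T.SP * (1 - x) * T.jp t
      < ((1 + t) ^ 2)⁻¹ - eta x * T.Z' t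
    have h1 : 0 < (1 + t) ^ 2 := by have := ht.1; positivity
    refine lt_of_mul_lt_mul_right ?_ h1.le
    have e2 : (((1 + t) ^ 2)⁻¹ - eta x * T.Z' t) * (1 + t) ^ 2
        = 1 - eta x * T.Z' t * (1 + t) ^ 2 := by
      rw [sub_mul, inv_mul_cancel₀ h1.ne']
    rw [e2]
    have h2 := h.LP0 x hx t ht
    rw [h.hjp t ht] at h2
    linarith
  L0 x hx hx0 t ht := by
    show 2 * (1 - x) * T.KK x t + 0
      + (Real.log (qq t) + (((1 + t) ^ 2)⁻¹ - eta x * T.Z' t) / qq t - 1)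
      < 2 * (x * (T.o0 t + eta x * T.o1 t))
        + 2 * (T.lam t * (x * (eta x * T.Z t) - T.sgf x t)) - 2 * Real.log (1 + t)
    have hT : 0 < 1 + t := by linarith [ht.1]
    have h0 : (1 + t) ≠ 0 := hT.ne'
    have h1 : 0 < (1 + t) ^ 2 := by positivity
    have e1 : Real.log (qq t) = -(2 * Real.log (1 + t)) := by
      unfold qq
      rw [Real.log_inv, Real.log_pow]
      norm_num
    have e2 : (((1 + t) ^ 2)⁻¹ - eta x * T.Z' t) / qq t = 1 - eta x * T.Z' t * (1 + t) ^ 2 := by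
      unfold qq
      rw [div_inv_eq_mul, sub_mul, inv_mul_cancel₀ h1.ne']
    rw [e1, e2]
    have h2 := h.L0 x hx hx0 t ht
    unfold Dt.S at h2
    linarith
  L1 x hx y hy z hz t ht hxy hxz hyz := by
    show y * z * (T.C1 x y z t + T.C1 x z y t)
      + y * z * (T.F' t + (y + z) * T.F3' t + 4 * (y * z) * T.F2' t) / qq t
      + ((T.W0 t + x * T.W1 t) * (T.ka y / 2) + (T.W0 t + x * T.W1 t) * (T.ka z / 2))
      ≤ T.KK x t * (y + z) + T.lam t * ((y * (eta y * T.Z t) - T.sgf y t)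
          + (z * (eta z * T.Z t) - T.sgf z t))
        + (x * (y * z * (T.PF t + (y + z) * T.PF3 t + 4 * (y * z) * T.PF2 t))
          + x * (z * y * (T.PF t + (z + y) * T.PF3 t + 4 * (z * y) * T.PF2 t)))
    have e1 : y * z * (T.F' t + (y + z) * T.F3' t + 4 * (y * z) * T.F2' t) / qq t
        = (1 + t) ^ 2 * (y * z * (T.F' t + (y + z) * T.F3' t + 4 * (y * z) * T.F2' t)) := by
      unfold qq
      rw [div_inv_eq_mul]; ring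
    rw [e1]
    rcases le_total y z with hle | hle
    · have h2 := h.L1 x hx y hy z hz t ht hxy hxz hyz hle
      unfold Dt.S at h2
      linarith
    · have h2 := h.L1 x hx z hz y hy t ht hxz hxy (by linarith) hle
      unfold Dt.S at h2
      have e2 : z * y * (T.C1 x z y t + T.C1 x y z t)
          + (1 + t) ^ 2 * (z * y * (T.F' t + (z + y) * T.F3' t + 4 * (z * y) * T.F2' t))
          + (T.W0 t + x * T.W1 t) * ((T.ka z + T.ka y) / 2)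
          = y * z * (T.C1 x y z t + T.C1 x z y t)
          + (1 + t) ^ 2 * (y * z * (T.F' t + (y + z) * T.F3' t + 4 * (y * z) * T.F2' t))
          + (T.W0 t + x * T.W1 t) * ((T.ka y + T.ka z) / 2) := by ring
      rw [e2] at h2
      linarith

theorem Dt.kd_ok (h : T.Ok) : T.ek.kd.Ok T.cf T.cg :=
  T.ek.ok (T.ek_ok h) (fun _ _ => rfl) rfl
    (fun _ _ _ _ => le_rfl) (fun _ _ _ _ => rfl) (fun _ _ _ _ _ _ _ => le_rfl)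
    (fun _ _ _ _ => le_rfl)

end Pool.Agent.RZ.RCN.K
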