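import Pool.Agent.RZ.RCN.Mex

/-! Absorption: the released fluxes against the state with `b` deleted (MP_73ccd0_lc, route M). -/

namespace Pool.Agent.RZ.RCN

open Set Finset MeasureTheory Pool.Agent.RZ.RCRSHalf Pool.Agent.RZ.RCG Pool.Agent.RZ.RCG.Ct Pool.Agent.RZ.RCM

set_option linter.unusedSectionVars false

variable {V : Type*} [Fintype V] [DecidableEq V]
variable {h : ℝ → V → V → ℝ} {H : V → V → ℝ → ℝ} {t : ℝ}

/-- `A(s)`: `a, b` free at time `s`, `b` stays, `a` free at `t` -/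
noncomputable def eA (h : ℝ → V → V → ℝ) (a b : V) (Ra : Finset V → ℝ → ℝ) (s : ℝ) : ℝ :=
  ex (lw h ∅ s) (insert b {a}) (fun F => Ra (insert b F) s)

theorem eA_deriv (hh : Haz h H) {a b : V} (hab : a ≠ b) (ht : t ∈ Icc (0 : ℝ) 1)
    {Ra : Finset V → ℝ → ℝ} (hRa : Wd h (fun r v => h r a v) t Ra) {s : ℝ} (hs : s ∈ Icc 0 t) :
    HasDerivAt (eA h a b Ra) (-∑ d ∈ ({a, b} : Finset V)ᶜ, h s b d * eY h a b d Ra s) s := by
  have hev : IsEv h (fun r v => ∑ w ∈ ({a} : Finset V), h r w v) (fun _ => 0) (fun _ => 0) t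
      Ra := by
    have := hRa.ev; simpa using this
  have ba : insert b ({a} : Finset V) = {a, b} := by
    ext z; simp only [Finset.mem_insert, Finset.mem_singleton]; tauto
  have h1 := ex_deriv_rel hh ∅ {a} (b := b) (by
    rw [Finset.mem_singleton]; exact fun e => hab e.symm) ht.2 hev hs
  refine h1.congr_deriv ?_
  rw [ba]
  simp only [Finset.sum_singleton, hh.diag, mul_zero, zero_mul, neg_zero, zero_sub]
  rfl

theorem eA_zero (hh : Haz h H) {a b : V} (hab : a ≠ b) (ht : t ∈ Icc (0 : ℝ) 1)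
    {Ra : Finset V → ℝ → ℝ} (hRa : Wd h (fun r v => h r a v) t Ra) (a1 : ∀ F, Ra F t = 1) :
    eA h a b Ra 0 = pr (lw h ∅ t) {a} := by
  have hev : IsEv h (fun r v => ∑ w ∈ ({a} : Finset V), h r w v) (fun _ => 0) (fun _ => 0) t
      Ra := by
    have := hRa.ev; simpa using this
  have d0 := duality2 hh (hh.lw ∅) (W := {a})
    (by rw [Finset.compl_empty]; exact Finset.subset_univ _) ht hev
  have e1 : ex (lw h ∅ t) {a} (fun F => Ra F t) = pr (lw h ∅ t) {a} := by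
    rw [← ex_one]; congr 1; funext F; exact a1 F
  have e3 : HW H {a} t = 0 := by unfold HW; simp [hh.Hdiag]
  rw [e1, e3, neg_zero, Real.exp_zero, one_mul] at d0
  rw [d0]
  unfold eA
  rw [ex_zero_time hh]
  congr 1
  ext z
  simp only [Finset.mem_insert, Finset.mem_compl, Finset.mem_sdiff, Finset.mem_singleton,
    Finset.notMem_empty, not_false_eq_true, true_and]
  constructor
  · rintro (rfl | hz)
    · exact fun e => hab e.symm
    · tauto
  · intro hz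
    by_cases hzb : z = b
    · exact Or.inl hzb
    · exact Or.inr (by tauto)

/-- lower bound of `A(s)` by the fluxes of `b` -/
theorem eA_ge (hh : Haz h H) {a b : V} (hab : a ≠ b) (ht : t ∈ Icc (0 : ℝ) 1)
    {Ra : Finset V → ℝ → ℝ} (hRa : Wd h (fun r v => h r a v) t Ra) (a1 : ∀ F, Ra F t = 1)
    {s : ℝ} (hs : s ∈ Icc 0 t) {y : ℝ → ℝ} (cy : ContinuousOn y (Icc 0 s))
    (hy : ∀ r ∈ Icc 0 s, ∑ d ∈ ({a, b} : Finset V)ᶜ, h r b d * eY h a b d Ra r
      ≤ pr (lw h ∅ t) {a} * y r) :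
    pr (lw h ∅ t) {a} * (1 - ∫ r in (0 : ℝ)..s, y r) ≤ eA h a b Ra s := by
  obtain ⟨Q, dQ, eQ⟩ := exists_prim hs.1 cy
  have m : ∀ r ∈ Icc 0 s, r ∈ Icc 0 t := fun r hr => ⟨hr.1, hr.2.trans hs.2⟩
  have key := nonneg_of_forward
    (U := fun r => eA h a b Ra r - eA h a b Ra 0 + pr (lw h ∅ t) {a} * (Q r - Q 0))
    (U' := fun r => (-∑ d ∈ ({a, b} : Finset V)ᶜ, h r b d * eY h a b d Ra r)
      + pr (lw h ∅ t) {a} * y r) (a := 0) (s := s) (fun r hr => by
      exact ((eA_deriv hh hab ht hRa (m r hr)).sub_const _).add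
        (((dQ r hr).sub_const _).const_mul _)) (by simp)
    (fun r hr _ => by linarith [hy r hr]) s ⟨hs.1, le_rfl⟩
  have e0 := eQ 0 ⟨le_rfl, hs.1⟩ s ⟨hs.1, le_rfl⟩
  rw [eA_zero hh hab ht hRa a1] at key
  rw [← e0]
  linarith

/-- the state with `b` deleted against the state where `b` stays -/
theorem eZ_ge (hh : Haz h H) {a b : V} (ht : t ≤ 1) {Ra : Finset V → ℝ → ℝ}
    {s : ℝ} (hs : s ∈ Icc 0 t) {n : ℝ}
    (hn : ∀ F : Finset V, a ∉ F → b ∉ F → (1 - n) * Ra (insert b F) s ≤ Ra F s) :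
    (1 - n) * eA h a b Ra s ≤ eZ h a b Ra s := by
  have ba : insert b ({a} : Finset V) = {a, b} := by
    ext z; simp only [Finset.mem_insert, Finset.mem_singleton]; tauto
  unfold eA eZ ex
  rw [Finset.mul_sum, ba]
  refine Finset.sum_le_sum fun F _ => ?_
  rw [mul_left_comm]
  refine mul_le_mul_of_nonneg_left ?_ ((hh.lw ∅).nonneg F s ⟨hs.1, hs.2.trans ht⟩)
  split_ifs
  · exact hn _ (by simp) (by simp)
  · simp

/-- the released flux against the flux with `d` deleted -/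
theorem eYt_le' (hh : Haz h H) {a b d : V} (ht : t ≤ 1) {Ra : Finset V → ℝ → ℝ}
    {s : ℝ} (hs : s ∈ Icc 0 t) {n : ℝ}
    (hn : ∀ F : Finset V, a ∉ F → d ∉ F → (1 - n) * Ra (insert d F) s ≤ Ra F s) :
    (1 - n) * eYt h a b d Ra s ≤ eY h a b d Ra s := by
  unfold eYt eY ex
  rw [Finset.mul_sum]
  refine Finset.sum_le_sum fun F _ => ?_
  rw [mul_left_comm]
  refine mul_le_mul_of_nonneg_left ?_ ((hh.lw ∅).nonneg F s ⟨hs.1, hs.2.trans ht⟩)
  split_ifs
  · exact hn _ (by simp) (by simp)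
  · simp

/-- **absorption**: a released flux against the state with `b` deleted -/
theorem rh_of_N (hh : Haz h H) {a b : V} (hab : a ≠ b) (ht : t ∈ Icc (0 : ℝ) 1)
    {Ra : Finset V → ℝ → ℝ} (hRa : Wd h (fun r v => h r a v) t Ra) (a1 : ∀ F, Ra F t = 1)
    {s : ℝ} (hs : s ∈ Icc 0 t) {n : V → ℝ} {mu : ℝ} (mu1 : mu < 1)
    (hn : ∀ F : Finset V, ∀ e, a ∉ F → e ∉ F → e ≠ a →
      (1 - n e) * Ra (insert e F) s ≤ Ra F s)
    {y : V → ℝ → ℝ} (cy : ∀ d ∈ ({a, b} : Finset V)ᶜ, ContinuousOn (y d) (Icc 0 s))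
    (hy : ∀ d ∈ ({a, b} : Finset V)ᶜ, ∀ r ∈ Icc 0 s, h r b d * eY h a b d Ra r
      ≤ pr (lw h ∅ t) {a} * y d r)
    (hmu : ∫ r in (0 : ℝ)..s, ∑ d ∈ ({a, b} : Finset V)ᶜ, y d r ≤ mu)
    {d : V} (hd : d ∈ ({a, b} : Finset V)ᶜ) (nd : n d < 1) (nb : n b < 1) :
    h s b d * eYt h a b d Ra s
      ≤ y d s * ((1 - n d) * (1 - n b) * (1 - mu))⁻¹ * eZ h a b Ra s := by
  have pa : 0 < pr (lw h ∅ t) {a} := pr_pos' hh ht _
  have hnd : 0 < 1 - n d := by linarith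
  have hnb : 0 < 1 - n b := by linarith
  have hmu0 : 0 < 1 - mu := by linarith
  have ss : s ∈ Icc 0 s := ⟨hs.1, le_rfl⟩
  have h1 := eA_ge hh hab ht hRa a1 hs (y := fun r => ∑ d ∈ ({a, b} : Finset V)ᶜ, y d r)
    (continuousOn_finsetSum _ fun d hd => cy d hd) (fun r hr => by
      rw [Finset.mul_sum]
      exact Finset.sum_le_sum fun d hd => hy d hd r hr)
  have h2 : pr (lw h ∅ t) {a} * (1 - mu) ≤ eA h a b Ra s :=
    (mul_le_mul_of_nonneg_left (by linarith) pa.le).trans h1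
  have h3 := eZ_ge hh ht.2 hs (n := n b) (Ra := Ra) fun F h1 h2 => hn F b h1 h2 (Ne.symm hab)
  have h4 : (1 - n b) * (pr (lw h ∅ t) {a} * (1 - mu)) ≤ eZ h a b Ra s :=
    (mul_le_mul_of_nonneg_left h2 hnb.le).trans h3
  have hda : d ≠ a := by
    rw [Finset.mem_compl] at hd
    exact fun e => hd (by simp [e])
  have h5 := eYt_le' hh (a := a) (b := b) (d := d) ht.2 hs (n := n d) (Ra := Ra)
    fun F h1 h2 => hn F d h1 h2 hda
  have h6 : (1 - n d) * (h s b d * eYt h a b d Ra s) ≤ pr (lw h ∅ t) {a} * y d s := by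
    have := mul_le_mul_of_nonneg_left h5 (hh.nonneg s b d)
    have := hy d hd s ss
    nlinarith
  have hy0 : 0 ≤ h s b d * eYt h a b d Ra s := mul_nonneg (hh.nonneg s b d)
    (by
      unfold eYt
      exact (ex_pos hh ⟨hs.1, hs.2.trans ht.2⟩ fun F => hRa.pos _ s hs).le)
  have hden : 0 < (1 - n d) * (1 - n b) * (1 - mu) := mul_pos (mul_pos hnd hnb) hmu0
  have h7 : 0 ≤ pr (lw h ∅ t) {a} * y d s := le_trans (mul_nonneg hnd.le hy0) h6
  have y0 : 0 ≤ y d s := nonneg_of_mul_nonneg_right h7 pa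
  have h8 : (1 - n d) * (h s b d * eYt h a b d Ra s) * ((1 - n b) * (1 - mu))
      ≤ y d s * eZ h a b Ra s := by
    calc (1 - n d) * (h s b d * eYt h a b d Ra s) * ((1 - n b) * (1 - mu))
        ≤ pr (lw h ∅ t) {a} * y d s * ((1 - n b) * (1 - mu)) :=
          mul_le_mul_of_nonneg_right h6 (mul_nonneg hnb.le hmu0.le)
      _ = y d s * ((1 - n b) * (pr (lw h ∅ t) {a} * (1 - mu))) := by ring
      _ ≤ y d s * eZ h a b Ra s := mul_le_mul_of_nonneg_left h4 y0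
  have e1 : y d s * ((1 - n d) * (1 - n b) * (1 - mu))⁻¹ * eZ h a b Ra s
      = (y d s * eZ h a b Ra s) / ((1 - n d) * (1 - n b) * (1 - mu)) := by
    rw [div_eq_mul_inv]; ring
  rw [e1, le_div_iff₀ hden]
  calc h s b d * eYt h a b d Ra s * ((1 - n d) * (1 - n b) * (1 - mu))
      = (1 - n d) * (h s b d * eYt h a b d Ra s) * ((1 - n b) * (1 - mu)) := by ring
    _ ≤ _ := h8

end Pool.Agent.RZ.RCN
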