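import Pool.Agent.RZ.RCM9.PVal2

/-! A check of the sign of a rational polynomial on an interval, with integers
(MP_73ccd0_lc, route M). -/

set_option autoImplicit false

namespace Pool.Agent.RZ.RCN.Ck1

open Set Pool.Agent.RZ.RCM9

/-- the value of an integer polynomial -/
noncomputable def pz : List ℤ → ℝ → ℝ
  | [], _ => 0
  | c :: l, x => (c : ℝ) + x * pz l x

/-- `p + (A + H x) S` -/
def ah (A H : ℤ) : ℤ → List ℤ → List ℤ
  | p, [] => [p]
  | p, s :: S => (p + A * s) :: ah A H (H * s) S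

theorem pz_ah (A H p : ℤ) (S : List ℤ) (x : ℝ) :
    pz (ah A H p S) x = p + (A + H * x) * pz S x := by
  induction S generalizing p with
  | nil => simp [ah, pz]
  | cons s S ih =>
    simp only [ah, pz, ih]
    push_cast
    ring

/-- the polynomial at `(A + H x) / Q`, times a power of `Q` -/
def hm (A H Q : ℤ) : List ℤ → List ℤ
  | [] => []
  | c :: l => ah A H (Q ^ (l.length + 1) * c) (hm A H Q l)

theorem pz_hm (A H Q : ℤ) (hQ : (Q : ℝ) ≠ 0) (l : List ℤ) (x : ℝ) :
    pz (hm A H Q l) x = (Q : ℝ) ^ l.length * pz l ((A + H * x) / Q) := by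
  induction l with
  | nil => simp [hm, pz]
  | cons c l ih =>
    simp only [hm, pz, pz_ah, ih, List.length_cons]
    push_cast
    rw [pow_succ]
    field_simp

/-- `p + (1 + x) S` -/
def cm : ℤ → List ℤ → List ℤ
  | p, [] => [p]
  | p, s :: S => (p + s) :: cm s S

theorem pz_cm (p : ℤ) (S : List ℤ) (x : ℝ) : pz (cm p S) x = p + (1 + x) * pz S x := by
  induction S generalizing p with
  | nil => simp [cm, pz]
  | cons s S ih =>
    simp only [cm, pz, ih]
    push_cast
    ring

/-- the polynomial at `1 + x` -/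
def shf : List ℤ → List ℤ
  | [] => []
  | c :: l => cm c (shf l)

theorem pz_shf (l : List ℤ) (x : ℝ) : pz (shf l) x = pz l (1 + x) := by
  induction l with
  | nil => simp [shf, pz]
  | cons c l ih => simp only [shf, pz, pz_cm, ih]

/-- a lower bound on `[0, 1]` -/
def lb : List ℤ → ℤ
  | [] => 0
  | c :: l => c + min 0 (lb l)

theorem lb_le (l : List ℤ) {x : ℝ} (h0 : 0 ≤ x) (h1 : x ≤ 1) : (lb l : ℝ) ≤ pz l x := by
  induction l with
  | nil => simp [lb, pz]
  | cons c l ih =>
    simp only [lb, pz]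
    push_cast
    have h2 : min 0 (lb l : ℝ) ≤ pz l x := (min_le_right _ _).trans ih
    have h3 : min 0 (lb l : ℝ) ≤ 0 := min_le_left _ _
    have h4 := mul_le_mul_of_nonneg_left h2 h0
    have h5 := mul_le_mul_of_nonpos_right h1 h3
    linarith

/-- the check on `[0, n]` -/
def ck : ℕ → List ℤ → Bool
  | 0, _ => true
  | n + 1, l => decide (0 ≤ lb l) && ck n (shf l)

theorem ck_le (n : ℕ) (hn : n ≠ 0) (l : List ℤ) (h : ck n l = true) {x : ℝ} (h0 : 0 ≤ x)
    (h1 : x ≤ n) : 0 ≤ pz l x := by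
  induction n generalizing l x with
  | zero => exact absurd rfl hn
  | succ n ih =>
    simp only [ck, Bool.and_eq_true, decide_eq_true_eq] at h
    rcases le_or_gt x 1 with hx | hx
    · have h2 := lb_le l h0 hx
      have h3 : (0 : ℝ) ≤ (lb l : ℝ) := by exact_mod_cast h.1
      exact h3.trans h2
    · have hn' : n ≠ 0 := by
        rintro rfl
        norm_num at h1
        linarith
      have h2 := ih hn' (shf l) h.2 (x := x - 1) (by linarith) (by push_cast at h1; linarith)
      rwa [pz_shf, show 1 + (x - 1) = x by ring] at h2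

/-- the integers below the scaled coefficients -/
def flr (D : ℤ) : List ℚ → List ℤ
  | [] => []
  | c :: l => (c.num * D) / (c.den : ℤ) :: flr D l

theorem flr_le {D : ℤ} (l : List ℚ) {x : ℝ} (h0 : 0 ≤ x) : pz (flr D l) x ≤ (D : ℝ) * pv l x := by
  induction l with
  | nil => simp [flr, pz, pv]
  | cons c l ih =>
    simp only [flr, pz, pv]
    have h1 : (((c.num * D) / (c.den : ℤ) : ℤ) : ℝ) ≤ (D : ℝ) * (c : ℝ) := by
      have h2 : (0 : ℤ) < (c.den : ℤ) := by exact_mod_cast c.den_pos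
      have h3 : (c.num * D) / (c.den : ℤ) * (c.den : ℤ) ≤ c.num * D :=
        Int.ediv_mul_le _ h2.ne'
      have h4 : (((c.num * D) / (c.den : ℤ) : ℤ) : ℝ) * ((c.den : ℤ) : ℝ)
          ≤ (c.num : ℝ) * (D : ℝ) := by exact_mod_cast h3
      have h5 : (c : ℝ) * ((c.den : ℤ) : ℝ) = (c.num : ℝ) := by
        have := Rat.mul_den_eq_num c
        exact_mod_cast this
      have h6 : (0 : ℝ) < ((c.den : ℤ) : ℝ) := by exact_mod_cast h2
      refine le_of_mul_le_mul_right ?_ h6
      calc _ ≤ (c.num : ℝ) * (D : ℝ) := h4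
        _ = (D : ℝ) * (c : ℝ) * ((c.den : ℤ) : ℝ) := by rw [← h5]; ring
    have h2 := mul_le_mul_of_nonneg_left ih h0
    have h3 : (D : ℝ) * ((c : ℝ) + x * pv l x) = (D : ℝ) * (c : ℝ) + x * ((D : ℝ) * pv l x) := by
      ring
    rw [h3]
    exact add_le_add h1 h2

/-- **the check on `[a, b]` with `n` parts** -/
def nn (D : ℤ) (n : ℕ) (a b : ℚ) (l : List ℚ) : Bool :=
  decide (0 < D) && (decide (0 < n) && (decide (0 ≤ a) && (decide (a < b)
    && ck n (hm (a.num * b.den * n) (b.num * a.den - a.num * b.den) (a.den * b.den * n)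
      (flr D l)))))

theorem nn_le {D : ℤ} {n : ℕ} {a b : ℚ} {l : List ℚ} (h : nn D n a b l = true) {t : ℝ}
    (ht : t ∈ Icc (a : ℝ) b) : 0 ≤ pv l t := by
  simp only [nn, Bool.and_eq_true, decide_eq_true_eq] at h
  obtain ⟨hD, hn, ha, hab, hc⟩ := h
  have hn' : (0 : ℝ) < (n : ℝ) := by exact_mod_cast hn
  have ha' : (0 : ℝ) ≤ (a : ℝ) := by exact_mod_cast ha
  have hab' : (0 : ℝ) < (b : ℝ) - a := by
    have : (a : ℝ) < (b : ℝ) := by exact_mod_cast hab
    linarith
  have hh : (0 : ℝ) < ((b : ℝ) - a) / n := div_pos hab' hn'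
  set x := (t - a) / (((b : ℝ) - a) / n) with hx
  have x0 : 0 ≤ x := div_nonneg (by linarith [ht.1]) hh.le
  have x1 : x ≤ n := by
    rw [hx, div_le_iff₀ hh, mul_div_cancel₀ _ hn'.ne']
    linarith [ht.2]
  have h1 := ck_le n hn.ne' _ hc x0 x1
  have ad : (0 : ℝ) < (a.den : ℝ) := by exact_mod_cast a.den_pos
  have bd : (0 : ℝ) < (b.den : ℝ) := by exact_mod_cast b.den_pos
  have hQ : (((a.den * b.den * n : ℤ)) : ℝ) = (a.den : ℝ) * b.den * n := by push_cast; ring
  have hQ0 : (0 : ℝ) < (((a.den * b.den * n : ℤ)) : ℝ) := by rw [hQ]; positivity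
  rw [pz_hm _ _ _ hQ0.ne'] at h1
  have e : ((((a.num * b.den * n : ℤ)) : ℝ) + ((b.num * a.den - a.num * b.den : ℤ) : ℝ) * x)
      / (((a.den * b.den * n : ℤ)) : ℝ) = t := by
    have ea : (a : ℝ) = (a.num : ℝ) / a.den := by
      have := (Rat.num_div_den a).symm
      exact_mod_cast congrArg (fun z : ℚ => (z : ℝ)) this
    have eb : (b : ℝ) = (b.num : ℝ) / b.den := by
      have := (Rat.num_div_den b).symm
      exact_mod_cast congrArg (fun z : ℚ => (z : ℝ)) this
    have ex : (((b : ℝ) - a) / n) * x = t - a := by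
      rw [hx, mul_div_cancel₀ _ hh.ne']
    rw [hQ]
    push_cast
    rw [div_eq_iff (by positivity)]
    have : t = a + (((b : ℝ) - a) / n) * x := by rw [ex]; ring
    rw [this, ea, eb]
    field_simp
  rw [e] at h1
  have h3 := (mul_nonneg_iff_of_pos_left (pow_pos hQ0 _)).1 h1
  have h2 := flr_le (D := D) l (ha'.trans ht.1)
  have hD' : (0 : ℝ) < (D : ℝ) := by exact_mod_cast hD
  exact (mul_nonneg_iff_of_pos_left hD').1 (h3.trans h2)

/-- `q - p` -/
def lsub (q p : List ℚ) : List ℚ := ladd q (lsmul (-1) p)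

theorem pv_lsub (q p : List ℚ) (t : ℝ) : pv (lsub q p) t = pv q t - pv p t := by
  unfold lsub
  rw [pv_ladd, pv_lsmul]
  push_cast
  ring

/-- comparison on `[a, b]` -/
theorem nn_sub {D : ℤ} {n : ℕ} {a b : ℚ} {p q : List ℚ} (h : nn D n a b (lsub q p) = true) {t : ℝ}
    (ht : t ∈ Icc (a : ℝ) b) : pv p t ≤ pv q t := by
  have := nn_le h ht
  rw [pv_lsub] at this
  linarith

end Pool.Agent.RZ.RCN.Ck1
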