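import Pool.Agent.RZ.RCN.Abs

/-! Explicit forms and bounds of the error function (MP_73ccd0_lc, route M). -/

namespace Pool.Agent.RZ.RCN.K

open Set Finset MeasureTheory Pool.Agent.RZ.RCRSHalf Pool.Agent.RZ.RCG Pool.Agent.RZ.RCG.Ct
open Pool.Agent.RZ.RCN.Ker Pool.Agent.RZ.RCRS

set_option linter.unusedSectionVars false

variable {V : Type*} [Fintype V] [DecidableEq V]

section defs

variable (x : V → V → ℝ) (P : V → Prop) [DecidablePred P] (k : Kf) (κd : ℝ → ℝ → ℝ → ℝ)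
  (R : V → V → V → ℝ → ℝ → ℝ) (L Lt : V → V → V → V → ℝ → ℝ → ℝ)

/-- bound of the flux of the pair `b`, `d` in the world of `a` -/
noncomputable def flx (a b d : V) (t s : ℝ) : ℝ :=
  x b d * fq x P k.fh b d s * κd (x a b + x a d) t s

/-- the hazard error -/
noncomputable def laL (a b c : V) (t s : ℝ) : ℝ :=
  ∑ d ∈ ({a, b, c} : Finset V)ᶜ, R a b d t s * nuL (Lt a b c d t s)

/-- the logarithm of the total closure error -/
noncomputable def llL (a b c d : V) (t s : ℝ) : ℝ :=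
  L a b c d t s + ∫ r in s..t, laL R Lt a b c t r

/-- the rate of the error in explicit form -/
noncomputable def rtL (a b c : V) (t s : ℝ) : ℝ :=
  x b c * fq x P k.fh b c s * (κd (x a b + x a c) t s - k.Pe (x a b + x a c) t)
    + ∑ d ∈ ({a, b, c} : Finset V)ᶜ, flx x P k κd a b d t s * nuL (llL R L Lt a b c d t s)

end defs

variable {x : V → V → ℝ} {P : V → Prop} [DecidablePred P] {k : Kf} {N : ℕ}
variable {κd : ℝ → ℝ → ℝ → ℝ} {R : V → V → V → ℝ → ℝ → ℝ} {L Lt : V → V → V → V → ℝ → ℝ → ℝ}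

theorem nuL_mul_exp (l m : ℝ) : 1 - (1 - nuL l) * Real.exp (-m) = nuL (l + m) := by
  unfold nuL
  rw [sub_sub_cancel, ← Real.exp_add]
  congr 2
  ring

theorem rate_eq (a b c : V) (t s : ℝ) :
    (xdOf x κd R L Lt).rate x P k a b c t s = rtL x P k κd R L Lt a b c t s := by
  have e : ∀ d, 1 - (1 - nuL (L a b c d t s)) * Real.exp (-∫ r in s..t, laL R Lt a b c t r)
      = nuL (llL R L Lt a b c d t s) := fun d => nuL_mul_exp _ _
  have h1 : (xdOf x κd R L Lt).rate x P k a b c t s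
      = x b c * fq x P k.fh b c s * (κd (x a b + x a c) t s
          - k.Pe (x a b + x a c) t * (1 + 0))
        + ∑ d ∈ ({a, b, c} : Finset V)ᶜ, x b d * fq x P k.fh b d s
          * (κd (x a b + x a d) t s
            * (1 - (1 - nuL (L a b c d t s)) * Real.exp (-∫ r in s..t, laL R Lt a b c t r))) :=
    rfl
  rw [h1]
  unfold rtL flx
  congr 1
  · ring
  · refine Finset.sum_congr rfl fun d _ => ?_
    rw [e d]
    ring

/-- **the error function in explicit form** -/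
theorem E_eq (a b c : V) (t : ℝ) :
    (xdOf x κd R L Lt).E x P k a b c t
      = ∫ s in (0 : ℝ)..t, rtL x P k κd R L Lt a b c t s := by
  have h1 : (xdOf x κd R L Lt).E x P k a b c t
      = k.mb (xr x P a b) (xr x P a c) (xr x P b c) t * 0
        + ∫ s in (0 : ℝ)..t, (xdOf x κd R L Lt).rate x P k a b c t s := rfl
  rw [h1, mul_zero, zero_add]
  exact intervalIntegral.integral_congr fun s _ => rate_eq a b c t s

theorem laL_cn (hf : Lf N k κd R L Lt) (a b c : V) : CN N (laL R Lt a b c) :=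
  CN.sum fun d _ => (hf.cR a b d).mul (nuL_cn (hf.cLt a b c d))

theorem laL_nonneg (hf : Lf N k κd R L Lt) {a b c : V} {t s : ℝ} (h0 : 0 ≤ s) (hst : s ≤ t)
    (ht : t ≤ 1) : 0 ≤ laL R Lt a b c t s :=
  Finset.sum_nonneg fun d _ => mul_nonneg (hf.R0 a b d t s h0 hst ht)
    (nuL_nonneg (hf.Lt0 a b c d t s h0 hst ht))

theorem llL_cn (hf : Lf N k κd R L Lt) (a b c d : V) : CN N (llL R L Lt a b c d) :=
  (hf.cL a b c d).add (laL_cn hf a b c).tail

theorem llL_nonneg (hf : Lf N k κd R L Lt) {a b c d : V} {t s : ℝ} (h0 : 0 ≤ s) (hst : s ≤ t)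
    (ht : t ≤ 1) : 0 ≤ llL R L Lt a b c d t s :=
  add_nonneg (hf.L0 a b c d t s h0 hst ht) (intervalIntegral.integral_nonneg hst fun r hr =>
    laL_nonneg hf (h0.trans hr.1) hr.2 ht)

theorem rtL_cn (hf : Lf N k κd R L Lt) (hx : Wt x P 1)
    (hfc : ∀ y ∈ Icc (0 : ℝ) 1, ContinuousOn (k.fh y) (Icc 0 1))
    (cPe : ∀ w, ContinuousOn (k.Pe w) (Icc 0 1)) (a b c : V) :
    CN N (rtL x P k κd R L Lt a b c) := by
  refine (((CN.const _).mul (CN.snd (fq_cont' hfc hx b c))).mul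
    ((hf.cκ _).sub (CN.fst (CP.of_cont (cPe _))))).add (CN.sum fun d _ => ?_)
  exact (flux_cn hfc hx hf.cκ a b d).mul (nuL_cn (llL_cn hf a b c d))

/-- the slices of the rate are continuous -/
theorem rtL_slice (hf : Lf N k κd R L Lt) (hx : Wt x P 1)
    (hfc : ∀ y ∈ Icc (0 : ℝ) 1, ContinuousOn (k.fh y) (Icc 0 1))
    (cPe : ∀ w, ContinuousOn (k.Pe w) (Icc 0 1)) (a b c : V) {t : ℝ} (ht : t ∈ Icc (0 : ℝ) 1) :
    ContinuousOn (rtL x P k κd R L Lt a b c t) (Icc 0 t) :=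
  (rtL_cn hf hx hfc cPe a b c).slice hf.N0 ht

/-- **bound of the error by a bound of its rate** -/
theorem E_le_of_rate (hf : Lf N k κd R L Lt) (hx : Wt x P 1)
    (hfc : ∀ y ∈ Icc (0 : ℝ) 1, ContinuousOn (k.fh y) (Icc 0 1))
    (cPe : ∀ w, ContinuousOn (k.Pe w) (Icc 0 1)) {a b c : V} {t : ℝ} (ht : t ∈ Icc (0 : ℝ) 1)
    {g : ℝ → ℝ} (hg : IntervalIntegrable g volume 0 t)
    (hle : ∀ s ∈ Icc 0 t, rtL x P k κd R L Lt a b c t s ≤ g s) :
    (xdOf x κd R L Lt).E x P k a b c t ≤ ∫ s in (0 : ℝ)..t, g s := by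
  rw [E_eq]
  refine intervalIntegral.integral_mono_on ht.1 ?_ hg hle
  have c := rtL_slice hf hx hfc cPe a b c ht
  rw [← uIcc_of_le ht.1] at c
  exact c.intervalIntegrable

/-- the linear form of the hazard error -/
theorem laL_le_lin (hf : Lf N k κd R L Lt) {a b c : V} {t s : ℝ}
    (h0 : 0 ≤ s) (hst : s ≤ t) (ht : t ≤ 1) :
    laL R Lt a b c t s ≤ ∑ d ∈ ({a, b, c} : Finset V)ᶜ, R a b d t s * Lt a b c d t s :=
  Finset.sum_le_sum fun d _ => mul_le_mul_of_nonneg_left (nuL_le _) (hf.R0 a b d t s h0 hst ht)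

/-- the trivial form of the rate -/
theorem rtL_le_triv (hf : Lf N k κd R L Lt) (hx : Wt x P 1) (hk : k.Ok) {a b c : V} {t s : ℝ}
    (h0 : 0 ≤ s) (hst : s ≤ t) (ht : t ≤ 1) :
    rtL x P k κd R L Lt a b c t s
      ≤ x b c * fq x P k.fh b c s * (κd (x a b + x a c) t s - k.Pe (x a b + x a c) t)
        + ∑ d ∈ ({a, b, c} : Finset V)ᶜ, flx x P k κd a b d t s := by
  refine add_le_add le_rfl (Finset.sum_le_sum fun d _ => ?_)
  have := mul_le_mul_of_nonneg_left (nuL_le_one (llL R L Lt a b c d t s))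
    (flux_nonneg (P := P) (κd := κd) hx hk hf.κP a b d ⟨h0.trans hst, ht⟩ ⟨h0, hst⟩)
  rw [mul_one] at this
  exact this

/-- bound of the integrated densities with the density factor -/
structure Ab (k : Kf) (κd : ℝ → ℝ → ℝ → ℝ) (A : ℝ → ℝ → ℝ) : Prop where
  fi : ∀ w ∈ Icc (0 : ℝ) 1, ∀ y ∈ Icc (0 : ℝ) 1, ∀ t ∈ Icc (0 : ℝ) 1,
    k.Pe w t * k.fi y t + ∫ s in (0 : ℝ)..t, k.fh y s * (κd w t s - k.Pe w t) ≤ A w t
  fh : ∀ w ∈ Icc (0 : ℝ) 1, ∀ y ∈ Icc (0 : ℝ) 1, ∀ t ∈ Icc (0 : ℝ) 1,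
    ∫ s in (0 : ℝ)..t, k.fh y s * κd w t s ≤ A w t
  qq : ∀ w ∈ Icc (0 : ℝ) 1, ∀ t ∈ Icc (0 : ℝ) 1, ∫ s in (0 : ℝ)..t, qq s * κd w t s ≤ A w t

/-- **the trivial bound of the error** -/
theorem tri_le_A (hf : Lf N k κd R L Lt) (hx : Wt x P 1) (hk : k.Ok)
    (hfc : ∀ y ∈ Icc (0 : ℝ) 1, ContinuousOn (k.fh y) (Icc 0 1))
    (cPe : ∀ w, ContinuousOn (k.Pe w) (Icc 0 1)) {A : ℝ → ℝ → ℝ} (hA : Ab k κd A) {a b c : V}
    (ha : P a) (hb : P b) (hc : P c) (hac : a ≠ c) (hbc : b ≠ c) {t : ℝ}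
    (ht : t ∈ Icc (0 : ℝ) 1) :
    k.mb (xr x P a b) (xr x P a c) (xr x P b c) t + (xdOf x κd R L Lt).E x P k a b c t
      ≤ ∑ d ∈ ({a, b} : Finset V)ᶜ, x b d * A (x a b + x a d) t := by
  have q1 : ∀ {u v : V}, P u → P v → xr x P u v = x u v := fun hu hv => by
    unfold xr; rw [if_pos ⟨hu, hv⟩]
  have cfq : ∀ d, ContinuousOn (fq x P k.fh b d) (Icc 0 t) := fun d =>
    (fq_cont' hfc hx b d).mono (Icc_subset_Icc_right ht.2)
  have cκ : ∀ w, ContinuousOn (κd w t) (Icc 0 t) := fun w => (hf.cκ w).slice hf.N0 ht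
  have cg : ContinuousOn (fun s => x b c * fq x P k.fh b c s
      * (κd (x a b + x a c) t s - k.Pe (x a b + x a c) t)
      + ∑ d ∈ ({a, b, c} : Finset V)ᶜ, flx x P k κd a b d t s) (Icc 0 t) := by
    refine ((continuousOn_const.mul (cfq c)).mul ((cκ _).sub continuousOn_const)).add
      (continuousOn_finsetSum _ fun d _ => ?_)
    unfold flx
    exact (continuousOn_const.mul (cfq d)).mul (cκ _)
  have ii : ∀ {f : ℝ → ℝ}, ContinuousOn f (Icc 0 t) → IntervalIntegrable f volume 0 t :=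
    fun h => by
      rw [← uIcc_of_le ht.1] at h
      exact h.intervalIntegrable
  have h1 := E_le_of_rate hf hx hfc cPe ht (ii cg) (fun s hs =>
    rtL_le_triv (L := L) (R := R) (Lt := Lt) (P := P) (a := a) (b := b)
      (c := c) hf hx hk hs.1 hs.2 ht.2)
  -- the integral
  have h2 : (∫ s in (0 : ℝ)..t, (x b c * fq x P k.fh b c s
      * (κd (x a b + x a c) t s - k.Pe (x a b + x a c) t)
      + ∑ d ∈ ({a, b, c} : Finset V)ᶜ, flx x P k κd a b d t s))
      = x b c * (∫ s in (0 : ℝ)..t, fq x P k.fh b c s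
          * (κd (x a b + x a c) t s - k.Pe (x a b + x a c) t))
        + ∑ d ∈ ({a, b, c} : Finset V)ᶜ, x b d
          * ∫ s in (0 : ℝ)..t, fq x P k.fh b d s * κd (x a b + x a d) t s := by
    rw [intervalIntegral.integral_add, intervalIntegral.integral_finsetSum]
    · congr 1
      · rw [← intervalIntegral.integral_const_mul]
        refine intervalIntegral.integral_congr fun s _ => ?_
        ring
      · refine Finset.sum_congr rfl fun d _ => ?_
        rw [← intervalIntegral.integral_const_mul]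
        refine intervalIntegral.integral_congr fun s _ => ?_
        unfold flx
        ring
    · intro d _
      refine ii ?_
      unfold flx
      exact (continuousOn_const.mul (cfq d)).mul (cκ _)
    · exact ii ((continuousOn_const.mul (cfq c)).mul ((cκ _).sub continuousOn_const))
    · refine ii (continuousOn_finsetSum _ fun d _ => ?_)
      unfold flx
      exact (continuousOn_const.mul (cfq d)).mul (cκ _)
  rw [h2] at h1
  -- the sum over `{a, b}ᶜ`
  have hcm : c ∈ ({a, b} : Finset V)ᶜ := by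
    rw [Finset.mem_compl]; simp [hac.symm, hbc.symm]
  have hset : ({a, b} : Finset V)ᶜ = insert c (({a, b, c} : Finset V)ᶜ) := by
    ext z
    simp only [Finset.mem_insert, Finset.mem_compl, Finset.mem_singleton, not_or]
    constructor
    · intro h
      by_cases hz : z = c
      · exact Or.inl hz
      · exact Or.inr ⟨h.1, h.2, hz⟩
    · rintro (h | h)
      · exact h ▸ ⟨hac.symm, hbc.symm⟩
      · exact ⟨h.1, h.2.1⟩
  have hcn : c ∉ (({a, b, c} : Finset V)ᶜ) := by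
    rw [Finset.mem_compl]; simp
  rw [hset, Finset.sum_insert hcn]
  have hsum : ∑ d ∈ ({a, b, c} : Finset V)ᶜ, x b d
        * (∫ s in (0 : ℝ)..t, fq x P k.fh b d s * κd (x a b + x a d) t s)
      ≤ ∑ d ∈ ({a, b, c} : Finset V)ᶜ, x b d * A (x a b + x a d) t := by
    refine Finset.sum_le_sum fun d hd => mul_le_mul_of_nonneg_left ?_ (hx.nonneg b d)
    simp only [Finset.mem_compl, Finset.mem_insert, Finset.mem_singleton, not_or] at hd
    by_cases hP : P d
    · have e : ∀ s, fq x P k.fh b d s = k.fh (x b d) s := fun s => by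
        unfold fq; rw [if_pos hP]
      simp only [e]
      exact hA.fh _ (two_mem hx a (Ne.symm hd.2.1)) _ (x_mem hx b d) t ht
    · have e : ∀ s, fq x P k.fh b d s = qq s := fun s => by
        unfold fq; rw [if_neg hP]
      simp only [e]
      exact hA.qq _ (two_mem hx a (Ne.symm hd.2.1)) t ht
  have hc3 : k.mb (xr x P a b) (xr x P a c) (xr x P b c) t
      + x b c * (∫ s in (0 : ℝ)..t, fq x P k.fh b c s
          * (κd (x a b + x a c) t s - k.Pe (x a b + x a c) t))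
      ≤ x b c * A (x a b + x a c) t := by
    have e : ∀ s, fq x P k.fh b c s = k.fh (x b c) s := fun s => by
      unfold fq; rw [if_pos hc]
    simp only [e]
    rw [q1 ha hb, q1 ha hc, q1 hb hc]
    have := mul_le_mul_of_nonneg_left (hA.fi _ (two_mem hx a hbc) _ (x_mem hx b c) t ht)
      (hx.nonneg b c)
    unfold Kf.mb
    calc _ = x b c * (k.Pe (x a b + x a c) t * k.fi (x b c) t
          + ∫ s in (0 : ℝ)..t, k.fh (x b c) s
            * (κd (x a b + x a c) t s - k.Pe (x a b + x a c) t)) := by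
          ring
      _ ≤ _ := this
  linarith

/-- the combinatorial inequality of the gap -/
theorem pair_gap (hx : Wt x P 1) {a b c : V} (hab : a ≠ b) (hac : a ≠ c) (hbc : b ≠ c) {t : ℝ}
    (ht : t ∈ Icc (0 : ℝ) 1) :
    ∑ d ∈ ({a, b} : Finset V)ᶜ, x b d * (1 + (x a b + x a d) * t)
      + ∑ d ∈ ({a, c} : Finset V)ᶜ, x c d * (1 + (x a c + x a d) * t) ≤ 2 + 2 * t / 3 := by
  set U : Finset V := ({a, b, c} : Finset V)ᶜ with hU
  have hcU : c ∉ U := by rw [hU, Finset.mem_compl]; simp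
  have hbU : b ∉ U := by rw [hU, Finset.mem_compl]; simp
  have haU : a ∉ U := by rw [hU, Finset.mem_compl]; simp
  have hs1 : ({a, b} : Finset V)ᶜ = insert c U := by
    ext z
    simp only [hU, Finset.mem_insert, Finset.mem_compl, Finset.mem_singleton, not_or]
    constructor
    · intro h
      by_cases hz : z = c
      · exact Or.inl hz
      · exact Or.inr ⟨h.1, h.2, hz⟩
    · rintro (h | h)
      · exact h ▸ ⟨hac.symm, hbc.symm⟩
      · exact ⟨h.1, h.2.1⟩
  have hs2 : ({a, c} : Finset V)ᶜ = insert b U := by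
    ext z
    simp only [hU, Finset.mem_insert, Finset.mem_compl, Finset.mem_singleton, not_or]
    constructor
    · intro h
      by_cases hz : z = b
      · exact Or.inl hz
      · exact Or.inr ⟨h.1, hz, h.2⟩
    · rintro (h | h)
      · exact h ▸ ⟨hab.symm, hbc⟩
      · exact ⟨h.1, h.2.2⟩
  rw [hs1, hs2, Finset.sum_insert hcU, Finset.sum_insert hbU]
  -- the rows
  have row : ∀ v w w' : V, w ≠ w' → w ∉ U → w' ∉ U →
      x v w + x v w' + ∑ d ∈ U, x v d ≤ 1 := by
    intro v w w' hww hw hw'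
    have h1 : ∑ d ∈ insert w (insert w' U), x v d ≤ ∑ d, x v d :=
      Finset.sum_le_sum_of_subset_of_nonneg (Finset.subset_univ _) fun e _ _ => hx.nonneg v e
    rw [Finset.sum_insert (by simp [hww, hw]), Finset.sum_insert hw'] at h1
    have := h1.trans (hx.row v)
    linarith
  have ra := row a b c hbc hbU hcU
  have rb := row b a c hac haU hcU
  have rc := row c a b hab haU hbU
  have sy : ∀ u v, x u v = x v u := fun u v => hx.symm u v
  rw [sy b a] at rb
  rw [sy c a, sy c b] at rc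
  have n0 := hx.nonneg
  -- the triangles
  have tri : ∀ d ∈ U, x a d * (x b d + x c d) ≤ 4 / 9 * x a d + 1 / 9 * (x b d + x c d) := by
    intro d hd
    have hd' := hd
    simp only [hU, Finset.mem_compl, Finset.mem_insert, Finset.mem_singleton, not_or] at hd'
    have h1 : x d a + x d b + x d c ≤ 1 := by
      have h2 : ∑ e ∈ ({a, b, c} : Finset V), x d e ≤ ∑ e, x d e :=
        Finset.sum_le_sum_of_subset_of_nonneg (Finset.subset_univ _) fun e _ _ => hx.nonneg d e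
      rw [Finset.sum_insert (by simp [hab, hac]), Finset.sum_pair hbc] at h2
      have := h2.trans (hx.row d)
      linarith
    rw [sy d a, sy d b, sy d c] at h1
    have u0 := n0 a d
    have s0 : 0 ≤ x b d + x c d := add_nonneg (n0 b d) (n0 c d)
    set u := x a d with hu
    set s := x b d + x c d with hsd
    have hus : u + s ≤ 1 := by linarith
    have i1 : 0 ≤ (4 / 9 * u + 1 / 9 * s) * (1 - u - s) :=
      mul_nonneg (by linarith) (by linarith)
    have i2 := sq_nonneg (2 * u - s)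
    have i3 : 9 * (4 / 9 * u + 1 / 9 * s - u * s)
        = 9 * ((4 / 9 * u + 1 / 9 * s) * (1 - u - s)) + (2 * u - s) ^ 2 := by ring
    linarith
  have hT := Finset.sum_le_sum tri
  rw [Finset.sum_add_distrib, ← Finset.mul_sum, ← Finset.mul_sum] at hT
  have e1 : ∑ d ∈ U, x b d * (1 + (x a b + x a d) * t)
      = (1 + x a b * t) * ∑ d ∈ U, x b d + t * ∑ d ∈ U, x a d * x b d := by
    rw [Finset.mul_sum, Finset.mul_sum, ← Finset.sum_add_distrib]
    exact Finset.sum_congr rfl fun d _ => by ring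
  have e2 : ∑ d ∈ U, x c d * (1 + (x a c + x a d) * t)
      = (1 + x a c * t) * ∑ d ∈ U, x c d + t * ∑ d ∈ U, x a d * x c d := by
    rw [Finset.mul_sum, Finset.mul_sum, ← Finset.sum_add_distrib]
    exact Finset.sum_congr rfl fun d _ => by ring
  have e3 : ∑ d ∈ U, x a d * (x b d + x c d)
      = ∑ d ∈ U, x a d * x b d + ∑ d ∈ U, x a d * x c d := by
    rw [← Finset.sum_add_distrib]
    exact Finset.sum_congr rfl fun d _ => by ring
  have e4 : ∑ d ∈ U, (x b d + x c d) = ∑ d ∈ U, x b d + ∑ d ∈ U, x c d :=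
    Finset.sum_add_distrib
  rw [e3, e4] at hT
  rw [e1, e2, sy c b]
  set p := x a b with hp
  set q := x a c with hq
  set z := x b c with hz
  set Sa := ∑ d ∈ U, x a d with hSa
  set Sb := ∑ d ∈ U, x b d with hSb
  set Sc := ∑ d ∈ U, x c d with hSc
  set Tb := ∑ d ∈ U, x a d * x b d with hTb
  set Tc := ∑ d ∈ U, x a d * x c d with hTc
  have p0 : 0 ≤ p := n0 a b
  have q0 : 0 ≤ q := n0 a c
  have z0 : 0 ≤ z := n0 b c
  have Sa0 : 0 ≤ Sa := Finset.sum_nonneg fun d _ => n0 a d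
  have Sb0 : 0 ≤ Sb := Finset.sum_nonneg fun d _ => n0 b d
  have Sc0 : 0 ≤ Sc := Finset.sum_nonneg fun d _ => n0 c d
  have t0 := ht.1
  have t1 := ht.2
  -- the terms
  have g1 : (1 + p * t) * (z + Sb) ≤ (1 + p * t) * (1 - p) :=
    mul_le_mul_of_nonneg_left (by linarith) (by positivity)
  have g2 : (1 + q * t) * (z + Sc) ≤ (1 + q * t) * (1 - q) :=
    mul_le_mul_of_nonneg_left (by linarith) (by positivity)
  have g3 : t * (Tb + Tc) ≤ t * (4 / 9 * (1 - p - q) + 1 / 9 * (2 - p - q - 2 * z)) :=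
    mul_le_mul_of_nonneg_left (by linarith) t0
  have g4 : z * (p + q) - (p ^ 2 + q ^ 2) - 5 / 9 * (p + q) - 2 / 9 * z ≤ 0 := by
    have m0 : 0 ≤ p + q := add_nonneg p0 q0
    have i1 : (p + q) ^ 2 / 2 ≤ p ^ 2 + q ^ 2 := by
      have := sq_nonneg (p - q)
      linarith [show (p + q) ^ 2 + (p - q) ^ 2 = 2 * (p ^ 2 + q ^ 2) by ring]
    rcases le_total (p + q) (2 / 9) with h | h
    · have i2 : 0 ≤ z * (2 / 9 - (p + q)) := mul_nonneg z0 (by linarith)
      have i3 := sq_nonneg (p + q)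
      linarith
    · have i2 : 0 ≤ (1 - (p + q) / 2 - z) * ((p + q) - 2 / 9) :=
        mul_nonneg (by linarith) (by linarith)
      have i3 := sq_nonneg (p + q - 5 / 18)
      have i4 : (1 - (p + q) / 2 - z) * ((p + q) - 2 / 9)
          = (p + q) - 2 / 9 - (p + q) ^ 2 / 2 + (p + q) / 9 - z * (p + q) + 2 / 9 * z := by ring
      have i5 : (p + q - 5 / 18) ^ 2 = (p + q) ^ 2 - 5 / 9 * (p + q) + 25 / 324 := by ring
      linarith
  have g5 := mul_le_mul_of_nonneg_left g4 t0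
  have g6 := mul_nonneg p0 (sub_nonneg.2 t1)
  have g7 := mul_nonneg q0 (sub_nonneg.2 t1)
  linarith

/-- **the gap** -/
theorem gap_of_A (hf : Lf N k κd R L Lt) (hx : Wt x P 1) (hk : k.Ok)
    (hfc : ∀ y ∈ Icc (0 : ℝ) 1, ContinuousOn (k.fh y) (Icc 0 1))
    (cPe : ∀ w, ContinuousOn (k.Pe w) (Icc 0 1)) {A : ℝ → ℝ → ℝ} (hA : Ab k κd A)
    (hms : ∀ x y z t, k.mb x y z t = k.mb y x z t) {α γ : ℝ → ℝ} {δ : ℝ}
    (hα : ∀ w ∈ Icc (0 : ℝ) 1, ∀ t ∈ Icc (0 : ℝ) 1, A w t ≤ α t * (1 + w * γ t))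
    (hα0 : ∀ t ∈ Icc (0 : ℝ) 1, 0 ≤ α t) (hγ : ∀ t ∈ Icc (0 : ℝ) 1, γ t ∈ Icc (0 : ℝ) 1)
    (hδ : ∀ t ∈ Icc (0 : ℝ) 1, α t * (1 + γ t / 3) ≤ 1 - δ) {a b c : V}
    (ha : P a) (hb : P b) (hc : P c) (hab : a ≠ b) (hac : a ≠ c) (hbc : b ≠ c) {t : ℝ}
    (ht : t ∈ Icc (0 : ℝ) 1) :
    k.mb (xr x P a b) (xr x P a c) (xr x P b c) t
      + min ((xdOf x κd R L Lt).E x P k a b c t) ((xdOf x κd R L Lt).E x P k a c b t)
      ≤ 1 - δ := by
  have h1 := tri_le_A hf hx hk hfc cPe hA ha hb hc hac hbc ht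
  have h2 := tri_le_A hf hx hk hfc cPe hA ha hc hb hab hbc.symm ht
  have e : k.mb (xr x P a c) (xr x P a b) (xr x P c b) t
      = k.mb (xr x P a b) (xr x P a c) (xr x P b c) t := by
    rw [hms (xr x P a c), xr_symm hx c b]
  rw [e] at h2
  have hm : ∀ {b c : V}, ∑ d ∈ ({a, b} : Finset V)ᶜ, x b d * A (x a b + x a d) t
      ≤ α t * ∑ d ∈ ({a, b} : Finset V)ᶜ, x b d * (1 + (x a b + x a d) * γ t) := by
    intro b c
    rw [Finset.mul_sum]
    refine Finset.sum_le_sum fun d hd => ?_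
    simp only [Finset.mem_compl, Finset.mem_insert, Finset.mem_singleton, not_or] at hd
    have := mul_le_mul_of_nonneg_left (hα _ (two_mem hx a (Ne.symm hd.2)) t ht)
      (hx.nonneg b d)
    refine this.trans (le_of_eq ?_)
    ring
  have h3 := hm (b := b) (c := c)
  have h4 := hm (b := c) (c := b)
  have h5 := mul_le_mul_of_nonneg_left (pair_gap hx hab hac hbc (hγ t ht)) (hα0 t ht)
  have h6 := hδ t ht
  have m1 := min_le_left ((xdOf x κd R L Lt).E x P k a b c t)
    ((xdOf x κd R L Lt).E x P k a c b t)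
  have m2 := min_le_right ((xdOf x κd R L Lt).E x P k a b c t)
    ((xdOf x κd R L Lt).E x P k a c b t)
  nlinarith

end Pool.Agent.RZ.RCN.K
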