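import Pool.Agent.RZ.RCN.Abs

/-! The linear form of the error function, integrated by parts (MP_73ccd0_lc, route M). -/

namespace Pool.Agent.RZ.RCN.K

open Set Finset MeasureTheory Pool.Agent.RZ.RCRSHalf Pool.Agent.RZ.RCG Pool.Agent.RZ.RCG.Ct
open Pool.Agent.RZ.RCN.Ker Pool.Agent.RZ.RCRS

set_option linter.unusedSectionVars false

theorem iiC {t : ℝ} (ht : 0 ≤ t) {f : ℝ → ℝ} (h : ContinuousOn f (Icc 0 t)) :
    IntervalIntegrable f volume 0 t := by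
  rw [← uIcc_of_le ht] at h
  exact h.intervalIntegrable

variable {V : Type*} [Fintype V] [DecidableEq V]
variable {x : V → V → ℝ} {P : V → Prop} [DecidablePred P] {k : Kf} {N : ℕ}
variable {κd : ℝ → ℝ → ℝ → ℝ} {R : V → V → V → ℝ → ℝ → ℝ} {L Lt : V → V → V → V → ℝ → ℝ → ℝ}

theorem sum3_le {f : V → ℝ} {a b c : V} (h0 : ∀ d ∈ ({a, b} : Finset V)ᶜ, 0 ≤ f d) :
    ∑ d ∈ ({a, b, c} : Finset V)ᶜ, f d ≤ ∑ d ∈ ({a, b} : Finset V)ᶜ, f d := by
  refine Finset.sum_le_sum_of_subset_of_nonneg (fun z hz => ?_) fun z hz _ => h0 z hz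
  simp only [Finset.mem_compl, Finset.mem_insert, Finset.mem_singleton, not_or] at hz ⊢
  exact ⟨hz.1, hz.2.1⟩

theorem mua_nonneg (hx : Wt x P 1) (hk : k.Ok) (hκp : Kp k κd) (a b : V) {t s : ℝ}
    (ht : t ∈ Icc (0 : ℝ) 1) (hs : s ∈ Icc 0 t) : 0 ≤ mua x P k κd a b t s :=
  intervalIntegral.integral_nonneg hs.1 fun r hr => Finset.sum_nonneg fun d _ =>
    flux_nonneg hx hk hκp a b d ht ⟨hr.1, hr.2.trans hs.2⟩

end Pool.Agent.RZ.RCN.K
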