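import Pool.Agent.RZ.RCN.Glue
import Pool.Agent.RZ.RCN.InstS

/-! The assembly: bounds of the triple probabilities with an explicit error function and the graph
inequalities of the walk rates imply the exact selectability 1/2 (MP_73ccd0_lc, route M). -/

namespace Pool.Agent.RZ.RCN.K

open Set Finset MeasureTheory Pool.Agent.RZ.RCRSHalf Pool.Agent.RZ.RCG Pool.Agent.RZ.RCG.Ct
open Pool.Agent.RZ.RCN.Ker Pool.Agent.RZ.RCRS

set_option linter.unusedSectionVars false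

section defs

variable {V : Type*} [Fintype V] [DecidableEq V]
variable (fh : ℝ → ℝ → ℝ) (mb : ℝ → ℝ → ℝ → ℝ → ℝ) (E : V → V → V → ℝ → ℝ)
variable (x : V → V → ℝ) (P : V → Prop) [DecidablePred P]

/-- the minimum of the two expansions -/
noncomputable def emin (a b d : V) (t : ℝ) : ℝ := if P d then min (E a b d t) (E a d b t) else 0

/-- the amplification -/
noncomputable def amp (a b d : V) (t : ℝ) : ℝ :=
  ((1 - mb (xr x P a b) (xr x P a d) (xr x P b d) t)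
    * (1 - mb (xr x P a b) (xr x P a d) (xr x P b d) t - emin E P a b d t))⁻¹

/-- one side of the walk rate -/
noncomputable def wS (a b d : V) (t : ℝ) : ℝ :=
  xr x P a d * ((1 + t) * fh (xr x P a d) t) * (emin E P a b d t * amp mb E x P a b d t)

/-- the walk rate -/
noncomputable def wE (a b : V) (t : ℝ) : ℝ :=
  if P a ∧ P b ∧ a ≠ b then
    ∑ d ∈ ({a, b} : Finset V)ᶜ, (wS fh mb E x P a b d t + wS fh mb E x P b a d t)
  else 0

end defs

variable {V : Type*} [Fintype V] [DecidableEq V]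
variable {fh : ℝ → ℝ → ℝ} {mb : ℝ → ℝ → ℝ → ℝ → ℝ} {E : V → V → V → ℝ → ℝ}
variable {x : V → V → ℝ} {P : V → Prop} [DecidablePred P]

/-- properties of the functions of the cost bounds -/
structure Kq (T : Dt) (fh : ℝ → ℝ → ℝ) (mb : ℝ → ℝ → ℝ → ℝ → ℝ) : Prop where
  f0 : ∀ y ∈ Icc (0 : ℝ) 1, ∀ t ∈ Icc (0 : ℝ) 1, 0 ≤ fh y t
  fc : ∀ y ∈ Icc (0 : ℝ) 1, ContinuousOn (fh y) (Icc 0 1)
  m0 : ∀ x ∈ Icc (0 : ℝ) 1, ∀ y ∈ Icc (0 : ℝ) 1, ∀ z ∈ Icc (0 : ℝ) 1, ∀ t ∈ Icc (0 : ℝ) 1,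
    x + y ≤ 1 → x + z ≤ 1 → y + z ≤ 1 → 0 ≤ mb x y z t
  ms : ∀ x y z t, mb x y z t = mb y x z t
  mz : ∀ x y t, mb x y 0 t = 0
  mc : ∀ x ∈ Icc (0 : ℝ) 1, ∀ y ∈ Icc (0 : ℝ) 1, ∀ z ∈ Icc (0 : ℝ) 1,
    ContinuousOn (mb x y z) (Icc 0 1)
  mq : ∀ x ∈ Icc (0 : ℝ) 1, ∀ y ∈ Icc (0 : ℝ) 1, ∀ z ∈ Icc (0 : ℝ) 1, ∀ t ∈ Icc (0 : ℝ) 1,
    x + y ≤ 1 → x + z ≤ 1 → y + z ≤ 1 →
    y * ((1 + t) * fh y t) * (mb x y z t / (1 - mb x y z t)) ≤ y * z * T.C1' x y z t

/-- the weights at a triple -/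
theorem tri_le (hx : Wt x P 1) {a b d : V} (hab : a ≠ b) (hd : d ∈ ({a, b} : Finset V)ᶜ) :
    xr x P a b + xr x P a d ≤ 1 ∧ xr x P a b + xr x P b d ≤ 1 ∧
      xr x P a d + xr x P b d ≤ 1 := yz_le hx hab hd

theorem wE_symm (a b : V) : wE fh mb E x P a b = wE fh mb E x P b a := by
  funext t
  unfold wE
  rw [Finset.pair_comm b a]
  by_cases h : P a ∧ P b ∧ a ≠ b
  · rw [if_pos h, if_pos ⟨h.2.1, h.1, h.2.2.symm⟩]
    exact Finset.sum_congr rfl fun d _ => add_comm _ _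
  · rw [if_neg h, if_neg fun h' => h ⟨h'.2.1, h'.1, h'.2.2.symm⟩]

/-- the facts about the error function -/
structure Er (δ : ℝ) (mb : ℝ → ℝ → ℝ → ℝ → ℝ) (x : V → V → ℝ) (P : V → Prop) [DecidablePred P]
    (E : V → V → V → ℝ → ℝ) : Prop where
  d0 : 0 < δ
  d1 : δ ≤ 1
  n : ∀ a b d, P a → P b → P d → a ≠ b → a ≠ d → b ≠ d → ∀ t ∈ Icc (0 : ℝ) 1, 0 ≤ E a b d t
  l : ∀ a b d, P a → P b → P d → a ≠ b → a ≠ d → b ≠ d → ∀ t ∈ Icc (0 : ℝ) 1,
    mb (xr x P a b) (xr x P a d) (xr x P b d) t + min (E a b d t) (E a d b t) ≤ 1 - δ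
  c : ∀ a b d, P a → P b → P d → a ≠ b → a ≠ d → b ≠ d →
    AEMeasurable (E a b d) (volume.restrict (Icc 0 1))

variable {T : Dt} {sl : ℝ → ℝ → ℝ} {δ : ℝ}

theorem Er.n' (hE : Er δ mb x P E) {a b d : V} (ha : P a) (hb : P b) (hab : a ≠ b)
    (hd : d ∈ ({a, b} : Finset V)ᶜ) {t : ℝ} (ht : t ∈ Icc (0 : ℝ) 1) : 0 ≤ emin E P a b d t := by
  simp only [Finset.mem_compl, Finset.mem_insert, Finset.mem_singleton, not_or] at hd
  unfold emin
  split_ifs with hP
  · exact le_min (hE.n a b d ha hb hP hab (Ne.symm hd.1) (Ne.symm hd.2) t ht)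
      (hE.n a d b ha hP hb (Ne.symm hd.1) hab hd.2 t ht)
  · exact le_rfl

theorem Er.l' (hf : Kq T fh mb) (hE : Er δ mb x P E) {a b d : V} (ha : P a) (hb : P b)
    (hab : a ≠ b) (hd : d ∈ ({a, b} : Finset V)ᶜ) {t : ℝ} (ht : t ∈ Icc (0 : ℝ) 1) :
    mb (xr x P a b) (xr x P a d) (xr x P b d) t + emin E P a b d t ≤ 1 - δ := by
  simp only [Finset.mem_compl, Finset.mem_insert, Finset.mem_singleton, not_or] at hd
  unfold emin
  split_ifs with hP
  · exact hE.l a b d ha hb hP hab (Ne.symm hd.1) (Ne.symm hd.2) t ht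
  · have e : xr x P b d = 0 := by unfold xr; rw [if_neg fun h => hP h.2]
    rw [e, hf.mz]
    linarith [hE.d1]

theorem wS_nonneg (hx : Wt x P 1) (hf : Kq T fh mb) (hE : Er δ mb x P E) {a b d : V}
    (ha : P a) (hb : P b) (hab : a ≠ b) (hd : d ∈ ({a, b} : Finset V)ᶜ) {t : ℝ}
    (ht : t ∈ Icc (0 : ℝ) 1) : 0 ≤ wS fh mb E x P a b d t := by
  have hT : 0 ≤ 1 + t := by linarith [ht.1]
  have h3 := tri_le hx hab hd
  have m0 := hf.m0 _ (xmem1 hx a b) _ (xmem1 hx a d) _ (xmem1 hx b d) t ht h3.1 h3.2.1 h3.2.2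
  have e0 := hE.n' ha hb hab hd ht
  have l0 := Er.l' hf hE ha hb hab hd ht
  have d0 := hE.d0
  unfold wS amp
  refine mul_nonneg (mul_nonneg (xr_nonneg hx a d) (mul_nonneg hT
    (hf.f0 _ (xmem1 hx a d) t ht))) (mul_nonneg e0 (inv_nonneg.2 (mul_nonneg ?_ ?_)))
  · linarith
  · linarith

theorem wE_nonneg (hx : Wt x P 1) (hf : Kq T fh mb) (hE : Er δ mb x P E) (a b : V) {t : ℝ}
    (ht : t ∈ Icc (0 : ℝ) 1) : 0 ≤ wE fh mb E x P a b t := by
  unfold wE
  split_ifs with h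
  · obtain ⟨ha, hb, hab⟩ := h
    refine Finset.sum_nonneg fun d hd => add_nonneg (wS_nonneg hx hf hE ha hb hab hd ht)
      (wS_nonneg hx hf hE hb ha hab.symm (by rwa [Finset.pair_comm]) ht)
  · exact le_rfl

theorem emin_meas (hE : Er δ mb x P E) {a b d : V}
    (ha : P a) (hb : P b) (hab : a ≠ b) (hd : d ∈ ({a, b} : Finset V)ᶜ) :
    AEMeasurable (emin E P a b d) (volume.restrict (Icc 0 1)) := by
  simp only [Finset.mem_compl, Finset.mem_insert, Finset.mem_singleton, not_or] at hd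
  by_cases hP : P d
  · have : emin E P a b d = fun t => min (E a b d t) (E a d b t) := by
      funext t; unfold emin; rw [if_pos hP]
    rw [this]
    exact (hE.c a b d ha hb hP hab (Ne.symm hd.1) (Ne.symm hd.2)).min
      (hE.c a d b ha hP hb (Ne.symm hd.1) hab hd.2)
  · have : emin E P a b d = fun _ => 0 := by
      funext t; unfold emin; rw [if_neg hP]
    rw [this]
    exact aemeasurable_const

theorem wS_int (hx : Wt x P 1) (hf : Kq T fh mb) (hE : Er δ mb x P E) {a b d : V}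
    (ha : P a) (hb : P b) (hab : a ≠ b) (hd : d ∈ ({a, b} : Finset V)ᶜ) :
    IntegrableOn (wS fh mb E x P a b d) (Icc 0 1) := by
  have ce := emin_meas hE ha hb hab hd
  have cf : AEMeasurable (fh (xr x P a d)) (volume.restrict (Icc 0 1)) :=
    (hf.fc _ (xmem1 hx a d)).aemeasurable measurableSet_Icc
  have cm : AEMeasurable (mb (xr x P a b) (xr x P a d) (xr x P b d))
      (volume.restrict (Icc 0 1)) :=
    (hf.mc _ (xmem1 hx a b) _ (xmem1 hx a d) _ (xmem1 hx b d)).aemeasurable measurableSet_Icc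
  have h3 := tri_le hx hab hd
  obtain ⟨C, hC⟩ := isCompact_Icc.exists_bound_of_continuousOn (hf.fc _ (xmem1 hx a d))
  have hm : AEMeasurable (wS fh mb E x P a b d) (volume.restrict (Icc 0 1)) := by
    unfold wS amp
    exact ((aemeasurable_const.mul ((aemeasurable_const.add aemeasurable_id').mul cf))).mul
      (ce.mul ((aemeasurable_const.sub cm).mul ((aemeasurable_const.sub cm).sub ce)).inv)
  have d0 := hE.d0
  refine Integrable.of_bound hm.aestronglyMeasurable (1 * (2 * C) * (1 * (δ * δ)⁻¹)) ?_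
  filter_upwards [ae_restrict_mem measurableSet_Icc] with t ht
  have m0 := hf.m0 _ (xmem1 hx a b) _ (xmem1 hx a d) _ (xmem1 hx b d) t ht h3.1 h3.2.1 h3.2.2
  have e0 := hE.n' ha hb hab hd ht
  have l0 := Er.l' hf hE ha hb hab hd ht
  have w0 := wS_nonneg hx hf hE ha hb hab hd ht
  have f0 := hf.f0 _ (xmem1 hx a d) t ht
  have f1 : fh (xr x P a d) t ≤ C := by
    have := hC t ht
    rwa [Real.norm_eq_abs, abs_of_nonneg f0] at this
  have x0 := xr_nonneg (P := P) hx a d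
  have x1 := (xmem1 (P := P) hx a d).2
  rw [Real.norm_eq_abs, abs_of_nonneg w0]
  unfold wS amp
  have hT : 0 ≤ 1 + t := by linarith [ht.1]
  have q1 : xr x P a d * ((1 + t) * fh (xr x P a d) t) ≤ 1 * (2 * C) :=
    mul_le_mul x1 (mul_le_mul (by linarith [ht.2]) f1 f0 (by norm_num)) (mul_nonneg hT f0)
      (by norm_num)
  have q2 : ((1 - mb (xr x P a b) (xr x P a d) (xr x P b d) t)
      * (1 - mb (xr x P a b) (xr x P a d) (xr x P b d) t - emin E P a b d t))⁻¹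
      ≤ (δ * δ)⁻¹ := by
    refine inv_anti₀ (by positivity) (mul_le_mul ?_ ?_ d0.le ?_)
    · linarith
    · linarith
    · linarith
  have q3 : 0 ≤ ((1 - mb (xr x P a b) (xr x P a d) (xr x P b d) t)
      * (1 - mb (xr x P a b) (xr x P a d) (xr x P b d) t - emin E P a b d t))⁻¹ :=
    inv_nonneg.2 (mul_nonneg (by linarith) (by linarith))
  exact mul_le_mul q1 (mul_le_mul (by linarith) q2 q3 (by norm_num)) (mul_nonneg e0 q3)
    (by linarith)

theorem wE_int (hx : Wt x P 1) (hf : Kq T fh mb) (hE : Er δ mb x P E) (a b : V) :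
    IntegrableOn (wE fh mb E x P a b) (Icc 0 1) := by
  by_cases h : P a ∧ P b ∧ a ≠ b
  · have e : wE fh mb E x P a b = fun t => ∑ d ∈ ({a, b} : Finset V)ᶜ,
        (wS fh mb E x P a b d t + wS fh mb E x P b a d t) := by
      funext t; unfold wE; rw [if_pos h]
    rw [e]
    obtain ⟨ha, hb, hab⟩ := h
    exact integrable_finsetSum _ fun d hd => (wS_int hx hf hE ha hb hab hd).add
      (wS_int hx hf hE hb ha hab.symm (by rwa [Finset.pair_comm]))
  · have e : wE fh mb E x P a b = fun _ => 0 := by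
      funext t; unfold wE; rw [if_neg h]
    rw [e]
    exact integrableOn_zero

/-- a certified process, with slack -/
def Cp (T : Dt) (sl : ℝ → ℝ → ℝ) (x : V → V → ℝ) (P : V → Prop) [DecidablePred P]
    (w : V → V → ℝ → ℝ) (h : ℝ → V → V → ℝ) (H : V → V → ℝ → ℝ) (t : ℝ) : Prop :=
  Kn x P (dn x P (psi' T.cf x P (pfOf T.ek.kd x P w))) T.cf.ab h H t ∧
    Sg x P (dn x P (psi' T.cf x P (pfOf T.ek.kd x P w))) sl h H t

/-- the bound of the triple probabilities -/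
def HM (T : Dt) (sl : ℝ → ℝ → ℝ) (mb : ℝ → ℝ → ℝ → ℝ → ℝ) (x : V → V → ℝ) (P : V → Prop)
    [DecidablePred P] (w : V → V → ℝ → ℝ) (E : V → V → V → ℝ → ℝ) : Prop :=
  ∀ (h : ℝ → V → V → ℝ) (H : V → V → ℝ → ℝ) (t : ℝ), Cp T sl x P w h H t →
    ∀ a b d, P a → P b → P d → a ≠ b → a ≠ d → b ≠ d → x a b ≠ 0 → x a d ≠ 0 →
      ppp h a b d t * bb h ∅ a t * (1 - mb (xr x P a b) (xr x P a d) (xr x P b d) t - E a b d t)
        ≤ pp h a b t * pp h a d t

/-- **from the bounds of the triple probabilities to the cost bound** -/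
theorem cost_of_E (hx : Wt x P 1) (hf : Kq T fh mb) (hE : Er δ mb x P E)
    (hfh : ∀ a b, P a → P b → x a b ≠ 0 → ∀ t ∈ Icc (0 : ℝ) 1,
      dn x P (psi' T.cf x P (pfOf T.ek.kd x P (wE fh mb E x P))) a b t ≤ fh (xr x P a b) t)
    (hM : HM T sl mb x P (wE fh mb E x P) E) :
    CostS T.cf x P (pfOf T.ek.kd x P (wE fh mb E x P)) sl := by
  intro h H t hK hSg u v hu hv huv hxuv
  have ht := hK.ht
  have hT : 0 ≤ 1 + t := by linarith [ht.1]
  have hxe : ∀ {a b : V}, P a → P b → xr x P a b = x a b := fun ha hb => by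
    unfold xr; rw [if_pos ⟨ha, hb⟩]
  have hne : ∀ {a b : V}, x a b ≠ 0 → a ≠ b := fun hab e => hab (by rw [e]; exact hx.diag _)
  have key := hK.cost_le hx hu hv hxuv (fh := fh) (mb := mb) (ee := emin E P)
    (fun y hy => hf.f0 y hy t ht)
    (fun a b ha hb hab => by
      have := hfh a b ha hb hab t ht
      rwa [hxe ha hb] at this)
    (fun a b ha hb hab d hd => by
      have hab' := hne hab
      have h3 := tri_le hx hab' hd
      exact ⟨hf.m0 _ (xmem1 hx a b) _ (xmem1 hx a d) _ (xmem1 hx b d) t ht h3.1 h3.2.1 h3.2.2,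
        hE.n' ha hb hab' hd ht, by
          have := Er.l' hf hE ha hb hab' hd ht
          have := hE.d0
          linarith⟩)
    (fun a b ha hb hab d hd hPd had => by
      have hab' := hne hab
      simp only [Finset.mem_compl, Finset.mem_insert, Finset.mem_singleton, not_or] at hd
      have k1 := hM h H t ⟨hK, hSg⟩ a b d ha hb hPd hab' (Ne.symm hd.1) (Ne.symm hd.2) hab had
      have k2 := hM h H t ⟨hK, hSg⟩ a d b ha hPd hb (Ne.symm hd.1) hab' hd.2 had hab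
      have e1 : ppp h a d b t = ppp h a b d t := by
        unfold ppp
        congr 1
        rw [Finset.pair_comm d b]
      rw [e1, mul_comm (pp h a d t), hf.ms, xr_symm hx d b] at k2
      unfold emin
      rw [if_pos hPd]
      rcases le_total (E a b d t) (E a d b t) with hle | hle
      · rw [min_eq_left hle]; exact k1
      · rw [min_eq_right hle]; exact k2)
  refine key.trans ?_
  refine add_le_add (Finset.sum_le_sum fun d hd => ?_) (le_of_eq ?_)
  · have h3 := tri_le hx huv hd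
    have hd' : d ∈ ({v, u} : Finset V)ᶜ := by rwa [Finset.pair_comm]
    have h4 := tri_le hx huv.symm hd'
    have i1 := hf.mq _ (xmem1 hx u v) _ (xmem1 hx u d) _ (xmem1 hx v d) t ht h3.1 h3.2.1 h3.2.2
    have i2 := hf.mq _ (xmem1 hx u v) _ (xmem1 hx v d) _ (xmem1 hx u d) t ht h3.2.1 h3.1
      (by linarith [h3.2.2])
    show _ ≤ xr x P u d * xr x P v d * (T.C1' (xr x P u v) (xr x P u d) (xr x P v d) t
      + T.C1' (xr x P u v) (xr x P v d) (xr x P u d) t)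
    have e3 : xr x P u d * xr x P v d * (T.C1' (xr x P u v) (xr x P u d) (xr x P v d) t
      + T.C1' (xr x P u v) (xr x P v d) (xr x P u d) t)
      = xr x P u d * xr x P v d * T.C1' (xr x P u v) (xr x P u d) (xr x P v d) t
      + xr x P v d * xr x P u d * T.C1' (xr x P u v) (xr x P v d) (xr x P u d) t := by ring
    rw [e3]
    exact add_le_add i1 i2
  · show _ = wE fh mb E x P u v t
    unfold wE
    rw [if_pos ⟨hu, hv, huv⟩]
    refine Finset.sum_congr rfl fun d _ => ?_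
    unfold wS amp
    rw [xr_symm hx v u, div_eq_mul_inv, div_eq_mul_inv]

/-- the bounds of the walk rates -/
theorem wr_of_E (hx : Wt x P 1) (hf : Kq T fh mb) (hE : Er δ mb x P E)
    (hT : ∀ a, P a → ∀ t ∈ Icc (0 : ℝ) 1,
      ∑ b, xr x P a b * wE fh mb E x P a b t 
        ≤ T.kt t * (∑ b, T.sT (xr x P a b) - T.k1 * Qs x P a))
    (hP : ∀ a b, P a → P b → a ≠ b → ∀ t ∈ Icc (0 : ℝ) 1,
      wE fh mb E x P a b t ≤ T.kp t * ∑ d ∈ ({a, b} : Finset V)ᶜ,
        (T.ka (xr x P a d) / 2 + T.ka (xr x P b d) / 2)) :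
    Wr T.ek.kd x P (wE fh mb E x P) where
  s a b := wE_symm a b
  i := wE_int hx hf hE
  n a b _ ht := wE_nonneg hx hf hE a b ht
  T a ha t ht := hT a ha t ht
  P a b ha hb hab t ht := hP a b ha hb hab t ht

variable {V : Type} [Fintype V] [DecidableEq V] {G : SimpleGraph V} [Fintype G.edgeSet]
  [DecidableEq G.edgeSet] {x : G.edgeSet → ℝ} [Pool.Agent.RZ.RCG.CX x] {E : V ⊕ V → V ⊕ V → V ⊕ V → ℝ → ℝ}

/-- **the assembly** -/
theorem half_of_E (hx : IsFractionalMatching G x) (h : T.Ok) (hsl : Sl T.cf T.cg sl)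
    (hf : Kq T fh mb)
    (hE : Er δ mb (xe x) (P0 V) E)
    (hfh : ∀ a b, P0 V a → P0 V b → xe x a b ≠ 0 → ∀ t ∈ Icc (0 : ℝ) 1,
      dn (xe x) (P0 V) (psi' T.cf (xe x) (P0 V) (pfOf T.ek.kd (xe x) (P0 V)
        (wE fh mb E (xe x) (P0 V)))) a b t ≤ fh (xr (xe x) (P0 V) a b) t)
    (hM : HM T sl mb (xe x) (P0 V) (wE fh mb E (xe x) (P0 V)) E)
    (hT : ∀ a, P0 V a → ∀ t ∈ Icc (0 : ℝ) 1,
      ∑ b, xr (xe x) (P0 V) a b * wE fh mb E (xe x) (P0 V) a b t
        ≤ T.kt t * (∑ b, T.sT (xr (xe x) (P0 V) a b) - T.k1 * Qs (xe x) (P0 V) a))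
    (hP : ∀ a b, P0 V a → P0 V b → a ≠ b → ∀ t ∈ Icc (0 : ℝ) 1,
      wE fh mb E (xe x) (P0 V) a b t ≤ T.kp t * ∑ d ∈ ({a, b} : Finset (V ⊕ V))ᶜ,
        (T.ka (xr (xe x) (P0 V) a d) / 2 + T.ka (xr (xe x) (P0 V) b d) / 2)) :
    ∃ S : Scheme G, ∀ e : G.edgeSet, S.selProb x e = x e / 2 :=
  have hw := wt_xe hx zero_le_one le_rfl fun e => (hx.1 e).2
  half_of_dtS hx h hsl (wr_of_E hw hf hE hT hP) (cost_of_E hw hf hE hfh hM)

end Pool.Agent.RZ.RCN.K
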