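import Pool.Agent.RZ.RCG.CtG
import Pool.Agent.RZ.RCG.FinB
import Pool.Agent.RZ.RCN.Boot2
import Pool.Agent.RZ.RCN.Free
import Pool.Agent.RZ.RCN.Ident

/-! From strict acceptance for the real pairs to the scheme (MP_73ccd0_lc, route M). -/

namespace Pool.Agent.RZ.RCN

open MeasureTheory Set Finset Pool.Agent.RZ.RCRS Pool.Agent.RZ.RCRSHalf Pool.Agent.RZ.RCG Pool.Agent.RZ.RCG.Ct

set_option linter.unusedSectionVars false

/-- a common bound for finitely many continuous functions -/
theorem exists_bound {ι : Type*} [Fintype ι] {f : ι → ℝ → ℝ}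
    (hf : ∀ i, ContinuousOn (f i) (Icc 0 1)) :
    ∃ C : ℝ, 0 ≤ C ∧ ∀ i, ∀ t ∈ Icc (0 : ℝ) 1, f i t ≤ C := by
  have h1 : ∀ i, ∃ C : ℝ, ∀ t ∈ Icc (0 : ℝ) 1, |f i t| ≤ C := fun i => by
    obtain ⟨C, hC⟩ := isCompact_Icc.exists_bound_of_continuousOn (hf i)
    exact ⟨C, fun t ht => by simpa using hC t ht⟩
  choose C hC using h1
  have hC0 : ∀ i, 0 ≤ C i := fun i => (abs_nonneg _).trans (hC i 0 ⟨le_rfl, zero_le_one⟩)
  refine ⟨∑ i, C i, Finset.sum_nonneg fun i _ => hC0 i, fun i t ht => ?_⟩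
  exact ((le_abs_self _).trans (hC i t ht)).trans
    (Finset.single_le_sum (f := C) (fun j _ => hC0 j) (Finset.mem_univ i))

/-- a common positive lower bound for finitely many positive continuous functions -/
theorem exists_lower {ι : Type*} [Fintype ι] {f : ι → ℝ → ℝ}
    (hf : ∀ i, ContinuousOn (f i) (Icc 0 1)) (hp : ∀ i, ∀ t ∈ Icc (0 : ℝ) 1, 0 < f i t) :
    ∃ c : ℝ, 0 < c ∧ ∀ i, ∀ t ∈ Icc (0 : ℝ) 1, c ≤ f i t := by
  obtain ⟨C, hC0, hC⟩ := exists_bound (f := fun i t => (f i t)⁻¹) (fun i =>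
    (hf i).inv₀ fun t ht => (hp i t ht).ne')
  refine ⟨(C + 1)⁻¹, inv_pos.2 (by linarith), fun i t ht => ?_⟩
  have h1 := hC i t ht
  have h2 := hp i t ht
  rw [← inv_inv (f i t)]
  exact inv_anti₀ (inv_pos.2 h2) (by linarith)

section

variable {V : Type*} [Fintype V] [DecidableEq V]
variable {x : V → V → ℝ} {P : V → Prop} [DecidablePred P]
variable {h : ℝ → V → V → ℝ} {H : V → V → ℝ → ℝ}
variable {ψ ψ' : V → V → ℝ → ℝ} {φ : V → V → ℝ → ℝ} {ab : ℝ → ℝ → ℝ} {t : ℝ}

/-- an isolated pair (weight one): the pair probability is the free probability of the vertex -/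
theorem pp_iso (hK : Kn x P φ ab h H t) (hx : Wt x P 1) {u v : V} (huv : u ≠ v)
    (h1 : x u v = 1) {s : ℝ} (hs : s ∈ Icc 0 t) : (1 + s)⁻¹ ≤ pp h u v s := by
  have hh := hK.hh
  -- the hazards to other vertices vanish
  have hzero : ∀ {a b : V}, a ≠ b → x a b = 1 → ∀ c, c ≠ b → x a c = 0 := by
    intro a b hab hab1 c hc
    have h2 := hx.row a
    have h3 : x a b + x a c ≤ ∑ d, x a d := by
      rw [← Finset.sum_pair (f := fun d => x a d) (Ne.symm hc)]
      exact Finset.sum_le_sum_of_subset_of_nonneg (Finset.subset_univ _) fun d _ _ =>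
        hx.nonneg a d
    have h4 := hx.nonneg a c
    linarith
  have key := nonneg_of_forward (a := 0) (s := t)
    (U := fun s => pp h u v s - bb h ∅ u s)
    (U' := fun s => (-(h s u v * pp h u v s
      + ∑ c ∈ ({u, v} : Finset V)ᶜ, (h s u c + h s v c) * ppp h u v c s))
        - (-∑ c, h s u c * pp h u c s))
    (fun r hr => by
      have hr1 : r ∈ Icc (0 : ℝ) 1 := ⟨hr.1, hr.2.trans hK.ht.2⟩
      exact (pp_deriv hh huv hr1).sub (bb_deriv hh u hr1))
    (by
      have e : pp h u v 0 = 1 := by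
        unfold pp
        rw [(hh.lw ∅).pr_start, if_pos]
        rw [Finset.compl_empty]; exact Finset.subset_univ _
      simp only [e, bb_start hh (Finset.notMem_empty u), sub_self, le_refl])
    (fun r hr _ => by
      have hr1 : r ∈ Icc (0 : ℝ) 1 := ⟨hr.1, hr.2.trans hK.ht.2⟩
      have e1 : ∑ c ∈ ({u, v} : Finset V)ᶜ, (h r u c + h r v c) * ppp h u v c r = 0 := by
        refine Finset.sum_eq_zero fun c hc => ?_
        simp only [Finset.mem_compl, Finset.mem_insert, Finset.mem_singleton, not_or] at hc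
        have z1 := hzero huv h1 c hc.2
        have z2 := hzero huv.symm (by rw [hx.symm v u]; exact h1) c hc.1
        rw [hK.hz r hr1 _ _ z1, hK.hz r hr1 _ _ z2]
        ring
      have e2 : ∑ c, h r u c * pp h u c r = h r u v * pp h u v r := by
        refine Finset.sum_eq_single v (fun c _ hc => ?_) (fun h => absurd (Finset.mem_univ _) h)
        rw [hK.hz r hr1 _ _ (hzero huv h1 c hc), zero_mul]
      rw [e1, e2]
      linarith)
    s hs
  have := hK.lo s hs u
  linarith

end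

section final

variable {V : Type} [Fintype V] [DecidableEq V] {G : SimpleGraph V} [Fintype G.edgeSet]
  [DecidableEq G.edgeSet] {x : G.edgeSet → ℝ} [Pool.Agent.RZ.RCG.CX x] {ψ ψ' : V ⊕ V → V ⊕ V → ℝ → ℝ} {ab : ℝ → ℝ → ℝ}

/-- The reduction of the theorem to strict acceptance on the real pairs. -/
theorem half_of_strict (hx : IsFractionalMatching G x) (hψ : Cor (xe x) (P0 V) ψ ψ')
    (hlo : ∀ s ∈ Icc (0 : ℝ) 1, ∀ a, P0 V a → 0 ≤ ∑ b, xr (xe x) (P0 V) a b * ψ a b s)
    (hup : ∀ s ∈ Icc (0 : ℝ) 1, ∀ a b, P0 V a → P0 V b → a ≠ b →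
      (1 + s)⁻¹ + ∑ c, xr (xe x) (P0 V) a c * ψ a c s ≤ ab (xe x a b) s)
    (hmain : ∀ h H t, Kn (xe x) (P0 V) (dn (xe x) (P0 V) ψ') ab h H t → ∀ u v, P0 V u → P0 V v →
      u ≠ v → xe x u v ≠ 0 → dn (xe x) (P0 V) ψ' u v t < Real.exp (H u v t) * pp h u v t) :
    ∃ S : Scheme G, ∀ e : G.edgeSet, S.selProb x e = x e / 2 := by
  have hd1 : ∀ e, x e ≤ 1 := fun e => (hx.1 e).2
  have hw : Wt (xe x) (P0 V) 1 := wt_xe hx zero_le_one le_rfl hd1
  obtain ⟨C0, hC0, hC⟩ := exists_bound (ι := (V ⊕ V) × (V ⊕ V))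
    (f := fun p => dn (xe x) (P0 V) ψ' p.1 p.2) (fun p => dn_cont hψ _ _)
  obtain ⟨c1, hc1, hc⟩ := exists_lower (ι := (V ⊕ V) × (V ⊕ V))
    (f := fun p => dn (xe x) (P0 V) ψ' p.1 p.2) (fun p => dn_cont hψ _ _)
    (fun p t ht => dn_pos hψ p.1 p.2 ht)
  set g : (V ⊕ V) × (V ⊕ V) → ℝ := fun p =>
    if xe x p.1 p.2 < 1 then (1 - xe x p.1 p.2)⁻¹ else 0 with hg
  have hg0 : ∀ p, 0 ≤ g p := fun p => by
    simp only [hg]
    split_ifs with h
    · exact inv_nonneg.2 (by linarith)
    · exact le_rfl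
  set M : ℝ := 2 * C0 + ∑ p, g p + 4 with hM
  have hsg : 0 ≤ ∑ p, g p := Finset.sum_nonneg fun p _ => hg0 p
  have hgM : ∀ a b, g (a, b) ≤ M := fun a b => by
    have := Finset.single_le_sum (f := g) (fun p _ => hg0 p) (Finset.mem_univ (a, b))
    linarith
  have hM0 : 4 ≤ M := by linarith
  have hMC : 2 * C0 + 4 ≤ M := by linarith
  set δ : ℝ := min 1 (c1 / M) with hδ
  have hδ0 : 0 < δ := lt_min one_pos (div_pos hc1 (by linarith))
  have hδ1 : δ * M ≤ c1 := by
    have h1 : δ ≤ c1 / M := min_le_right _ _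
    have h2 := mul_le_mul_of_nonneg_right h1 (show 0 ≤ M by linarith)
    rwa [div_mul_cancel₀ _ (show M ≠ 0 by linarith)] at h2
  have hD : Data (xe x) (dn (xe x) (P0 V) ψ') (fun a b _ => M * xe x a b) δ := by
    refine ⟨xe_symm x, xe_nonneg x hx, xe_diag x, dn_symm hw hψ,
      fun a b t ht => (dn_pos hψ a b ht).le,
      dn_cont hψ, fun a b t => ?_, fun a b t _ => ?_, fun a b => continuousOn_const, hδ0,
      min_le_left _ _, fun a b _ t ht => ?_, fun a b hab t _ => ?_, fun a b hab => ?_⟩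
    · rw [xe_symm x a b]
    · exact mul_nonneg (by linarith) (xe_nonneg x hx a b)
    · have h1 := hc (a, b) t ht
      have h2 : δ * (M * xe x a b) = xe x a b * (δ * M) := by ring
      rw [h2]
      exact mul_le_mul_of_nonneg_left (hδ1.trans h1) (xe_nonneg x hx a b)
    · have : 0 < xe x a b := lt_of_le_of_ne (xe_nonneg x hx a b) (Ne.symm hab)
      have : 0 < M := by linarith
      positivity
    · have h1 := hC (a, b) 0 ⟨le_rfl, zero_le_one⟩
      have h2 : dn (xe x) (P0 V) ψ' a b 0 ≤ M := by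
        have : dn (xe x) (P0 V) ψ' a b 0 ≤ C0 := h1
        linarith
      calc _ ≤ xe x a b * M := mul_le_mul_of_nonneg_left h2 (xe_nonneg x hx a b)
        _ = _ := mul_comm _ _
  have hCert : Certified2 (xe x) (dn (xe x) (P0 V) ψ') (fun a b _ => M * xe x a b)
      (fun a b => P0 V a ∧ P0 V b) := by
    intro h H hh hcap hz t ht hfl hacR
    have hH0 : ∀ a b, ∀ s, 0 ≤ s → 0 ≤ H a b s := fun a b s hs => hh.Hnn a b hs
    -- free probabilities of the real vertices
    have hlow : ∀ s ∈ Icc 0 t, ∀ v : V, (1 + s)⁻¹ ≤ bb h ∅ (Sum.inl v) s := by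
      intro s hs v
      rw [free_eq hw hψ hh ht hfl (P0_inl v) hs]
      have := hlo s ⟨hs.1, hs.2.trans ht.2⟩ (Sum.inl v) (P0_inl v)
      linarith
    -- pendant pairs
    have hpp : ∀ s ∈ Icc 0 t, ∀ v : V, (1 + s)⁻¹ ≤ pp h (Sum.inl v) (Sum.inr v) s := by
      intro s hs v
      rw [pp_pend hh hz v ⟨hs.1, hs.2.trans ht.2⟩]
      exact hlow s hs v
    have hq2 : ∀ s : ℝ, 0 ≤ s → ((1 + s) ^ 2)⁻¹ ≤ (1 + s)⁻¹ := by
      intro s hs
      have hT : 0 < 1 + s := by linarith
      have hT1 : (1 + s)⁻¹ ≤ 1 := inv_le_one_of_one_le₀ (by linarith)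
      have e1 : ((1 + s) ^ 2)⁻¹ = (1 + s)⁻¹ * (1 + s)⁻¹ := by rw [pow_two, mul_inv]
      rw [e1]
      exact mul_le_of_le_one_left (inv_pos.2 hT).le hT1
    have hpend : ∀ s ∈ Icc 0 t, ∀ a b, ¬(P0 V a ∧ P0 V b) → xe x a b ≠ 0 →
        (1 + s)⁻¹ ≤ pp h a b s := by
      intro s hs a b hR hab
      rcases a with a | a
      · rcases b with b | b
        · exact absurd ⟨P0_inl a, P0_inl b⟩ hR
        · have := xe_pend hab
          subst this
          exact hpp s hs b
      · rcases b with b | b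
        · have hab2 : xe x (Sum.inl b) (Sum.inr a) ≠ 0 := by rwa [xe_symm]
          have := xe_pend hab2
          subst this
          have e1 : pp h (Sum.inr a) (Sum.inl a) s = pp h (Sum.inl a) (Sum.inr a) s := by
            unfold pp; rw [Finset.pair_comm]
          rw [e1]
          exact hpp s hs a
        · exact absurd rfl hab
    have hac : ∀ s ∈ Icc 0 t, ∀ a b, xe x a b ≠ 0 →
        dn (xe x) (P0 V) ψ' a b s ≤ Real.exp (H a b s) * pp h a b s := by
      intro s hs a b hab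
      by_cases hR : P0 V a ∧ P0 V b
      · exact hacR s hs a b hR hab
      · rw [dn_pend hR]
        have h1 := hpend s hs a b hR hab
        have h2 := hq2 s hs.1
        have h3 : 1 ≤ Real.exp (H a b s) := Real.one_le_exp (hH0 a b s hs.1)
        have h4 : 0 ≤ pp h a b s := pp_nonneg hh a b ⟨hs.1, hs.2.trans ht.2⟩
        have h5 := mul_le_mul_of_nonneg_right h3 h4
        linarith
    have hK : Kn (xe x) (P0 V) (dn (xe x) (P0 V) ψ') ab h H t :=
      kn_of hw hψ hlo hup hh hz ht hfl hac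
    intro a b hab
    have htt : t ∈ Icc 0 t := ⟨ht.1, le_rfl⟩
    have hab' : a ≠ b := fun e => hab (by rw [e]; exact xe_diag x b)
    have hx0 : 0 < xe x a b := lt_of_le_of_ne (xe_nonneg x hx a b) (Ne.symm hab)
    refine ⟨fun hR => hmain h H t hK a b hR.1 hR.2 hab' hab, hac t htt a b hab, ?_⟩
    have hCt : dn (xe x) (P0 V) ψ' a b t ≤ C0 := hC (a, b) t ht
    -- `φ < M pp`
    have hlt : dn (xe x) (P0 V) ψ' a b t < M * pp h a b t := by
      have hiso : (1 + t)⁻¹ ≤ pp h a b t → dn (xe x) (P0 V) ψ' a b t < M * pp h a b t := by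
        intro h1
        have h2 : (1 / 2 : ℝ) ≤ (1 + t)⁻¹ := by
          rw [← one_div, div_le_div_iff₀ (by norm_num) (by linarith [ht.1])]
          linarith [ht.2]
        have h3 : M * (1 / 2) ≤ M * pp h a b t :=
          mul_le_mul_of_nonneg_left (h2.trans h1) (by linarith)
        linarith
      by_cases hR : P0 V a ∧ P0 V b
      · by_cases h1 : xe x a b < 1
        · have h2 := hmain h H t hK a b hR.1 hR.2 hab' hab
          have h3 := hK.expH hw a b htt
          have h4 : 1 - xe x a b ≤ Real.exp (-H a b t) := by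
            have : xe x a b * t ≤ xe x a b * 1 := mul_le_mul_of_nonneg_left ht.2 hx0.le
            linarith
          have h5 : Real.exp (H a b t) ≤ (1 - xe x a b)⁻¹ := by
            rw [Real.exp_neg] at h4
            have := inv_anti₀ (by linarith : (0 : ℝ) < 1 - xe x a b) h4
            rwa [inv_inv] at this
          have h6 : (1 - xe x a b)⁻¹ ≤ M := by
            have := hgM a b
            simp only [hg, if_pos h1] at this
            exact this
          have h7 : 0 ≤ pp h a b t := pp_nonneg hh a b ht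
          have h8 := mul_le_mul_of_nonneg_right (h5.trans h6) h7
          linarith
        · have h2 : xe x a b = 1 := by
            have := (hw.row a)
            have h3 : xe x a b ≤ ∑ c, xe x a c :=
              Finset.single_le_sum (f := fun c => xe x a c) (fun c _ => xe_nonneg x hx a c)
                (Finset.mem_univ b)
            push Not at h1
            linarith
          exact hiso (pp_iso hK hw hab' h2 htt)
      · exact hiso (hpend t htt a b hR hab)
    have := mul_lt_mul_of_pos_left hlt hx0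
    calc _ < xe x a b * (M * pp h a b t) := this
      _ = _ := by ring
  refine exact_half_of_cert hx hD
    (certified_of_certified2 (dn_cont hψ) (fun a b _ => dn_zero hψ a b) hCert) (fun e => ?_)
  -- the integral
  have hT : ∀ s : ℝ, 0 ≤ s → (1 + s) ≠ 0 := fun s hs => by linarith
  have d1 : ∀ t ∈ Set.uIcc (0 : ℝ) 1, HasDerivAt (fun s : ℝ => -(1 + s)⁻¹)
      (((1 + t) ^ 2)⁻¹) t := by
    intro t ht
    rw [Set.uIcc_of_le zero_le_one] at ht
    have := (((hasDerivAt_id t).const_add 1).inv (hT t ht.1)).neg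
    refine this.congr_deriv ?_
    simp only [id]; rw [neg_div, one_div, neg_neg]
  rw [integral_Ico_eq_integral_Ioc, ← intervalIntegral.integral_of_le zero_le_one]
  by_cases he : xe x (Sum.inl (fe e)) (Sum.inl (se e)) = 0
  · have e1 : ∀ t, dn (xe x) (P0 V) ψ' (Sum.inl (fe e)) (Sum.inl (se e)) t
        = ((1 + t) ^ 2)⁻¹ := by
      intro t; unfold dn; rw [if_neg (fun hh => hh.2 he)]
    simp only [e1]
    rw [intervalIntegral.integral_eq_sub_of_hasDerivAt d1 (by
      refine ContinuousOn.intervalIntegrable ?_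
      rw [Set.uIcc_of_le zero_le_one]; exact cont_q2)]
    norm_num
  · have e1 : ∀ t, dn (xe x) (P0 V) ψ' (Sum.inl (fe e)) (Sum.inl (se e)) t
        = ((1 + t) ^ 2)⁻¹ - ψ' (Sum.inl (fe e)) (Sum.inl (se e)) t := fun t =>
      dn_real (P0_inl _) (P0_inl _) he t
    simp only [e1]
    rw [intervalIntegral.integral_eq_sub_of_hasDerivAt
      (f := fun s => -(1 + s)⁻¹ - ψ (Sum.inl (fe e)) (Sum.inl (se e)) s)
      (fun t ht => (d1 t ht).sub (hψ.d _ _ (P0_inl _) (P0_inl _) t (by
        rwa [Set.uIcc_of_le zero_le_one] at ht))) (by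
      refine ContinuousOn.intervalIntegrable ?_
      rw [Set.uIcc_of_le zero_le_one]; exact cont_q2.sub (hψ.c _ _))]
    rw [hψ.z0 _ _ (P0_inl _) (P0_inl _), hψ.z1 _ _ (P0_inl _) (P0_inl _)]
    norm_num

end final

end Pool.Agent.RZ.RCN
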