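import Pool.Agent.RZ.RCN.KleC
import Pool.Agent.RZ.RCN.Mex
import Pool.Agent.RZ.RCN.Par

/-! From the closures to the bound of the triple probabilities with an explicit error function
(MP_73ccd0_lc, route M). -/

namespace Pool.Agent.RZ.RCN.K

open Set Finset MeasureTheory Pool.Agent.RZ.RCRSHalf Pool.Agent.RZ.RCG Pool.Agent.RZ.RCG.Ct
open Pool.Agent.RZ.RCN.Ker Pool.Agent.RZ.RCRS Pool.Agent.RZ.RCM

set_option linter.unusedSectionVars false

section defs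

variable {V : Type*} [Fintype V] [DecidableEq V]

/-- bound of the density of a pair (at the vertex `b` of `P`) -/
noncomputable def fq (x : V → V → ℝ) (P : V → Prop) [DecidablePred P] (fh : ℝ → ℝ → ℝ)
    (b d : V) (s : ℝ) : ℝ := if P d then fh (x b d) s else qq s

/-- the functions of the error: `B a b d t s` density factor, `nu`, `nut` errors of the closures,
`la` hazard error, `dl` error of the density factor -/
structure Xd (V : Type*) where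
  B : V → V → V → ℝ → ℝ → ℝ
  nu : V → V → V → V → ℝ → ℝ → ℝ
  nut : V → V → V → V → ℝ → ℝ → ℝ
  la : V → V → V → ℝ → ℝ → ℝ
  dl : V → V → V → ℝ → ℝ

variable (x : V → V → ℝ) (P : V → Prop) [DecidablePred P] (k : Kf) (X : Xd V)

/-- the constant density factor -/
noncomputable def Xd.Bc (a b c : V) (t : ℝ) : ℝ := k.Pe (x a b + x a c) t * (1 + X.dl a b c t)

/-- the rate of the error -/
noncomputable def Xd.rate (a b c : V) (t s : ℝ) : ℝ :=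
  x b c * fq x P k.fh b c s * (X.B a b c t s - X.Bc x k a b c t)
    + er x a b c t (fun d => fq x P k.fh b d) (fun d => X.nu a b c d t) (X.la a b c t)
      (fun d => X.B a b d t) s

/-- the error function -/
noncomputable def Xd.E (a b c : V) (t : ℝ) : ℝ :=
  k.mb (xr x P a b) (xr x P a c) (xr x P b c) t * X.dl a b c t
    + ∫ s in (0 : ℝ)..t, X.rate x P k a b c t s

end defs

variable {V : Type*} [Fintype V] [DecidableEq V]
variable {x : V → V → ℝ} {P : V → Prop} [DecidablePred P] {k : Kf} {X : Xd V} {N : ℕ}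

/-- properties of the functions of the error -/
structure Xd.Ok (N : ℕ) (X : Xd V) (x : V → V → ℝ) (k : Kf) : Prop where
  N0 : 0 < N
  B0 : ∀ a b d, a ≠ b → a ≠ d → b ≠ d → ∀ t s, 0 ≤ s → s ≤ t → t ≤ 1 → 0 ≤ X.B a b d t s
  Bc : ∀ a b c, a ≠ b → a ≠ c → b ≠ c → ∀ t s, 0 ≤ s → s ≤ t → t ≤ 1 →
    X.Bc x k a b c t ≤ X.B a b c t s
  nu0 : ∀ a b c d t s, 0 ≤ s → s ≤ t → t ≤ 1 → 0 ≤ X.nu a b c d t s
  nu1 : ∀ a b c d t s, 0 ≤ s → s ≤ t → t ≤ 1 → X.nu a b c d t s ≤ 1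
  la0 : ∀ a b c t s, 0 ≤ s → s ≤ t → t ≤ 1 → 0 ≤ X.la a b c t s
  dl0 : ∀ a b c t, 0 ≤ t → t ≤ 1 → 0 ≤ X.dl a b c t
  cB : ∀ a b d, CN N (X.B a b d)
  cnu : ∀ a b c d, CN N (X.nu a b c d)
  cla : ∀ a b c, CN N (X.la a b c)
  cdl : ∀ a b c, CP N (X.dl a b c)

/-- the facts about the certified process -/
structure Xd.Pr (X : Xd V) (x : V → V → ℝ) (h : ℝ → V → V → ℝ) (t : ℝ) (a b c : V) : Prop where
  clo : ∀ d ∈ ({a, b, c} : Finset V)ᶜ, ∀ s ∈ Icc 0 t, ∃ K,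
      CloD h t s {a} {a, b} c d K ∧ (1 - X.nu a b c d t s) * K ≤ 1
  clot : ∀ d ∈ ({a, b, c} : Finset V)ᶜ, ∀ s ∈ Icc 0 t, ∃ K,
      CloDt h t s {a} {a, b} c d K ∧ (1 - X.nut a b c d t s) * K ≤ 1
  dens : ∀ d ∈ ({a, b} : Finset V)ᶜ, x b d ≠ 0 → ∀ s ∈ Icc 0 t, Dens h t s a b d (X.B a b d t s)
  hl : ∀ Ra : Finset V → ℝ → ℝ, Wd h (fun r v => h r a v) t Ra → (∀ F, Ra F t = 1) →
      ∀ s ∈ Icc 0 t, ∑ d ∈ ({a, b, c} : Finset V)ᶜ,
        h s b d * (X.nut a b c d t s * eYt h a b d Ra s) ≤ X.la a b c t s * eZ h a b Ra s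

theorem fq_cont (hfc : ∀ y ∈ Icc (0 : ℝ) 1, ContinuousOn (k.fh y) (Icc 0 1)) (hx : Wt x P 1)
    {b : V} (hb : P b) (d : V) : ContinuousOn (fq x P k.fh b d) (Icc 0 1) := by
  unfold fq
  split_ifs with hd
  · have hxe : xr x P b d = x b d := by unfold xr; rw [if_pos ⟨hb, hd⟩]
    rw [← hxe]
    exact hfc _ (xmem1 hx b d)
  · exact qq_cont

theorem fq_nonneg (hk : k.Ok) (hx : Wt x P 1) {b : V} (hb : P b) (d : V) {s : ℝ}
    (hs : s ∈ Icc (0 : ℝ) 1) : 0 ≤ fq x P k.fh b d s := by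
  unfold fq
  split_ifs with hd
  · have hxe : xr x P b d = x b d := by unfold xr; rw [if_pos ⟨hb, hd⟩]
    rw [← hxe]
    exact hk.fh_nonneg (xmem1 hx b d) hs
  · exact (qq_pos hs).le

theorem CN.exp {F : ℝ → ℝ → ℝ} (hF : CN N F) : CN N fun t s => Real.exp (F t s) := fun i hi => by
  obtain ⟨f, cf, ef⟩ := hF i hi
  exact ⟨fun t s => Real.exp (f t s), Real.continuous_exp.comp_continuousOn cf,
    fun t s h1 h2 h3 h4 => by beta_reduce; rw [ef t s h1 h2 h3 h4]⟩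

theorem CN.neg {F : ℝ → ℝ → ℝ} (hF : CN N F) : CN N fun t s => -F t s := fun i hi => by
  obtain ⟨f, cf, ef⟩ := hF i hi
  exact ⟨fun t s => -f t s, cf.neg, fun t s h1 h2 h3 h4 => by beta_reduce; rw [ef t s h1 h2 h3 h4]⟩

theorem rate_cont (hfc : ∀ y ∈ Icc (0 : ℝ) 1, ContinuousOn (k.fh y) (Icc 0 1))
    (hPc : ∀ w ∈ Icc (0 : ℝ) 1, ContinuousOn (k.Pe w) (Icc 0 1)) (hx : Wt x P 1)
    (hX : Xd.Ok N X x k) {a b c : V} (ha : P a) (hb : P b) (hbc : b ≠ c)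
    (hc : P c) : CN N (X.rate x P k a b c) := by
  have hw : x a b + x a c ∈ Icc (0 : ℝ) 1 := by
    have e1 : xr x P a b = x a b := by unfold xr; rw [if_pos ⟨ha, hb⟩]
    have e2 : xr x P a c = x a c := by unfold xr; rw [if_pos ⟨ha, hc⟩]
    rw [← e1, ← e2]
    exact ⟨add_nonneg (xr_nonneg hx a b) (xr_nonneg hx a c), xr_add_le hx hbc⟩
  have c1 : CN N fun _ s => x b c * fq x P k.fh b c s :=
    (CN.const _).mul (CN.snd (fq_cont hfc hx hb c))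
  have c2 : CN N fun t _ => X.Bc x k a b c t :=
    CN.fst ((CP.of_cont (hPc _ hw)).mul ((CP.of_cont continuousOn_const).add (hX.cdl a b c)))
  refine (c1.mul ((hX.cB a b c).sub c2)).add (CN.sum fun d _ => ?_)
  exact ((CN.const _).mul (CN.snd (fq_cont hfc hx hb d))).mul
    ((hX.cB a b d).mul ((CN.const 1).sub (((CN.const 1).sub (hX.cnu a b c d)).mul
      (CN.exp (CN.neg (hX.cla a b c).tail)))))

theorem E_cont (hfc : ∀ y ∈ Icc (0 : ℝ) 1, ContinuousOn (k.fh y) (Icc 0 1))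
    (hmc : ∀ x ∈ Icc (0 : ℝ) 1, ∀ y ∈ Icc (0 : ℝ) 1, ∀ z ∈ Icc (0 : ℝ) 1,
      ContinuousOn (k.mb x y z) (Icc 0 1))
    (hPc : ∀ w ∈ Icc (0 : ℝ) 1, ContinuousOn (k.Pe w) (Icc 0 1)) (hx : Wt x P 1)
    (hX : Xd.Ok N X x k) {a b c : V} (ha : P a) (hb : P b) (hbc : b ≠ c)
    (hc : P c) : CP N (X.E x P k a b c) :=
  ((CP.of_cont (hmc _ (xmem1 hx a b) _ (xmem1 hx a c) _ (xmem1 hx b c))).mul
    (hX.cdl a b c)).add (rate_cont hfc hPc hx hX ha hb hbc hc).int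

theorem rate_nonneg (hk : k.Ok) (hx : Wt x P 1) (hX : Xd.Ok N X x k) {a b c : V} (hb : P b)
    (hab : a ≠ b) (hac : a ≠ c) (hbc : b ≠ c) {t s : ℝ}
    (h0 : 0 ≤ s) (hst : s ≤ t) (ht : t ≤ 1) : 0 ≤ X.rate x P k a b c t s := by
  have hs1 : s ∈ Icc (0 : ℝ) 1 := ⟨h0, hst.trans ht⟩
  unfold Xd.rate er
  refine add_nonneg (mul_nonneg (mul_nonneg (hx.nonneg b c) (fq_nonneg hk hx hb c hs1))
    (sub_nonneg.2 (hX.Bc a b c hab hac hbc t s h0 hst ht))) (Finset.sum_nonneg fun d hd => by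
      simp only [Finset.mem_compl, Finset.mem_insert, Finset.mem_singleton, not_or] at hd
      exact
      mul_nonneg (mul_nonneg (hx.nonneg b d) (fq_nonneg hk hx hb d hs1))
        (mul_nonneg (hX.B0 a b d hab (Ne.symm hd.1) (Ne.symm hd.2.1) t s h0 hst ht)
          (one_sub_exp_nonneg (hX.nu0 a b c d t s h0 hst ht) (hX.nu1 a b c d t s h0 hst ht)
          (intervalIntegral.integral_nonneg hst fun r hr =>
            hX.la0 a b c t r (h0.trans hr.1) hr.2 ht))))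

theorem E_nonneg (hk : k.Ok) (hx : Wt x P 1) (hX : Xd.Ok N X x k) {a b c : V} (hb : P b)
    (hab : a ≠ b) (hac : a ≠ c) (hbc : b ≠ c) {t : ℝ} (ht : t ∈ Icc (0 : ℝ) 1) : 0 ≤ X.E x P k a b c t := by
  have hw : xr x P a b + xr x P a c ≤ 1 := xr_add_le hx hbc
  exact add_nonneg (mul_nonneg (hk.mb_nonneg (xmem1 hx a b) (xmem1 hx a c) (xmem1 hx b c) hw ht)
    (hX.dl0 a b c t ht.1 ht.2)) (intervalIntegral.integral_nonneg ht.1 fun s hs =>
      rate_nonneg hk hx hX hb hab hac hbc hs.1 hs.2 ht.2)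

variable {T : Dt} {sl : ℝ → ℝ → ℝ} {w : V → V → ℝ → ℝ}

/-- **the bound of the triple probabilities** -/
theorem hm_of_clo (hf : k.Fit T.cf T.ek) (hk : k.Ok) (h : T.Ok)
    (hfc : ∀ y ∈ Icc (0 : ℝ) 1, ContinuousOn (k.fh y) (Icc 0 1)) (hx : Wt x P 1)
    (hw : Wr T.ek.kd x P w)
    (hψ : Cor x P (psi T.cf x P (pfOf T.ek.kd x P w)) (psi' T.cf x P (pfOf T.ek.kd x P w)))
    (hX : Xd.Ok N X x k)
    (hpr : ∀ (h : ℝ → V → V → ℝ) (H : V → V → ℝ → ℝ) (t : ℝ), Cp T sl x P w h H t →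
      ∀ a b c, P a → P b → P c → a ≠ b → a ≠ c → b ≠ c → x a b ≠ 0 → x a c ≠ 0 →
        X.Pr x h t a b c) :
    HM T sl k.mb x P w (X.E x P k) := by
  intro h' H t hKS a b c ha hb hc hab hac hbc hxab hxac
  have hK := hKS.1
  have ht := hK.ht
  have hp := hpr h' H t hKS a b c ha hb hc hab hac hbc hxab hxac
  have e1 : ∀ {a b : V}, P a → P b → xr x P a b = x a b := fun ha hb => by
    unfold xr; rw [if_pos ⟨ha, hb⟩]
  have key := hK.mex hx hψ hb hc hab hac hbc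
    (fh := fun d => fq x P k.fh b d) (nu := fun d => X.nu a b c d t)
    (nut := fun d => X.nut a b c d t) (B := fun d => X.B a b d t)
    (la := X.la a b c t) (Bc := X.Bc x k a b c t)
    (fun d _ s hs => hX.nu0 a b c d t s hs.1 hs.2 ht.2)
    (fun d _ s hs => hX.nu1 a b c d t s hs.1 hs.2 ht.2)
    hp.clo hp.clot
    (fun d hd s hs => by
      simp only [Finset.mem_compl, Finset.mem_insert, Finset.mem_singleton, not_or] at hd
      exact hX.B0 a b d hab (Ne.symm hd.1) (Ne.symm hd.2) t s hs.1 hs.2 ht.2) hp.dens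
    (fun s hs => hX.Bc a b c hab hac hbc t s hs.1 hs.2 ht.2)
    (fun d hd hbd s hs => by
      have hs1 : s ∈ Icc (0 : ℝ) 1 := ⟨hs.1, hs.2.trans ht.2⟩
      show _ ≤ fq x P k.fh b d s
      unfold fq
      split_ifs with hPd
      · exact hf.phi_le hk (T.ek_ok h) (T.kd_ok h) hx hw hb hPd hbd hs1
      · unfold dn
        rw [if_neg fun hh => hPd hh.1.2]
        exact le_rfl)
    hp.hl (fun s hs => hX.la0 a b c t s hs.1 hs.2 ht.2)
    (fun d _ => (fq_cont hfc hx hb d).mono (Icc_subset_Icc_right ht.2))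
    (fun d _ => (hX.cB a b d).slice hX.N0 ht) (fun d _ => (hX.cnu a b c d).slice hX.N0 ht)
    ((hX.cla a b c).slice hX.N0 ht)
  refine le_trans (mul_le_mul_of_nonneg_left ?_ ?_) key
  · have h2 := hf.fi_ge hk (T.ek_ok h) (T.kd_ok h) hx hw hb hc hbc ht
    have i1 : xr x P a b + xr x P a c ≤ 1 := xr_add_le hx hbc
    have hwm : xr x P a b + xr x P a c ∈ Icc (0 : ℝ) 1 :=
      ⟨add_nonneg (xr_nonneg hx a b) (xr_nonneg hx a c), i1⟩
    have h3 := hk.Pe0 _ hwm t ht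
    have h4 := hX.dl0 a b c t ht.1 ht.2
    have h5 : x b c * (1 - (1 + t)⁻¹ - psi T.cf x P (pfOf T.ek.kd x P w) b c t)
        * X.Bc x k a b c t
        ≤ xr x P b c * k.fi (xr x P b c) t
          * (k.Pe (xr x P a b + xr x P a c) t * (1 + X.dl a b c t)) := by
      unfold Xd.Bc
      rw [← e1 hb hc, ← e1 ha hb, ← e1 ha hc]
      refine mul_le_mul_of_nonneg_right ?_ (mul_nonneg h3 (by linarith))
      exact mul_le_mul_of_nonneg_left h2 (xr_nonneg hx b c)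
    have e2 : xr x P b c * k.fi (xr x P b c) t
          * (k.Pe (xr x P a b + xr x P a c) t * (1 + X.dl a b c t))
        = k.mb (xr x P a b) (xr x P a c) (xr x P b c) t
          + k.mb (xr x P a b) (xr x P a c) (xr x P b c) t * X.dl a b c t := by
      unfold Kf.mb; ring
    rw [e2] at h5
    unfold Xd.E
    have e3 : ∫ s in (0 : ℝ)..t, X.rate x P k a b c t s
        = ∫ s in (0 : ℝ)..t, (x b c * fq x P k.fh b c s * (X.B a b c t s - X.Bc x k a b c t)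
          + er x a b c t (fun d => fq x P k.fh b d) (fun d => X.nu a b c d t) (X.la a b c t)
            (fun d => X.B a b d t) s) := rfl
    rw [e3]
    linarith
  · have q1 : 0 < bb h' ∅ a t := bb_pos hK.hh (Finset.notMem_empty a) ht
    have q2 : 0 ≤ ppp h' a b c t := by
      unfold ppp pr
      exact Finset.sum_nonneg fun F _ => mul_nonneg
        ((hK.hh.lw (∅ : Finset V)).nonneg F t ht) (by split_ifs <;> norm_num)
    exact mul_nonneg q2 q1.le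

/-- continuity of the main part of the triple ratio -/
theorem kf_cont {b0 b1 : ℝ → ℝ} {Pe : ℝ → ℝ → ℝ} {Pt : ℝ → ℝ → ℝ → ℝ} (hk : T.KOk b0 b1 Pe Pt) :
    ∀ w ∈ Icc (0 : ℝ) 1, ContinuousOn ((T.kf b0 b1 Pe Pt).Pe w) (Icc 0 1) :=
  fun w _ => hk.cPe w

section final

variable {V : Type} [Fintype V] [DecidableEq V] {G : SimpleGraph V} [Fintype G.edgeSet]
  [DecidableEq G.edgeSet] {x : G.edgeSet → ℝ} [Pool.Agent.RZ.RCG.CX x] {X : Xd (V ⊕ V)} {δ : ℝ}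
variable {b0 b1 : ℝ → ℝ} {Pe : ℝ → ℝ → ℝ} {Pt : ℝ → ℝ → ℝ → ℝ}

/-- the walk rates of the assembled proof -/
noncomputable def wX (T : Dt) (b0 b1 : ℝ → ℝ) (Pe : ℝ → ℝ → ℝ) (Pt : ℝ → ℝ → ℝ → ℝ)
    (X : Xd (V ⊕ V)) (x : G.edgeSet → ℝ) : V ⊕ V → V ⊕ V → ℝ → ℝ :=
  wE (T.kf b0 b1 Pe Pt).fh (T.kf b0 b1 Pe Pt).mb
    (X.E (xe x) (P0 V) (T.kf b0 b1 Pe Pt)) (xe x) (P0 V)

/-- the properties of the walk rates -/
theorem wr_of_X (hx : IsFractionalMatching G x) (h : T.Ok)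
    (hk : T.KOk b0 b1 Pe Pt)
    (hX : Xd.Ok N X (xe x) (T.kf b0 b1 Pe Pt))
    (hd0 : 0 < δ) (hd1 : δ ≤ 1)
    (hl : ∀ a b d, P0 V a → P0 V b → P0 V d → a ≠ b → a ≠ d → b ≠ d → ∀ t ∈ Icc (0 : ℝ) 1,
      (T.kf b0 b1 Pe Pt).mb (xr (xe x) (P0 V) a b) (xr (xe x) (P0 V) a d)
        (xr (xe x) (P0 V) b d) t
        + min (X.E (xe x) (P0 V) (T.kf b0 b1 Pe Pt) a b d t)
            (X.E (xe x) (P0 V) (T.kf b0 b1 Pe Pt) a d b t) ≤ 1 - δ)
    (hT : ∀ a, P0 V a → ∀ t ∈ Icc (0 : ℝ) 1,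
      ∑ b, xr (xe x) (P0 V) a b * wX T b0 b1 Pe Pt X x a b t
        ≤ T.kt t * (∑ b, T.sT (xr (xe x) (P0 V) a b) - T.k1 * Qs (xe x) (P0 V) a))
    (hP : ∀ a b, P0 V a → P0 V b → a ≠ b → ∀ t ∈ Icc (0 : ℝ) 1,
      wX T b0 b1 Pe Pt X x a b t ≤ T.kp t * ∑ d ∈ ({a, b} : Finset (V ⊕ V))ᶜ,
        (T.ka (xr (xe x) (P0 V) a d) / 2 + T.ka (xr (xe x) (P0 V) b d) / 2)) :
    Wr T.ek.kd (xe x) (P0 V) (wX T b0 b1 Pe Pt X x) := by
  have hw := wt_xe hx zero_le_one le_rfl fun e => (hx.1 e).2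
  have kok := Dt.kf_ok h hk
  have kq := Dt.kq h hk
  have hE : Er δ (T.kf b0 b1 Pe Pt).mb (xe x) (P0 V)
      (X.E (xe x) (P0 V) (T.kf b0 b1 Pe Pt)) :=
    { d0 := hd0
      d1 := hd1
      n := fun a b d _ hb _ hab had hbd t ht => E_nonneg kok hw hX hb hab had hbd ht
      l := hl
      c := fun a b d ha hb hd _ _ hbd =>
        (E_cont kq.fc kq.mc (kf_cont hk) hw hX ha hb hbd hd).meas hX.N0 }
  exact wr_of_E hw kq hE hT hP

/-- **the assembly with the explicit error function** -/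
theorem half_of_X (hx : IsFractionalMatching G x) (h : T.Ok) (hsl : Sl T.cf T.cg sl)
    (hk : T.KOk b0 b1 Pe Pt)
    (hX : Xd.Ok N X (xe x) (T.kf b0 b1 Pe Pt))
    (hd0 : 0 < δ) (hd1 : δ ≤ 1)
    (hl : ∀ a b d, P0 V a → P0 V b → P0 V d → a ≠ b → a ≠ d → b ≠ d → ∀ t ∈ Icc (0 : ℝ) 1,
      (T.kf b0 b1 Pe Pt).mb (xr (xe x) (P0 V) a b) (xr (xe x) (P0 V) a d)
        (xr (xe x) (P0 V) b d) t
        + min (X.E (xe x) (P0 V) (T.kf b0 b1 Pe Pt) a b d t)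
            (X.E (xe x) (P0 V) (T.kf b0 b1 Pe Pt) a d b t) ≤ 1 - δ)
    (hT : ∀ a, P0 V a → ∀ t ∈ Icc (0 : ℝ) 1,
      ∑ b, xr (xe x) (P0 V) a b * wX T b0 b1 Pe Pt X x a b t
        ≤ T.kt t * (∑ b, T.sT (xr (xe x) (P0 V) a b) - T.k1 * Qs (xe x) (P0 V) a))
    (hP : ∀ a b, P0 V a → P0 V b → a ≠ b → ∀ t ∈ Icc (0 : ℝ) 1,
      wX T b0 b1 Pe Pt X x a b t ≤ T.kp t * ∑ d ∈ ({a, b} : Finset (V ⊕ V))ᶜ,
        (T.ka (xr (xe x) (P0 V) a d) / 2 + T.ka (xr (xe x) (P0 V) b d) / 2))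
    (hpr : ∀ (h : ℝ → V ⊕ V → V ⊕ V → ℝ) (H : V ⊕ V → V ⊕ V → ℝ → ℝ) (t : ℝ),
      Cp T sl (xe x) (P0 V) (wX T b0 b1 Pe Pt X x) h H t →
      ∀ a b c, P0 V a → P0 V b → P0 V c → a ≠ b → a ≠ c → b ≠ c → xe x a b ≠ 0 →
        xe x a c ≠ 0 → X.Pr (xe x) h t a b c) :
    ∃ S : Scheme G, ∀ e : G.edgeSet, S.selProb x e = x e / 2 := by
  have hw := wt_xe hx zero_le_one le_rfl fun e => (hx.1 e).2
  have kok := Dt.kf_ok h hk
  have kq := Dt.kq h hk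
  have hE : Er δ (T.kf b0 b1 Pe Pt).mb (xe x) (P0 V)
      (X.E (xe x) (P0 V) (T.kf b0 b1 Pe Pt)) :=
    { d0 := hd0
      d1 := hd1
      n := fun a b d _ hb _ hab had hbd t ht => E_nonneg kok hw hX hb hab had hbd ht
      l := hl
      c := fun a b d ha hb hd _ _ hbd =>
        (E_cont kq.fc kq.mc (kf_cont hk) hw hX ha hb hbd hd).meas hX.N0 }
  have hwr := wr_of_E hw kq hE hT hP
  exact half_of_E hx h hsl kq hE
    (fun a b ha hb hab t ht => Dt.phi_le h hk hw hwr ha hb hab ht)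
    (hm_of_clo (T.kf_fit b0 b1 Pe Pt) kok h kq.fc hw hwr (Dt.cor hx h hwr) hX hpr) hT hP

end final

end Pool.Agent.RZ.RCN.K
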