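import Pool.Agent.RZ.RCM.Jen
import Pool.Agent.RZ.RCN.Eb

/-! The amplified error with linear closure errors (MP_73ccd0_lc, route M). -/

namespace Pool.Agent.RZ.RCN.K

open Set Finset MeasureTheory Pool.Agent.RZ.RCRSHalf Pool.Agent.RZ.RCG Pool.Agent.RZ.RCG.Ct
open Pool.Agent.RZ.RCN.Ker Pool.Agent.RZ.RCRS Pool.Agent.RZ.RCM.Jen

set_option linter.unusedSectionVars false

theorem ii_of {f : ℝ → ℝ} {t : ℝ} (_ : 0 ≤ t) (cf : ContinuousOn f (Icc 0 t)) {u v : ℝ}
    (hu : u ∈ Icc 0 t) (hv : v ∈ Icc 0 t) : IntervalIntegrable f volume u v := by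
  refine ContinuousOn.intervalIntegrable (cf.mono ?_)
  exact (uIcc_subset_Icc hu hv)

theorem prim_cont {f : ℝ → ℝ} {t : ℝ} (h0 : 0 ≤ t) (cf : ContinuousOn f (Icc 0 t)) :
    ContinuousOn (fun s => ∫ r in (0 : ℝ)..s, f r) (Icc 0 t) := by
  have := intervalIntegral.continuousOn_primitive_interval (μ := volume) (a := (0 : ℝ))
    (b := t) (f := f) (by rw [uIcc_of_le h0]; exact cf.integrableOn_Icc)
  rwa [uIcc_of_le h0] at this

/-- exchange of the integrations -/
theorem fub {f g : ℝ → ℝ} {t : ℝ} (h0 : 0 ≤ t) (cf : ContinuousOn f (Icc 0 t))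
    (cg : ContinuousOn g (Icc 0 t)) :
    (∫ s in (0 : ℝ)..t, f s * ∫ r in s..t, g r)
      = ∫ s in (0 : ℝ)..t, (∫ r in (0 : ℝ)..s, f r) * g s := by
  have m0 : (0 : ℝ) ∈ Icc 0 t := ⟨le_rfl, h0⟩
  have mt : t ∈ Icc 0 t := ⟨h0, le_rfl⟩
  have cA := prim_cont h0 cf
  have cG := prim_cont h0 cg
  have eB : ∀ s ∈ Icc 0 t, (∫ r in s..t, g r)
      = (∫ r in (0 : ℝ)..t, g r) - ∫ r in (0 : ℝ)..s, g r := fun s hs => by
    rw [← intervalIntegral.integral_add_adjacent_intervals (ii_of h0 cg m0 hs)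
      (ii_of h0 cg hs mt)]
    ring
  have cB : ContinuousOn (fun s => ∫ r in s..t, g r) (Icc 0 t) :=
    (continuousOn_const.sub cG).congr eB
  have dA : ∀ s ∈ Ioo 0 t, HasDerivAt (fun s => ∫ r in (0 : ℝ)..s, f r) (f s) s :=
    fun s hs => intervalIntegral.integral_hasDerivAt_right
      (ii_of h0 cf m0 (Ioo_subset_Icc_self hs))
      ((cf.stronglyMeasurableAtFilter_nhdsWithin measurableSet_Icc s).filter_mono
        (by rw [nhdsWithin_eq_nhds.2 (Icc_mem_nhds hs.1 hs.2)]))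
      (cf.continuousAt (Icc_mem_nhds hs.1 hs.2))
  have dG : ∀ s ∈ Ioo 0 t, HasDerivAt (fun s => ∫ r in (0 : ℝ)..s, g r) (g s) s :=
    fun s hs => intervalIntegral.integral_hasDerivAt_right
      (ii_of h0 cg m0 (Ioo_subset_Icc_self hs))
      ((cg.stronglyMeasurableAtFilter_nhdsWithin measurableSet_Icc s).filter_mono
        (by rw [nhdsWithin_eq_nhds.2 (Icc_mem_nhds hs.1 hs.2)]))
      (cg.continuousAt (Icc_mem_nhds hs.1 hs.2))
  have key := intervalIntegral.integral_eq_sub_of_hasDeriv_right_of_le (a := 0) (b := t)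
    (f := fun s => (∫ r in (0 : ℝ)..s, f r) * ((∫ r in (0 : ℝ)..t, g r) - ∫ r in (0 : ℝ)..s, g r))
    (f' := fun s => f s * (∫ r in s..t, g r) - (∫ r in (0 : ℝ)..s, f r) * g s) h0
    (cA.mul (continuousOn_const.sub cG)) (fun s hs => ?_) ?_
  · have e1 : (∫ s in (0 : ℝ)..t, (f s * (∫ r in s..t, g r) - (∫ r in (0 : ℝ)..s, f r) * g s))
        = (∫ s in (0 : ℝ)..t, f s * ∫ r in s..t, g r)
          - ∫ s in (0 : ℝ)..t, (∫ r in (0 : ℝ)..s, f r) * g s :=
      intervalIntegral.integral_sub (ii_of h0 (cf.mul cB) m0 mt) (ii_of h0 (cA.mul cg) m0 mt)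
    rw [e1] at key
    simp only [intervalIntegral.integral_same, sub_self, mul_zero, zero_mul] at key
    linarith
  · have h1 := (dA s hs).mul ((dG s hs).const_sub (∫ r in (0 : ℝ)..t, g r))
    refine (h1.congr_deriv ?_).hasDerivWithinAt
    rw [eB s (Ioo_subset_Icc_self hs)]
    ring
  · exact ii_of h0 ((cf.mul cB).sub (cA.mul cg)) m0 mt

theorem int3 {f g h : ℝ → ℝ} {t : ℝ} (h0 : 0 ≤ t) (cf : ContinuousOn f (Icc 0 t))
    (cg : ContinuousOn g (Icc 0 t)) (ch : ContinuousOn h (Icc 0 t)) (a b c : ℝ) :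
    (∫ s in (0 : ℝ)..t, (f s * a + b * g s + c * h s))
      = (∫ s in (0 : ℝ)..t, f s) * a + b * (∫ s in (0 : ℝ)..t, g s)
        + c * ∫ s in (0 : ℝ)..t, h s := by
  have m0 : (0 : ℝ) ∈ Icc 0 t := ⟨le_rfl, h0⟩
  have mt : t ∈ Icc 0 t := ⟨h0, le_rfl⟩
  have i1 := (ii_of h0 cf m0 mt).mul_const a
  have i2 := (ii_of h0 cg m0 mt).const_mul b
  have i3 := (ii_of h0 ch m0 mt).const_mul c
  rw [intervalIntegral.integral_add (i1.add i2) i3, intervalIntegral.integral_add i1 i2,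
    intervalIntegral.integral_mul_const, intervalIntegral.integral_const_mul,
    intervalIntegral.integral_const_mul]

theorem int_add2 {f g : ℝ → ℝ} {t : ℝ} (h0 : 0 ≤ t) (cf : ContinuousOn f (Icc 0 t))
    (cg : ContinuousOn g (Icc 0 t)) :
    (∫ s in (0 : ℝ)..t, (f s + g s)) = (∫ s in (0 : ℝ)..t, f s) + ∫ s in (0 : ℝ)..t, g s := by
  have m0 : (0 : ℝ) ∈ Icc 0 t := ⟨le_rfl, h0⟩
  have mt : t ∈ Icc 0 t := ⟨h0, le_rfl⟩
  exact intervalIntegral.integral_add (ii_of h0 cf m0 mt) (ii_of h0 cg m0 mt)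

variable {V : Type*} [Fintype V] [DecidableEq V]

section defs

variable (x : V → V → ℝ) (P : V → Prop) [DecidablePred P] (k : Kf) (κd : ℝ → ℝ → ℝ → ℝ)
  (R : V → V → V → ℝ → ℝ → ℝ) (L Lt : V → V → V → V → ℝ → ℝ → ℝ)

/-- the direct part of the error -/
noncomputable def e0L (a b c : V) (t : ℝ) : ℝ :=
  x b c * ∫ s in (0 : ℝ)..t, fq x P k.fh b c s
    * (κd (x a b + x a c) t s - k.Pe (x a b + x a c) t)

/-- the mass of the fluxes up to time `s` -/
noncomputable def muL (a b c : V) (t s : ℝ) : ℝ :=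
  ∫ r in (0 : ℝ)..s, ∑ d ∈ ({a, b, c} : Finset V)ᶜ, flx x P k κd a b d t r

/-- the linear part of the error -/
noncomputable def LamL (a b c : V) (t : ℝ) : ℝ :=
  ∑ d ∈ ({a, b, c} : Finset V)ᶜ, ∫ s in (0 : ℝ)..t,
    (flx x P k κd a b d t s * L a b c d t s
      + muL x P k κd a b c t s * (R a b d t s * Lt a b c d t s))

end defs

variable {x : V → V → ℝ} {P : V → Prop} [DecidablePred P] {k : Kf} {N : ℕ}
variable {κd : ℝ → ℝ → ℝ → ℝ} {R : V → V → V → ℝ → ℝ → ℝ} {L Lt : V → V → V → V → ℝ → ℝ → ℝ}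

theorem flx_slice (hf : Lf N k κd R L Lt) (hx : Wt x P 1)
    (hfc : ∀ y ∈ Icc (0 : ℝ) 1, ContinuousOn (k.fh y) (Icc 0 1)) (a b d : V) {t : ℝ}
    (ht : t ∈ Icc (0 : ℝ) 1) : ContinuousOn (flx x P k κd a b d t) (Icc 0 t) :=
  (flux_cn hfc hx hf.cκ a b d).slice hf.N0 ht

theorem muL_nonneg (hf : Lf N k κd R L Lt) (hx : Wt x P 1) (hk : k.Ok) (a b c : V) {t s : ℝ}
    (h0 : 0 ≤ s) (hst : s ≤ t) (ht : t ≤ 1) : 0 ≤ muL x P k κd a b c t s :=
  intervalIntegral.integral_nonneg h0 fun r hr => Finset.sum_nonneg fun d _ =>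
    flux_nonneg hx hk hf.κP a b d ⟨h0.trans hst, ht⟩ ⟨hr.1, hr.2.trans hst⟩

/-- the direct part is nonnegative -/
theorem e0L_nonneg (hf : Lf N k κd R L Lt) (hx : Wt x P 1) (hk : k.Ok) (a : V) {b c : V}
    (hbc : b ≠ c) {t : ℝ} (ht : t ∈ Icc (0 : ℝ) 1) : 0 ≤ e0L x P k κd a b c t :=
  mul_nonneg (hx.nonneg b c) (intervalIntegral.integral_nonneg ht.1 fun s hs =>
    mul_nonneg (fq_nonneg' hk hx b c ⟨hs.1, hs.2.trans ht.2⟩)
      (sub_nonneg.2 (hf.κP _ (two_mem hx a hbc) t s hs.1 hs.2 ht.2)))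

/-- **the error function is a mass of concave errors** -/
theorem E_le_tan (hf : Lf N k κd R L Lt) (hx : Wt x P 1) (hk : k.Ok)
    (hfc : ∀ y ∈ Icc (0 : ℝ) 1, ContinuousOn (k.fh y) (Icc 0 1))
    (cPe : ∀ w, ContinuousOn (k.Pe w) (Icc 0 1)) (a b c : V) {t : ℝ}
    (ht : t ∈ Icc (0 : ℝ) 1) {l : ℝ} (hl : 0 ≤ l) :
    (xdOf x κd R L Lt).E x P k a b c t ≤ e0L x P k κd a b c t
      + (muL x P k κd a b c t t * (1 - Real.exp (-l))
        + Real.exp (-l) * (LamL x P k κd R L Lt a b c t - muL x P k κd a b c t t * l)) := by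
  have h0 := ht.1
  have m0 : (0 : ℝ) ∈ Icc 0 t := ⟨le_rfl, h0⟩
  have mt : t ∈ Icc 0 t := ⟨h0, le_rfl⟩
  have cF : ∀ d, ContinuousOn (flx x P k κd a b d t) (Icc 0 t) := fun d =>
    flx_slice hf hx hfc a b d ht
  have cL : ∀ d, ContinuousOn (L a b c d t) (Icc 0 t) := fun d => (hf.cL a b c d).slice hf.N0 ht
  have cLt : ∀ d, ContinuousOn (Lt a b c d t) (Icc 0 t) := fun d =>
    (hf.cLt a b c d).slice hf.N0 ht
  have cR : ∀ d, ContinuousOn (R a b d t) (Icc 0 t) := fun d => (hf.cR a b d).slice hf.N0 ht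
  have cla : ContinuousOn (laL R Lt a b c t) (Icc 0 t) := (laL_cn hf a b c).slice hf.N0 ht
  have cll : ∀ d, ContinuousOn (llL R L Lt a b c d t) (Icc 0 t) := fun d =>
    (llL_cn hf a b c d).slice hf.N0 ht
  have cfq : ContinuousOn (fq x P k.fh b c) (Icc 0 t) :=
    (fq_cont' hfc hx b c).mono (Icc_subset_Icc_right ht.2)
  have cκ : ContinuousOn (κd (x a b + x a c) t) (Icc 0 t) := (hf.cκ _).slice hf.N0 ht
  have cS : ContinuousOn (fun s => ∑ d ∈ ({a, b, c} : Finset V)ᶜ, flx x P k κd a b d t s)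
      (Icc 0 t) := continuousOn_finsetSum _ fun d _ => cF d
  have cm : ContinuousOn (muL x P k κd a b c t) (Icc 0 t) := prim_cont h0 cS
  -- the tangent line
  have h1 : ∀ s ∈ Icc 0 t, rtL x P k κd R L Lt a b c t s
      ≤ x b c * (fq x P k.fh b c s * (κd (x a b + x a c) t s - k.Pe (x a b + x a c) t))
        + ∑ d ∈ ({a, b, c} : Finset V)ᶜ, (flx x P k κd a b d t s * (1 - Real.exp (-l))
          + Real.exp (-l) * (flx x P k κd a b d t s * L a b c d t s
            + flx x P k κd a b d t s * (∫ r in s..t, laL R Lt a b c t r)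
            - flx x P k κd a b d t s * l)) := by
    intro s hs
    unfold rtL
    refine add_le_add (le_of_eq (by ring)) (Finset.sum_le_sum fun d _ => ?_)
    have h2 := mul_le_mul_of_nonneg_left (nu_tangent (llL R L Lt a b c d t s) l)
      (flux_nonneg (P := P) (κd := κd) hx hk hf.κP a b d ht hs)
    unfold nuL
    refine h2.trans (le_of_eq ?_)
    unfold llL flx
    ring
  have i1 : ContinuousOn (fun s => x b c * (fq x P k.fh b c s
      * (κd (x a b + x a c) t s - k.Pe (x a b + x a c) t))) (Icc 0 t) :=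
    continuousOn_const.mul (cfq.mul (cκ.sub continuousOn_const))
  have ctl : ContinuousOn (fun s => ∫ r in s..t, laL R Lt a b c t r) (Icc 0 t) :=
    (laL_cn hf a b c).tail.slice hf.N0 ht
  have i2 : ContinuousOn (fun s => ∑ d ∈ ({a, b, c} : Finset V)ᶜ,
      (flx x P k κd a b d t s * (1 - Real.exp (-l))
          + Real.exp (-l) * (flx x P k κd a b d t s * L a b c d t s
            + flx x P k κd a b d t s * (∫ r in s..t, laL R Lt a b c t r)
            - flx x P k κd a b d t s * l))) (Icc 0 t) :=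
    continuousOn_finsetSum _ fun d _ => ((cF d).mul continuousOn_const).add
      (continuousOn_const.mul ((((cF d).mul (cL d)).add ((cF d).mul ctl)).sub
        ((cF d).mul continuousOn_const)))
  have i12 : ContinuousOn (fun s => x b c * (fq x P k.fh b c s
        * (κd (x a b + x a c) t s - k.Pe (x a b + x a c) t))
      + ∑ d ∈ ({a, b, c} : Finset V)ᶜ, (flx x P k κd a b d t s * (1 - Real.exp (-l))
          + Real.exp (-l) * (flx x P k κd a b d t s * L a b c d t s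
            + flx x P k κd a b d t s * (∫ r in s..t, laL R Lt a b c t r)
            - flx x P k κd a b d t s * l))) (Icc 0 t) := i1.add i2
  have h2 := E_le_of_rate (R := R) (L := L) (Lt := Lt) hf hx hfc cPe ht
    (ii_of h0 i12 m0 mt) h1
  refine h2.trans ?_
  -- the integrals
  have e1 : (∫ s in (0 : ℝ)..t, (x b c * (fq x P k.fh b c s
        * (κd (x a b + x a c) t s - k.Pe (x a b + x a c) t))
        + ∑ d ∈ ({a, b, c} : Finset V)ᶜ, (flx x P k κd a b d t s * (1 - Real.exp (-l))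
          + Real.exp (-l) * (flx x P k κd a b d t s * L a b c d t s
            + flx x P k κd a b d t s * (∫ r in s..t, laL R Lt a b c t r)
            - flx x P k κd a b d t s * l))))
      = e0L x P k κd a b c t
        + ∫ s in (0 : ℝ)..t, ((∑ d ∈ ({a, b, c} : Finset V)ᶜ, flx x P k κd a b d t s)
            * (1 - Real.exp (-l) - Real.exp (-l) * l)
          + Real.exp (-l) * (∑ d ∈ ({a, b, c} : Finset V)ᶜ,
            flx x P k κd a b d t s * L a b c d t s)
          + Real.exp (-l) * ((∑ d ∈ ({a, b, c} : Finset V)ᶜ, flx x P k κd a b d t s)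
            * ∫ r in s..t, laL R Lt a b c t r)) := by
    rw [int_add2 h0 i1 i2]
    congr 1
    · unfold e0L
      rw [intervalIntegral.integral_const_mul]
    · refine intervalIntegral.integral_congr fun s _ => ?_
      show (∑ d ∈ ({a, b, c} : Finset V)ᶜ, _) = _
      rw [Finset.sum_mul, Finset.mul_sum, Finset.sum_mul, Finset.mul_sum,
        ← Finset.sum_add_distrib, ← Finset.sum_add_distrib]
      refine Finset.sum_congr rfl fun d _ => ?_
      ring
  have cSL : ContinuousOn (fun s => ∑ d ∈ ({a, b, c} : Finset V)ᶜ,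
      flx x P k κd a b d t s * L a b c d t s) (Icc 0 t) :=
    continuousOn_finsetSum _ fun d _ => (cF d).mul (cL d)
  have cST : ContinuousOn (fun s => (∑ d ∈ ({a, b, c} : Finset V)ᶜ, flx x P k κd a b d t s)
      * ∫ r in s..t, laL R Lt a b c t r) (Icc 0 t) := cS.mul ctl
  have e2 : (∫ s in (0 : ℝ)..t, ((∑ d ∈ ({a, b, c} : Finset V)ᶜ, flx x P k κd a b d t s)
            * (1 - Real.exp (-l) - Real.exp (-l) * l)
          + Real.exp (-l) * (∑ d ∈ ({a, b, c} : Finset V)ᶜ,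
            flx x P k κd a b d t s * L a b c d t s)
          + Real.exp (-l) * ((∑ d ∈ ({a, b, c} : Finset V)ᶜ, flx x P k κd a b d t s)
            * ∫ r in s..t, laL R Lt a b c t r)))
      = muL x P k κd a b c t t * (1 - Real.exp (-l) - Real.exp (-l) * l)
        + Real.exp (-l) * (∫ s in (0 : ℝ)..t, ∑ d ∈ ({a, b, c} : Finset V)ᶜ,
          flx x P k κd a b d t s * L a b c d t s)
        + Real.exp (-l) * ∫ s in (0 : ℝ)..t, muL x P k κd a b c t s * laL R Lt a b c t s := by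
    rw [int3 h0 cS cSL cST, fub h0 cS cla]
    rfl
  rw [e1, e2]
  -- the hazard error
  have h3 : (∫ s in (0 : ℝ)..t, muL x P k κd a b c t s * laL R Lt a b c t s)
      ≤ ∫ s in (0 : ℝ)..t, ∑ d ∈ ({a, b, c} : Finset V)ᶜ,
        muL x P k κd a b c t s * (R a b d t s * Lt a b c d t s) := by
    refine intervalIntegral.integral_mono_on h0 (ii_of h0 (cm.mul cla) m0 mt)
      (ii_of h0 (continuousOn_finsetSum _ fun d _ => cm.mul ((cR d).mul (cLt d))) m0 mt)
      fun s hs => ?_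
    rw [← Finset.mul_sum]
    exact mul_le_mul_of_nonneg_left (laL_le_lin hf hs.1 hs.2 ht.2)
      (muL_nonneg hf hx hk a b c hs.1 hs.2 ht.2)
  have h4 : LamL x P k κd R L Lt a b c t
      = (∫ s in (0 : ℝ)..t, ∑ d ∈ ({a, b, c} : Finset V)ᶜ,
          flx x P k κd a b d t s * L a b c d t s)
        + ∫ s in (0 : ℝ)..t, ∑ d ∈ ({a, b, c} : Finset V)ᶜ,
        muL x P k κd a b c t s * (R a b d t s * Lt a b c d t s) := by
    unfold LamL
    have cMR : ContinuousOn (fun s => ∑ d ∈ ({a, b, c} : Finset V)ᶜ,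
        muL x P k κd a b c t s * (R a b d t s * Lt a b c d t s)) (Icc 0 t) :=
      continuousOn_finsetSum _ fun d _ => cm.mul ((cR d).mul (cLt d))
    have cT : ∀ d, ContinuousOn (fun s => flx x P k κd a b d t s * L a b c d t s
        + muL x P k κd a b c t s * (R a b d t s * Lt a b c d t s)) (Icc 0 t) := fun d =>
      ((cF d).mul (cL d)).add (cm.mul ((cR d).mul (cLt d)))
    rw [← int_add2 h0 cSL cMR, ← intervalIntegral.integral_finsetSum fun d _ =>
        ii_of h0 (cT d) m0 mt]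
    refine intervalIntegral.integral_congr fun s _ => ?_
    show (∑ d ∈ ({a, b, c} : Finset V)ᶜ, _) = _
    rw [← Finset.sum_add_distrib]
  have h5 := mul_le_mul_of_nonneg_left h3 (Real.exp_pos (-l)).le
  rw [h4]
  nlinarith [h5]

theorem LamL_nonneg (hf : Lf N k κd R L Lt) (hx : Wt x P 1) (hk : k.Ok) (a b c : V) {t : ℝ}
    (ht : t ∈ Icc (0 : ℝ) 1) : 0 ≤ LamL x P k κd R L Lt a b c t :=
  Finset.sum_nonneg fun d _ => intervalIntegral.integral_nonneg ht.1 fun s hs =>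
    add_nonneg (mul_nonneg (flux_nonneg hx hk hf.κP a b d ht hs)
      (hf.L0 a b c d t s hs.1 hs.2 ht.2))
      (mul_nonneg (muL_nonneg hf hx hk a b c hs.1 hs.2 ht.2)
        (mul_nonneg (hf.R0 a b d t s hs.1 hs.2 ht.2) (hf.Lt0 a b c d t s hs.1 hs.2 ht.2)))

end Pool.Agent.RZ.RCN.K
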