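import Mathlib

/-! The correction with memory: the functional `w ↦ Om w` (MP_73ccd0_lc, route M). -/

namespace Pool.Agent.RZ.RCN.Ker

open Set MeasureTheory

/-- `q²` -/
noncomputable def qq (t : ℝ) : ℝ := ((1 + t) ^ 2)⁻¹

/-- clamp to `[0, 1]` -/
noncomputable def cl (t : ℝ) : ℝ := max 0 (min t 1)

theorem cl_mem (t : ℝ) : cl t ∈ Icc (0 : ℝ) 1 :=
  ⟨le_max_left _ _, max_le zero_le_one (min_le_right _ _)⟩

theorem cl_eq {t : ℝ} (ht : t ∈ Icc (0 : ℝ) 1) : cl t = t := by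
  unfold cl
  rw [min_eq_left ht.2, max_eq_right ht.1]

theorem cl_cont : Continuous cl := by unfold cl; fun_prop

/-- the integral from `0` to `t` -/
noncomputable def I (w : ℝ → ℝ) (t : ℝ) : ℝ := ∫ s in (0 : ℝ)..t, w s

/-- the integral of `g I` from `0` to `t` (with the clamp) -/
noncomputable def A (g w : ℝ → ℝ) (t : ℝ) : ℝ := ∫ s in (0 : ℝ)..t, g (cl s) * I w (cl s)

theorem qq_pos {t : ℝ} (ht : t ∈ Icc (0 : ℝ) 1) : 0 < qq t := by
  unfold qq; have := ht.1; positivity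

theorem qq_cont : ContinuousOn qq (Icc 0 1) := by
  unfold qq
  refine ContinuousOn.inv₀ (by fun_prop) fun t ht => ?_
  have := ht.1
  positivity

variable {w v g : ℝ → ℝ}

theorem I_cont (hw : IntegrableOn w (Icc 0 1)) : ContinuousOn (I w) (Icc 0 1) := by
  have h := intervalIntegral.continuousOn_primitive_interval (μ := volume) (a := (0 : ℝ)) (b := 1)
    (f := w) (by rwa [uIcc_of_le zero_le_one])
  rwa [uIcc_of_le zero_le_one] at h

theorem comp_cl {f : ℝ → ℝ} (hf : ContinuousOn f (Icc 0 1)) : Continuous fun s => f (cl s) :=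
  hf.comp_continuous cl_cont cl_mem

theorem gI_cont (hg : ContinuousOn g (Icc 0 1)) (hw : IntegrableOn w (Icc 0 1)) :
    Continuous fun s => g (cl s) * I w (cl s) :=
  (comp_cl hg).mul (comp_cl (I_cont hw))

theorem A_zero : A g w 0 = 0 := intervalIntegral.integral_same

theorem I_zero : I w 0 = 0 := intervalIntegral.integral_same

theorem w_int (hw : IntegrableOn w (Icc 0 1)) {a b : ℝ} (ha : a ∈ Icc (0 : ℝ) 1)
    (hb : b ∈ Icc (0 : ℝ) 1) : IntervalIntegrable w volume a b := by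
  rw [intervalIntegrable_iff]
  refine hw.mono_set ?_
  refine uIoc_subset_uIcc.trans (uIcc_subset_Icc ha hb)

theorem I_mono (hw : IntegrableOn w (Icc 0 1)) (h0 : ∀ s ∈ Icc (0 : ℝ) 1, 0 ≤ w s) {a b : ℝ}
    (ha : a ∈ Icc (0 : ℝ) 1) (hb : b ∈ Icc (0 : ℝ) 1) (hab : a ≤ b) : I w a ≤ I w b := by
  unfold I
  have z : (0 : ℝ) ∈ Icc (0 : ℝ) 1 := ⟨le_rfl, zero_le_one⟩
  rw [← intervalIntegral.integral_add_adjacent_intervals (w_int hw z ha) (w_int hw ha hb)]
  have := intervalIntegral.integral_nonneg (μ := volume) hab fun s hs =>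
    h0 s ⟨ha.1.trans hs.1, hs.2.trans hb.2⟩
  linarith

theorem I_nonneg (hw : IntegrableOn w (Icc 0 1)) (h0 : ∀ s ∈ Icc (0 : ℝ) 1, 0 ≤ w s) {t : ℝ}
    (ht : t ∈ Icc (0 : ℝ) 1) : 0 ≤ I w t := by
  have := I_mono hw h0 (a := 0) ⟨le_rfl, zero_le_one⟩ ht ht.1
  rwa [I_zero] at this

theorem A_mono_t (hg : ContinuousOn g (Icc 0 1)) (g0 : ∀ s ∈ Icc (0 : ℝ) 1, 0 ≤ g s)
    (hw : IntegrableOn w (Icc 0 1)) (h0 : ∀ s ∈ Icc (0 : ℝ) 1, 0 ≤ w s) {a b : ℝ}
    (hab : a ≤ b) : A g w a ≤ A g w b := by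
  unfold A
  have hi : ∀ a b, IntervalIntegrable (fun s => g (cl s) * I w (cl s)) volume a b :=
    fun a b => (gI_cont hg hw).intervalIntegrable a b
  rw [← intervalIntegral.integral_add_adjacent_intervals (hi 0 a) (hi a b)]
  have := intervalIntegral.integral_nonneg (μ := volume) hab fun s _ =>
    mul_nonneg (g0 _ (cl_mem s)) (I_nonneg hw h0 (cl_mem s))
  linarith

theorem A_nonneg (hg : ContinuousOn g (Icc 0 1)) (g0 : ∀ s ∈ Icc (0 : ℝ) 1, 0 ≤ g s)
    (hw : IntegrableOn w (Icc 0 1)) (h0 : ∀ s ∈ Icc (0 : ℝ) 1, 0 ≤ w s) {t : ℝ}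
    (ht : 0 ≤ t) : 0 ≤ A g w t := by
  have := A_mono_t hg g0 hw h0 ht
  rwa [A_zero] at this

/-- `∫₀ᵗ q² = 1 - q(t)` -/
theorem int_qq {a b : ℝ} (ha : a ∈ Icc (0 : ℝ) 1) (hb : b ∈ Icc (0 : ℝ) 1) (hab : a ≤ b) :
    ∫ s in a..b, qq (cl s) = (1 + a)⁻¹ - (1 + b)⁻¹ := by
  have h1 : ∫ s in a..b, qq (cl s) = ∫ s in a..b, qq s := by
    refine intervalIntegral.integral_congr fun s hs => ?_
    rw [uIcc_of_le hab] at hs
    show qq (cl s) = qq s
    rw [cl_eq ⟨ha.1.trans hs.1, hs.2.trans hb.2⟩]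
  rw [h1, intervalIntegral.integral_eq_sub_of_hasDerivAt (f := fun s : ℝ => -(1 + s)⁻¹)]
  · ring
  · intro s hs
    rw [uIcc_of_le hab] at hs
    have hr0 : (1 + s) ≠ 0 := by linarith [hs.1, ha.1]
    have := (((hasDerivAt_id s).const_add 1).inv hr0).neg
    refine this.congr_deriv ?_
    unfold qq
    simp only [id]; rw [neg_div, one_div, neg_neg]
  · have : IntervalIntegrable (fun s => qq (cl s)) volume a b :=
      (comp_cl qq_cont).intervalIntegrable a b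
    refine this.congr ?_
    refine fun s hs => ?_
    rw [uIoc_of_le hab] at hs
    show qq (cl s) = qq s
    rw [cl_eq ⟨ha.1.trans hs.1.le, hs.2.trans hb.2⟩]

/-- positivity of the functional for nondecreasing `I` -/
theorem A_ratio (hw : IntegrableOn w (Icc 0 1)) (h0 : ∀ s ∈ Icc (0 : ℝ) 1, 0 ≤ w s) {t : ℝ}
    (ht : t ∈ Icc (0 : ℝ) 1) : A qq w t ≤ 2 * (1 - (1 + t)⁻¹) * A qq w 1 := by
  have z : (0 : ℝ) ∈ Icc (0 : ℝ) 1 := ⟨le_rfl, zero_le_one⟩
  have o : (1 : ℝ) ∈ Icc (0 : ℝ) 1 := ⟨zero_le_one, le_rfl⟩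
  have hi : ∀ a b, IntervalIntegrable (fun s => qq (cl s) * I w (cl s)) volume a b :=
    fun a b => (gI_cont qq_cont hw).intervalIntegrable a b
  have hj : ∀ a b, IntervalIntegrable (fun s => qq (cl s) * I w t) volume a b :=
    fun a b => ((comp_cl qq_cont).mul continuous_const).intervalIntegrable a b
  have h1 : A qq w t ≤ (1 - (1 + t)⁻¹) * I w t := by
    have e : ∫ s in (0 : ℝ)..t, qq (cl s) * I w t = (1 - (1 + t)⁻¹) * I w t := by
      rw [intervalIntegral.integral_mul_const, int_qq z ht ht.1]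
      simp
    rw [← e]
    refine intervalIntegral.integral_mono_on ht.1 (hi _ _) (hj _ _) fun s hs => ?_
    have hs1 : s ∈ Icc (0 : ℝ) 1 := ⟨hs.1, hs.2.trans ht.2⟩
    rw [cl_eq hs1]
    exact mul_le_mul_of_nonneg_left (I_mono hw h0 hs1 ht hs.2) (qq_pos hs1).le
  have h2 : ((1 + t)⁻¹ - 1 / 2) * I w t ≤ A qq w 1 - A qq w t := by
    have e : ∫ s in t..1, qq (cl s) * I w t = ((1 + t)⁻¹ - 1 / 2) * I w t := by
      rw [intervalIntegral.integral_mul_const, int_qq ht o ht.2]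
      norm_num
    have e2 : A qq w 1 - A qq w t = ∫ s in t..1, qq (cl s) * I w (cl s) := by
      unfold A
      rw [← intervalIntegral.integral_add_adjacent_intervals (hi 0 t) (hi t 1)]
      ring
    rw [← e, e2]
    refine intervalIntegral.integral_mono_on ht.2 (hj _ _) (hi _ _) fun s hs => ?_
    have hs1 : s ∈ Icc (0 : ℝ) 1 := ⟨ht.1.trans hs.1, hs.2⟩
    rw [cl_eq hs1]
    exact mul_le_mul_of_nonneg_left (I_mono hw h0 ht hs1 hs.1) (qq_pos hs1).le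
  have hT : 0 < 1 + t := by linarith [ht.1]
  have q1 : (1 + t)⁻¹ ≤ 1 := inv_le_one_of_one_le₀ (by linarith [ht.1])
  have q2 : 1 / 2 ≤ (1 + t)⁻¹ := by
    rw [one_div]
    exact inv_anti₀ hT (by linarith [ht.2])
  have hI := I_nonneg hw h0 ht
  -- (1 - q) (A1 - At) ≥ (1 - q) (q - 1/2) I ≥ (q - 1/2) At
  have h3 := mul_le_mul_of_nonneg_left h2 (show 0 ≤ 1 - (1 + t)⁻¹ by linarith)
  have h4 := mul_le_mul_of_nonneg_left h1 (show 0 ≤ (1 + t)⁻¹ - 1 / 2 by linarith)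
  nlinarith

end Pool.Agent.RZ.RCN.Ker
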