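import Pool.Agent.RZ.RCN.KerA
import Pool.Agent.RZ.RCRSHalf.Ode

/-! Route M with walk costs: the final abstract theorem, and comparison lemmas for the integrals
(MP_73ccd0_lc). -/

namespace Pool.Agent.RZ.RCN.Ker

open Set MeasureTheory

variable {k κ g F F' : ℝ → ℝ}

/-- the primitive of the rate -/
theorem I_eq (hk : ContinuousOn k (Icc 0 1)) (hκ : ∀ t ∈ Icc (0 : ℝ) 1, HasDerivAt κ (k t) t)
    (h0 : κ 0 = 0) {t : ℝ} (ht : t ∈ Icc (0 : ℝ) 1) : I k t = κ t := by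
  unfold I
  rw [intervalIntegral.integral_eq_sub_of_hasDerivAt (f := κ), h0, sub_zero]
  · intro s hs
    rw [uIcc_of_le ht.1] at hs
    exact hκ s ⟨hs.1, hs.2.trans ht.2⟩
  · refine (hk.mono ?_).intervalIntegrable
    rw [uIcc_of_le ht.1]
    exact Icc_subset_Icc_right ht.2

/-- comparison for a continuous integrand -/
theorem int_le_of {f : ℝ → ℝ} (hf : Continuous f) {t1 : ℝ}
    (hF : ∀ t ∈ Icc 0 t1, HasDerivAt F (F' t) t) (F0 : 0 ≤ F 0)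
    (h : ∀ t ∈ Icc 0 t1, f t ≤ F' t) {t : ℝ} (ht : t ∈ Icc 0 t1) :
    ∫ s in (0 : ℝ)..t, f s ≤ F t := by
  have key := Pool.Agent.RZ.RCRSHalf.nonneg_of_forward (a := 0) (s := t1)
    (U := fun t => F t - ∫ s in (0 : ℝ)..t, f s) (U' := fun t => F' t - f t)
    (fun r hr => (hF r hr).sub (hf.integral_hasStrictDerivAt 0 r).hasDerivAt)
    (by simpa using F0)
    (fun r hr _ => by
      have := h r hr
      linarith) t ht
  linarith

theorem int_ge_of {f : ℝ → ℝ} (hf : Continuous f) {t1 : ℝ}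
    (hF : ∀ t ∈ Icc 0 t1, HasDerivAt F (F' t) t) (F0 : F 0 ≤ 0)
    (h : ∀ t ∈ Icc 0 t1, F' t ≤ f t) {t : ℝ} (ht : t ∈ Icc 0 t1) :
    F t ≤ ∫ s in (0 : ℝ)..t, f s := by
  have key := Pool.Agent.RZ.RCRSHalf.nonneg_of_forward (a := 0) (s := t1)
    (U := fun t => (∫ s in (0 : ℝ)..t, f s) - F t) (U' := fun t => f t - F' t)
    (fun r hr => (hf.integral_hasStrictDerivAt 0 r).hasDerivAt.sub (hF r hr))
    (by simpa using F0)
    (fun r hr _ => by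
      have := h r hr
      linarith) t ht
  linarith

theorem A_le_of (hg : ContinuousOn g (Icc 0 1)) (hk : ContinuousOn k (Icc 0 1))
    (hκ : ∀ t ∈ Icc (0 : ℝ) 1, HasDerivAt κ (k t) t) (h0 : κ 0 = 0)
    (hF : ∀ t ∈ Icc (0 : ℝ) 1, HasDerivAt F (F' t) t) (F0 : 0 ≤ F 0)
    (h : ∀ t ∈ Icc (0 : ℝ) 1, g t * κ t ≤ F' t) {t : ℝ} (ht : t ∈ Icc (0 : ℝ) 1) :
    A g k t ≤ F t := by
  have hki : IntegrableOn k (Icc 0 1) := hk.integrableOn_Icc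
  refine int_le_of (t1 := 1) (gI_cont hg hki) hF F0 (fun s hs => ?_) ht
  rw [cl_eq hs, I_eq hk hκ h0 hs]
  exact h s hs

theorem A_ge_of (hg : ContinuousOn g (Icc 0 1)) (hk : ContinuousOn k (Icc 0 1))
    (hκ : ∀ t ∈ Icc (0 : ℝ) 1, HasDerivAt κ (k t) t) (h0 : κ 0 = 0)
    (hF : ∀ t ∈ Icc (0 : ℝ) 1, HasDerivAt F (F' t) t) (F0 : F 0 ≤ 0)
    (h : ∀ t ∈ Icc (0 : ℝ) 1, F' t ≤ g t * κ t) {t : ℝ} (ht : t ∈ Icc (0 : ℝ) 1) :
    F t ≤ A g k t := by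
  have hki : IntegrableOn k (Icc 0 1) := hk.integrableOn_Icc
  refine int_ge_of (t1 := 1) (gI_cont hg hki) hF F0 (fun s hs => ?_) ht
  rw [cl_eq hs, I_eq hk hκ h0 hs]
  exact h s hs

end Pool.Agent.RZ.RCN.Ker

namespace Pool.Agent.RZ.RCN.K

open Set Finset MeasureTheory Pool.Agent.RZ.RCRSHalf

open Pool.Agent.RZ.RCN.Ker

end Pool.Agent.RZ.RCN.K
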