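import Pool.Agent.RZ.RCN.KerC
import Pool.Agent.RZ.RCN.KerD

/-! The kernel data of the certificate (MP_73ccd0_lc, route M). -/

namespace Pool.Agent.RZ.RCN.K

open Set Finset MeasureTheory Pool.Agent.RZ.RCRSHalf Pool.Agent.RZ.RCG Pool.Agent.RZ.RCG.Ct
open Pool.Agent.RZ.RCN.Ker

/-- the functions of the certificate for the kernel: `kap` is the total rate, `kt` its derivative,
`j = q² kap`, `J` the integral of `j`; the same with `p` for the rates of the pairs, `rho` is the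
ratio of the integrals -/
structure Ek where
  sT : ℝ → ℝ
  ka : ℝ → ℝ
  ST : ℝ
  SP : ℝ
  kt : ℝ → ℝ
  kap : ℝ → ℝ
  j : ℝ → ℝ
  J : ℝ → ℝ
  kp : ℝ → ℝ
  kapp : ℝ → ℝ
  jp : ℝ → ℝ
  Jp : ℝ → ℝ
  rho : ℝ
  t1 : ℝ
  th : ℝ
  G : ℝ → ℝ
  G' : ℝ → ℝ
  Gs : ℝ → ℝ
  Gp : ℝ → ℝ
  Dm : ℝ → ℝ
  V : ℝ → ℝ
  V' : ℝ → ℝ
  W1 : ℝ → ℝ
  ze : ℝ → ℝ
  ze' : ℝ → ℝ
  k1 : ℝ

/-- the upper bound of the free probabilities -/
noncomputable def Ek.abf (E : Ek) (t : ℝ) : ℝ := (1 + t)⁻¹ + E.th * E.ze t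

open Classical in
/-- the early negative part -/
noncomputable def Ek.nb (E : Ek) (t : ℝ) : ℝ := if t < E.t1 then E.ST * E.J t else 0

/-- the kernel data -/
noncomputable def Ek.kd (E : Ek) : Kd where
  M t := (E.G t + E.J t) / E.J 1
  M' t := (E.G' t + E.j t) / E.J 1
  t1 := E.t1
  kT := E.kt
  kP := E.kp
  sT := E.sT
  ST := E.ST
  ka _ y := E.ka y
  cS _ := E.SP
  GT := E.Gs
  GP := E.Gp
  r _ t := (E.abf t)⁻¹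
  r' _ t := (qq t - E.th * E.ze' t) / (E.abf t) ^ 2
  JP _ t := E.V t
  AP t := E.Jp t
  wc x t := E.rho * ((1 + t) ^ 2 * (E.G' t + E.j t)) + x * E.W1 t
  k1 := E.k1

structure Ek.Ok (E : Ek) : Prop where
  sTn : ∀ y ∈ Icc (0 : ℝ) 1, 0 ≤ E.sT y
  sTS : ∀ y ∈ Icc (0 : ℝ) 1, E.sT y ≤ E.ST * y
  STn : 0 ≤ E.ST
  kan : ∀ y ∈ Icc (0 : ℝ) 1, 0 ≤ E.ka y
  kaS : ∀ y ∈ Icc (0 : ℝ) 1, E.ka y ≤ E.SP * y
  SPn : 0 ≤ E.SP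
  dkap : ∀ t ∈ Icc (0 : ℝ) 1, HasDerivAt E.kap (E.kt t) t
  ckt : ContinuousOn E.kt (Icc 0 1)
  kap0 : E.kap 0 = 0
  ktn : ∀ t ∈ Icc (0 : ℝ) 1, 0 ≤ E.kt t
  hj : ∀ t ∈ Icc (0 : ℝ) 1, qq t * E.kap t = E.j t
  cj : ContinuousOn E.j (Icc 0 1)
  dJ : ∀ t ∈ Icc (0 : ℝ) 1, HasDerivAt E.J (E.j t) t
  J0 : E.J 0 = 0
  J1 : 0 < E.J 1
  dkapp : ∀ t ∈ Icc (0 : ℝ) 1, HasDerivAt E.kapp (E.kp t) t
  ckp : ContinuousOn E.kp (Icc 0 1)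
  kapp0 : E.kapp 0 = 0
  kpn : ∀ t ∈ Icc (0 : ℝ) 1, 0 ≤ E.kp t
  hjp : ∀ t ∈ Icc (0 : ℝ) 1, qq t * E.kapp t = E.jp t
  dJp : ∀ t ∈ Icc (0 : ℝ) 1, HasDerivAt E.Jp (E.jp t) t
  Jp0 : E.Jp 0 = 0
  Jp1 : E.Jp 1 = E.rho * E.J 1
  cGp : ContinuousOn E.Gp (Icc 0 1)
  Gp1 : ∀ t ∈ Icc (0 : ℝ) 1, E.t1 ≤ t → E.rho * (E.G t + E.J t) - E.Jp t ≤ E.Gp t
  Gp2 : ∀ t ∈ Icc (0 : ℝ) 1, t < E.t1 → E.rho * (E.G t + E.J t) ≤ E.Gp t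
  Gp0 : ∀ t ∈ Icc (0 : ℝ) 1, 0 ≤ E.Gp t
  k10 : 0 ≤ E.k1
  sTk : ∀ y ∈ Icc (0 : ℝ) 1, E.k1 * (y ^ 2 * (1 - y) ^ 2) ≤ E.sT y
  rho0 : 0 ≤ E.rho
  th0 : 0 ≤ E.th
  dG : ∀ t ∈ Icc (0 : ℝ) 1, HasDerivAt E.G (E.G' t) t
  cG : ContinuousOn E.G' (Icc 0 1)
  G0 : E.G 0 = 0
  G'0 : E.G' 0 = 0
  G1 : E.G 1 = 0
  mn : ∀ t ∈ Icc (0 : ℝ) 1, 0 ≤ E.G' t + E.j t
  lb : ∀ t ∈ Icc (0 : ℝ) 1, E.t1 ≤ t → 2 * t * E.J 1 ≤ (1 + t) * (E.G t + E.J t)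
  cGs : ContinuousOn E.Gs (Icc 0 1)
  Gs1 : ∀ t ∈ Icc (0 : ℝ) 1, E.t1 ≤ t → E.G t ≤ E.Gs t
  Gs2 : ∀ t ∈ Icc (0 : ℝ) 1, t < E.t1 → E.G t + E.J t ≤ E.Gs t
  Gs0 : ∀ t ∈ Icc (0 : ℝ) 1, 0 ≤ E.Gs t
  dz : ∀ t ∈ Icc (0 : ℝ) 1, HasDerivAt E.ze (E.ze' t) t
  cz : ContinuousOn E.ze' (Icc 0 1)
  z0 : ∀ t ∈ Icc (0 : ℝ) 1, 0 ≤ E.ze t
  rn : ∀ t ∈ Icc (0 : ℝ) 1, E.th * E.ze' t ≤ qq t
  rD : ∀ t ∈ Icc (0 : ℝ) 1, qq t - E.th * E.ze' t ≤ E.Dm t * (E.abf t) ^ 2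
  dV : ∀ t ∈ Icc (0 : ℝ) 1, HasDerivAt E.V (E.V' t) t
  V0 : 0 ≤ E.V 0
  V' : ∀ t ∈ Icc (0 : ℝ) 1, E.Gp t * E.Dm t ≤ E.V' t
  W11 : ∀ t ∈ Icc (0 : ℝ) 1, E.t1 ≤ t → 2 * E.V t ≤ E.W1 t
  W12 : ∀ t ∈ Icc (0 : ℝ) 1, t < E.t1 →
    2 * (E.V t + (1 + t) * E.Jp t) ≤ E.W1 t

theorem Ek.A_kt {E : Ek} (hE : E.Ok) {t : ℝ} (ht : t ∈ Icc (0 : ℝ) 1) : A qq E.kt t = E.J t := by
  refine le_antisymm ?_ ?_
  · exact A_le_of qq_cont hE.ckt hE.dkap hE.kap0 hE.dJ hE.J0.ge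
      (fun s hs => (hE.hj s hs).le) ht
  · exact A_ge_of qq_cont hE.ckt hE.dkap hE.kap0 hE.dJ hE.J0.le
      (fun s hs => (hE.hj s hs).ge) ht

theorem Ek.A_kp {E : Ek} (hE : E.Ok) {t : ℝ} (ht : t ∈ Icc (0 : ℝ) 1) :
    A qq E.kp t = E.Jp t := by
  refine le_antisymm ?_ ?_
  · exact A_le_of qq_cont hE.ckp hE.dkapp hE.kapp0 hE.dJp hE.Jp0.ge
      (fun s hs => (hE.hjp s hs).le) ht
  · exact A_ge_of qq_cont hE.ckp hE.dkapp hE.kapp0 hE.dJp hE.Jp0.le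
      (fun s hs => (hE.hjp s hs).ge) ht

theorem Ek.A_kp1 {E : Ek} (hE : E.Ok) : A qq E.kp 1 = E.rho * E.J 1 := by
  rw [E.A_kp hE ⟨zero_le_one, le_rfl⟩, hE.Jp1]

theorem Ek.I_kp {E : Ek} (hE : E.Ok) {t : ℝ} (ht : t ∈ Icc (0 : ℝ) 1) : I E.kp t = E.kapp t :=
  I_eq hE.ckp hE.dkapp hE.kapp0 ht

theorem Ek.Jp_nonneg {E : Ek} (hE : E.Ok) {t : ℝ} (ht : t ∈ Icc (0 : ℝ) 1) : 0 ≤ E.Jp t := by
  rw [← E.A_kp hE ht]
  exact A_nonneg qq_cont (fun s hs => (qq_pos hs).le) hE.ckp.integrableOn_Icc hE.kpn ht.1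

theorem Ek.J_nonneg {E : Ek} (hE : E.Ok) {t : ℝ} (ht : t ∈ Icc (0 : ℝ) 1) : 0 ≤ E.J t := by
  rw [← E.A_kt hE ht]
  exact A_nonneg qq_cont (fun s hs => (qq_pos hs).le) hE.ckt.integrableOn_Icc hE.ktn ht.1

theorem Ek.abf_pos {E : Ek} (hE : E.Ok) {t : ℝ} (ht : t ∈ Icc (0 : ℝ) 1) : 0 < E.abf t := by
  unfold Ek.abf
  have h1 : 0 < (1 + t)⁻¹ := inv_pos.2 (by linarith [ht.1])
  have h2 := mul_nonneg hE.th0 (hE.z0 t ht)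
  linarith

theorem Ek.abf_deriv {E : Ek} (hE : E.Ok) {t : ℝ} (ht : t ∈ Icc (0 : ℝ) 1) :
    HasDerivAt E.abf (-qq t + E.th * E.ze' t) t := by
  have hr0 : (1 + t) ≠ 0 := by linarith [ht.1]
  have h1 : HasDerivAt (fun s : ℝ => (1 + s)⁻¹) (-qq t) t := by
    have := (((hasDerivAt_id t).const_add 1).inv hr0)
    refine this.congr_deriv ?_
    unfold qq
    simp only [id]; rw [neg_div, one_div]
  exact h1.add ((hE.dz t ht).const_mul _)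

theorem Ek.r_deriv {E : Ek} (hE : E.Ok) {t : ℝ} (ht : t ∈ Icc (0 : ℝ) 1) :
    HasDerivAt (fun t => (E.abf t)⁻¹) ((qq t - E.th * E.ze' t) / (E.abf t) ^ 2) t := by
  refine ((E.abf_deriv hE ht).inv (E.abf_pos hE ht).ne').congr_deriv ?_
  congr 1
  ring

theorem Ek.abf_cont {E : Ek} (hE : E.Ok) : ContinuousOn E.abf (Icc 0 1) :=
  fun _ ht => (E.abf_deriv hE ht).continuousAt.continuousWithinAt

theorem Ek.r'_cont {E : Ek} (hE : E.Ok) :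
    ContinuousOn (fun t => (qq t - E.th * E.ze' t) / (E.abf t) ^ 2) (Icc 0 1) :=
  (qq_cont.sub (continuousOn_const.mul hE.cz)).div ((E.abf_cont hE).pow 2)
    fun _ ht => (pow_pos (E.abf_pos hE ht) 2).ne'

theorem Ek.M_nonneg {E : Ek} (hE : E.Ok) {t : ℝ} (ht : t ∈ Icc (0 : ℝ) 1) :
    0 ≤ E.G t + E.J t := by
  refine nonneg_of_forward (a := 0) (s := 1)
    (U := fun t => E.G t + E.J t) (U' := fun t => E.G' t + E.j t)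
    (fun r hr => (hE.dG r hr).add (hE.dJ r hr))
    (by rw [hE.G0, hE.J0, add_zero])
    (fun r hr _ => hE.mn r hr) t ht

theorem Ek.ok {E : Ek} (hE : E.Ok) {c : Cf} {g : Cg} (hab : ∀ x t, c.ab x t = E.abf t)
    (hnb : c.nb = E.nb)
    (hgm : ∀ x ∈ Icc (0 : ℝ) 1, ∀ t ∈ Icc (0 : ℝ) 1,
      E.SP * (1 - x) * E.jp t ≤ g.gm x t)
    (hX : ∀ x ∈ Icc (0 : ℝ) 1, ∀ t ∈ Icc (0 : ℝ) 1, g.X x t = qq t)
    (hkl : ∀ x ∈ Icc (0 : ℝ) 1, ∀ y ∈ Icc (0 : ℝ) 1, x + y ≤ 1 → ∀ t ∈ Icc (0 : ℝ) 1,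
      (E.rho * ((1 + t) ^ 2 * (E.G' t + E.j t)) + x * E.W1 t)
        * (E.ka y / 2) ≤ g.kl x y t)
    (hK3 : ∀ x ∈ Icc (0 : ℝ) 1, ∀ t ∈ Icc (0 : ℝ) 1, 0 ≤ g.K3 x t) :
    E.kd.Ok c g where
  hM :=
    { d := fun t ht => ((hE.dG t ht).add (hE.dJ t ht)).div_const _
      c := (hE.cG.add hE.cj).div_const _
      M0 := by
        show (E.G 0 + E.J 0) / E.J 1 = 0
        rw [hE.G0, hE.J0, add_zero, zero_div]
      M1 := by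
        show (E.G 1 + E.J 1) / E.J 1 = 1
        rw [hE.G1, zero_add, div_self hE.J1.ne']
      n := fun t ht => div_nonneg (E.M_nonneg hE ht) hE.J1.le
      lb := fun t ht h1 => by
        show 2 * (1 - (1 + t)⁻¹) ≤ (E.G t + E.J t) / E.J 1
        have hT : 0 < 1 + t := by linarith [ht.1]
        rw [le_div_iff₀ hE.J1]
        have h2 := hE.lb t ht h1
        have e : 2 * (1 - (1 + t)⁻¹) * E.J 1 = (2 * t * E.J 1) / (1 + t) := by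
          field_simp
          ring
        rw [e, div_le_iff₀ hT]
        linarith }
  M'n t ht := div_nonneg (hE.mn t ht) hE.J1.le
  M'0 := by
    show (E.G' 0 + E.j 0) / E.J 1 = 0
    have : E.j 0 = 0 := by
      rw [← hE.hj 0 ⟨le_rfl, zero_le_one⟩, hE.kap0, mul_zero]
    rw [hE.G'0, this, add_zero, zero_div]
  kTi := hE.ckt.integrableOn_Icc
  kPi := hE.ckp.integrableOn_Icc
  kTn := hE.ktn
  kPn := hE.kpn
  sTn := hE.sTn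
  sTS := hE.sTS
  STn := hE.STn
  kan x _ y hy _ := hE.kan y hy
  kaS x _ y hy _ := hE.kaS y hy
  cSn x _ := hE.SPn
  GT1 t ht h1 := by
    show (E.G t + E.J t) / E.J 1 * A qq E.kt 1 - A qq E.kt t ≤ E.Gs t
    rw [E.A_kt hE ⟨zero_le_one, le_rfl⟩, E.A_kt hE ht, div_mul_cancel₀ _ hE.J1.ne']
    have := hE.Gs1 t ht h1
    linarith
  GT2 t ht h1 := by
    show (E.G t + E.J t) / E.J 1 * A qq E.kt 1 ≤ E.Gs t
    rw [E.A_kt hE ⟨zero_le_one, le_rfl⟩, div_mul_cancel₀ _ hE.J1.ne']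
    exact hE.Gs2 t ht h1
  k10 := hE.k10
  sTk := hE.sTk
  GP1 t ht h1 := by
    show (E.G t + E.J t) / E.J 1 * A qq E.kp 1 - A qq E.kp t ≤ E.Gp t
    rw [E.A_kp1 hE, E.A_kp hE ht]
    have e : (E.G t + E.J t) / E.J 1 * (E.rho * E.J 1) = E.rho * (E.G t + E.J t) := by
      have := hE.J1.ne'
      field_simp
    rw [e]
    exact hE.Gp1 t ht h1
  GP2 t ht h1 := by
    show (E.G t + E.J t) / E.J 1 * A qq E.kp 1 ≤ E.Gp t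
    rw [E.A_kp1 hE]
    have e : (E.G t + E.J t) / E.J 1 * (E.rho * E.J 1)
        = E.rho * (E.G t + E.J t) := by
      have := hE.J1.ne'
      field_simp
    rw [e]
    exact hE.Gp2 t ht h1
  GPc := hE.cGp
  nb t ht h1 := by
    show E.ST * A qq E.kt t ≤ c.nb t
    have h2 : t < E.t1 := h1
    rw [hnb, E.A_kt hE ht]
    unfold Ek.nb
    rw [if_pos h2]
  nb0 t ht := by
    rw [hnb]
    unfold Ek.nb
    have := E.J_nonneg hE ht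
    split_ifs
    · exact mul_nonneg hE.STn this
    · exact le_rfl
  gm x hx t ht := by
    show qq t * I E.kp t * ((1 - x) * E.SP) ≤ g.gm x t
    rw [E.I_kp hE ht]
    refine le_trans (le_of_eq ?_) (hgm x hx t ht)
    rw [← hE.hjp t ht]
    ring
  dr x _ t ht := E.r_deriv hE ht
  cr x _ := E.r'_cont hE
  rn x _ t ht := (inv_pos.2 (E.abf_pos hE ht)).le
  r'n x _ t ht := div_nonneg (sub_nonneg.2 (hE.rn t ht)) (pow_pos (E.abf_pos hE ht) 2).le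
  rab x _ t ht := by
    show (E.abf t)⁻¹ * c.ab x t = 1
    rw [hab]
    exact inv_mul_cancel₀ (E.abf_pos hE ht).ne'
  JP x _ t ht := by
    show ∫ s in (0 : ℝ)..t, E.Gp (cl s)
      * ((qq (cl s) - E.th * E.ze' (cl s)) / (E.abf (cl s)) ^ 2) ≤ E.V t
    refine int_le_of (t1 := 1) (F := E.V) (F' := E.V')
      ((comp_cl hE.cGp).mul (comp_cl (E.r'_cont hE)))
      hE.dV hE.V0 (fun s hs => ?_) ht
    show E.Gp (cl s) * ((qq (cl s) - E.th * E.ze' (cl s)) / (E.abf (cl s)) ^ 2) ≤ E.V' s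
    rw [cl_eq hs]
    refine le_trans ?_ (hE.V' s hs)
    refine mul_le_mul_of_nonneg_left ?_ (hE.Gp0 s hs)
    rw [div_le_iff₀ (pow_pos (E.abf_pos hE hs) 2)]
    exact hE.rD s hs
  AP t ht _ := by
    show A qq E.kp t ≤ E.Jp t
    rw [E.A_kp hE ht]
  wc1 x hx t ht h1 := by
    show (1 + t) ^ 2 * ((E.G' t + E.j t) / E.J 1) * A qq E.kp 1
      + 2 * x * E.V t ≤ E.rho * ((1 + t) ^ 2 * (E.G' t + E.j t)) + x * E.W1 t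
    rw [E.A_kp1 hE]
    have e : (1 + t) ^ 2 * ((E.G' t + E.j t) / E.J 1) * (E.rho * E.J 1)
        = E.rho * ((1 + t) ^ 2 * (E.G' t + E.j t)) := by
      have := hE.J1.ne'
      field_simp
    rw [e]
    have := mul_le_mul_of_nonneg_left (hE.W11 t ht h1) hx.1
    linarith
  wc2 x hx t ht h1 := by
    show (1 + t) ^ 2 * ((E.G' t + E.j t) / E.J 1) * A qq E.kp 1
      + 2 * x * ((E.abf t)⁻¹ * E.Jp t + E.V t)
      ≤ E.rho * ((1 + t) ^ 2 * (E.G' t + E.j t)) + x * E.W1 t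
    rw [E.A_kp1 hE]
    have e : (1 + t) ^ 2 * ((E.G' t + E.j t) / E.J 1) * (E.rho * E.J 1)
        = E.rho * ((1 + t) ^ 2 * (E.G' t + E.j t)) := by
      have := hE.J1.ne'
      field_simp
    rw [e]
    have hr : (E.abf t)⁻¹ ≤ 1 + t := by
      have hT : 0 < 1 + t := by linarith [ht.1]
      have h2 : (1 + t)⁻¹ ≤ E.abf t := by
        unfold Ek.abf
        have := mul_nonneg hE.th0 (hE.z0 t ht)
        linarith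
      have := inv_anti₀ (inv_pos.2 hT) h2
      rwa [inv_inv] at this
    have h2 := mul_le_mul_of_nonneg_right hr (E.Jp_nonneg hE ht)
    have h3 := mul_le_mul_of_nonneg_left (hE.W12 t ht h1) hx.1
    have h4 := mul_le_mul_of_nonneg_left h2 hx.1
    nlinarith
  X := hX
  kl := hkl
  K3 := hK3

end Pool.Agent.RZ.RCN.K
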