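import Mathlib

/-! The inequality of the pairs: one side of the walk rate from the rows and columns of the
exponents of the closures (MP_73ccd0_lc, route M). -/

namespace Pool.Agent.RZ.RCN.K

open Set Finset MeasureTheory

set_option linter.unusedSectionVars false

variable {V : Type*} [Fintype V] [DecidableEq V]
variable {x : V → V → ℝ} {P : V → Prop} [DecidablePred P] {N : ℕ}

variable {κd : ℝ → ℝ → ℝ → ℝ} {R : V → V → V → ℝ → ℝ → ℝ} {L Lt : V → V → V → V → ℝ → ℝ → ℝ}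

/-- the amplification -/
noncomputable def psf (α γ z w : ℝ) : ℝ := ((1 - z * (α * (1 + γ * w))) ^ 2)⁻¹

theorem psf_nonneg (α γ z w : ℝ) : 0 ≤ psf α γ z w := inv_nonneg.2 (sq_nonneg _)

/-- the exponents between real vertices -/
noncomputable def rP (P : V → Prop) [DecidablePred P] (L : V → V → V → V → ℝ → ℝ → ℝ)
    (a b c d : V) (t s : ℝ) : ℝ :=
  if P c ∧ P d then L a b c d t s else 0

variable {a b : V} {t γ : ℝ} {κ0 Fs ρ : ℝ → ℝ} {l1 l2 h1 h2 : ℝ → ℝ → ℝ}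

theorem amgm {θ a b : ℝ} (h : 0 < θ) : a * b ≤ (θ * a ^ 2 + θ⁻¹ * b ^ 2) / 2 := by
  have h1 := sq_nonneg (θ * a - b)
  have h2 : 0 ≤ θ⁻¹ * (θ * a - b) ^ 2 := mul_nonneg (inv_nonneg.2 h.le) h1
  have h3 : θ⁻¹ * (θ * a - b) ^ 2 = θ * a ^ 2 + θ⁻¹ * b ^ 2 - 2 * (a * b) := by
    field_simp
    ring
  linarith

/-- the amplified weight -/
noncomputable def vw (g : ℝ → ℝ) (α γ u y z : ℝ) : ℝ := y * g y * psf α γ z (u + y)

end Pool.Agent.RZ.RCN.K
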