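import Pool.Agent.RZ.RCN.Eb

/-! The first part of the inequality of the centres (MP_73ccd0_lc, route M). -/

namespace Pool.Agent.RZ.RCN.K

open Set Finset MeasureTheory Pool.Agent.RZ.RCRSHalf Pool.Agent.RZ.RCG Pool.Agent.RZ.RCG.Ct
open Pool.Agent.RZ.RCN.Ker Pool.Agent.RZ.RCRS

set_option linter.unusedSectionVars false

/-! ### scalar inequalities -/

variable {V : Type*} [Fintype V] [DecidableEq V]

variable {x : V → V → ℝ} {P : V → Prop} [DecidablePred P] {k : Kf} {N : ℕ}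
variable {κd : ℝ → ℝ → ℝ → ℝ} {R : V → V → V → ℝ → ℝ → ℝ} {L Lt : V → V → V → V → ℝ → ℝ → ℝ}

/-- the rows without two entries -/
theorem row_two (hx : Wt x P 1) (b : V) {a : V} {c : V} (hac : a ≠ c) (S : Finset V)
    (hS : ∀ d ∈ S, d ≠ a ∧ d ≠ c) : ∑ d ∈ S, x b d ≤ 1 - x b a - x b c := by
  have ha : a ∉ insert c S := by
    rw [Finset.mem_insert]
    rintro (h | h)
    · exact hac h
    · exact (hS a h).1 rfl
  have hc : c ∉ S := fun h => (hS c h).2 rfl
  have h1 : ∑ d ∈ insert a (insert c S), x b d ≤ ∑ d, x b d :=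
    Finset.sum_le_sum_of_subset_of_nonneg (Finset.subset_univ _) fun e _ _ => hx.nonneg b e
  rw [Finset.sum_insert ha, Finset.sum_insert hc] at h1
  have := h1.trans (hx.row b)
  linarith

theorem row_one (hx : Wt x P 1) (b a : V) (S : Finset V)
    (hS : ∀ d ∈ S, d ≠ a) : ∑ d ∈ S, x b d ≤ 1 - x b a := by
  have ha : a ∉ S := fun h => hS a h rfl
  have h1 : ∑ d ∈ insert a S, x b d ≤ ∑ d, x b d :=
    Finset.sum_le_sum_of_subset_of_nonneg (Finset.subset_univ _) fun e _ _ => hx.nonneg b e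
  rw [Finset.sum_insert ha] at h1
  have := h1.trans (hx.row b)
  linarith

theorem mem3 {a b c d : V} : d ∈ ({a, b, c} : Finset V)ᶜ ↔ d ≠ a ∧ d ≠ b ∧ d ≠ c := by
  simp only [Finset.mem_compl, Finset.mem_insert, Finset.mem_singleton, not_or]

theorem mem2 {a b d : V} : d ∈ ({a, b} : Finset V)ᶜ ↔ d ≠ a ∧ d ≠ b := by
  simp only [Finset.mem_compl, Finset.mem_insert, Finset.mem_singleton, not_or]

theorem E_nonneg' (hf : Lf N k κd R L Lt) (hx : Wt x P 1) (hk : k.Ok) (a : V) {b c : V}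
    (hbc : b ≠ c) {t : ℝ} (ht : t ∈ Icc (0 : ℝ) 1) :
    0 ≤ (xdOf x κd R L Lt).E x P k a b c t := by
  rw [E_eq]
  refine intervalIntegral.integral_nonneg ht.1 fun s hs' => ?_
  unfold rtL
  exact add_nonneg (mul_nonneg (mul_nonneg (hx.nonneg b c) (fq_nonneg' hk hx b c
    ⟨hs'.1, hs'.2.trans ht.2⟩)) (sub_nonneg.2 (hf.κP _ (two_mem hx a hbc) t s hs'.1
      hs'.2 ht.2)))
    (Finset.sum_nonneg fun d _ => mul_nonneg (flux_nonneg hx hk hf.κP a b d ht hs')
      (nuL_nonneg (llL_nonneg hf hs'.1 hs'.2 ht.2)))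

end Pool.Agent.RZ.RCN.K
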