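import Pool.Agent.RZ.RCN.Jn
import Pool.Agent.RZ.RCN.T1A

/-! The linear error of a centre from the rows and entries of the exponents of the closures
(MP_73ccd0_lc, route M). -/

namespace Pool.Agent.RZ.RCN.K

open Set Finset MeasureTheory Pool.Agent.RZ.RCRSHalf Pool.Agent.RZ.RCG Pool.Agent.RZ.RCG.Ct
open Pool.Agent.RZ.RCN.Ker Pool.Agent.RZ.RCRS Pool.Agent.RZ.RCM.Jen

set_option linter.unusedSectionVars false

variable {V : Type*} [Fintype V] [DecidableEq V]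
variable {x : V → V → ℝ} {P : V → Prop} [DecidablePred P] {k : Kf} {N : ℕ}
variable {κd : ℝ → ℝ → ℝ → ℝ} {R : V → V → V → ℝ → ℝ → ℝ} {L Lt : V → V → V → V → ℝ → ℝ → ℝ}

/-- exchange of two sums over distinct vertices outside the pair -/
theorem swap_tri (a b : V) (f : V → V → ℝ) :
    ∑ c ∈ ({a, b} : Finset V)ᶜ, ∑ d ∈ ({a, b, c} : Finset V)ᶜ, f c d
      = ∑ d ∈ ({a, b} : Finset V)ᶜ, ∑ c ∈ ({a, b, d} : Finset V)ᶜ, f c d := by
  rw [Finset.sum_comm' (t' := ({a, b} : Finset V)ᶜ) (s' := fun d => ({a, b, d} : Finset V)ᶜ)]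
  intro c d
  rw [mem2, mem2, mem3, mem3]
  constructor
  · rintro ⟨h1, h2, h3, h4⟩
    exact ⟨⟨h1.1, h1.2, Ne.symm h4⟩, h2, h3⟩
  · rintro ⟨⟨h1, h2, h3⟩, h4, h5⟩
    exact ⟨⟨h1, h2⟩, h4, h5, Ne.symm h3⟩

variable {a b : V} {t γ : ℝ} {κ0 Fs : ℝ → ℝ} {rA eA : V → ℝ → ℝ} {rH eH : ℝ → ℝ}
  {RA RH EA EH : ℝ}

/-- the integral of one term of the linear error -/
theorem lam_term (hf : Lf N k κd R L Lt) (hx : Wt x P 1)
    (hfc : ∀ y ∈ Icc (0 : ℝ) 1, ContinuousOn (k.fh y) (Icc 0 1)) (ht : t ∈ Icc (0 : ℝ) 1)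
    (a b c d : V) :
    (∫ s in (0 : ℝ)..t, (flx x P k κd a b d t s * L a b c d t s
      + muL x P k κd a b c t s * (R a b d t s * Lt a b c d t s)))
      = (∫ s in (0 : ℝ)..t, flx x P k κd a b d t s * L a b c d t s)
        + ∫ s in (0 : ℝ)..t, muL x P k κd a b c t s * (R a b d t s * Lt a b c d t s) := by
  have cF := flx_slice hf hx hfc a b d ht
  have cL : ContinuousOn (L a b c d t) (Icc 0 t) := (hf.cL a b c d).slice hf.N0 ht
  have cLt : ContinuousOn (Lt a b c d t) (Icc 0 t) := (hf.cLt a b c d).slice hf.N0 ht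
  have cR : ContinuousOn (R a b d t) (Icc 0 t) := (hf.cR a b d).slice hf.N0 ht
  have cS : ContinuousOn (fun s => ∑ d ∈ ({a, b, c} : Finset V)ᶜ, flx x P k κd a b d t s)
      (Icc 0 t) := continuousOn_finsetSum _ fun d _ => flx_slice hf hx hfc a b d ht
  have cm : ContinuousOn (muL x P k κd a b c t) (Icc 0 t) := prim_cont ht.1 cS
  exact int_add2 ht.1 (cF.mul cL) (cm.mul (cR.mul cLt))

theorem mu_cont (hf : Lf N k κd R L Lt) (hx : Wt x P 1)
    (hfc : ∀ y ∈ Icc (0 : ℝ) 1, ContinuousOn (k.fh y) (Icc 0 1)) (ht : t ∈ Icc (0 : ℝ) 1)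
    (a b c : V) : ContinuousOn (muL x P k κd a b c t) (Icc 0 t) :=
  prim_cont ht.1 (continuousOn_finsetSum _ fun d _ => flx_slice hf hx hfc a b d ht)

end Pool.Agent.RZ.RCN.K
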