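import Pool.Agent.RZ.RCG.CtA
import Pool.Agent.RZ.RCM.GrL

/-! The rate of the second type at a fixed time (MP_73ccd0_lc, route M). -/

namespace Pool.Agent.RZ.RCN.K

open Set Finset MeasureTheory Pool.Agent.RZ.RCG Pool.Agent.RZ.RCG.Ct

open Pool.Agent.RZ.RCM

set_option linter.unusedSectionVars false

variable {V : Type*} [Fintype V] [DecidableEq V]
variable {x : V → V → ℝ} {P : V → Prop} [DecidablePred P] {N : ℕ}

variable {sl : ℝ → ℝ → ℝ}
variable {κd : ℝ → ℝ → ℝ → ℝ} {R : V → V → V → ℝ → ℝ → ℝ} {L Lt : V → V → V → V → ℝ → ℝ → ℝ}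

theorem wg_xr (hx : Wt x P 1) : Gr.Wg (xr x P) :=
  ⟨fun a b => xr_symm hx a b, fun a b => xr_nonneg hx a b, fun a => xr_diag hx a,
    fun a => xr_row hx a⟩

/-! ### the closures -/

end Pool.Agent.RZ.RCN.K
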