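import Pool.Agent.RZ.RCN.Esw

/-! The integrals of the chains of the second type (MP_73ccd0_lc, route M). -/

namespace Pool.Agent.RZ.RCN.K

open Set Finset MeasureTheory Pool.Agent.RZ.RCRSHalf Pool.Agent.RZ.RCG Pool.Agent.RZ.RCG.Ct
open Pool.Agent.RZ.RCN.Ker Pool.Agent.RZ.RCRS Pool.Agent.RZ.RCM

set_option linter.unusedSectionVars false

variable {V : Type*} [Fintype V] [DecidableEq V]

/-- finite sums of integrals -/
theorem sum3_int_le {τ : ℝ} (hτ : 0 ≤ τ) {A : Finset V} {B : V → Finset V}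
    {C : V → V → Finset V} {c : V → V → V → ℝ} {F : V → V → V → ℝ → ℝ}
    (hF : ∀ b d e, ContinuousOn (F b d e) (Icc 0 τ)) {G : ℝ → ℝ} (hG : ContinuousOn G (Icc 0 τ))
    (h : ∀ r ∈ Icc 0 τ, ∑ b ∈ A, ∑ d ∈ B b, ∑ e ∈ C b d, c b d e * F b d e r ≤ G r) :
    ∑ b ∈ A, ∑ d ∈ B b, ∑ e ∈ C b d, c b d e * ∫ r in (0 : ℝ)..τ, F b d e r
      ≤ ∫ r in (0 : ℝ)..τ, G r := by
  have c0 : ∀ b d e, ContinuousOn (fun r => c b d e * F b d e r) (Icc 0 τ) :=
    fun b d e => continuousOn_const.mul (hF b d e)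
  have c1 : ∀ b d, ContinuousOn (fun r => ∑ e ∈ C b d, c b d e * F b d e r) (Icc 0 τ) :=
    fun b d => continuousOn_finsetSum _ fun e _ => c0 b d e
  have c2 : ∀ b, ContinuousOn (fun r => ∑ d ∈ B b, ∑ e ∈ C b d, c b d e * F b d e r)
      (Icc 0 τ) := fun b => continuousOn_finsetSum _ fun d _ => c1 b d
  have c3 : ContinuousOn (fun r => ∑ b ∈ A, ∑ d ∈ B b, ∑ e ∈ C b d, c b d e * F b d e r)
      (Icc 0 τ) := continuousOn_finsetSum _ fun b _ => c2 b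
  have e : ∑ b ∈ A, ∑ d ∈ B b, ∑ e ∈ C b d, c b d e * ∫ r in (0 : ℝ)..τ, F b d e r
      = ∫ r in (0 : ℝ)..τ, ∑ b ∈ A, ∑ d ∈ B b, ∑ e ∈ C b d, c b d e * F b d e r := by
    rw [intervalIntegral.integral_finsetSum fun b _ => iiC hτ (c2 b)]
    refine Finset.sum_congr rfl fun b _ => ?_
    rw [intervalIntegral.integral_finsetSum fun d _ => iiC hτ (c1 b d)]
    refine Finset.sum_congr rfl fun d _ => ?_
    rw [intervalIntegral.integral_finsetSum fun e _ => iiC hτ (c0 b d e)]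
    exact Finset.sum_congr rfl fun e _ => (intervalIntegral.integral_const_mul _ _).symm
  rw [e]
  exact intervalIntegral.integral_mono_on hτ (iiC hτ c3) (iiC hτ hG) h

variable {x : V → V → ℝ} {P : V → Prop} [DecidablePred P] {k : Kf} {N : ℕ} {Z : Hzd}
variable {sl : ℝ → ℝ → ℝ} {bw : ℝ} {B Bd : ℝ → ℝ → ℝ} {M : ℝ → ℝ}

variable {t s : ℝ} {T' Y τ lam ν : ℝ → ℝ} {a : V} {g : V → V → ℝ}

theorem xr_eq {u v : V} (hu : P u) (hv : P v) : xr x P u v = x u v := by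
  unfold xr; rw [if_pos ⟨hu, hv⟩]

end Pool.Agent.RZ.RCN.K
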