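import Pool.Agent.RZ.RCM.GrX
import Pool.Agent.RZ.RCN.T2s

/-! The rate of the second type at a fixed time, all parts (MP_73ccd0_lc, route M). -/

namespace Pool.Agent.RZ.RCN.K

open Set Finset MeasureTheory Pool.Agent.RZ.RCRSHalf Pool.Agent.RZ.RCG Pool.Agent.RZ.RCG.Ct
open Pool.Agent.RZ.RCN.Ker Pool.Agent.RZ.RCRS Pool.Agent.RZ.RCM

set_option linter.unusedSectionVars false

/-- the weights of the hazard part -/
theorem wt_le3 {F u t χ : ℝ} (hF : 0 ≤ F) (hu : 0 ≤ u) (ht : 0 ≤ t) (hχ : 0 ≤ χ) :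
    F * ((1 + u * t) * (1 - u) + t * χ) ≤ F * ((1 + u * t) * ((1 - u) + t * χ)) := by
  refine mul_le_mul_of_nonneg_left ?_ hF
  have := mul_nonneg (mul_nonneg hu ht) (mul_nonneg ht hχ)
  nlinarith

variable {V : Type*} [Fintype V] [DecidableEq V]
variable {x : V → V → ℝ} {P : V → Prop} [DecidablePred P] {k : Kf} {N : ℕ} {Z : Hzd}
variable {sl : ℝ → ℝ → ℝ} {bw : ℝ} {B Bd : ℝ → ℝ → ℝ} {M : ℝ → ℝ}
variable {κd : ℝ → ℝ → ℝ → ℝ} {R : V → V → V → ℝ → ℝ → ℝ} {L Lt : V → V → V → V → ℝ → ℝ → ℝ}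
variable {t s : ℝ} {T' Y τ lam ν : ℝ → ℝ} {a : V} {g : V → V → ℝ}

/-- the common neighbours are in `P` -/
theorem chi_eq (hx : Wt x P 1) {a b : V} (ha : P a) (hb : P b) (hab : a ≠ b) :
    ∑ e ∈ ({a, b} : Finset V)ᶜ, x b e * x a e = Gr.chi (xr x P) a b := by
  unfold Gr.chi
  refine Finset.sum_congr rfl fun e _ => ?_
  by_cases he : P e
  · rw [xr_eq hb he, xr_eq ha he]
  · have h1 : xr x P b e = 0 := by unfold xr; rw [if_neg fun h => he h.2]
    rw [h1, zero_mul]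
    by_cases h2 : x a e = 0
    · rw [h2, mul_zero]
    · have h3 : x e b = 0 := by
        by_contra h4
        exact hab (hx.pend1 a e b he h2 h4).symm
      rw [hx.symm b e, h3, zero_mul]

end Pool.Agent.RZ.RCN.K
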