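import Pool.Agent.RZ.RCN.Esw
import Pool.Agent.RZ.RCN.Jn

/-! The second type: from the rates to the sum of the walk rates (MP_73ccd0_lc, route M). -/

namespace Pool.Agent.RZ.RCN.K

open Set Finset MeasureTheory Pool.Agent.RZ.RCRSHalf Pool.Agent.RZ.RCG Pool.Agent.RZ.RCG.Ct
open Pool.Agent.RZ.RCN.Ker Pool.Agent.RZ.RCRS Pool.Agent.RZ.RCM Pool.Agent.RZ.RCM.Jen

set_option linter.unusedSectionVars false

variable {V : Type*} [Fintype V] [DecidableEq V]
variable {x : V → V → ℝ} {P : V → Prop} [DecidablePred P] {k : Kf} {N : ℕ}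
variable {κd : ℝ → ℝ → ℝ → ℝ} {R : V → V → V → ℝ → ℝ → ℝ} {L Lt : V → V → V → V → ℝ → ℝ → ℝ}

/-- the mass without the third vertex is smaller -/
theorem muL_mua (hf : Lf N k κd R L Lt) (hx : Wt x P 1) (hk : k.Ok)
    (hfc : ∀ y ∈ Icc (0 : ℝ) 1, ContinuousOn (k.fh y) (Icc 0 1)) (a b c : V) {t s : ℝ}
    (ht : t ∈ Icc (0 : ℝ) 1) (hs : s ∈ Icc 0 t) :
    muL x P k κd a b c t s ≤ mua x P k κd a b t s := by
  have hsub : Icc (0 : ℝ) s ⊆ Icc 0 t := Icc_subset_Icc_right hs.2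
  have cF : ∀ d, ContinuousOn (flx x P k κd a b d t) (Icc 0 t) := fun d =>
    flx_slice hf hx hfc a b d ht
  refine intervalIntegral.integral_mono_on hs.1
    (iiC hs.1 (continuousOn_finsetSum _ fun d _ => (cF d).mono hsub))
    (iiC hs.1 (continuousOn_finsetSum _ fun d _ => (cF d).mono hsub)) fun r hr => ?_
  exact sum3_le fun d _ => flux_nonneg hx hk hf.κP a b d ht ⟨hr.1, hr.2.trans hs.2⟩

/-- the linear part with the full mass -/
theorem LamL_le (hf : Lf N k κd R L Lt) (hx : Wt x P 1) (hk : k.Ok)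
    (hfc : ∀ y ∈ Icc (0 : ℝ) 1, ContinuousOn (k.fh y) (Icc 0 1)) (a b d : V) {t : ℝ}
    (ht : t ∈ Icc (0 : ℝ) 1) :
    LamL x P k κd R L Lt b a d t ≤ ∑ e ∈ ({a, b, d} : Finset V)ᶜ, ∫ s in (0 : ℝ)..t,
      (flx x P k κd b a e t s * L b a d e t s
        + mua x P k κd b a t s * (R b a e t s * Lt b a d e t s)) := by
  unfold LamL
  rw [Finset.insert_comm b a {d}]
  refine Finset.sum_le_sum fun e _ => ?_
  have cF : ContinuousOn (flx x P k κd b a e t) (Icc 0 t) := flx_slice hf hx hfc b a e ht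
  have cL : ContinuousOn (L b a d e t) (Icc 0 t) := (hf.cL b a d e).slice hf.N0 ht
  have cLt : ContinuousOn (Lt b a d e t) (Icc 0 t) := (hf.cLt b a d e).slice hf.N0 ht
  have cR : ContinuousOn (R b a e t) (Icc 0 t) := (hf.cR b a e).slice hf.N0 ht
  have cmu : ContinuousOn (mua x P k κd b a t) (Icc 0 t) :=
    (mua_cn hfc hx hf.cκ b a).slice hf.N0 ht
  have cm : ContinuousOn (muL x P k κd b a d t) (Icc 0 t) :=
    prim_cont ht.1 (continuousOn_finsetSum _ fun e _ => flx_slice hf hx hfc b a e ht)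
  refine intervalIntegral.integral_mono_on ht.1
    (iiC ht.1 ((cF.mul cL).add (cm.mul (cR.mul cLt))))
    (iiC ht.1 ((cF.mul cL).add (cmu.mul (cR.mul cLt)))) fun s hs => ?_
  exact add_le_add le_rfl (mul_le_mul_of_nonneg_right (muL_mua hf hx hk hfc b a d ht hs)
    (mul_nonneg (hf.R0 b a e t s hs.1 hs.2 ht.2) (hf.Lt0 b a d e t s hs.1 hs.2 ht.2)))

end Pool.Agent.RZ.RCN.K
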