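import Pool.Agent.RZ.RCN.Asm
import Pool.Agent.RZ.RCN.Eb

/-! The assembly: the remaining inequalities (MP_73ccd0_lc, route M). -/

namespace Pool.Agent.RZ.RCN.K

open Set Finset MeasureTheory Pool.Agent.RZ.RCRSHalf Pool.Agent.RZ.RCG Pool.Agent.RZ.RCG.Ct
open Pool.Agent.RZ.RCN.Ker Pool.Agent.RZ.RCRS

set_option linter.unusedSectionVars false

variable {V : Type} [Fintype V] [DecidableEq V]
variable {Gr : SimpleGraph V} [Fintype Gr.edgeSet] [DecidableEq Gr.edgeSet]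

/-- the rates of the released pairs -/
noncomputable def Da.R (D : Da V) (x : Gr.edgeSet → ℝ) :
    V ⊕ V → V ⊕ V → V ⊕ V → ℝ → ℝ → ℝ :=
  rha D.Z (xe x) (P0 V) D.k D.Th D.Y D.κd D.κ

/-- the exponents of the deleted closures -/
noncomputable def Da.L (D : Da V) :
    V ⊕ V → V ⊕ V → V ⊕ V → V ⊕ V → ℝ → ℝ → ℝ :=
  Lc (P0 V) D.C

/-- the exponents of the released closures -/
noncomputable def Da.Lt (D : Da V) :
    V ⊕ V → V ⊕ V → V ⊕ V → V ⊕ V → ℝ → ℝ → ℝ :=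
  Lr (P0 V) D.C

theorem Da.lf {D : Da V} (hD : D.Ok) {x : Gr.edgeSet → ℝ} [Pool.Agent.RZ.RCG.CX x] (hx : IsFractionalMatching Gr x)
    (hC : Cls D.Z (xe x) (P0 V) D.C) :
    Lf D.C.N D.k D.κd (D.R x) D.L D.Lt := by
  have hw := wt_xe hx zero_le_one le_rfl fun e => (hx.1 e).2
  have kok : D.k.Ok := Dt.kf_ok hD.T hD.k
  have kq := Dt.kq hD.T hD.k
  exact
    { N0 := hC.N0
      cκ := hD.cκ
      κP := hD.κP
      cR := fun a b d => rha_cn hD.kap.k0 hD.Z hw hD.Th hD.Y kq.fc hD.cκ a b d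
      R0 := fun a b d t s h0 h1 h2 => rha_nonneg hD.kap.k0 hD.Z hw kok hD.κP a b d
        ⟨h0.trans h1, h2⟩ ⟨h0, h1⟩
      cL := hC.cnd
      cLt := hC.cnr
      L0 := fun a b c d t s _ _ _ => Lc_nonneg a b c d t s
      Lt0 := fun a b c d t s _ _ _ => Lr_nonneg a b c d t s }

/-- the conditions of the gap -/
structure Gp (D : Da V) (δ : ℝ) (A : ℝ → ℝ → ℝ) (α γ : ℝ → ℝ) : Prop where
  d0 : 0 < δ
  d1 : δ ≤ 1
  ab : Ab D.k D.κd A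
  hA : ∀ w ∈ Icc (0 : ℝ) 1, ∀ t ∈ Icc (0 : ℝ) 1, A w t ≤ α t * (1 + w * γ t)
  a0 : ∀ t ∈ Icc (0 : ℝ) 1, 0 ≤ α t
  hγ : ∀ t ∈ Icc (0 : ℝ) 1, γ t ∈ Icc (0 : ℝ) 1
  le : ∀ t ∈ Icc (0 : ℝ) 1, α t * (1 + γ t / 3) ≤ 1 - δ

/-- the bound of the densities of the certified processes -/
def Dn (D : Da V) (x : Gr.edgeSet → ℝ) : Prop :=
  ∀ (h : ℝ → V ⊕ V → V ⊕ V → ℝ) (H : V ⊕ V → V ⊕ V → ℝ → ℝ) (t : ℝ),
    Cp D.T D.sl (xe x) (P0 V) (D.w x) h H t →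
    (∀ u v, ∀ r ∈ Icc 0 t, h r u v ≤ D.Z.hh (xe x) (P0 V) r u v) →
    (∀ u v, ∀ σ ∈ Icc 0 t, ∀ r ∈ Icc 0 σ,
      H u v σ - H u v r ≤ D.Z.Hh (xe x) (P0 V) σ u v r) →
    ∀ a b, P0 V a → P0 V b → a ≠ b → xe x a b ≠ 0 → ∀ d ∈ ({a, b} : Finset (V ⊕ V))ᶜ,
      xe x b d ≠ 0 → ∀ s ∈ Icc 0 t, RCM.Dens h t s a b d
        (D.κd (xe x a b + xe x a d) t s)

/-- the inequality of the centres -/
def TT (D : Da V) (x : Gr.edgeSet → ℝ) : Prop :=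
  ∀ a, P0 V a → ∀ t ∈ Icc (0 : ℝ) 1,
    ∑ b, xr (xe x) (P0 V) a b * D.w x a b t
      ≤ D.T.kt t * (∑ b, D.T.sT (xr (xe x) (P0 V) a b) - D.T.k1 * Qs (xe x) (P0 V) a)

/-- the inequality of the pairs -/
def PP (D : Da V) (x : Gr.edgeSet → ℝ) : Prop :=
  ∀ a b, P0 V a → P0 V b → a ≠ b → ∀ t ∈ Icc (0 : ℝ) 1,
    D.w x a b t ≤ D.T.kp t * ∑ d ∈ ({a, b} : Finset (V ⊕ V))ᶜ,
      (D.T.ka (xr (xe x) (P0 V) a d) / 2 + D.T.ka (xr (xe x) (P0 V) b d) / 2)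

/-- **the assembly**: closures of the cells, level 0 of single vertices, densities, the gap, and
the graph inequalities -/
theorem half_of_G {D : Da V} (hD : D.Ok) {x : Gr.edgeSet → ℝ} [Pool.Agent.RZ.RCG.CX x] (hx : IsFractionalMatching Gr x)
    (hC : Cls D.Z (xe x) (P0 V) D.C)
    (hL : ∀ a, P0 V a → ∀ t ∈ Icc (0 : ℝ) 1, ∃ mb Y' M M' : ℝ → ℝ,
      RCM.L0s (D.Z.hh (xe x) (P0 V)) (xe x) {a} t mb (fun _ => D.Th t) (D.Y t) Y' M M')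
    (hdens : Dn D x) {δ : ℝ} {A : ℝ → ℝ → ℝ} {α γ : ℝ → ℝ} (hG : Gp D δ A α γ) (hT : TT D x)
    (hP : PP D x) :
    ∃ S : Scheme Gr, ∀ e : Gr.edgeSet, S.selProb x e = x e / 2 := by
  have hw := wt_xe hx zero_le_one le_rfl fun e => (hx.1 e).2
  have kq := Dt.kq hD.T hD.k
  refine half_of_D hD hx hC hL hdens hG.d0 hG.d1 (fun a b d ha hb hd hab had hbd t ht => ?_) hT hP
  exact gap_of_A (Da.lf hD hx hC) hw (Dt.kf_ok hD.T hD.k) kq.fc hD.k.cPe hG.ab kq.ms hG.hA hG.a0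
    hG.hγ hG.le ha hb hd hab had hbd ht

/-- the two parts of the walk rate -/
theorem sum_wE {V : Type*} [Fintype V] [DecidableEq V] {x : V → V → ℝ} {P : V → Prop}
    [DecidablePred P] (hx : Wt x P 1) (fh : ℝ → ℝ → ℝ) (mb : ℝ → ℝ → ℝ → ℝ → ℝ)
    (E : V → V → V → ℝ → ℝ) (a : V) (t : ℝ) :
    ∑ b, xr x P a b * wE fh mb E x P a b t
      = ∑ b, xr x P a b * ∑ d ∈ ({a, b} : Finset V)ᶜ, wS fh mb E x P a b d t
        + ∑ b, xr x P a b * ∑ d ∈ ({a, b} : Finset V)ᶜ, wS fh mb E x P b a d t := by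
  rw [← Finset.sum_add_distrib]
  refine Finset.sum_congr rfl fun b _ => ?_
  by_cases h : P a ∧ P b ∧ a ≠ b
  · unfold wE
    rw [if_pos h, Finset.sum_add_distrib, mul_add]
  · have h0 : xr x P a b = 0 := by
      unfold xr
      split_ifs with h1
      · by_cases hab : a = b
        · subst hab; exact hx.diag a
        · exact absurd ⟨h1.1, h1.2, hab⟩ h
      · rfl
    rw [h0]
    ring

end Pool.Agent.RZ.RCN.K
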