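import Pool.Agent.RZ.RCM9.DatZ
import Pool.Agent.RZ.RCN.Ins
import Pool.Agent.RZ.RCN.Top

/-! The assembly with the polynomial data (MP_73ccd0_lc, route M). -/

namespace Pool.Agent.RZ.RCN.K

open Set Finset MeasureTheory Pool.Agent.RZ.RCRSHalf Pool.Agent.RZ.RCG Pool.Agent.RZ.RCG.Ct
open Pool.Agent.RZ.RCN.Ker Pool.Agent.RZ.RCRS Pool.Agent.RZ.RCM9 Pool.Agent.RZ.RCM9.Bern Pool.Agent.RZ.RCM9.Pk

set_option linter.unusedSectionVars false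

variable {V : Type} [Fintype V] [DecidableEq V]
variable {Gr : SimpleGraph V} [Fintype Gr.edgeSet] [DecidableEq Gr.edgeSet]

/-- **the assembly with the polynomial data** -/
theorem half_of_P {p : Ps} (hp : p.Ok) {x : Gr.edgeSet → ℝ} [Pool.Agent.RZ.RCG.CX x] (hx : IsFractionalMatching Gr x)
    {κd : ℝ → ℝ → ℝ → ℝ} {C : Cx (V ⊕ V)}
    (cκ : ∀ w, CN C.N (κd w))
    (κP : ∀ w ∈ Icc (0 : ℝ) 1, ∀ t s, 0 ≤ s → s ≤ t → t ≤ 1 → p.d.rPe w t ≤ κd w t s)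
    (hC : Cls p.z.hz (xe x) (P0 V) C)
    (hdens : Dn (p.da κd C) x) {δ : ℝ}
    {A : ℝ → ℝ → ℝ} {α γ : ℝ → ℝ}
    (hG : Gp (p.da κd C) δ A α γ) (hT : TT (p.da κd C) x)
    (hP : PP (p.da κd C) x) :
    ∃ S : Scheme Gr, ∀ e : Gr.edgeSet, S.selProb x e = x e / 2 := by
  have hw := wt_xe hx zero_le_one le_rfl fun e => (hx.1 e).2
  refine half_of_G (da_ok hp cκ κP) hx hC (fun a _ t ht => ?_) hdens hG hT hP
  obtain ⟨Y', M, M', h⟩ := YDat.sy1 (P := P0 V) (a := a) hp.y hp.z hp.d hw ht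
  exact ⟨_, Y', M, M', h⟩

end Pool.Agent.RZ.RCN.K
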